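import Pool.Agent.V1132.BranchAut

/-!
# The rigid stabilizers of the example have finite index
-/

set_option autoImplicit false

namespace Pool.Agent.V1132.BranchAut

open Classical in
/-- The part of `f` supported on the rays which agree with `w` on the first `N` letters. -/
noncomputable def res (N : ℕ) (w : X) (f : Equiv.Perm X) (hf : ∀ x, Agree N (f x) x) :
    Equiv.Perm X where
  toFun x := if Agree N x w then f x else x
  invFun x := if Agree N x w then f.symm x else x
  left_inv x := by
    by_cases h : Agree N x w
    · simp only [h, if_true]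
      rw [if_pos ((hf x).trans h), Equiv.symm_apply_apply]
    · simp only [h, if_false]
  right_inv x := by
    by_cases h : Agree N x w
    · simp only [h, if_true]
      have h1 := hf (f.symm x)
      rw [Equiv.apply_symm_apply] at h1
      rw [if_pos (h1.symm.trans h), Equiv.apply_symm_apply]
    · simp only [h, if_false]

theorem res_of_agree {N : ℕ} {w : X} {f : Equiv.Perm X} (hf : ∀ x, Agree N (f x) x) {x : X}
    (h : Agree N x w) : res N w f hf x = f x := if_pos h

theorem res_of_not {N : ℕ} {w : X} {f : Equiv.Perm X} (hf : ∀ x, Agree N (f x) x) {x : X}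
    (h : ¬ Agree N x w) : res N w f hf x = x := if_neg h

theorem res_agree {N : ℕ} {w : X} {f : Equiv.Perm X} (hf : ∀ x, Agree N (f x) x) (x : X) :
    Agree N (res N w f hf x) x := by
  by_cases h : Agree N x w
  · rw [res_of_agree hf h]; exact hf x
  · rw [res_of_not hf h]; exact fun _ _ => rfl

theorem res_mem {N : ℕ} (hN : 2 ≤ N) {w : X} {f : Equiv.Perm X} (hf : ∀ x, Agree N (f x) x)
    (hfM : f ∈ M) : res N w f hf ∈ M := by
  have key : ∀ x y n, Agree N x w → ¬ Agree N y w →
      (Agree n x y ↔ Agree n (res N w f hf x) (res N w f hf y)) := by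
    intro x y n hx hy
    rw [res_of_agree hf hx, res_of_not hf hy]
    rcases Nat.lt_or_ge n N with hn | hn
    · have h1 : Agree n (f x) x := (hf x).mono hn.le
      exact ⟨fun h => h1.trans h, fun h => h1.symm.trans h⟩
    · constructor
      · intro h
        exact absurd ((h.mono hn).symm.trans hx) hy
      · intro h
        exact absurd ((h.mono hn).symm.trans ((hf x).trans hx)) hy
  refine ⟨fun n x y => ?_, false, false, fun x => ?_⟩
  · by_cases hx : Agree N x w
    · by_cases hy : Agree N y w
      · rw [res_of_agree hf hx, res_of_agree hf hy]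
        exact agree_iff hfM n x y
      · exact key x y n hx hy
    · by_cases hy : Agree N y w
      · have := key y x n hy hx
        exact ⟨fun h => ((this.1 h.symm)).symm, fun h => (this.2 h.symm).symm⟩
      · rw [res_of_not hf hx, res_of_not hf hy]
  · have h := res_agree hf x (w := w)
    rw [h 0 (by lia), h 1 (by lia)]
    simp

/-- The subgroup generated by the rigid stabilizers of the vertices of level `n`. -/
def K (n : ℕ) : Subgroup (Equiv.Perm V) :=
  Subgroup.closure {g : Equiv.Perm V | g ∈ L ∧ ∃ u : V, u.1.length = n ∧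
    ∀ v : V, ¬ List.IsPrefix u.1 v.1 → g v = v}

theorem mem_K_of_support {n N : ℕ} (hN : 2 ≤ N) (hnN : n ≤ N) (w : X) {f : M}
    (hf : ∀ x, ¬ Agree N x w → (f : Equiv.Perm X) x = x)
    (hf' : ∀ x, Agree N ((f : Equiv.Perm X) x) x) : Psi f ∈ K n := by
  apply Subgroup.subset_closure
  refine ⟨⟨f, rfl⟩, pre w n, by simp, fun v hv => ?_⟩
  rw [Psi_apply, act]
  conv_rhs => rw [← pre_ext v]
  apply pre_congr
  by_cases h : Agree N (ext v) w
  · rcases Nat.lt_or_ge v.1.length n with h1 | h1
    · exact (hf' _).mono (by lia)
    · exfalso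
      apply hv
      rw [prefix_iff]
      rw [length_pre]
      refine ⟨h1, (ext_pre w n).trans (h.mono hnN).symm⟩
  · rw [hf _ h]
    exact fun _ _ => rfl

theorem mem_K_of_finset {n N : ℕ} (hN : 2 ≤ N) (hnN : n ≤ N) (S : Finset X) :
    ∀ f : M, (∀ x, Agree N ((f : Equiv.Perm X) x) x) →
      (∀ x, (∀ w ∈ S, ¬ Agree N x w) → (f : Equiv.Perm X) x = x) → Psi f ∈ K n := by
  classical
  induction S using Finset.induction_on with
  | empty =>
    intro f _ hf
    have : f = 1 := by
      apply Subtype.ext
      apply Equiv.ext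
      intro x
      exact hf x (by simp)
    rw [this, map_one]
    exact Subgroup.one_mem _
  | insert w S _ ih =>
    intro f hf1 hf2
    set g : M := ⟨res N w f hf1, res_mem hN hf1 f.2⟩ with hg
    have hgK : Psi g ∈ K n := by
      refine mem_K_of_support hN hnN w (fun x hx => res_of_not hf1 hx) (fun x => res_agree hf1 x)
    have hginv : ∀ x, ¬ Agree N x w → ((g⁻¹ : M) : Equiv.Perm X) x = x := by
      intro x hx
      change (res N w f hf1).symm x = x
      rw [Equiv.symm_apply_eq, res_of_not hf1 hx]
    have hf' : ∀ x, Agree N x w → ((g⁻¹ * f : M) : Equiv.Perm X) x = x := by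
      intro x hx
      change (res N w f hf1).symm ((f : Equiv.Perm X) x) = x
      rw [Equiv.symm_apply_eq, res_of_agree hf1 hx]
    have hf'' : ∀ x, ¬ Agree N x w → ((g⁻¹ * f : M) : Equiv.Perm X) x = (f : Equiv.Perm X) x := by
      intro x hx
      change ((g⁻¹ : M) : Equiv.Perm X) ((f : Equiv.Perm X) x) = _
      apply hginv
      intro h
      exact hx ((hf1 x).symm.trans h)
    have h1 : Psi (g⁻¹ * f) ∈ K n := by
      apply ih
      · intro x
        by_cases hx : Agree N x w
        · rw [hf' x hx]; exact fun _ _ => rfl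
        · rw [hf'' x hx]; exact hf1 x
      · intro x hx
        by_cases hxw : Agree N x w
        · exact hf' x hxw
        · rw [hf'' x hxw]
          apply hf2
          intro w' hw'
          rw [Finset.mem_insert] at hw'
          rcases hw' with rfl | hw'
          · exact hxw
          · exact hx w' hw'
    have h2 : f = g * (g⁻¹ * f) := by group
    rw [h2, map_mul]
    exact Subgroup.mul_mem _ hgK h1

theorem mem_K {n N : ℕ} (hN : 2 ≤ N) (hnN : n ≤ N) (f : M)
    (hf : ∀ x, Agree N ((f : Equiv.Perm X) x) x) : Psi f ∈ K n := by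
  classical
  refine mem_K_of_finset hN hnN ((Finset.univ : Finset (Fin N → Bool)).image
    (fun (y : Fin N → Bool) (i : ℕ) => if h : i < N then y ⟨i, h⟩ else false)) f hf
    (fun x hx => ?_)
  exfalso
  refine hx _ (Finset.mem_image_of_mem _ (Finset.mem_univ (fun i : Fin N => x i))) ?_
  intro i hi
  simp [hi]

theorem length_of_mem {g : Equiv.Perm V} (hg : g ∈ L) (v : V) :
    (g v).1.length = v.1.length := by
  obtain ⟨f, rfl⟩ := hg
  exact length_act _ _

/-- The action on the vertices of level `N`. -/
noncomputable def levelHom (N : ℕ) : L →* Equiv.Perm {v : V // v.1.length = N} where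
  toFun g := (g : Equiv.Perm V).subtypePerm (fun v => by rw [length_of_mem g.2])
  map_one' := by
    apply Equiv.ext
    intro v
    rfl
  map_mul' g h := by
    apply Equiv.ext
    intro v
    rfl

theorem finite_level (N : ℕ) : Finite {v : V // v.1.length = N} := by
  apply Finite.of_injective (β := Fin N → Bool) (fun v i => ext v.1 i)
  intro v w h
  apply Subtype.ext
  apply vertex_ext (v.2.trans w.2.symm)
  intro i hi
  rw [v.2] at hi
  exact congrFun h ⟨i, hi⟩

theorem index_ne_zero (n : ℕ) : ((K n).subgroupOf L).index ≠ 0 := by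
  set N := max n 2 with hN
  have := finite_level N
  have : Finite (levelHom N).range := inferInstance
  have h1 : (levelHom N).ker.FiniteIndex := inferInstance
  have h2 : (levelHom N).ker ≤ (K n).subgroupOf L := by
    rintro ⟨_, f, rfl⟩ hg
    rw [MonoidHom.mem_ker] at hg
    rw [Subgroup.mem_subgroupOf]
    change Psi f ∈ K n
    apply mem_K (N := N) (le_max_right _ _) (le_max_left _ _)
    intro x
    have h3 := congrArg (fun e => (e ⟨pre x N, length_pre x N⟩ : {v : V // v.1.length = N}).1) hg
    have h4 : act (f : Equiv.Perm X) (pre x N) = pre x N := h3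
    have h5 : act (f : Equiv.Perm X) (pre x N) = pre ((f : Equiv.Perm X) x) N := by
      rw [act, length_pre]
      apply pre_congr
      rw [← agree_iff f.2]
      exact ext_pre _ _
    rw [h5] at h4
    exact agree_of_pre h4
  exact (Subgroup.finiteIndex_of_le h2).index_ne_zero

theorem prefix_L (g : Equiv.Perm V) (hg : g ∈ L) (v w : V) :
    List.IsPrefix v.1 w.1 ↔ List.IsPrefix (g v).1 (g w).1 := by
  obtain ⟨f, rfl⟩ := hg
  exact prefix_act f v w

theorem transitive_L (v w : V) (h : v.1.length = w.1.length) : ∃ g ∈ L, g v = w := by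
  obtain ⟨f, hf⟩ := transitive v w h
  exact ⟨Psi f, ⟨f, rfl⟩, hf⟩

end Pool.Agent.V1132.BranchAut
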