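import Mathlib

/-!
# A branch group with an automorphism not induced by a tree automorphism
-/

set_option autoImplicit false

namespace Pool.Agent.V1132.BranchAut

/-- The boundary of the binary tree. -/
abbrev X := ℕ → Bool

/-- The vertices of the binary tree. -/
abbrev V := {l : List ℕ // ∀ i (h : i < l.length), l.get ⟨i, h⟩ < 2}

/-- Agreement on the first `n` letters. -/
def Agree (n : ℕ) (x y : X) : Prop := ∀ i < n, x i = y i

theorem Agree.mono {m n : ℕ} {x y : X} (h : Agree n x y) (hmn : m ≤ n) : Agree m x y :=
  fun i hi => h i (hi.trans_le hmn)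

theorem Agree.symm {n : ℕ} {x y : X} (h : Agree n x y) : Agree n y x := fun i hi => (h i hi).symm

theorem Agree.trans {n : ℕ} {x y z : X} (h : Agree n x y) (h' : Agree n y z) : Agree n x z :=
  fun i hi => (h i hi).trans (h' i hi)

/-- The ray which follows `v` and then is constant. -/
def ext (v : V) : X := fun i => decide (v.1.getD i 0 = 1)

/-- The vertex of level `n` on a ray. -/
def pre (x : X) (n : ℕ) : V := ⟨List.ofFn (fun i : Fin n => if x i then 1 else 0), by
  intro i h
  rw [List.get_ofFn]
  split_ifs <;> norm_num⟩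

@[simp] theorem length_pre (x : X) (n : ℕ) : (pre x n).1.length = n := by simp [pre]

theorem ext_of_lt {v : V} {i : ℕ} (h : i < v.1.length) : ext v i = decide (v.1[i] = 1) := by
  rw [ext, List.getD_eq_getElem _ _ h]

theorem letter_iff {v w : V} {i : ℕ} (hv : i < v.1.length) (hw : i < w.1.length) :
    v.1[i] = w.1[i] ↔ ext v i = ext w i := by
  rw [ext_of_lt hv, ext_of_lt hw]
  have h1 : v.1[i] < 2 := v.2 i hv
  have h2 : w.1[i] < 2 := w.2 i hw
  constructor
  · intro h; rw [h]
  · intro h
    rw [decide_eq_decide] at h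
    lia

theorem prefix_iff (v w : V) :
    List.IsPrefix v.1 w.1 ↔ v.1.length ≤ w.1.length ∧ Agree v.1.length (ext v) (ext w) := by
  rw [List.prefix_iff_getElem]
  constructor
  · rintro ⟨h, h'⟩
    exact ⟨h, fun i hi => (letter_iff hi (hi.trans_le h)).1 (h' i hi)⟩
  · rintro ⟨h, h'⟩
    exact ⟨h, fun i hi => (letter_iff hi (hi.trans_le h)).2 (h' i hi)⟩

theorem ext_pre (x : X) (n : ℕ) : Agree n (ext (pre x n)) x := by
  intro i hi
  rw [ext_of_lt (by simpa using hi)]
  simp [pre]

theorem vertex_ext {v w : V} (hl : v.1.length = w.1.length)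
    (h : Agree v.1.length (ext v) (ext w)) : v = w := by
  apply Subtype.ext
  have h1 : v.1 <+: w.1 := (prefix_iff v w).2 ⟨hl.le, h⟩
  exact h1.eq_of_length hl

theorem pre_ext (v : V) : pre (ext v) v.1.length = v := by
  apply vertex_ext (by simp)
  rw [length_pre]
  exact ext_pre _ _

theorem pre_congr {x y : X} {n : ℕ} (h : Agree n x y) : pre x n = pre y n := by
  apply vertex_ext (by simp)
  rw [length_pre]
  exact ((ext_pre x n).trans h).trans (ext_pre y n).symm

theorem agree_of_pre {x y : X} {n : ℕ} (h : pre x n = pre y n) : Agree n x y := by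
  refine (ext_pre x n).symm.trans ?_
  rw [h]
  exact ext_pre y n

/-- The isometries of the boundary acting on the second level by translations. -/
def M : Subgroup (Equiv.Perm X) where
  carrier := {f | (∀ n x y, Agree n x y ↔ Agree n (f x) (f y)) ∧
    ∃ s t : Bool, ∀ x, f x 0 = xor (x 0) s ∧ f x 1 = xor (x 1) t}
  one_mem' := ⟨fun _ _ _ => Iff.rfl, false, false, fun x => by simp⟩
  mul_mem' := by
    rintro f g ⟨hf, s, t, hf'⟩ ⟨hg, s', t', hg'⟩
    refine ⟨fun n x y => (hg n x y).trans (hf n _ _), xor s' s, xor t' t, fun x => ?_⟩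
    rw [Equiv.Perm.mul_apply, (hf' _).1, (hf' _).2, (hg' _).1, (hg' _).2]
    simp
  inv_mem' := by
    rintro f ⟨hf, s, t, hf'⟩
    refine ⟨fun n x y => ?_, s, t, fun x => ?_⟩
    · rw [hf n (f⁻¹ x) (f⁻¹ y), Equiv.Perm.inv_def, Equiv.apply_symm_apply, Equiv.apply_symm_apply]
    · have h := hf' (f⁻¹ x)
      rw [Equiv.Perm.inv_def, Equiv.apply_symm_apply] at h
      rw [Equiv.Perm.inv_def, h.1, h.2]
      simp

theorem agree_iff {f : Equiv.Perm X} (hf : f ∈ M) (n : ℕ) (x y : X) :
    Agree n x y ↔ Agree n (f x) (f y) := hf.1 n x y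

/-- The action of an isometry on a vertex. -/
def act (f : Equiv.Perm X) (v : V) : V := pre (f (ext v)) v.1.length

@[simp] theorem length_act (f : Equiv.Perm X) (v : V) : (act f v).1.length = v.1.length := by
  simp [act]

theorem act_one (v : V) : act 1 v = v := pre_ext v

theorem act_mul {f g : Equiv.Perm X} (hf : f ∈ M) (v : V) : act (f * g) v = act f (act g v) := by
  have h1 : act f (act g v) = pre (f (ext (act g v))) v.1.length := by
    rw [act, length_act]
  rw [h1]
  apply pre_congr
  rw [Equiv.Perm.mul_apply, ← agree_iff hf]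
  exact (ext_pre _ _).symm

/-- The action of `M` on the vertices. -/
def Psi : M →* Equiv.Perm V where
  toFun f :=
    { toFun := act f
      invFun := act (f⁻¹ : M)
      left_inv := by
        intro v
        rw [← act_mul (f⁻¹ : M).2, ← Subgroup.coe_mul, inv_mul_cancel]
        exact act_one v
      right_inv := by
        intro v
        rw [← act_mul f.2, ← Subgroup.coe_mul, mul_inv_cancel]
        exact act_one v }
  map_one' := by
    apply Equiv.ext
    intro v
    exact act_one v
  map_mul' f g := by
    apply Equiv.ext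
    intro v
    exact act_mul f.2 v

theorem Psi_apply (f : M) (v : V) : Psi f v = act f v := rfl

theorem Psi_injective : Function.Injective Psi := by
  rw [injective_iff_map_eq_one]
  intro f hf
  apply Subtype.ext
  apply Equiv.ext
  intro x
  funext i
  have h1 : act (f : Equiv.Perm X) (pre x (i + 1)) = pre x (i + 1) := by
    rw [← Psi_apply, hf]; rfl
  have h2 : act (f : Equiv.Perm X) (pre x (i + 1)) = pre ((f : Equiv.Perm X) x) (i + 1) := by
    rw [act, length_pre]
    apply pre_congr
    rw [← agree_iff f.2]
    exact ext_pre _ _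
  rw [h2] at h1
  exact agree_of_pre h1 i (Nat.lt_succ_self i)

theorem prefix_act (f : M) (v w : V) :
    List.IsPrefix v.1 w.1 ↔ List.IsPrefix (Psi f v).1 (Psi f w).1 := by
  rw [Psi_apply, Psi_apply, prefix_iff, prefix_iff, length_act, length_act]
  constructor
  · rintro ⟨h, h'⟩
    refine ⟨h, ?_⟩
    refine (ext_pre _ _).trans (Agree.trans ?_ ((ext_pre _ _).mono h).symm)
    rwa [← agree_iff f.2]
  · rintro ⟨h, h'⟩
    refine ⟨h, ?_⟩
    rw [agree_iff f.2]
    refine (ext_pre _ _).symm.trans (h'.trans ((ext_pre _ _).mono h))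

/-- Translation of the boundary. -/
def trans (c : X) : Equiv.Perm X where
  toFun x i := xor (x i) (c i)
  invFun x i := xor (x i) (c i)
  left_inv x := by funext i; simp
  right_inv x := by funext i; simp

theorem trans_mem (c : X) : trans c ∈ M := by
  refine ⟨fun n x y => ?_, c 0, c 1, fun x => ⟨rfl, rfl⟩⟩
  constructor
  · intro h i hi
    change xor (x i) (c i) = xor (y i) (c i)
    rw [h i hi]
  · intro h i hi
    have h1 : xor (x i) (c i) = xor (y i) (c i) := h i hi
    simpa using h1

theorem transitive (v w : V) (h : v.1.length = w.1.length) : ∃ f : M, Psi f v = w := by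
  refine ⟨⟨trans (fun i => xor (ext v i) (ext w i)), trans_mem _⟩, ?_⟩
  rw [Psi_apply, act]
  have h1 : trans (fun i => xor (ext v i) (ext w i)) (ext v) = ext w := by
    funext i
    change xor (ext v i) (xor (ext v i) (ext w i)) = ext w i
    simp
  change pre (trans (fun i => xor (ext v i) (ext w i)) (ext v)) _ = w
  rw [h1, h]
  exact pre_ext w

/-- Interchanging the first two letters. -/
def hswap : Equiv.Perm X where
  toFun x i := x (Equiv.swap 0 1 i)
  invFun x i := x (Equiv.swap 0 1 i)
  left_inv x := by funext i; simp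
  right_inv x := by funext i; simp

theorem hswap_apply (x : X) (i : ℕ) : hswap x i = x (Equiv.swap 0 1 i) := rfl

theorem hswap_zero (x : X) : hswap x 0 = x 1 := rfl
theorem hswap_one (x : X) : hswap x 1 = x 0 := rfl
theorem hswap_ge (x : X) {i : ℕ} (h : 2 ≤ i) : hswap x i = x i := by
  rw [hswap_apply, Equiv.swap_apply_of_ne_of_ne (by lia) (by lia)]

theorem hswap_hswap : hswap * hswap = 1 := by
  apply Equiv.ext
  intro x
  funext i
  change x (Equiv.swap 0 1 (Equiv.swap 0 1 i)) = x i
  simp

theorem hswap_agree {n : ℕ} (hn : 2 ≤ n) {x y : X} (h : Agree n x y) :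
    Agree n (hswap x) (hswap y) := by
  intro i hi
  rcases Nat.lt_or_ge i 2 with h2 | h2
  · interval_cases i
    · rw [hswap_zero, hswap_zero]; exact h 1 (by lia)
    · rw [hswap_one, hswap_one]; exact h 0 (by lia)
  · rw [hswap_ge _ h2, hswap_ge _ h2]; exact h i hi

theorem hswap_agree_iff {n : ℕ} (hn : 2 ≤ n) {x y : X} :
    Agree n (hswap x) (hswap y) ↔ Agree n x y := by
  refine ⟨fun h => ?_, hswap_agree hn⟩
  have h1 := hswap_agree hn h
  have h2 : ∀ x, hswap (hswap x) = x := fun x => by
    have := congrArg (fun g : Equiv.Perm X => g x) hswap_hswap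
    exact this
  rwa [h2, h2] at h1

theorem conj_mem {f : Equiv.Perm X} (hf : f ∈ M) : hswap * f * hswap ∈ M := by
  obtain ⟨h1, s, t, h2⟩ := hf
  refine ⟨fun n x y => ?_, t, s, fun x => ⟨?_, ?_⟩⟩
  · rcases Nat.lt_or_ge n 2 with hn | hn
    · interval_cases n
      · exact ⟨fun _ i hi => absurd hi (Nat.not_lt_zero i), fun _ i hi => absurd hi (Nat.not_lt_zero i)⟩
      · have key : ∀ x, (hswap * f * hswap) x 0 = xor (x 0) t := by
          intro x
          change hswap (f (hswap x)) 0 = _
          rw [hswap_zero, (h2 _).2, hswap_one]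
        constructor
        · intro h i hi
          have hi0 : i = 0 := by lia
          subst hi0
          rw [key, key, h 0 hi]
        · intro h i hi
          have hi0 : i = 0 := by lia
          subst hi0
          have := h 0 hi
          rw [key, key] at this
          simpa using this
    · change _ ↔ Agree n (hswap (f (hswap x))) (hswap (f (hswap y)))
      rw [hswap_agree_iff hn, ← h1, hswap_agree_iff hn]
  · change hswap (f (hswap x)) 0 = _
    rw [hswap_zero, (h2 _).2, hswap_one]
  · change hswap (f (hswap x)) 1 = _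
    rw [hswap_one, (h2 _).1, hswap_zero]

/-- The automorphism of `M`. -/
def phiM : M ≃* M where
  toFun f := ⟨hswap * f * hswap, conj_mem f.2⟩
  invFun f := ⟨hswap * f * hswap, conj_mem f.2⟩
  left_inv f := by
    apply Subtype.ext
    change hswap * (hswap * f * hswap) * hswap = (f : Equiv.Perm X)
    have : hswap * (hswap * f * hswap) * hswap = (hswap * hswap) * f * (hswap * hswap) := by group
    rw [this, hswap_hswap, one_mul, mul_one]
  right_inv f := by
    apply Subtype.ext
    change hswap * (hswap * f * hswap) * hswap = (f : Equiv.Perm X)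
    have : hswap * (hswap * f * hswap) * hswap = (hswap * hswap) * f * (hswap * hswap) := by group
    rw [this, hswap_hswap, one_mul, mul_one]
  map_mul' f g := by
    apply Subtype.ext
    change hswap * (f * g : Equiv.Perm X) * hswap = (hswap * f * hswap) * (hswap * g * hswap)
    have : (hswap * f * hswap) * (hswap * g * hswap) = hswap * f * (hswap * hswap) * g * hswap := by
      group
    rw [this, hswap_hswap, mul_one]
    group

/-- The image of `M` in the permutations of the vertices. -/
def L : Subgroup (Equiv.Perm V) := Psi.range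

/-- The group `M` is isomorphic to its image. -/
noncomputable def eqv : M ≃* L := MonoidHom.ofInjective Psi_injective

theorem eqv_coe (f : M) : ((eqv f : L) : Equiv.Perm V) = Psi f := rfl

/-- The automorphism of `L`. -/
noncomputable def phi : L ≃* L := (eqv.symm.trans phiM).trans eqv

theorem phi_apply (f : M) : phi (eqv f) = eqv (phiM f) := by
  change eqv (phiM (eqv.symm (eqv f))) = _
  rw [eqv.symm_apply_apply]

/-- The flip of the `k`-th letter. -/
def flipM (k : ℕ) : M := ⟨trans (fun i => decide (i = k)), trans_mem _⟩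

theorem phiM_flip : phiM (flipM 1) = flipM 0 := by
  apply Subtype.ext
  apply Equiv.ext
  intro x
  funext i
  change hswap (trans (fun i => decide (i = 1)) (hswap x)) i = xor (x i) (decide (i = 0))
  rcases Nat.lt_or_ge i 2 with h2 | h2
  · interval_cases i
    · rw [hswap_zero]
      change xor (hswap x 1) (decide (1 = 1)) = _
      rw [hswap_one]; simp
    · rw [hswap_one]
      change xor (hswap x 0) (decide (0 = 1)) = _
      rw [hswap_zero]; simp
  · rw [hswap_ge _ h2]
    change xor (hswap x i) (decide (i = 1)) = _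
    rw [hswap_ge _ h2]
    have h3 : i ≠ 1 := by lia
    have h4 : i ≠ 0 := by lia
    simp [h3, h4]

/-- The root. -/
def root : V := pre (fun _ => false) 0

/-- A vertex of level one. -/
def v0 : V := pre (fun _ => false) 1

theorem root_prefix (v : V) : List.IsPrefix root.1 v.1 := by
  rw [prefix_iff]
  simp only [root, length_pre]
  exact ⟨Nat.zero_le _, fun i hi => absurd hi (Nat.not_lt_zero i)⟩

theorem eq_root {v : V} (h : v.1.length = 0) : v = root := by
  apply vertex_ext
  · rw [h, root, length_pre]
  · rw [h]; exact fun i hi => absurd hi (Nat.not_lt_zero i)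

theorem flip_zero_fix {v : V} (h : Psi (flipM 0) v = v) : v = root := by
  by_contra hne
  have hpos : 0 < v.1.length := by
    rcases Nat.eq_zero_or_pos v.1.length with h0 | h0
    · exact absurd (eq_root h0) hne
    · exact h0
  rw [Psi_apply, act] at h
  nth_rewrite 3 [← pre_ext v] at h
  have h1 := agree_of_pre h 0 hpos
  change xor (ext v 0) (decide (0 = 0)) = ext v 0 at h1
  simp at h1

theorem flip_one_fix : Psi (flipM 1) v0 = v0 := by
  rw [Psi_apply, act]
  have : v0.1.length = 1 := by simp [v0]
  rw [this]
  nth_rewrite 2 [v0]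
  apply pre_congr
  intro i hi
  have hi0 : i = 0 := by lia
  subst hi0
  change xor (ext v0 0) (decide (0 = 1)) = false
  have := ext_pre (fun _ => false) 1 0 (by norm_num)
  rw [v0, this]
  rfl

theorem no_sigma (σ : Equiv.Perm V)
    (h : ∀ v w : V, (List.IsPrefix v.1 w.1 ↔ List.IsPrefix (σ v).1 (σ w).1))
    (h' : ∀ g : L, ((phi g : L) : Equiv.Perm V) = σ * (g : Equiv.Perm V) * σ⁻¹) : False := by
  have h1 := h' (eqv (flipM 1))
  rw [phi_apply, phiM_flip, eqv_coe, eqv_coe] at h1
  have h2 : Psi (flipM 0) (σ v0) = σ v0 := by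
    rw [h1]
    change σ (Psi (flipM 1) (σ.symm (σ v0))) = σ v0
    rw [Equiv.symm_apply_apply, flip_one_fix]
  have h3 := flip_zero_fix h2
  have h4 : σ root = root := by
    obtain ⟨u, hu⟩ := σ.surjective root
    have h5 := (h root u).1 (root_prefix u)
    rw [hu, prefix_iff] at h5
    apply eq_root
    have h6 : root.1.length = 0 := by simp [root]
    lia
  have h5 : v0 = root := σ.injective (h3.trans h4.symm)
  have h6 : v0.1.length = 1 := by simp [v0]
  rw [h5] at h6
  simp [root] at h6

end Pool.Agent.V1132.BranchAut
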