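import Pool.Agent.V1132.BranchMaxDef

/-!
# Wreath recursion
-/

set_option autoImplicit false

namespace Pool.Agent.V1132.BranchMax

variable {d : ℕ}

/-- The automorphism with root permutation `σ` and sections `s`. -/
def mk (σ : Equiv.Perm (Fin d)) (s : Fin d → Equiv.Perm (List (Fin d))) :
    Equiv.Perm (List (Fin d)) where
  toFun w := match w with
    | [] => []
    | x :: w => σ x :: s x w
  invFun w := match w with
    | [] => []
    | x :: w => σ.symm x :: (s (σ.symm x)).symm w
  left_inv w := by
    cases w with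
    | nil => rfl
    | cons x w => simp
  right_inv w := by
    cases w with
    | nil => rfl
    | cons x w => simp

@[simp] theorem mk_nil (σ : Equiv.Perm (Fin d)) (s : Fin d → Equiv.Perm (List (Fin d))) :
    mk σ s [] = [] := rfl

@[simp] theorem mk_cons (σ : Equiv.Perm (Fin d)) (s : Fin d → Equiv.Perm (List (Fin d)))
    (x : Fin d) (w : List (Fin d)) : mk σ s (x :: w) = σ x :: s x w := rfl

theorem mk_mul (σ τ : Equiv.Perm (Fin d)) (s t : Fin d → Equiv.Perm (List (Fin d))) :
    mk σ s * mk τ t = mk (σ * τ) (fun x => s (τ x) * t x) := by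
  apply Equiv.ext
  intro w
  cases w with
  | nil => rfl
  | cons x w => rfl

theorem mk_one : mk (1 : Equiv.Perm (Fin d)) (fun _ => 1) = 1 := by
  apply Equiv.ext
  intro w
  cases w with
  | nil => rfl
  | cons x w => rfl

theorem mk_inv (σ : Equiv.Perm (Fin d)) (s : Fin d → Equiv.Perm (List (Fin d))) :
    (mk σ s)⁻¹ = mk σ⁻¹ (fun x => (s (σ⁻¹ x))⁻¹) := by
  rw [inv_eq_iff_mul_eq_one, mk_mul, ← mk_one]
  congr 1
  · simp
  · funext x
    have : σ (σ⁻¹ x) = x := σ.apply_symm_apply x
    simp

theorem mk_inj {σ τ : Equiv.Perm (Fin d)} {s t : Fin d → Equiv.Perm (List (Fin d))}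
    (h : mk σ s = mk τ t) : σ = τ ∧ s = t := by
  have h1 : ∀ x w, mk σ s (x :: w) = mk τ t (x :: w) := fun x w => by rw [h]
  constructor
  · apply Equiv.ext
    intro x
    have := h1 x []
    rw [mk_cons, mk_cons] at this
    exact (List.cons.inj this).1
  · funext x
    apply Equiv.ext
    intro w
    have := h1 x w
    rw [mk_cons, mk_cons] at this
    exact (List.cons.inj this).2

/-- The homomorphism given by the sections. -/
def iota : (Fin d → Equiv.Perm (List (Fin d))) →* Equiv.Perm (List (Fin d)) where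
  toFun s := mk 1 s
  map_one' := mk_one
  map_mul' s t := by rw [mk_mul]; rfl

/-- The automorphism acting as `g` below the vertex `x` of the first layer. -/
def at1 (x : Fin d) : Equiv.Perm (List (Fin d)) →* Equiv.Perm (List (Fin d)) :=
  iota.comp (MonoidHom.mulSingle (fun _ => Equiv.Perm (List (Fin d))) x)

theorem at1_def (x : Fin d) (g : Equiv.Perm (List (Fin d))) :
    at1 x g = mk 1 (Pi.mulSingle x g) := rfl

/-- The rooted automorphism. -/
def rooted (σ : Equiv.Perm (Fin d)) : Equiv.Perm (List (Fin d)) := mk σ (fun _ => 1)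

theorem rooted_mul (σ τ : Equiv.Perm (Fin d)) : rooted (σ * τ) = rooted σ * rooted τ := by
  rw [rooted, rooted, rooted, mk_mul]
  simp

theorem rooted_one : rooted (1 : Equiv.Perm (Fin d)) = 1 := mk_one

theorem rooted_inv (σ : Equiv.Perm (Fin d)) : rooted σ⁻¹ = (rooted σ)⁻¹ := by
  rw [rooted, rooted, mk_inv]
  simp

theorem rooted_inj {σ τ : Equiv.Perm (Fin d)} (h : rooted σ = rooted τ) : σ = τ := (mk_inj h).1

theorem mk_eq (σ : Equiv.Perm (Fin d)) (s : Fin d → Equiv.Perm (List (Fin d))) :
    mk σ s = rooted σ * iota s := by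
  change _ = mk σ (fun _ => 1) * mk 1 s
  rw [mk_mul]
  simp

theorem conj_at1 (σ : Equiv.Perm (Fin d)) (s : Fin d → Equiv.Perm (List (Fin d))) (x : Fin d)
    (g : Equiv.Perm (List (Fin d))) :
    mk σ s * at1 x g * (mk σ s)⁻¹ = at1 (σ x) (s x * g * (s x)⁻¹) := by
  rw [mul_inv_eq_iff_eq_mul, at1_def, at1_def, mk_mul, mk_mul]
  congr 1
  funext y
  by_cases hy : y = x
  · subst hy
    simp
  · have h1 : σ y ≠ σ x := fun h => hy (σ.injective h)
    simp [Pi.mulSingle_eq_of_ne hy, Pi.mulSingle_eq_of_ne h1]

theorem conj_rooted (σ : Equiv.Perm (Fin d)) (x : Fin d) (g : Equiv.Perm (List (Fin d))) :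
    rooted σ * at1 x g * (rooted σ)⁻¹ = at1 (σ x) g := by
  have := conj_at1 σ (fun _ => 1) x g
  simpa [rooted] using this

theorem iota_mem {M : Subgroup (Equiv.Perm (List (Fin d)))}
    {s : Fin d → Equiv.Perm (List (Fin d))} (h : ∀ x, at1 x (s x) ∈ M) : iota s ∈ M := by
  have : s ∈ M.comap iota := by
    apply Subgroup.pi_mem_of_mulSingle_mem
    intro x
    exact h x
  exact this

theorem at1_comm {x y : Fin d} (hxy : x ≠ y) (g h : Equiv.Perm (List (Fin d))) :
    at1 x g * at1 y h = at1 y h * at1 x g := by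
  rw [at1_def, at1_def, mk_mul, mk_mul]
  congr 1
  funext z
  by_cases hz : z = x
  · subst hz
    simp [Pi.mulSingle_eq_of_ne hxy]
  · simp [Pi.mulSingle_eq_of_ne hz]

/-- The automorphism acting as `g` below the vertex `u`. -/
def atw : List (Fin d) → Equiv.Perm (List (Fin d)) → Equiv.Perm (List (Fin d))
  | [], g => g
  | x :: u, g => at1 x (atw u g)

@[simp] theorem atw_nil (g : Equiv.Perm (List (Fin d))) : atw [] g = g := rfl
@[simp] theorem atw_cons (x : Fin d) (u : List (Fin d)) (g : Equiv.Perm (List (Fin d))) :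
    atw (x :: u) g = at1 x (atw u g) := rfl

theorem at1_cons_self (x : Fin d) (g : Equiv.Perm (List (Fin d))) (w : List (Fin d)) :
    at1 x g (x :: w) = x :: g w := by
  rw [at1_def, mk_cons]
  simp

theorem at1_cons_of_ne {x y : Fin d} (h : y ≠ x) (g : Equiv.Perm (List (Fin d)))
    (w : List (Fin d)) : at1 x g (y :: w) = y :: w := by
  rw [at1_def, mk_cons]
  simp [Pi.mulSingle_eq_of_ne h]

theorem at1_nil (x : Fin d) (g : Equiv.Perm (List (Fin d))) : at1 x g [] = [] := rfl

theorem at1_injective (x : Fin d) {g h : Equiv.Perm (List (Fin d))} (hgh : at1 x g = at1 x h) :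
    g = h := by
  have := (mk_inj hgh).2
  have := congrFun this x
  simpa using this

/-! ### Tree automorphisms -/

theorem mk_mem_treeAut {σ : Equiv.Perm (Fin d)} {s : Fin d → Equiv.Perm (List (Fin d))}
    (hs : ∀ x, s x ∈ TreeAut d) : mk σ s ∈ TreeAut d := by
  refine ⟨fun w => ?_, fun u v => ?_⟩
  · cases w with
    | nil => rfl
    | cons x w =>
      rw [mk_cons, List.length_cons, List.length_cons, (hs x).1]
  · cases u with
    | nil => simp
    | cons x u =>
      cases v with
      | nil => simp
      | cons y v =>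
        rw [mk_cons, mk_cons, List.cons_prefix_cons, List.cons_prefix_cons]
        constructor
        · rintro ⟨h1, h2⟩
          have h3 := σ.injective h1
          subst h3
          exact ⟨rfl, ((hs x).2 u v).1 h2⟩
        · rintro ⟨rfl, h2⟩
          exact ⟨rfl, ((hs x).2 u v).2 h2⟩

theorem rooted_mem_treeAut (σ : Equiv.Perm (Fin d)) : rooted σ ∈ TreeAut d :=
  mk_mem_treeAut (fun _ => Subgroup.one_mem _)

theorem mem_rist {G : Subgroup (Equiv.Perm (List (Fin d)))} {g : Equiv.Perm (List (Fin d))}
    {v : List (Fin d)} (hG : g ∈ G) (hT : g ∈ TreeAut d) (h : ∀ w, ¬ v <+: w → g w = w) :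
    g ∈ rist G v := by
  have key : ∀ u : List (Fin d), u.length = v.length → u ≠ v → ∀ w, g (u ++ w) = u ++ w := by
    intro u hu huv w
    apply h
    intro hp
    apply huv
    have h1 : v <+: u := by
      rw [List.prefix_iff_eq_take] at hp
      rw [hp, ← hu, List.take_left']
      rfl
    exact (h1.eq_of_length hu.symm).symm
  refine ⟨hG, fun u hu => ?_, key⟩
  by_cases huv : u = v
  · subst huv
    by_contra hne
    have h1 : (g u).length = u.length := hT.1 u
    have h2 := key (g u) h1 hne []
    rw [List.append_nil] at h2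
    exact hne (g.injective h2)
  · have := key u hu huv []
    rwa [List.append_nil] at this

theorem relIndex_ne_zero_of_layer {G R : Subgroup (Equiv.Perm (List (Fin d)))} (hG : G ≤ TreeAut d)
    (n : ℕ) (h : ∀ g ∈ G, (∀ w : List (Fin d), w.length = n → g w = w) → g ∈ R) :
    R.relIndex G ≠ 0 := by
  let φ : G →* Equiv.Perm {w : List (Fin d) // w.length = n} :=
    { toFun := fun g => (g : Equiv.Perm (List (Fin d))).subtypePerm
        (fun w => by rw [(hG g.2).1 w])
      map_one' := by ext; rfl
      map_mul' := fun f g => by ext; rfl }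
  have h1 : Finite {w : List (Fin d) // w.length = n} :=
    Finite.of_equiv (List.Vector (Fin d) n) (Equiv.refl _)
  have h2 : Finite φ.range := inferInstance
  have h3 : φ.ker.FiniteIndex := inferInstance
  have h4 : φ.ker ≤ R.subgroupOf G := by
    intro g hg
    rw [MonoidHom.mem_ker] at hg
    rw [Subgroup.mem_subgroupOf]
    apply h g g.2
    intro w hw
    have := congrArg (fun e => (e ⟨w, hw⟩ : {w : List (Fin d) // w.length = n}).1) hg
    exact this
  exact (Subgroup.finiteIndex_of_le h4).index_ne_zero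

end Pool.Agent.V1132.BranchMax
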