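import Pool.Agent.V1132.BranchMaxA

/-!
# The groups `K D`
-/

set_option autoImplicit false

namespace Pool.Agent.V1132.BranchMax

/-- Permutations of the alphabet. -/
abbrev S5 := Equiv.Perm (Fin 5)

/-- Permutations of the vertices. -/
abbrev PW := Equiv.Perm (List (Fin 5))

/-- The alternating group. -/
abbrev A5 : Subgroup S5 := alternatingGroup (Fin 5)

/-- The directed automorphism given by `y`. -/
def bf (y : S5) : List (Fin 5) → List (Fin 5)
  | [] => []
  | x :: w => if x = 4 then x :: bf y w else if x = 0 then x :: rooted y w else x :: w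

theorem bf_mul (y z : S5) (w : List (Fin 5)) : bf (y * z) w = bf y (bf z w) := by
  induction w with
  | nil => rfl
  | cons x w ih =>
    rw [bf, bf]
    split_ifs with h1 h2
    · rw [bf, if_pos h1, ih]
    · rw [bf, if_neg h1, if_pos h2, rooted_mul]; rfl
    · rw [bf, if_neg h1, if_neg h2]

theorem bf_one (w : List (Fin 5)) : bf 1 w = w := by
  induction w with
  | nil => rfl
  | cons x w ih =>
    rw [bf]
    split_ifs with h1 h2
    · rw [ih]
    · rw [rooted_one]; rfl
    · rfl

/-- The directed automorphism given by `y`. -/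
def b (y : S5) : PW where
  toFun := bf y
  invFun := bf y⁻¹
  left_inv w := by rw [← bf_mul, inv_mul_cancel, bf_one]
  right_inv w := by rw [← bf_mul, mul_inv_cancel, bf_one]

theorem b_mul (y z : S5) : b (y * z) = b y * b z := Equiv.ext (bf_mul y z)

theorem b_one : b 1 = 1 := Equiv.ext bf_one

theorem b_inv (y : S5) : b y⁻¹ = (b y)⁻¹ := by
  rw [eq_inv_iff_mul_eq_one, ← b_mul, inv_mul_cancel, b_one]

/-- The sections of `b y`. -/
def bs (y : S5) (x : Fin 5) : PW := if x = 4 then b y else if x = 0 then rooted y else 1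

theorem b_eq (y : S5) : b y = mk 1 (bs y) := by
  apply Equiv.ext
  intro w
  cases w with
  | nil => rfl
  | cons x w =>
    change bf y (x :: w) = x :: bs y x w
    rw [bf, bs]
    split_ifs with h1 h2
    · rfl
    · rfl
    · rfl

theorem b_inj {y z : S5} (h : b y = b z) : y = z := by
  rw [b_eq, b_eq] at h
  have h1 := congrFun (mk_inj h).2 0
  have h2 : bs y 0 = rooted y := rfl
  have h3 : bs z 0 = rooted z := rfl
  rw [h2, h3] at h1
  exact rooted_inj h1

theorem b_mem_treeAut (y : S5) : b y ∈ TreeAut 5 := by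
  have hlen : ∀ w : List (Fin 5), (b y w).length = w.length := by
    intro w
    induction w with
    | nil => rfl
    | cons x w ih =>
      rw [b_eq, mk_cons, List.length_cons, List.length_cons, bs]
      split_ifs
      · rw [ih]
      · rw [(rooted_mem_treeAut y).1]
      · rfl
  refine ⟨hlen, fun u => ?_⟩
  induction u with
  | nil => intro v; simp [b_eq]
  | cons x u ih =>
    intro v
    cases v with
    | nil =>
      rw [b_eq]
      simp
    | cons y' v =>
      rw [b_eq, mk_cons, mk_cons, List.cons_prefix_cons, List.cons_prefix_cons]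
      constructor
      · rintro ⟨h1, h2⟩
        have h3 : x = y' := h1
        subst h3
        refine ⟨rfl, ?_⟩
        rw [bs] at h2
        split_ifs at h2
        · exact (ih v).1 h2
        · exact ((rooted_mem_treeAut y).2 u v).1 h2
        · exact h2
      · rintro ⟨rfl, h2⟩
        refine ⟨rfl, ?_⟩
        rw [bs]
        split_ifs
        · exact (ih v).2 h2
        · exact ((rooted_mem_treeAut y).2 u v).2 h2
        · exact h2

/-- The sections of level `n` are rooted or directed elements. -/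
def P (D : Subgroup S5) : ℕ → PW → Prop
  | 0, g => (∃ a ∈ A5, g = rooted a) ∨ ∃ y ∈ D, g = b y
  | n + 1, g => ∃ a ∈ A5, ∃ s : Fin 5 → PW, g = mk a s ∧ ∀ x, P D n (s x)

variable {D : Subgroup S5}

theorem P_rooted (n : ℕ) {a : S5} (ha : a ∈ A5) : P D n (rooted a) := by
  induction n generalizing a with
  | zero => exact Or.inl ⟨a, ha, rfl⟩
  | succ n ih =>
    refine ⟨a, ha, fun _ => 1, rfl, fun x => ?_⟩
    have := ih (a := 1) (Subgroup.one_mem _)
    rwa [rooted_one] at this

theorem P_one (n : ℕ) : P D n 1 := by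
  have := P_rooted (D := D) n (a := 1) (Subgroup.one_mem _)
  rwa [rooted_one] at this

theorem P_bs (hD : D ≤ A5) {y : S5} (hy : y ∈ D) (x : Fin 5) : P D 0 (bs y x) := by
  rw [bs]
  split_ifs
  · exact Or.inr ⟨y, hy, rfl⟩
  · exact P_rooted 0 (hD hy)
  · exact P_one 0

theorem P_succ (hD : D ≤ A5) {n : ℕ} {g : PW} (h : P D n g) : P D (n + 1) g := by
  induction n generalizing g with
  | zero =>
    rcases h with ⟨a, ha, rfl⟩ | ⟨y, hy, rfl⟩
    · exact P_rooted 1 ha
    · exact ⟨1, Subgroup.one_mem _, bs y, b_eq y, P_bs hD hy⟩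
  | succ n ih =>
    obtain ⟨a, ha, s, rfl, hs⟩ := h
    exact ⟨a, ha, s, rfl, fun x => ih (hs x)⟩

theorem P_mono (hD : D ≤ A5) {n m : ℕ} (hnm : n ≤ m) {g : PW} (h : P D n g) : P D m g := by
  induction hnm with
  | refl => exact h
  | step _ ih => exact P_succ hD ih

theorem P_mul (hD : D ≤ A5) {n : ℕ} {g h : PW} (hg : P D n g) (hh : P D n h) :
    P D (n + 1) (g * h) := by
  induction n generalizing g h with
  | zero =>
    rcases hg with ⟨a, ha, rfl⟩ | ⟨y, hy, rfl⟩
    · rcases hh with ⟨a', ha', rfl⟩ | ⟨y', hy', rfl⟩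
      · rw [← rooted_mul]
        exact P_rooted 1 (Subgroup.mul_mem _ ha ha')
      · refine ⟨a, ha, bs y', ?_, P_bs hD hy'⟩
        rw [b_eq, rooted, mk_mul]
        simp
    · rcases hh with ⟨a', ha', rfl⟩ | ⟨y', hy', rfl⟩
      · refine ⟨a', ha', fun x => bs y (a' x), ?_, fun x => P_bs hD hy _⟩
        rw [b_eq, rooted, mk_mul]
        simp
      · rw [← b_mul]
        exact P_succ hD (Or.inr ⟨_, Subgroup.mul_mem _ hy hy', rfl⟩)
  | succ n ih =>
    obtain ⟨a, ha, s, rfl, hs⟩ := hg
    obtain ⟨a', ha', t, rfl, ht⟩ := hh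
    rw [mk_mul]
    exact ⟨_, Subgroup.mul_mem _ ha ha', _, rfl, fun x => ih (hs _) (ht _)⟩

theorem P_inv {n : ℕ} {g : PW} (hg : P D n g) : P D n g⁻¹ := by
  induction n generalizing g with
  | zero =>
    rcases hg with ⟨a, ha, rfl⟩ | ⟨y, hy, rfl⟩
    · exact Or.inl ⟨a⁻¹, Subgroup.inv_mem _ ha, (rooted_inv a).symm⟩
    · exact Or.inr ⟨y⁻¹, Subgroup.inv_mem _ hy, (b_inv y).symm⟩
  | succ n ih =>
    obtain ⟨a, ha, s, rfl, hs⟩ := hg
    rw [mk_inv]
    exact ⟨_, Subgroup.inv_mem _ ha, _, rfl, fun x => ih (hs _)⟩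

/-- The group `K D`, for a subgroup `D` of the alternating group. -/
def K (D : Subgroup S5) (hD : D ≤ A5) : Subgroup PW where
  carrier := {g | ∃ n, P D n g}
  one_mem' := ⟨0, P_one 0⟩
  mul_mem' := by
    rintro g h ⟨n, hn⟩ ⟨m, hm⟩
    exact ⟨max n m + 1, P_mul hD (P_mono hD (le_max_left _ _) hn) (P_mono hD (le_max_right _ _) hm)⟩
  inv_mem' := by
    rintro g ⟨n, hn⟩
    exact ⟨n, P_inv hn⟩

variable (hD : D ≤ A5)

theorem mem_K {g : PW} : g ∈ K D hD ↔ ∃ n, P D n g := Iff.rfl

theorem mk_mem_K {a : S5} {s : Fin 5 → PW} : mk a s ∈ K D hD ↔ a ∈ A5 ∧ ∀ x, s x ∈ K D hD := by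
  constructor
  · rintro ⟨n, hn⟩
    obtain ⟨a', ha', s', h, hs'⟩ := P_succ hD hn
    obtain ⟨rfl, rfl⟩ := mk_inj h
    exact ⟨ha', fun x => ⟨n, hs' x⟩⟩
  · rintro ⟨ha, hs⟩
    choose n hn using hs
    refine ⟨Finset.univ.sup n + 1, a, ha, s, rfl, fun x => ?_⟩
    exact P_mono hD (Finset.le_sup (Finset.mem_univ x)) (hn x)

theorem exists_mk {g : PW} (hg : g ∈ K D hD) : ∃ a ∈ A5, ∃ s : Fin 5 → PW, g = mk a s ∧
    ∀ x, s x ∈ K D hD := by
  obtain ⟨n, hn⟩ := hg
  obtain ⟨a, ha, s, rfl, hs⟩ := P_succ hD hn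
  exact ⟨a, ha, s, rfl, fun x => ⟨n, hs x⟩⟩

theorem rooted_mem_K {a : S5} (ha : a ∈ A5) : rooted a ∈ K D hD := ⟨0, P_rooted 0 ha⟩

theorem b_mem_K {y : S5} (hy : y ∈ D) : b y ∈ K D hD := ⟨0, Or.inr ⟨y, hy, rfl⟩⟩

theorem at1_mem_K {x : Fin 5} {g : PW} : at1 x g ∈ K D hD ↔ g ∈ K D hD := by
  rw [at1_def, mk_mem_K]
  constructor
  · rintro ⟨-, h⟩
    have := h x
    simpa using this
  · intro h
    refine ⟨Subgroup.one_mem _, fun y => ?_⟩
    by_cases hy : y = x
    · subst hy; simpa using h
    · rw [Pi.mulSingle_eq_of_ne hy]; exact Subgroup.one_mem _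

theorem b_mem_K_iff {y : S5} : b y ∈ K D hD ↔ y ∈ D := by
  constructor
  · rintro ⟨n, hn⟩
    induction n with
    | zero =>
      rcases hn with ⟨a, ha, h⟩ | ⟨z, hz, h⟩
      · rw [b_eq, rooted] at h
        have h1 := congrFun (mk_inj h).2 0
        have h2 : bs y 0 = rooted y := rfl
        rw [h2, ← rooted_one] at h1
        rw [rooted_inj h1]
        exact Subgroup.one_mem _
      · rw [b_inj h]; exact hz
    | succ n ih =>
      obtain ⟨a, ha, s, h, hs⟩ := hn
      rw [b_eq] at h
      have h1 := congrFun (mk_inj h).2 4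
      have h2 : bs y 4 = b y := rfl
      apply ih
      rw [← h2, h1]
      exact hs 4
  · exact b_mem_K hD

theorem K_mono {D' : Subgroup S5} (hD' : D' ≤ A5) (h : D ≤ D') : K D hD ≤ K D' hD' := by
  rintro g ⟨n, hn⟩
  refine ⟨n, ?_⟩
  induction n generalizing g with
  | zero =>
    rcases hn with ⟨a, ha, rfl⟩ | ⟨y, hy, rfl⟩
    · exact Or.inl ⟨a, ha, rfl⟩
    · exact Or.inr ⟨y, h hy, rfl⟩
  | succ n ih =>
    obtain ⟨a, ha, s, rfl, hs⟩ := hn
    exact ⟨a, ha, s, rfl, fun x => ih (hs x)⟩

theorem K_le_treeAut : K D hD ≤ TreeAut 5 := by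
  rintro g ⟨n, hn⟩
  induction n generalizing g with
  | zero =>
    rcases hn with ⟨a, ha, rfl⟩ | ⟨y, hy, rfl⟩
    · exact rooted_mem_treeAut a
    · exact b_mem_treeAut y
  | succ n ih =>
    obtain ⟨a, ha, s, rfl, hs⟩ := hn
    exact mk_mem_treeAut (fun x => ih (hs x))

/-! ### `K D` is a branch group -/

theorem A5_transitive (x y : Fin 5) : ∃ a ∈ A5, a x = y := by
  by_cases hxy : x = y
  · exact ⟨1, Subgroup.one_mem _, by simpa using hxy⟩
  · obtain ⟨z, hz⟩ : ∃ z : Fin 5, z ≠ x ∧ z ≠ y := by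
      revert x y; decide
    refine ⟨Equiv.swap x z * Equiv.swap x y, ?_, ?_⟩
    · rw [Equiv.Perm.mem_alternatingGroup, Equiv.Perm.sign_mul, Equiv.Perm.sign_swap hxy,
        Equiv.Perm.sign_swap (Ne.symm hz.1)]
      rfl
    · rw [Equiv.Perm.mul_apply, Equiv.swap_apply_left,
        Equiv.swap_apply_of_ne_of_ne (Ne.symm hxy) (Ne.symm hz.2)]

theorem K_transitive (v w : List (Fin 5)) (h : v.length = w.length) : ∃ g ∈ K D hD, g v = w := by
  induction v generalizing w with
  | nil =>
    cases w with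
    | nil => exact ⟨1, Subgroup.one_mem _, rfl⟩
    | cons y w => simp at h
  | cons x v ih =>
    cases w with
    | nil => simp at h
    | cons y w =>
      obtain ⟨g, hg, hgv⟩ := ih w (by simpa using h)
      obtain ⟨a, ha, hax⟩ := A5_transitive x y
      refine ⟨mk a (fun _ => g), (mk_mem_K hD).2 ⟨ha, fun _ => hg⟩, ?_⟩
      rw [mk_cons, hax, hgv]

theorem Rist_map {n : ℕ} (x : Fin 5) {g : PW} (hg : g ∈ Rist (K D hD) n) :
    at1 x g ∈ Rist (K D hD) (n + 1) := by
  rw [Rist] at hg
  have h1 : Subgroup.closure {g | ∃ v : List (Fin 5), v.length = n ∧ g ∈ rist (K D hD) v} ≤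
      (Rist (K D hD) (n + 1)).comap (at1 x) := by
    rw [Subgroup.closure_le]
    rintro h ⟨v, hv, hh1, hh2, hh3⟩
    apply Subgroup.subset_closure
    refine ⟨x :: v, by simp [hv], ?_⟩
    have hK : at1 x h ∈ K D hD := (at1_mem_K hD).2 hh1
    refine mem_rist hK (K_le_treeAut hD hK) (fun w hw => ?_)
    cases w with
    | nil => rfl
    | cons y w =>
      by_cases hy : y = x
      · subst hy
        rw [at1_cons_self]
        congr 1
        rw [List.cons_prefix_cons] at hw
        have hw' : ¬ v <+: w := fun h => hw ⟨rfl, h⟩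
        rcases Nat.lt_or_ge w.length v.length with hlt | hge
        · -- extend `w` to the layer of `v`
          have h4 : h (w ++ List.replicate (v.length - w.length) 0) =
              w ++ List.replicate (v.length - w.length) 0 := by
            apply hh2
            simp; lia
          have h5 := ((K_le_treeAut hD hh1).2 w (w ++ List.replicate (v.length - w.length) 0)).2
            (List.prefix_append _ _)
          rw [h4] at h5
          have h6 : (h w).length = w.length := (K_le_treeAut hD hh1).1 w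
          rw [List.prefix_iff_eq_take] at h5
          rw [h5, h6, List.take_left']
          rfl
        · have h4 := hh3 (w.take v.length) (by simp [hge]) (by
            intro h'
            apply hw'
            rw [← h']
            exact List.take_prefix _ _) (w.drop v.length)
          rwa [List.take_append_drop] at h4
      · exact at1_cons_of_ne hy _ _
  exact h1 hg

theorem layer_mem_Rist (n : ℕ) : ∀ g ∈ K D hD,
    (∀ w : List (Fin 5), w.length = n → g w = w) → g ∈ Rist (K D hD) n := by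
  induction n with
  | zero =>
    intro g hg _
    apply Subgroup.subset_closure
    refine ⟨[], rfl, mem_rist hg (K_le_treeAut hD hg) (fun w hw => ?_)⟩
    exact absurd (List.nil_prefix) hw
  | succ n ih =>
    intro g hg hw
    obtain ⟨a, ha, s, rfl, hs⟩ := exists_mk hD hg
    have h1 : ∀ x (w : List (Fin 5)), w.length = n → a x = x ∧ s x w = w := by
      intro x w hwn
      have := hw (x :: w) (by simp [hwn])
      rw [mk_cons] at this
      exact List.cons.inj this
    have ha1 : a = 1 := by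
      apply Equiv.ext
      intro x
      exact (h1 x (List.replicate n 0) (by simp)).1
    rw [mk_eq, ha1, rooted_one, one_mul]
    apply iota_mem
    intro x
    apply Rist_map
    exact ih _ (hs x) (fun w hwn => (h1 x w hwn).2)

theorem K_isBranch : IsBranch (K D hD) where
  le_treeAut := K_le_treeAut hD
  transitive := K_transitive hD
  finite_index n := relIndex_ne_zero_of_layer (K_le_treeAut hD) n (layer_mem_Rist hD n)

end Pool.Agent.V1132.BranchMax
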