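import Pool.Agent.V1132.BranchMaxB

/-!
# The counterexample
-/

set_option autoImplicit false

namespace Pool.Agent.V1132.BranchMax

theorem bot_le_A5 : (⊥ : Subgroup S5) ≤ A5 := bot_le

/-- The group of all the finitary automorphisms with even labels. -/
abbrev K0 : Subgroup PW := K ⊥ bot_le_A5

/-- The group generated by the rooted and the directed automorphisms. -/
abbrev KA : Subgroup PW := K A5 le_rfl

theorem b_split (z : S5) : b z = at1 0 (rooted z) * at1 4 (b z) := by
  change b z = iota (Pi.mulSingle 0 (rooted z)) * iota (Pi.mulSingle 4 (b z))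
  rw [← map_mul]
  nth_rewrite 1 [b_eq]
  change mk 1 _ = mk 1 _
  congr 1
  funext x
  fin_cases x
  · simp [bs]
  · simp [bs]
  · simp [bs]
  · simp [bs]
  · simp [bs]

theorem at1_b_mem {M : Subgroup PW} (hM : K0 ≤ M) {z : S5} (hz : z ∈ A5) (hb : b z ∈ M)
    (x : Fin 5) : at1 x (b z) ∈ M := by
  have h0 : at1 0 (rooted z) ∈ M := hM ((at1_mem_K _).2 (rooted_mem_K _ hz))
  have h4 : at1 4 (b z) ∈ M := by
    have : at1 4 (b z) = (at1 0 (rooted z))⁻¹ * b z := by
      rw [eq_inv_mul_iff_mul_eq]
      exact (b_split z).symm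
    rw [this]
    exact M.mul_mem (M.inv_mem h0) hb
  obtain ⟨c, hc, hcx⟩ := A5_transitive 4 x
  have hr : rooted c ∈ M := hM (rooted_mem_K _ hc)
  have := M.mul_mem (M.mul_mem hr h4) (M.inv_mem hr)
  rwa [conj_rooted, hcx] at this

theorem full (n : ℕ) : ∀ (M : Subgroup PW), K0 ≤ M → (∀ z ∈ A5, b z ∈ M) →
    ∀ g, P A5 n g → g ∈ M := by
  induction n with
  | zero =>
    intro M hM hb g hg
    rcases hg with ⟨a, ha, rfl⟩ | ⟨z, hz, rfl⟩
    · exact hM (rooted_mem_K _ ha)
    · exact hb z hz
  | succ n ih =>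
    intro M hM hb g hg
    obtain ⟨a, ha, s, rfl, hs⟩ := hg
    rw [mk_eq]
    refine M.mul_mem (hM (rooted_mem_K _ ha)) (iota_mem (fun x => ?_))
    have h1 : s x ∈ M.comap (at1 x) := by
      apply ih (M.comap (at1 x)) _ _ _ (hs x)
      · intro g hg
        exact hM ((at1_mem_K _).2 hg)
      · intro z hz
        exact at1_b_mem hM hz (hb z hz) x
    exact h1

theorem KA_le {M : Subgroup PW} (hM : K0 ≤ M) (hb : ∀ z ∈ A5, b z ∈ M) : KA ≤ M := by
  rintro g ⟨n, hn⟩
  exact full n M hM hb g hn

theorem up {z : S5} (hz : z ∈ A5) (u : List (Fin 5)) : ∀ (M : Subgroup PW), K0 ≤ M →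
    atw u (b z) ∈ M → b z ∈ M := by
  induction u with
  | nil => intro M _ h; exact h
  | cons x u ih =>
    intro M hM h
    have h1 : b z ∈ M.comap (at1 x) := by
      apply ih (M.comap (at1 x))
      · intro g hg
        exact hM ((at1_mem_K _).2 hg)
      · exact h
    have h2 : at1 x (b z) ∈ M := h1
    obtain ⟨c, hc, hcx⟩ := A5_transitive x 4
    have hr : rooted c ∈ M := hM (rooted_mem_K _ hc)
    have h3 := M.mul_mem (M.mul_mem hr h2) (M.inv_mem hr)
    rw [conj_rooted, hcx] at h3
    rw [b_split]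
    exact M.mul_mem (hM ((at1_mem_K _).2 (rooted_mem_K _ hz))) h3

/-! ### Finite generation -/

/-- The generating set. -/
def gens : Set PW := rooted '' (A5 : Set S5) ∪ b '' (A5 : Set S5)

theorem gens_finite : gens.Finite := (Set.toFinite _).union (Set.toFinite _)

/-- An auxiliary element of the alternating group. -/
def c0 : S5 := Equiv.swap 2 3 * Equiv.swap 2 4

theorem c0_mem : c0 ∈ A5 := by
  rw [Equiv.Perm.mem_alternatingGroup]; decide

theorem comm_eq (x y : S5) :
    b x * (rooted c0 * b y * (rooted c0)⁻¹) * (b x)⁻¹ * (rooted c0 * b y * (rooted c0)⁻¹)⁻¹ =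
      at1 0 (rooted (x * y * x⁻¹ * y⁻¹)) := by
  have h1 : rooted c0 * b y * (rooted c0)⁻¹ = iota (fun z => bs y (c0⁻¹ z)) := by
    change _ = mk 1 _
    rw [mul_inv_eq_iff_eq_mul, b_eq, rooted, mk_mul, mk_mul]
    congr 1
    funext z
    simp
  have h2 : b x = iota (bs x) := b_eq x
  rw [h1, h2, ← map_inv, ← map_inv, ← map_mul, ← map_mul, ← map_mul]
  change mk 1 _ = mk 1 _
  congr 1
  funext z
  have e0 : c0.symm 0 = 0 := by decide
  have e1 : c0.symm 1 = 1 := by decide
  have e2 : c0.symm 2 = 3 := by decide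
  have e3 : c0.symm 3 = 4 := by decide
  have e4 : c0.symm 4 = 2 := by decide
  fin_cases z
  · simp [bs, e0, rooted_mul, rooted_inv]
  · simp [bs, e1]
  · simp [bs, e2]
  · simp [bs, e3]
  · simp [bs, e4]

theorem rooted_gens {a : S5} (ha : a ∈ A5) : rooted a ∈ Subgroup.closure gens :=
  Subgroup.subset_closure (Or.inl ⟨a, ha, rfl⟩)

theorem b_gens {a : S5} (ha : a ∈ A5) : b a ∈ Subgroup.closure gens :=
  Subgroup.subset_closure (Or.inr ⟨a, ha, rfl⟩)

theorem at1_rooted_gens {a : S5} (ha : a ∈ A5) (x : Fin 5) :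
    at1 x (rooted a) ∈ Subgroup.closure gens := by
  have h0 : at1 0 (rooted a) ∈ Subgroup.closure gens := by
    let r : S5 →* PW :=
      { toFun := rooted
        map_one' := rooted_one
        map_mul' := rooted_mul }
    let B : Subgroup A5 := ((Subgroup.closure gens).comap ((at1 0).comp r)).comap A5.subtype
    have hB : commutator A5 ≤ B := by
      rw [commutator_def, Subgroup.commutator_le]
      rintro ⟨x, hx⟩ - ⟨y, hy⟩ -
      rw [commutatorElement_def]
      change at1 0 (rooted (x * y * x⁻¹ * y⁻¹)) ∈ Subgroup.closure gens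
      rw [← comm_eq]
      have h1 : rooted c0 * b y * (rooted c0)⁻¹ ∈ Subgroup.closure gens :=
        Subgroup.mul_mem _ (Subgroup.mul_mem _ (rooted_gens c0_mem) (b_gens hy))
          (Subgroup.inv_mem _ (rooted_gens c0_mem))
      exact Subgroup.mul_mem _ (Subgroup.mul_mem _ (Subgroup.mul_mem _ (b_gens hx) h1)
        (Subgroup.inv_mem _ (b_gens hx))) (Subgroup.inv_mem _ h1)
    rw [commutator_alternatingGroup_eq_top (by simp)] at hB
    exact hB (Subgroup.mem_top ⟨a, ha⟩)
  obtain ⟨c, hc, hcx⟩ := A5_transitive 0 x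
  have := Subgroup.mul_mem _ (Subgroup.mul_mem _ (rooted_gens hc) h0)
    (Subgroup.inv_mem _ (rooted_gens hc))
  rwa [conj_rooted, hcx] at this

theorem at1_b_gens {a : S5} (ha : a ∈ A5) (x : Fin 5) :
    at1 x (b a) ∈ Subgroup.closure gens := by
  have h4 : at1 4 (b a) ∈ Subgroup.closure gens := by
    have : at1 4 (b a) = (at1 0 (rooted a))⁻¹ * b a := by
      rw [eq_inv_mul_iff_mul_eq]
      exact (b_split a).symm
    rw [this]
    exact Subgroup.mul_mem _ (Subgroup.inv_mem _ (at1_rooted_gens ha 0)) (b_gens ha)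
  obtain ⟨c, hc, hcx⟩ := A5_transitive 4 x
  have := Subgroup.mul_mem _ (Subgroup.mul_mem _ (rooted_gens hc) h4)
    (Subgroup.inv_mem _ (rooted_gens hc))
  rwa [conj_rooted, hcx] at this

theorem at1_gens (x : Fin 5) : Subgroup.closure gens ≤ (Subgroup.closure gens).comap (at1 x) := by
  rw [Subgroup.closure_le]
  rintro g (⟨a, ha, rfl⟩ | ⟨a, ha, rfl⟩)
  · exact at1_rooted_gens ha x
  · exact at1_b_gens ha x

theorem KA_eq : KA = Subgroup.closure gens := by
  apply le_antisymm
  · rintro g ⟨n, hn⟩
    induction n generalizing g with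
    | zero =>
      rcases hn with ⟨a, ha, rfl⟩ | ⟨z, hz, rfl⟩
      · exact rooted_gens ha
      · exact b_gens hz
    | succ n ih =>
      obtain ⟨a, ha, s, rfl, hs⟩ := hn
      rw [mk_eq]
      exact Subgroup.mul_mem _ (rooted_gens ha) (iota_mem (fun x => at1_gens x (ih (hs x))))
  · rw [Subgroup.closure_le]
    rintro g (⟨a, ha, rfl⟩ | ⟨a, ha, rfl⟩)
    · exact rooted_mem_K _ ha
    · exact b_mem_K _ ha

/-! ### The extension -/

/-- The odd permutation of the alphabet. -/
def s0 : S5 := Equiv.swap 1 2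

theorem s0_s0 (x : Fin 5) : s0 (s0 x) = x := Equiv.swap_apply_self _ _ _

theorem s0_mul : s0 * s0 = 1 := Equiv.swap_mul_self _ _

theorem s0_notMem : s0 ∉ A5 := by
  rw [Equiv.Perm.mem_alternatingGroup]; decide

/-- The automorphism with constant portrait `s0`. -/
def tau : PW where
  toFun := List.map s0
  invFun := List.map s0
  left_inv w := by
    rw [List.map_map]
    have : (s0 ∘ s0 : Fin 5 → Fin 5) = id := funext s0_s0
    rw [this, List.map_id]
  right_inv w := by
    rw [List.map_map]
    have : (s0 ∘ s0 : Fin 5 → Fin 5) = id := funext s0_s0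
    rw [this, List.map_id]

theorem tau_eq : tau = mk s0 (fun _ => tau) := by
  apply Equiv.ext
  intro w
  cases w with
  | nil => rfl
  | cons x w => rfl

theorem tau_tau : tau * tau = 1 := by
  apply Equiv.ext
  intro w
  exact tau.left_inv w

theorem tau_inv : tau⁻¹ = tau := by
  rw [inv_eq_iff_mul_eq_one]; exact tau_tau

theorem tau_mem_treeAut : tau ∈ TreeAut 5 := by
  refine ⟨fun w => List.length_map _, fun u v => ?_⟩
  change List.map s0 u <+: List.map s0 v ↔ _
  constructor
  · intro h
    have h1 := h.map s0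
    have e : ∀ w : List (Fin 5), List.map s0 (List.map s0 w) = w := fun w => tau.left_inv w
    rwa [e, e] at h1
  · intro h
    exact h.map s0

theorem conj_A5 {a : S5} (ha : a ∈ A5) : s0 * a * s0 ∈ A5 := by
  rw [Equiv.Perm.mem_alternatingGroup] at ha ⊢
  rw [Equiv.Perm.sign_mul, Equiv.Perm.sign_mul, ha]
  decide

theorem tau_mk (a : S5) (s : Fin 5 → PW) :
    tau * mk a s * tau = mk (s0 * a * s0) (fun x => tau * s (s0 x) * tau) := by
  nth_rewrite 1 [tau_eq]
  nth_rewrite 2 [tau_eq]
  rw [mk_mul, mk_mul]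

theorem tau_rooted (a : S5) : tau * rooted a * tau = rooted (s0 * a * s0) := by
  rw [rooted, tau_mk, rooted]
  simp [tau_tau]

theorem tau_b (y : S5) : tau * b y * tau = b (s0 * y * s0) := by
  apply Equiv.ext
  intro w
  induction w with
  | nil => rfl
  | cons x w ih =>
    have h1 : (tau * b y * tau) (x :: w) = s0 (s0 x) :: tau (bs y (s0 x) (tau w)) := by
      change tau (b y (tau (x :: w))) = _
      have : tau (x :: w) = s0 x :: tau w := rfl
      rw [this, b_eq y, mk_cons]
      rfl
    have h2 : b (s0 * y * s0) (x :: w) = x :: bs (s0 * y * s0) x w := by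
      rw [b_eq, mk_cons]; rfl
    rw [h1, h2, s0_s0]
    congr 1
    by_cases h4 : x = 4
    · subst h4
      have e1 : s0 4 = 4 := by decide
      have e2 : bs y 4 = b y := rfl
      have e3 : bs (s0 * y * s0) 4 = b (s0 * y * s0) := rfl
      rw [e1, e2, e3, ← ih]
      rfl
    · by_cases h0 : x = 0
      · subst h0
        have e1 : s0 0 = 0 := by decide
        have e2 : bs y 0 = rooted y := rfl
        have e3 : bs (s0 * y * s0) 0 = rooted (s0 * y * s0) := rfl
        rw [e1, e2, e3, ← tau_rooted]
        rfl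
      · have e1 : s0 x ≠ 4 := by
          intro h
          apply h4
          have := congrArg s0 h
          rw [s0_s0] at this
          rw [this]; decide
        have e2 : s0 x ≠ 0 := by
          intro h
          apply h0
          have := congrArg s0 h
          rw [s0_s0] at this
          rw [this]; decide
        have e3 : bs y (s0 x) = 1 := by rw [bs, if_neg e1, if_neg e2]
        have e4 : bs (s0 * y * s0) x = 1 := by rw [bs, if_neg h4, if_neg h0]
        rw [e3, e4]
        change tau (tau w) = w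
        exact tau.left_inv w

theorem tau_conj {g : PW} (hg : g ∈ KA) : tau * g * tau ∈ KA := by
  obtain ⟨n, hn⟩ := hg
  refine ⟨n, ?_⟩
  induction n generalizing g with
  | zero =>
    rcases hn with ⟨a, ha, rfl⟩ | ⟨z, hz, rfl⟩
    · rw [tau_rooted]
      exact P_rooted 0 (conj_A5 ha)
    · rw [tau_b]
      exact Or.inr ⟨_, conj_A5 hz, rfl⟩
  | succ n ih =>
    obtain ⟨a, ha, s, rfl, hs⟩ := hn
    rw [tau_mk]
    exact ⟨_, conj_A5 ha, _, rfl, fun x => ih (hs _)⟩

theorem tau_notMem : tau ∉ KA := by
  rw [tau_eq, mk_mem_K]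
  exact fun h => s0_notMem h.1

/-- The group `G`. -/
def GG : Subgroup PW where
  carrier := {g | g ∈ KA ∨ tau * g ∈ KA}
  one_mem' := Or.inl (Subgroup.one_mem _)
  mul_mem' := by
    rintro g h (hg | hg) (hh | hh)
    · exact Or.inl (Subgroup.mul_mem _ hg hh)
    · right
      have := Subgroup.mul_mem _ (tau_conj hg) hh
      have e : tau * g * tau * (tau * h) = tau * g * (tau * tau) * h := by group
      rw [e, tau_tau, mul_one, mul_assoc] at this
      exact this
    · right
      rw [← mul_assoc]
      exact Subgroup.mul_mem _ hg hh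
    · left
      have := Subgroup.mul_mem _ (tau_conj hg) hh
      have e : tau * (tau * g) * tau * (tau * h) = (tau * tau) * g * (tau * tau) * h := by group
      rw [e, tau_tau, mul_one, one_mul] at this
      exact this
  inv_mem' := by
    rintro g (hg | hg)
    · exact Or.inl (Subgroup.inv_mem _ hg)
    · right
      have := tau_conj (Subgroup.inv_mem _ hg)
      have e : tau * (tau * g)⁻¹ * tau = tau * g⁻¹ * (tau⁻¹ * tau) := by group
      rw [e, inv_mul_cancel, mul_one] at this
      exact this

theorem KA_le_GG : KA ≤ GG := fun _ hg => Or.inl hg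

theorem tau_mem_GG : tau ∈ GG := by
  right
  rw [tau_tau]
  exact Subgroup.one_mem _

theorem GG_fg : GG.FG := by
  rw [Subgroup.fg_iff]
  refine ⟨gens ∪ {tau}, ?_, gens_finite.union (Set.finite_singleton _)⟩
  apply le_antisymm
  · rw [Subgroup.closure_le]
    rintro g (hg | hg)
    · apply KA_le_GG
      rw [KA_eq]
      exact Subgroup.subset_closure hg
    · rw [Set.mem_singleton_iff] at hg
      rw [hg]
      exact tau_mem_GG
  · have h1 : KA ≤ Subgroup.closure (gens ∪ {tau}) := by
      rw [KA_eq]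
      exact Subgroup.closure_mono Set.subset_union_left
    have h2 : tau ∈ Subgroup.closure (gens ∪ {tau}) := Subgroup.subset_closure (Or.inr rfl)
    rintro g (hg | hg)
    · exact h1 hg
    · have := Subgroup.mul_mem _ h2 (h1 hg)
      rwa [← mul_assoc, tau_tau, one_mul] at this

theorem GG_le_treeAut : GG ≤ TreeAut 5 := by
  rintro g (hg | hg)
  · exact K_le_treeAut _ hg
  · have := Subgroup.mul_mem _ tau_mem_treeAut (K_le_treeAut _ hg)
    rwa [← mul_assoc, tau_tau, one_mul] at this

theorem root_perm {g : PW} (hg : tau * g ∈ KA) : ∃ x : Fin 5, g [x] ≠ [x] := by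
  obtain ⟨a, ha, s, h, -⟩ := exists_mk _ hg
  by_contra hcon
  push Not at hcon
  apply s0_notMem
  have h1 : ∀ x, a x = s0 x := by
    intro x
    have h2 : (tau * g) [x] = [s0 x] := by
      change tau (g [x]) = _
      rw [hcon x]; rfl
    rw [h, mk_cons] at h2
    exact (List.cons.inj h2).1
  have : a = s0 := Equiv.ext h1
  rwa [this] at ha

theorem rist_mono {G G' : Subgroup PW} (h : G ≤ G') (n : ℕ) : Rist G n ≤ Rist G' n := by
  apply Subgroup.closure_mono
  rintro g ⟨v, hv, hg, h2⟩
  exact ⟨v, hv, h hg, h2⟩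

theorem GG_isBranch : IsBranch GG where
  le_treeAut := GG_le_treeAut
  transitive v w h := by
    obtain ⟨g, hg, hgv⟩ := K_transitive le_rfl v w h
    exact ⟨g, KA_le_GG hg, hgv⟩
  finite_index n := by
    apply relIndex_ne_zero_of_layer GG_le_treeAut n
    intro g hg hw
    cases n with
    | zero =>
      apply Subgroup.subset_closure
      refine ⟨[], rfl, mem_rist hg (GG_le_treeAut hg) (fun w hw => ?_)⟩
      exact absurd (List.nil_prefix) hw
    | succ n =>
      have hgK : g ∈ KA := by
        rcases hg with hg | hg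
        · exact hg
        · exfalso
          obtain ⟨x, hx⟩ := root_perm hg
          apply hx
          have hT : g ∈ TreeAut 5 := GG_le_treeAut (Or.inr hg)
          have h1 := hw (x :: List.replicate n 0) (by simp)
          have h2 := (hT.2 [x] (x :: List.replicate n 0)).2 (by simp)
          rw [h1] at h2
          have h3 : (g [x]).length = 1 := hT.1 [x]
          rw [List.prefix_iff_eq_take, h3] at h2
          simpa using h2
      exact rist_mono KA_le_GG _ (layer_mem_Rist _ _ g hgK hw)

end Pool.Agent.V1132.BranchMax
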