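import Pool.Agent.V1132.BranchMaxC

/-!
# The counterexample: the subgroup `H`
-/

set_option autoImplicit false

namespace Pool.Agent.V1132.BranchMax

/-- The even permutations fixing the letter `1`. -/
def DD : Subgroup S5 where
  carrier := {a | a ∈ A5 ∧ a 1 = 1}
  one_mem' := ⟨Subgroup.one_mem _, rfl⟩
  mul_mem' := by
    rintro a b ⟨ha, ha'⟩ ⟨hb, hb'⟩
    exact ⟨Subgroup.mul_mem _ ha hb, by rw [Equiv.Perm.mul_apply, hb', ha']⟩
  inv_mem' := by
    rintro a ⟨ha, ha'⟩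
    refine ⟨Subgroup.inv_mem _ ha, ?_⟩
    rw [Equiv.Perm.inv_def, Equiv.symm_apply_eq, ha']

theorem DD_le : DD ≤ A5 := fun _ ha => ha.1

theorem exists_even (j : Fin 5) (hj : j ≠ 1) : ∃ d ∈ DD, d 3 = j := by
  by_cases hj3 : j = 3
  · exact ⟨1, Subgroup.one_mem _, hj3.symm⟩
  · obtain ⟨k, hk⟩ : ∃ k : Fin 5, k ≠ 1 ∧ k ≠ 3 ∧ k ≠ j := by
      revert j; decide
    refine ⟨Equiv.swap 3 k * Equiv.swap 3 j, ⟨?_, ?_⟩, ?_⟩
    · rw [Equiv.Perm.mem_alternatingGroup, Equiv.Perm.sign_mul,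
        Equiv.Perm.sign_swap (Ne.symm hk.2.1), Equiv.Perm.sign_swap (Ne.symm hj3)]
      rfl
    · rw [Equiv.Perm.mul_apply, Equiv.swap_apply_of_ne_of_ne (by decide) (Ne.symm hj),
        Equiv.swap_apply_of_ne_of_ne (by decide) (Ne.symm hk.1)]
    · rw [Equiv.Perm.mul_apply, Equiv.swap_apply_left,
        Equiv.swap_apply_of_ne_of_ne hj3 (Ne.symm hk.2.2)]

theorem A5_le {M : Subgroup S5} (h1 : DD ≤ M) (h2 : ∀ z ∈ DD, s0 * z * s0 ∈ M) : A5 ≤ M := by
  intro a ha
  by_cases ha1 : a 1 = 1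
  · exact h1 ⟨ha, ha1⟩
  · obtain ⟨d, hd, hd3⟩ := exists_even (a 1) ha1
    set e : S5 := Equiv.swap 1 0 * Equiv.swap 1 3 with he
    have heM : e ∈ M := by
      have h3 : s0 * e * s0 ∈ DD := by
        refine ⟨?_, ?_⟩
        · rw [he, Equiv.Perm.mem_alternatingGroup]; decide
        · rw [he]; decide
      have h4 := h2 _ h3
      have h5 : s0 * (s0 * e * s0) * s0 = (s0 * s0) * e * (s0 * s0) := by group
      rw [h5, s0_mul, one_mul, mul_one] at h4
      exact h4
    have he13 : e 1 = 3 := by rw [he]; decide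
    have heA : e ∈ A5 := by rw [he, Equiv.Perm.mem_alternatingGroup]; decide
    have h6 : (d * e)⁻¹ * a ∈ DD := by
      refine ⟨Subgroup.mul_mem _ (Subgroup.inv_mem _ (Subgroup.mul_mem _ hd.1 heA)) ha, ?_⟩
      rw [Equiv.Perm.mul_apply, Equiv.Perm.inv_def, Equiv.symm_apply_eq, Equiv.Perm.mul_apply,
        he13, hd3]
    have h7 : a = d * e * ((d * e)⁻¹ * a) := by group
    rw [h7]
    exact M.mul_mem (M.mul_mem (h1 hd) heM) (h1 h6)

/-- The group `H`. -/
abbrev KD : Subgroup PW := K DD DD_le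

theorem K0_le_KD : K0 ≤ KD := K_mono _ _ bot_le

theorem KD_le_KA : KD ≤ KA := K_mono _ _ DD_le

theorem atw_mem_KD {h : PW} (hh : h ∈ KD) (u : List (Fin 5)) : atw u h ∈ KD := by
  induction u with
  | nil => exact hh
  | cons x u ih => exact (at1_mem_K _).2 ih

/-- An element of `KA` has a trivial section. -/
theorem exists_trivial_section (n : ℕ) : ∀ g : PW, P A5 n g →
    ∃ v u : List (Fin 5), ∀ h : PW, g * atw v h * g⁻¹ = atw u h := by
  induction n with
  | zero =>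
    intro g hg
    rcases hg with ⟨a, ha, rfl⟩ | ⟨y, hy, rfl⟩
    · refine ⟨[0], [a 0], fun h => ?_⟩
      rw [atw_cons, atw_cons, atw_nil]
      exact conj_rooted a 0 h
    · refine ⟨[1], [1], fun h => ?_⟩
      rw [atw_cons, atw_nil, b_eq, conj_at1]
      have : bs y 1 = 1 := rfl
      rw [this]
      simp
  | succ n ih =>
    intro g hg
    obtain ⟨a, ha, s, rfl, hs⟩ := hg
    obtain ⟨v, u, huv⟩ := ih (s 0) (hs 0)
    refine ⟨0 :: v, a 0 :: u, fun h => ?_⟩
    rw [atw_cons, atw_cons, conj_at1, huv]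

theorem tau_atw (u : List (Fin 5)) (h : PW) :
    tau * atw u h * tau⁻¹ = atw (List.map s0 u) (tau * h * tau⁻¹) := by
  induction u with
  | nil => rfl
  | cons x u ih =>
    rw [atw_cons, List.map_cons, atw_cons, ← ih]
    nth_rewrite 1 [tau_eq]
    nth_rewrite 2 [tau_eq]
    rw [conj_at1]

theorem KA_le_of_mem {M : Subgroup PW} (hM : KD ≤ M) {g : PW} (hgM : g ∈ M) (hg : g ∈ GG)
    (hgK : g ∉ KA) : KA ≤ M := by
  have hg' : tau * g ∈ KA := hg.resolve_left hgK
  obtain ⟨n, hn⟩ := hg'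
  obtain ⟨v, u, huv⟩ := exists_trivial_section n _ hn
  have hK0 : K0 ≤ M := K0_le_KD.trans hM
  have key : ∀ y ∈ DD, b (s0 * y * s0) ∈ M := by
    intro y hy
    have h1 : g * atw v (b y) * g⁻¹ ∈ M :=
      M.mul_mem (M.mul_mem hgM (hM (atw_mem_KD (b_mem_K _ hy) v))) (M.inv_mem hgM)
    have h2 : g * atw v (b y) * g⁻¹ = atw (List.map s0 u) (b (s0 * y * s0)) := by
      have h3 : g * atw v (b y) * g⁻¹ = tau⁻¹ * ((tau * g) * atw v (b y) * (tau * g)⁻¹) * tau := by
        group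
      rw [h3, huv]
      have h4 := tau_atw u (b y)
      rw [tau_inv] at h4 ⊢
      rw [h4, tau_b]
    rw [h2] at h1
    exact up (conj_A5 hy.1) _ M hK0 h1
  let B : Subgroup S5 := M.comap
    { toFun := b
      map_one' := b_one
      map_mul' := b_mul }
  have hB : A5 ≤ B := by
    apply A5_le
    · intro y hy
      exact hM (b_mem_K _ hy)
    · exact key
  exact KA_le hK0 (fun z hz => hB hz)

/-! ### Infinite index -/

/-- An even permutation moving the letter `1`. -/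
def x0 : S5 := Equiv.swap 1 0 * Equiv.swap 1 2

theorem x0_mem : x0 ∈ A5 := by
  rw [Equiv.Perm.mem_alternatingGroup]; decide

theorem x0_notMem : x0 ∉ DD := by
  rintro ⟨-, h⟩
  revert h
  decide

/-- Infinitely many elements in different cosets of `H`. -/
def gseq : ℕ → PW
  | 0 => at1 2 (b x0)
  | n + 1 => at1 3 (gseq n)

theorem gseq_mem (n : ℕ) : gseq n ∈ KA := by
  induction n with
  | zero => exact (at1_mem_K _).2 (b_mem_K _ x0_mem)
  | succ n ih => exact (at1_mem_K _).2 ih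

theorem gseq_notMem (n : ℕ) : ∀ m, n < m → (gseq n)⁻¹ * gseq m ∉ KD := by
  induction n with
  | zero =>
    intro m hm h
    obtain ⟨m, rfl⟩ := Nat.exists_eq_succ_of_ne_zero hm.ne'
    have h1 : (gseq 0)⁻¹ * gseq (m + 1) =
        mk 1 (Pi.mulSingle 2 (b x0)⁻¹ * Pi.mulSingle 3 (gseq m)) := by
      have : mk 1 (Pi.mulSingle 2 (b x0)⁻¹ * Pi.mulSingle 3 (gseq m)) =
        iota (Pi.mulSingle 2 (b x0)⁻¹) * iota (Pi.mulSingle 3 (gseq m)) := by
        rw [← map_mul]; rfl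
      rw [this]
      change (at1 2 (b x0))⁻¹ * at1 3 (gseq m) = at1 2 (b x0)⁻¹ * at1 3 (gseq m)
      rw [map_inv]
    rw [Nat.succ_eq_add_one, h1, mk_mem_K] at h
    have h2 := h.2 2
    have h3 : (Pi.mulSingle 2 (b x0)⁻¹ * Pi.mulSingle 3 (gseq m) : Fin 5 → PW) 2 = (b x0)⁻¹ := by
      rw [Pi.mul_apply, Pi.mulSingle_eq_same, Pi.mulSingle_eq_of_ne (by decide), mul_one]
    rw [h3, Subgroup.inv_mem_iff, b_mem_K_iff] at h2
    exact x0_notMem h2
  | succ n ih =>
    intro m hm h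
    obtain ⟨m, rfl⟩ := Nat.exists_eq_succ_of_ne_zero (by lia : m ≠ 0)
    have h1 : (gseq (n + 1))⁻¹ * gseq (m + 1) = at1 3 ((gseq n)⁻¹ * gseq m) := by
      rw [map_mul, map_inv]; rfl
    rw [Nat.succ_eq_add_one, h1, at1_mem_K] at h
    exact ih m (by lia) h

theorem relIndex_KD : KD.relIndex GG = 0 := by
  by_contra h
  have h1 : (KD.subgroupOf GG).FiniteIndex := ⟨h⟩
  have h2 : Finite (GG ⧸ KD.subgroupOf GG) := inferInstance
  obtain ⟨n, m, hnm, heq⟩ := Finite.exists_ne_map_eq_of_infinite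
    (fun n : ℕ => (QuotientGroup.mk (⟨gseq n, KA_le_GG (gseq_mem n)⟩ : GG) :
      GG ⧸ KD.subgroupOf GG))
  have key : ∀ n m : ℕ, (QuotientGroup.mk (⟨gseq n, KA_le_GG (gseq_mem n)⟩ : GG) :
      GG ⧸ KD.subgroupOf GG) = QuotientGroup.mk (⟨gseq m, KA_le_GG (gseq_mem m)⟩ : GG) →
      ¬ n < m := by
    intro n m h hlt
    rw [QuotientGroup.eq, Subgroup.mem_subgroupOf] at h
    exact gseq_notMem n m hlt h
  rcases lt_or_gt_of_ne hnm with h | h
  · exact key n m heq h
  · exact key m n heq.symm h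

theorem relIndex_KA : KA.relIndex GG ≠ 0 := by
  have h1 : Finite (GG ⧸ KA.subgroupOf GG) := by
    apply Finite.of_surjective (fun c : Bool =>
      (QuotientGroup.mk (if c then (⟨tau, tau_mem_GG⟩ : GG) else 1) : GG ⧸ KA.subgroupOf GG))
    intro q
    obtain ⟨⟨g, hg⟩, rfl⟩ := QuotientGroup.mk_surjective q
    rcases hg with hg | hg
    · refine ⟨false, ?_⟩
      simp only [Bool.false_eq_true, if_false]
      rw [QuotientGroup.eq, Subgroup.mem_subgroupOf]
      simpa using hg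
    · refine ⟨true, ?_⟩
      simp only [if_true]
      rw [QuotientGroup.eq, Subgroup.mem_subgroupOf]
      change tau⁻¹ * g ∈ KA
      rw [tau_inv]
      exact hg
  exact (Subgroup.finiteIndex_of_finite_quotient (H := KA.subgroupOf GG)).index_ne_zero

theorem max_finite_index {M : Subgroup PW} (hM : IsMaximalIn M GG) (hle : KD ≤ M) :
    M.relIndex GG ≠ 0 := by
  by_cases hK : M ≤ KA
  · have hKG : KA ≠ GG := by
      intro h
      apply tau_notMem
      rw [h]
      exact tau_mem_GG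
    have h1 : M = KA := by
      by_contra hne
      exact hKG (hM.2 KA (lt_of_le_of_ne hK hne) KA_le_GG)
    rw [h1]
    exact relIndex_KA
  · obtain ⟨g, hgM, hgK⟩ := SetLike.not_le_iff_exists.1 hK
    have h1 : KA ≤ M := KA_le_of_mem hle hgM (hM.1.le hgM) hgK
    intro h0
    have h2 := Subgroup.relIndex_dvd_of_le_left GG h1
    rw [h0, zero_dvd_iff] at h2
    exact relIndex_KA h2

end Pool.Agent.V1132.BranchMax
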