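import Mathlib

/-!
# Branch groups acting on regular rooted trees

The vertices of the `d`-regular rooted tree are the finite words over `Fin d`, the root is the empty
word, and the subtree rooted at a word `u` consists of the words `u ++ w`.
-/

set_option autoImplicit false

namespace Pool.Agent.V1132.BranchMax

/-- The group of automorphisms of the `d`-regular rooted tree: the permutations of the set of
finite words over `Fin d` that preserve the length of words and the initial segment relation. -/
def TreeAut (d : ℕ) : Subgroup (Equiv.Perm (List (Fin d))) where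
  carrier := {f | (∀ w, (f w).length = w.length) ∧ ∀ u v, f u <+: f v ↔ u <+: v}
  one_mem' := ⟨fun _ => rfl, fun _ _ => Iff.rfl⟩
  mul_mem' := by
    rintro f g ⟨hf1, hf2⟩ ⟨hg1, hg2⟩
    refine ⟨fun w => ?_, fun u v => ?_⟩
    · rw [Equiv.Perm.mul_apply, hf1, hg1]
    · rw [Equiv.Perm.mul_apply, Equiv.Perm.mul_apply, hf2, hg2]
  inv_mem' := by
    rintro f ⟨hf1, hf2⟩
    have key : ∀ w, f (f⁻¹ w) = w := fun w => f.apply_symm_apply w
    refine ⟨fun w => ?_, fun u v => ?_⟩
    · rw [← hf1 (f⁻¹ w), key]
    · rw [← hf2 (f⁻¹ u), key, key]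

/-- The rigid vertex stabiliser of `v` in `G`: the elements of `G` which fix all the vertices of the
layer of `v` and act trivially on the subtree rooted at `u` for each `u ≠ v` in that layer. -/
def rist {d : ℕ} (G : Subgroup (Equiv.Perm (List (Fin d)))) (v : List (Fin d)) :
    Set (Equiv.Perm (List (Fin d))) :=
  {g | g ∈ G ∧ (∀ u, u.length = v.length → g u = u) ∧
    ∀ u, u.length = v.length → u ≠ v → ∀ w, g (u ++ w) = u ++ w}

/-- The `n`-th rigid layer stabiliser of `G`. -/
def Rist {d : ℕ} (G : Subgroup (Equiv.Perm (List (Fin d)))) (n : ℕ) :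
    Subgroup (Equiv.Perm (List (Fin d))) :=
  Subgroup.closure {g | ∃ v : List (Fin d), v.length = n ∧ g ∈ rist G v}

/-- `G` is a branch group of automorphisms of the `d`-regular rooted tree. -/
structure IsBranch {d : ℕ} (G : Subgroup (Equiv.Perm (List (Fin d)))) : Prop where
  le_treeAut : G ≤ TreeAut d
  transitive : ∀ v w : List (Fin d), v.length = w.length → ∃ g ∈ G, g v = w
  finite_index : ∀ n : ℕ, (Rist G n).relIndex G ≠ 0

/-- `M` is a maximal subgroup of `G`. -/
def IsMaximalIn {Γ : Type*} [Group Γ] (M G : Subgroup Γ) : Prop :=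
  M < G ∧ ∀ K : Subgroup Γ, M < K → K ≤ G → K = G

end Pool.Agent.V1132.BranchMax
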