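import Mathlib
import Pool.Agent.Helper832.AutC.Burnside

/-!
Class-preserving automorphisms and the bound `|Aut_c(G)| ≤ |γ₂(G)|^d`: basic facts.
-/

set_option autoImplicit false

open scoped commutatorElement

namespace Pool.Agent.V1132.CPA

variable {G : Type} [Group G]

/-- `α` maps every element to a conjugate -/
def CP (α : MulAut G) : Prop := ∀ x : G, IsConj x (α x)

/-- every choice `x_i ↦ c_i x_i` with `c_i` in the derived subgroup extends to a class-preserving
automorphism -/
def GoodAt {d : ℕ} (x : Fin d → G) : Prop :=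
  ∀ c : Fin d → G, (∀ i, c i ∈ commutator G) → ∃ α : MulAut G, CP α ∧ ∀ i, α (x i) = c i * x i

theorem comm_mem (a b : G) : ⁅a, b⁆ ∈ commutator G :=
  Subgroup.commutator_mem_commutator (Subgroup.mem_top a) (Subgroup.mem_top b)

theorem conj_mem {a : G} (ha : a ∈ commutator G) (g : G) : g * a * g⁻¹ ∈ commutator G :=
  (inferInstance : (commutator G).Normal).conj_mem a ha g

theorem conj_mem' {a : G} (ha : a ∈ commutator G) (g : G) : g⁻¹ * a * g ∈ commutator G := by
  have := conj_mem ha g⁻¹
  rwa [inv_inv] at this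

theorem CP.del {α : MulAut G} (h : CP α) (x : G) : α x * x⁻¹ ∈ commutator G := by
  obtain ⟨c, hc⟩ := isConj_iff.mp (h x)
  rw [← hc]
  exact comm_mem c x

theorem CP.mul {α β : MulAut G} (hα : CP α) (hβ : CP β) : CP (α * β) :=
  fun x => (hβ x).trans (hα (β x))

theorem CP.conj (g : G) : CP (MulAut.conj g) := fun _ => isConj_iff.mpr ⟨g, rfl⟩

theorem CP.inv {α : MulAut G} (h : CP α) : CP α⁻¹ := by
  intro x
  have h1 := h (α⁻¹ x)
  rw [MulAut.apply_inv_self] at h1
  exact h1.symm

theorem aut_ext {d : ℕ} {x : Fin d → G} (hx : Subgroup.closure (Set.range x) = ⊤)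
    {α β : MulAut G} (h : ∀ i, α (x i) = β (x i)) : α = β := by
  have h1 : (α : G →* G) = (β : G →* G) := by
    refine MonoidHom.eq_of_eqOn_dense hx ?_
    rintro _ ⟨i, rfl⟩
    exact h i
  exact MulEquiv.ext (fun g => DFunLike.congr_fun h1 g)

theorem card_iff [Finite G] {d : ℕ} {x : Fin d → G} (hx : Subgroup.closure (Set.range x) = ⊤) :
    Nat.card {α : MulAut G // CP α} = Nat.card (commutator G) ^ d ↔ GoodAt x := by
  classical
  let F : {α : MulAut G // CP α} → (Fin d → commutator G) :=
    fun α i => ⟨α.1 (x i) * (x i)⁻¹, α.2.del (x i)⟩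
  have hinj : Function.Injective F := by
    intro α β h
    apply Subtype.ext
    refine aut_ext hx (fun i => ?_)
    have h1 := congrArg Subtype.val (congrFun h i)
    exact mul_right_cancel h1
  have hcard : Nat.card (Fin d → commutator G) = Nat.card (commutator G) ^ d := by
    rw [Nat.card_fun, Nat.card_eq_fintype_card (α := Fin d), Fintype.card_fin]
  constructor
  · intro h c hc
    have h1 : Nat.card (Fin d → commutator G) ≤ Nat.card {α : MulAut G // CP α} := by
      rw [hcard]; exact h.ge
    have hbij : Function.Bijective F := hinj.bijective_of_nat_card_le h1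
    obtain ⟨α, hα⟩ := hbij.2 (fun i => ⟨c i, hc i⟩)
    refine ⟨α.1, α.2, fun i => ?_⟩
    have h2 := congrArg Subtype.val (congrFun hα i)
    have h3 : α.1 (x i) * (x i)⁻¹ = c i := h2
    rw [← h3, inv_mul_cancel_right]
  · intro h
    have hbij : Function.Bijective F := by
      refine ⟨hinj, fun c => ?_⟩
      obtain ⟨α, hα, hα'⟩ := h (fun i => (c i).1) (fun i => (c i).2)
      refine ⟨⟨α, hα⟩, funext (fun i => Subtype.ext ?_)⟩
      show α (x i) * (x i)⁻¹ = c i
      rw [hα', mul_inv_cancel_right]
    rw [← hcard]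
    exact Nat.card_eq_of_bijective F hbij

theorem GoodAt.other [Finite G] {d : ℕ} {x y : Fin d → G}
    (hx : Subgroup.closure (Set.range x) = ⊤) (hy : Subgroup.closure (Set.range y) = ⊤)
    (h : GoodAt x) : GoodAt y :=
  (card_iff hy).mp ((card_iff hx).mpr h)

/-- some (equivalently every) generating `d`-tuple is good -/
def Good (d : ℕ) (G : Type) [Group G] : Prop :=
  ∃ x : Fin d → G, Subgroup.closure (Set.range x) = ⊤ ∧ GoodAt x

theorem Good.at [Finite G] {d : ℕ} (h : Good d G) {x : Fin d → G}
    (hx : Subgroup.closure (Set.range x) = ⊤) : GoodAt x := by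
  obtain ⟨y, hy, hg⟩ := h
  exact hg.other hy hx

/-- members of a good tuple have a full class -/
theorem GoodAt.full {d : ℕ} {x : Fin d → G} (h : GoodAt x) (i : Fin d) {c : G}
    (hc : c ∈ commutator G) : IsConj (x i) (c * x i) := by
  classical
  obtain ⟨α, hα, hα'⟩ := h (Function.update 1 i c) (by
    intro j
    by_cases hj : j = i
    · subst hj; rw [Function.update_self]; exact hc
    · rw [Function.update_of_ne hj]; exact one_mem _)
  have h1 := hα (x i)
  rw [hα' i, Function.update_self] at h1
  exact h1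

/-- an automorphism moving only `x i` -/
theorem GoodAt.one {d : ℕ} {x : Fin d → G} (h : GoodAt x) (i : Fin d) {c : G}
    (hc : c ∈ commutator G) : ∃ α : MulAut G, CP α ∧ α (x i) = c * x i ∧
      ∀ j, j ≠ i → α (x j) = x j := by
  classical
  obtain ⟨α, hα, hα'⟩ := h (Function.update 1 i c) (by
    intro j
    by_cases hj : j = i
    · subst hj; rw [Function.update_self]; exact hc
    · rw [Function.update_of_ne hj]; exact one_mem _)
  refine ⟨α, hα, ?_, fun j hj => ?_⟩
  · rw [hα' i, Function.update_self]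
  · rw [hα' j, Function.update_of_ne hj, Pi.one_apply, one_mul]

/-- full class: every element of the derived subgroup is a commutator with `x` -/
theorem full_comm {u : G} (h : ∀ c ∈ commutator G, IsConj u (c * u)) {s : G}
    (hs : s ∈ commutator G) : ∃ g : G, ⁅u, g⁆ = s := by
  obtain ⟨g, hg⟩ := isConj_iff.mp (h s⁻¹ (inv_mem hs))
  refine ⟨g, ?_⟩
  have h1 : g * u⁻¹ * g⁻¹ = u⁻¹ * s := by
    have := congrArg (fun t => t⁻¹) hg
    simp only [mul_inv_rev, inv_inv] at this
    rw [← this]; group
  rw [commutatorElement_def]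
  calc u * g * u⁻¹ * g⁻¹ = u * (g * u⁻¹ * g⁻¹) := by group
    _ = s := by rw [h1, mul_inv_cancel_left]

/-! ### quotients -/

theorem CP.map_eq {α : MulAut G} (h : CP α) (N : Subgroup G) [hN : N.Normal] :
    N.map (α : G →* G) = N := by
  apply le_antisymm
  · rintro _ ⟨n, hn, rfl⟩
    obtain ⟨c, hc⟩ := isConj_iff.mp (h n)
    show α n ∈ N
    rw [← hc]
    exact hN.conj_mem n hn c
  · intro n hn
    refine ⟨α⁻¹ n, ?_, MulAut.apply_inv_self _ _ _⟩
    obtain ⟨c, hc⟩ := isConj_iff.mp (h.inv n)
    rw [← hc]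
    exact hN.conj_mem n hn c

theorem map_comm_mk (N : Subgroup G) [N.Normal] :
    (commutator G).map (QuotientGroup.mk' N) = commutator (G ⧸ N) := by
  rw [commutator_def, commutator_def, Subgroup.map_commutator,
    Subgroup.map_top_of_surjective _ (QuotientGroup.mk'_surjective N)]

theorem gen_mk {d : ℕ} {x : Fin d → G} (hx : Subgroup.closure (Set.range x) = ⊤)
    (N : Subgroup G) [N.Normal] :
    Subgroup.closure (Set.range (fun i => (x i : G ⧸ N))) = ⊤ := by
  have e1 : Set.range (fun i => (x i : G ⧸ N)) = QuotientGroup.mk' N '' Set.range x := by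
    rw [← Set.range_comp]; rfl
  rw [e1, ← MonoidHom.map_closure, hx,
    Subgroup.map_top_of_surjective _ (QuotientGroup.mk'_surjective N)]

theorem GoodAt.quot {d : ℕ} {x : Fin d → G} (h : GoodAt x) (N : Subgroup G) [N.Normal] :
    GoodAt (fun i => (x i : G ⧸ N)) := by
  intro c hc
  have h1 : ∀ i, ∃ b : G, b ∈ commutator G ∧ (b : G ⧸ N) = c i := by
    intro i
    have := hc i
    rw [← map_comm_mk N] at this
    obtain ⟨b, hb, hb'⟩ := this
    exact ⟨b, hb, hb'⟩
  choose b hb hb' using h1
  obtain ⟨α, hα, hα'⟩ := h b hb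
  refine ⟨QuotientGroup.congr N N α (hα.map_eq N), ?_, ?_⟩
  · intro q
    obtain ⟨g, rfl⟩ := QuotientGroup.mk'_surjective N q
    have e1 : QuotientGroup.congr N N α (hα.map_eq N) (QuotientGroup.mk' N g)
        = QuotientGroup.mk' N (α g) := rfl
    rw [e1]
    obtain ⟨k, hk⟩ := isConj_iff.mp (hα g)
    refine isConj_iff.mpr ⟨QuotientGroup.mk' N k, ?_⟩
    rw [← map_mul, ← map_inv, ← map_mul, hk]
  · intro i
    have e1 : QuotientGroup.congr N N α (hα.map_eq N) ((x i : G) : G ⧸ N)
        = QuotientGroup.mk' N (α (x i)) := rfl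
    rw [e1, hα' i, map_mul]
    show ((b i : G) : G ⧸ N) * _ = _
    rw [hb' i]; rfl

theorem Good.quot {d : ℕ} (h : Good d G) (N : Subgroup G) [N.Normal] : Good d (G ⧸ N) := by
  obtain ⟨x, hx, hg⟩ := h
  exact ⟨_, gen_mk hx N, hg.quot N⟩

/-! ### finite sets closed under conjugation by generators -/

theorem conj_closed [Finite G] {S : Set G} {T : Set G} (hT : Subgroup.closure T = ⊤)
    (h : ∀ g ∈ T, ∀ s ∈ S, g * s * g⁻¹ ∈ S) {s t : G} (hs : s ∈ S) (hst : IsConj s t) : t ∈ S := by
  have key : ∀ g : G, ∀ s ∈ S, g * s * g⁻¹ ∈ S := by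
    intro g
    have hg : g ∈ Submonoid.closure T := by
      have h1 : g ∈ Subgroup.closure T := by rw [hT]; trivial
      have h2 : (Subgroup.closure T).toSubmonoid = Submonoid.closure T :=
        Subgroup.closure_toSubmonoid_of_finite
      rw [← h2]; exact h1
    induction hg using Submonoid.closure_induction with
    | mem g hg => exact h g hg
    | one => intro s hs; simpa using hs
    | mul a b _ _ ha hb =>
      intro s hs
      have e1 : a * b * s * (a * b)⁻¹ = a * (b * s * b⁻¹) * a⁻¹ := by group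
      rw [e1]
      exact ha _ (hb s hs)
  obtain ⟨c, hc⟩ := isConj_iff.mp hst
  rw [← hc]
  exact key c s hs

/-- if the class of `y` is full then every invariant set containing `y` contains `γ₂ y` -/
theorem card_le_of_closed [Finite G] {S : Finset G} {T : Set G} (hT : Subgroup.closure T = ⊤)
    (h : ∀ g ∈ T, ∀ s ∈ S, g * s * g⁻¹ ∈ S) {y : G} (hy : y ∈ S)
    (hfull : ∀ c ∈ commutator G, IsConj y (c * y)) : Nat.card (commutator G) ≤ S.card := by
  classical
  have h1 : ∀ c : commutator G, (c : G) * y ∈ S := fun c =>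
    conj_closed (S := (S : Set G)) hT h hy (hfull c c.2)
  have h2 : Function.Injective (fun c : commutator G => (⟨(c : G) * y, h1 c⟩ : S)) := by
    intro a b hab
    have := congrArg Subtype.val hab
    exact Subtype.ext (mul_right_cancel this)
  have h3 := Nat.card_le_card_of_injective _ h2
  rwa [Nat.card_eq_fintype_card (α := S), Fintype.card_coe] at h3

end Pool.Agent.V1132.CPA
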