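import Mathlib
import Pool.Agent.V1132.CPA1

/-!
Groups of class exactly three in which the bound `|γ₂|^d` is attained have `d ≤ 2`.
-/

set_option autoImplicit false

open scoped commutatorElement

namespace Pool.Agent.V1132.CPA

variable {G : Type} [Group G]

section three

variable (h3 : ∀ a ∈ commutator G, ∀ g k : G, ⁅a, g⁆ * k = k * ⁅a, g⁆)
  (hab : ∀ a ∈ commutator G, ∀ b ∈ commutator G, a * b = b * a)

include h3

theorem br_mul_right {a : G} (ha : a ∈ commutator G) (g k : G) : ⁅a, g * k⁆ = ⁅a, g⁆ * ⁅a, k⁆ := by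
  have h1 : ⁅a, g * k⁆ = ⁅a, g⁆ * (g * ⁅a, k⁆ * g⁻¹) := by
    simp only [commutatorElement_def]; group
  rw [h1, ← h3 a ha k g, mul_inv_cancel_right]

theorem br_mul_left {a b : G} (_ha : a ∈ commutator G) (hb : b ∈ commutator G) (g : G) :
    ⁅a * b, g⁆ = ⁅a, g⁆ * ⁅b, g⁆ := by
  have h1 : ⁅a * b, g⁆ = a * ⁅b, g⁆ * a⁻¹ * ⁅a, g⁆ := by
    simp only [commutatorElement_def]; group
  rw [h1, ← h3 b hb g a, mul_inv_cancel_right, h3 b hb]

theorem br_inv_right {a : G} (ha : a ∈ commutator G) (g : G) : ⁅a, g⁻¹⁆ = ⁅a, g⁆⁻¹ := by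
  have h1 := br_mul_right h3 ha g g⁻¹
  rw [mul_inv_cancel, commutatorElement_one_right] at h1
  exact (inv_eq_of_mul_eq_one_right h1.symm).symm

theorem br_pow_right {a : G} (ha : a ∈ commutator G) (g : G) (n : ℕ) : ⁅a, g ^ n⁆ = ⁅a, g⁆ ^ n := by
  induction n with
  | zero => rw [pow_zero, pow_zero, commutatorElement_one_right]
  | succ n ih => rw [pow_succ, br_mul_right h3 ha, ih, pow_succ]

theorem br_zpow_right {a : G} (ha : a ∈ commutator G) (g : G) (n : ℤ) :
    ⁅a, g ^ n⁆ = ⁅a, g⁆ ^ n := by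
  cases n with
  | ofNat n => rw [Int.ofNat_eq_natCast, zpow_natCast, zpow_natCast, br_pow_right h3 ha]
  | negSucc n => rw [zpow_negSucc, zpow_negSucc, br_inv_right h3 ha, br_pow_right h3 ha]

/-- `ε(g) = ⁅α(g) g⁻¹, u⁆` is multiplicative -/
theorem eps_mul {α : MulAut G} (hα : CP α) (u g k : G) :
    ⁅α (g * k) * (g * k)⁻¹, u⁆ = ⁅α g * g⁻¹, u⁆ * ⁅α k * k⁻¹, u⁆ := by
  have e1 : α (g * k) * (g * k)⁻¹ = (α g * g⁻¹) * (g * (α k * k⁻¹) * g⁻¹) := by
    rw [map_mul]; group
  have m1 : α g * g⁻¹ ∈ commutator G := hα.del g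
  have m2 : α k * k⁻¹ ∈ commutator G := hα.del k
  have m3 : g * (α k * k⁻¹) * g⁻¹ ∈ commutator G := conj_mem m2 g
  rw [e1, br_mul_left h3 m1 m3]
  congr 1
  have e2 : g * (α k * k⁻¹) * g⁻¹ = ⁅α k * k⁻¹, g⁆⁻¹ * (α k * k⁻¹) := by
    simp only [commutatorElement_def]; group
  have m4 : ⁅α k * k⁻¹, g⁆⁻¹ ∈ commutator G := inv_mem (comm_mem _ _)
  rw [e2, br_mul_left h3 m4 m2]
  have h5 : ⁅(⁅α k * k⁻¹, g⁆)⁻¹, u⁆ = 1 := by
    rw [commutatorElement_eq_one_iff_mul_comm]
    have := h3 _ m2 g u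
    have h6 : Commute ⁅α k * k⁻¹, g⁆ u := this
    exact h6.inv_left
  rw [h5, one_mul]

/-- the exponent of `x j` in `g` -/
theorem eps_exp {d : ℕ} {x : Fin d → G} (hx : Subgroup.closure (Set.range x) = ⊤) (j : Fin d)
    (u g : G) : ∃ l : ℤ, ∀ c ∈ commutator G, ∀ α : MulAut G, CP α → α (x j) = c * x j →
      (∀ i, i ≠ j → α (x i) = x i) → ⁅α g * g⁻¹, u⁆ = ⁅c, u⁆ ^ l := by
  have hg : g ∈ Subgroup.closure (Set.range x) := by rw [hx]; trivial
  induction hg using Subgroup.closure_induction with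
  | mem s hs =>
    obtain ⟨i, rfl⟩ := hs
    by_cases hij : i = j
    · subst hij
      refine ⟨1, fun c _ α _ h1 _ => ?_⟩
      rw [h1, mul_inv_cancel_right, zpow_one]
    · refine ⟨0, fun c _ α _ _ h2 => ?_⟩
      rw [h2 i hij, mul_inv_cancel, commutatorElement_one_left, zpow_zero]
  | one =>
    refine ⟨0, fun c _ α _ _ _ => ?_⟩
    rw [map_one, one_mul, inv_one, commutatorElement_one_left, zpow_zero]
  | mul a b _ _ ha hb =>
    obtain ⟨l, hl⟩ := ha
    obtain ⟨m, hm⟩ := hb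
    refine ⟨l + m, fun c hc α hα h1 h2 => ?_⟩
    rw [eps_mul h3 hα, hl c hc α hα h1 h2, hm c hc α hα h1 h2, zpow_add]
  | inv a _ ha =>
    obtain ⟨l, hl⟩ := ha
    refine ⟨-l, fun c hc α hα h1 h2 => ?_⟩
    have h4 := eps_mul h3 hα u a a⁻¹
    rw [mul_inv_cancel, map_one, one_mul, inv_one, commutatorElement_one_left,
      hl c hc α hα h1 h2] at h4
    rw [zpow_neg]
    exact (inv_eq_of_mul_eq_one_right h4.symm).symm

include hab

theorem three_main [Finite G] {d : ℕ} {x : Fin d → G}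
    (hx : Subgroup.closure (Set.range x) = ⊤) (hgood : GoodAt x) (hd : 3 ≤ d)
    {i : Fin d} (hi : ∃ a ∈ commutator G, ⁅a, x i⁆ ≠ 1) : False := by
  classical
  -- conjugation by elements of the derived subgroup on commutators
  have hbr : ∀ a ∈ commutator G, ∀ g k : G, ⁅a * g, k⁆ = ⁅g, k⁆ * ⁅a, k⁆ := by
    intro a ha g k
    have h1 : ⁅a * g, k⁆ = a * ⁅g, k⁆ * a⁻¹ * ⁅a, k⁆ := by
      simp only [commutatorElement_def]; group
    rw [h1, hab a ha _ (comm_mem g k), mul_inv_cancel_right]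
  have hbr2 : ∀ a ∈ commutator G, ∀ g k : G, ⁅k, a * g⁆ = ⁅k, g⁆ * ⁅a, k⁆⁻¹ := by
    intro a ha g k
    have h6 : Commute ⁅a, k⁆ ⁅k, g⁆ := h3 a ha k _
    have h7 : ⁅k, a * g⁆ = (⁅a * g, k⁆)⁻¹ := (commutatorElement_inv _ _).symm
    rw [h7, hbr a ha, mul_inv_rev, commutatorElement_inv g k]
    exact (h6.inv_left).eq
  -- step 1: every other generator is `u`-power modulo the centraliser of `γ₂`
  have step : ∀ k : Fin d, k ≠ i → ∃ l : ℤ, ∀ c ∈ commutator G, ⁅c, x k⁆ = ⁅c, x i⁆ ^ l := by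
    intro k hki
    obtain ⟨j, hj⟩ : ∃ j : Fin d, j ∉ ({i, k} : Finset (Fin d)) := by
      by_contra hcon
      push Not at hcon
      have h1 : Finset.univ ⊆ ({i, k} : Finset (Fin d)) := fun j _ => hcon j
      have h2 := Finset.card_le_card h1
      rw [Finset.card_univ, Fintype.card_fin] at h2
      have h3' := Finset.card_le_two (a := i) (b := k)
      omega
    have hji : j ≠ i := fun h => hj (by simp [h])
    have hjk : j ≠ k := fun h => hj (by simp [h])
    obtain ⟨g, hg⟩ := full_comm (fun c hc => hgood.full i hc) (comm_mem (x j) (x k))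
    obtain ⟨l, hl⟩ := eps_exp h3 hx j (x i) g
    refine ⟨-l, fun c hc => ?_⟩
    obtain ⟨α, hα, h1, h2⟩ := hgood.one j hc
    have e1 := congrArg α hg
    rw [map_commutatorElement, map_commutatorElement, h1, h2 i hji.symm, h2 k hjk.symm] at e1
    have e2 : α g = (α g * g⁻¹) * g := by group
    rw [e2, hbr2 _ (hα.del g), hl c hc α hα h1 h2, hbr c hc, hg] at e1
    rw [zpow_neg]
    exact (mul_left_cancel e1).symm
  choose! l hl using step
  -- new generators
  let y : Fin d → G := fun k => if k = i then x i else x k * x i ^ (-(l k))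
  have hyi : y i = x i := if_pos rfl
  have hyk : ∀ k, k ≠ i → y k = x k * x i ^ (-(l k)) := fun k hk => if_neg hk
  have hygen : Subgroup.closure (Set.range y) = ⊤ := by
    rw [eq_top_iff, ← hx, Subgroup.closure_le]
    have m1 : x i ∈ Subgroup.closure (Set.range y) := Subgroup.subset_closure ⟨i, hyi⟩
    rintro _ ⟨k, rfl⟩
    by_cases hk : k = i
    · subst hk; exact m1
    · have m2 : y k ∈ Subgroup.closure (Set.range y) := Subgroup.subset_closure ⟨k, rfl⟩
      have e1 : x k = y k * x i ^ (l k) := by rw [hyk k hk]; group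
      rw [e1]
      exact mul_mem m2 (zpow_mem m1 _)
  have hycen : ∀ k, k ≠ i → ∀ c ∈ commutator G, ⁅c, y k⁆ = 1 := by
    intro k hk c hc
    rw [hyk k hk, br_mul_right h3 hc, br_zpow_right h3 hc, hl k hk c hc, zpow_neg, mul_inv_cancel]
  have hygood : GoodAt y := hgood.other hx hygen
  obtain ⟨j, hji, k, hki, hjk⟩ : ∃ j : Fin d, j ≠ i ∧ ∃ k : Fin d, k ≠ i ∧ j ≠ k := by
    obtain ⟨j, hj⟩ : ∃ j : Fin d, j ∉ ({i} : Finset (Fin d)) := by
      by_contra hcon
      push Not at hcon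
      have h1 : Finset.univ ⊆ ({i} : Finset (Fin d)) := fun j _ => hcon j
      have h2 := Finset.card_le_card h1
      rw [Finset.card_univ, Fintype.card_fin, Finset.card_singleton] at h2
      omega
    obtain ⟨k, hk⟩ : ∃ k : Fin d, k ∉ ({i, j} : Finset (Fin d)) := by
      by_contra hcon
      push Not at hcon
      have h1 : Finset.univ ⊆ ({i, j} : Finset (Fin d)) := fun j _ => hcon j
      have h2 := Finset.card_le_card h1
      rw [Finset.card_univ, Fintype.card_fin] at h2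
      have h3' := Finset.card_le_two (a := i) (b := j)
      omega
    exact ⟨j, fun h => hj (by simp [h]), k, fun h => hk (by simp [h]), fun h => hk (by simp [h])⟩
  obtain ⟨g, hg⟩ := full_comm (fun c hc => hygood.full j hc) (comm_mem (y k) (y i))
  obtain ⟨a, ha, hne⟩ := hi
  obtain ⟨α, hα, h1, h2⟩ := hygood.one k ha
  have e1 := congrArg α hg
  rw [map_commutatorElement, map_commutatorElement, h1, h2 i hki.symm, h2 j hjk] at e1
  have e2 : α g = (α g * g⁻¹) * g := by group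
  rw [e2, hbr2 _ (hα.del g), hycen j hji _ (hα.del g), inv_one, mul_one, hbr a ha, hg] at e1
  have e3 : ⁅a, y i⁆ = 1 := by
    have := mul_left_cancel (a := ⁅y k, y i⁆) (b := 1) (c := ⁅a, y i⁆) (by rw [mul_one]; exact e1)
    exact this.symm
  rw [hyi] at e3
  exact hne e3

end three

end Pool.Agent.V1132.CPA
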