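import Mathlib
import Pool.Agent.V1132.CPA2

/-!
Two-generator 2-groups attaining the bound: calculations in class at most four.
-/

set_option autoImplicit false

open scoped commutatorElement

namespace Pool.Agent.V1132.CPA

variable {G : Type} [Group G]

/-- full conjugacy class -/
def Full (y : G) : Prop := ∀ c ∈ commutator G, IsConj y (c * y)

theorem bound_list [Finite G] {x y : G} (hgen : Subgroup.closure {x, y} = ⊤) (L : List G)
    (hx : ∀ s ∈ L, x * s * x⁻¹ ∈ L) (hy : ∀ s ∈ L, y * s * y⁻¹ ∈ L) {k : G} (hk : k ∈ L)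
    (hf : Full k) : Nat.card (commutator G) ≤ L.length := by
  classical
  refine le_trans (card_le_of_closed (S := L.toFinset) hgen ?_ (List.mem_toFinset.mpr hk) hf)
    (List.toFinset_card_le L)
  rintro g (rfl | rfl) s hs
  · exact List.mem_toFinset.mpr (hx s (List.mem_toFinset.mp hs))
  · exact List.mem_toFinset.mpr (hy s (List.mem_toFinset.mp hs))

theorem not_conj_list [Finite G] {x y : G} (hgen : Subgroup.closure {x, y} = ⊤) (L : List G)
    (hx : ∀ s ∈ L, x * s * x⁻¹ ∈ L) (hy : ∀ s ∈ L, y * s * y⁻¹ ∈ L) {k : G} (hk : k ∈ L)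
    {l : G} (hl : IsConj k l) : l ∈ L := by
  refine conj_closed (S := {s | s ∈ L}) hgen ?_ hk hl
  rintro g (rfl | rfl) s hs
  · exact hx s hs
  · exact hy s hs

/-- `γ₂ ≤ N` as soon as `N` contains `⁅x, y⁆` and is normalised by the generators -/
theorem comm_le_of [Finite G] {x y : G} (hgen : Subgroup.closure {x, y} = ⊤) (N : Subgroup G)
    (hx : ∀ s ∈ N, x * s * x⁻¹ ∈ N) (hy : ∀ s ∈ N, y * s * y⁻¹ ∈ N) (hz : ⁅x, y⁆ ∈ N) :
    commutator G ≤ N := by
  haveI : N.Normal := by
    refine ⟨fun n hn g => ?_⟩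
    refine conj_closed (S := (N : Set G)) hgen ?_ hn (isConj_iff.mpr ⟨g, rfl⟩)
    rintro g (rfl | rfl) s hs
    · exact hx s hs
    · exact hy s hs
  rw [commutator_def, Subgroup.commutator_le]
  let π := QuotientGroup.mk' N
  have hπ : ∀ g : G, π g = 1 ↔ g ∈ N := fun g => QuotientGroup.eq_one_iff g
  have hxy : π x * π y = π y * π x := by
    rw [← commutatorElement_eq_one_iff_mul_comm, ← map_commutatorElement, hπ]
    exact hz
  have hg2 : Subgroup.closure ({π x, π y} : Set (G ⧸ N)) = ⊤ := by
    have e1 : ({π x, π y} : Set _) = π '' {x, y} := by rw [Set.image_pair]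
    rw [e1, ← MonoidHom.map_closure, hgen,
      Subgroup.map_top_of_surjective _ (QuotientGroup.mk'_surjective N)]
  have hcen : ∀ q : G ⧸ N, q * π x = π x * q ∧ q * π y = π y * q := by
    have h1 : (⊤ : Subgroup (G ⧸ N)) ≤ Subgroup.centralizer {π x, π y} := by
      rw [← hg2, Subgroup.closure_le]
      rintro _ (rfl | rfl)
      · rw [SetLike.mem_coe, Subgroup.mem_centralizer_iff]
        rintro _ (rfl | rfl)
        · rfl
        · exact hxy.symm
      · rw [SetLike.mem_coe, Subgroup.mem_centralizer_iff]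
        rintro _ (rfl | rfl)
        · exact hxy
        · rfl
    intro q
    have h2 := Subgroup.mem_centralizer_iff.mp (h1 (Subgroup.mem_top q))
    exact ⟨(h2 _ (Or.inl rfl)).symm, (h2 _ (Or.inr rfl)).symm⟩
  have hcen2 : (⊤ : Subgroup (G ⧸ N)) ≤ Subgroup.center (G ⧸ N) := by
    rw [← hg2, Subgroup.closure_le]
    rintro _ (rfl | rfl)
    · rw [SetLike.mem_coe, Subgroup.mem_center_iff]
      exact fun q => (hcen q).1
    · rw [SetLike.mem_coe, Subgroup.mem_center_iff]
      exact fun q => (hcen q).2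
  intro g _ h _
  rw [← hπ, map_commutatorElement, commutatorElement_eq_one_iff_mul_comm]
  exact ((Subgroup.mem_center_iff.mp (hcen2 (Subgroup.mem_top (π g)))) (π h)).symm

/-- a subgroup given by a list closed under multiplication bounds the order of `γ₂` -/
theorem card_comm_le_list [Finite G] {x y : G} (hgen : Subgroup.closure {x, y} = ⊤) (L : List G)
    (h1 : (1 : G) ∈ L) (hmul : ∀ s ∈ L, ∀ t ∈ L, s * t ∈ L)
    (hx : ∀ s ∈ L, x * s * x⁻¹ ∈ L) (hy : ∀ s ∈ L, y * s * y⁻¹ ∈ L) (hz : ⁅x, y⁆ ∈ L) :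
    (∀ a ∈ commutator G, a ∈ L) ∧ Nat.card (commutator G) ≤ L.length := by
  classical
  let N : Subgroup G :=
    { carrier := {s | s ∈ L}
      mul_mem' := fun {a b} ha hb => hmul a ha b hb
      one_mem' := h1
      inv_mem' := by
        intro a ha
        have hpow : ∀ n : ℕ, a ^ n ∈ L := by
          intro n
          induction n with
          | zero => rw [pow_zero]; exact h1
          | succ n ih => rw [pow_succ]; exact hmul _ ih _ ha
        have h2 : a⁻¹ = a ^ (orderOf a - 1) := by
          have h3 := orderOf_pos a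
          rw [inv_eq_iff_mul_eq_one, ← pow_succ', Nat.sub_add_cancel h3, pow_orderOf_eq_one]
        show a⁻¹ ∈ L
        rw [h2]; exact hpow _ }
  have hle : commutator G ≤ N := comm_le_of hgen N hx hy hz
  refine ⟨fun a ha => hle ha, ?_⟩
  have h2 : Function.Injective (fun c : commutator G =>
      (⟨(c : G), List.mem_toFinset.mpr (hle c.2)⟩ : L.toFinset)) := by
    intro a b hab
    exact Subtype.ext (congrArg (fun t : L.toFinset => (t : G)) hab)
  have h3 := Nat.card_le_card_of_injective _ h2
  rw [Nat.card_eq_fintype_card (α := L.toFinset), Fintype.card_coe] at h3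
  exact h3.trans (List.toFinset_card_le L)

end Pool.Agent.V1132.CPA
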