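import Mathlib
import Pool.Agent.V1132.CPA3

/-!
Two-generator 2-groups attaining the bound: the tables.
-/

set_option autoImplicit false
set_option linter.unusedSimpArgs false
set_option linter.unusedVariables false

open scoped commutatorElement

namespace Pool.Agent.V1132.CPA

variable {G : Type} [Group G]

/-- multiplication table of a two-generator 2-group whose derived subgroup is an extension of
`⟨z, u, v⟩` by a central subgroup `⟨m⟩` of order two -/
structure Dat (x y z u v m a b c t : G) : Prop where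
  hm : ∀ g, g * m = m * g
  m2 : m * m = 1
  ha : a = 1 ∨ a = m
  hb : b = 1 ∨ b = m
  hc : c = 1 ∨ c = m
  ht : t = 1 ∨ t = m
  xy : x * y = z * (y * x)
  xz : x * z = u * (z * x)
  yz : y * z = v * (z * y)
  xu : x * u = a * (u * x)
  yu : y * u = b * (u * y)
  xv : x * v = b * (v * x)
  yv : y * v = c * (v * y)
  zu : z * u = u * z
  zv : z * v = v * z
  uv : v * u = u * v
  u2 : u * u = 1
  v2 : v * v = 1
  z2 : z * z = t

theorem ext_mul {a b c : G} (h : a * b = c) (k : G) : a * (b * k) = c * k := by
  rw [← mul_assoc, h]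

section tables

variable {x y z u v m a b c t : G}

theorem P1 [Finite G] (D : Dat x y z u v m a 1 1 t) (hgen : Subgroup.closure {x, y} = ⊤)
    (hf : Full y) : Nat.card (commutator G) ≤ 8 := by
  obtain ⟨hm, m2, ha, hb, hc, ht, xy, xz, yz, xu, yu, xv, yv, zu, zv, uv, u2, v2, z2⟩ := D
  have e1 := fun g k => ext_mul (hm g) k
  have e2 := fun k => ext_mul m2 k
  have e3 := fun k => ext_mul xy k
  have e4 := fun k => ext_mul xz k
  have e5 := fun k => ext_mul yz k
  have e6 := fun k => ext_mul xu k
  have e7 := fun k => ext_mul yu k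
  have e8 := fun k => ext_mul xv k
  have e9 := fun k => ext_mul yv k
  have e10 := fun k => ext_mul zu k
  have e11 := fun k => ext_mul zv k
  have e12 := fun k => ext_mul uv k
  have e13 := fun k => ext_mul u2 k
  have e14 := fun k => ext_mul v2 k
  have e15 := fun k => ext_mul z2 k
  have h8 : Nat.card (commutator G) ≤ [y, z * y, t * (u * y), a * (t * (u * (z * y))),
      v * y, v * (z * y), t * (u * (v * y)), a * (t * (u * (v * (z * y))))].length := by
    refine bound_list hgen _ ?_ ?_ (k := y) (by simp) hf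
    · intro s hs
      simp only [List.mem_cons, List.not_mem_nil, or_false] at hs ⊢
      rcases ha with rfl | rfl <;> rcases ht with rfl | rfl <;>
      rcases hs with rfl | rfl | rfl | rfl | rfl | rfl | rfl | rfl <;>
      simp [mul_assoc, hm, m2, e2, xy, e3, xz, e4, yz, e5, xu, e6, yu, e7, xv, e8, yv, e9, zu, zv, uv,
        u2, v2, z2, e1, e10, e11, e12, e13, e14, e15]
    · intro s hs
      simp only [List.mem_cons, List.not_mem_nil, or_false] at hs ⊢
      rcases ha with rfl | rfl <;> rcases ht with rfl | rfl <;>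
      rcases hs with rfl | rfl | rfl | rfl | rfl | rfl | rfl | rfl <;>
      simp [mul_assoc, hm, m2, e2, xy, e3, xz, e4, yz, e5, xu, e6, yu, e7, xv, e8, yv, e9, zu, zv, uv,
        u2, v2, z2, e1, e10, e11, e12, e13, e14, e15]
  exact h8

theorem P2 [Finite G] (D : Dat x y z u 1 m a 1 1 t) (hgen : Subgroup.closure {x, y} = ⊤)
    (hf : Full y) : Nat.card (commutator G) ≤ 4 := by
  obtain ⟨hm, m2, ha, hb, hc, ht, xy, xz, yz, xu, yu, xv, yv, zu, zv, uv, u2, v2, z2⟩ := D
  have e1 := fun g k => ext_mul (hm g) k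
  have e2 := fun k => ext_mul m2 k
  have e3 := fun k => ext_mul xy k
  have e4 := fun k => ext_mul xz k
  have e5 := fun k => ext_mul yz k
  have e6 := fun k => ext_mul xu k
  have e7 := fun k => ext_mul yu k
  have e8 := fun k => ext_mul xv k
  have e9 := fun k => ext_mul yv k
  have e10 := fun k => ext_mul zu k
  have e11 := fun k => ext_mul zv k
  have e12 := fun k => ext_mul uv k
  have e13 := fun k => ext_mul u2 k
  have e14 := fun k => ext_mul v2 k
  have e15 := fun k => ext_mul z2 k
  have h8 : Nat.card (commutator G) ≤ [y, z * y, t * (u * y), a * (t * (u * (z * y)))].length := by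
    refine bound_list hgen _ ?_ ?_ (k := y) (by simp) hf
    · intro s hs
      simp only [List.mem_cons, List.not_mem_nil, or_false] at hs ⊢
      rcases ha with rfl | rfl <;> rcases ht with rfl | rfl <;>
      rcases hs with rfl | rfl | rfl | rfl <;>
      simp [mul_assoc, hm, m2, e2, xy, e3, xz, e4, yz, e5, xu, e6, yu, e7, xv, e8, yv, e9, zu, zv, uv,
        u2, v2, z2, e1, e10, e11, e12, e13, e14, e15]
    · intro s hs
      simp only [List.mem_cons, List.not_mem_nil, or_false] at hs ⊢
      rcases ha with rfl | rfl <;> rcases ht with rfl | rfl <;>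
      rcases hs with rfl | rfl | rfl | rfl <;>
      simp [mul_assoc, hm, m2, e2, xy, e3, xz, e4, yz, e5, xu, e6, yu, e7, xv, e8, yv, e9, zu, zv, uv,
        u2, v2, z2, e1, e10, e11, e12, e13, e14, e15]
  exact h8

theorem P3 [Finite G] (D : Dat x y z u m m 1 1 1 m) (hgen : Subgroup.closure {x, y} = ⊤)
    (hf : Full x) : Nat.card (commutator G) ≤ 4 := by
  obtain ⟨hm, m2, ha, hb, hc, ht, xy, xz, yz, xu, yu, xv, yv, zu, zv, uv, u2, v2, z2⟩ := D
  have e1 := fun g k => ext_mul (hm g) k
  have e2 := fun k => ext_mul m2 k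
  have e3 := fun k => ext_mul xy k
  have e4 := fun k => ext_mul xz k
  have e5 := fun k => ext_mul yz k
  have e6 := fun k => ext_mul xu k
  have e7 := fun k => ext_mul yu k
  have e8 := fun k => ext_mul xv k
  have e9 := fun k => ext_mul yv k
  have e10 := fun k => ext_mul zu k
  have e11 := fun k => ext_mul zv k
  have e12 := fun k => ext_mul uv k
  have e13 := fun k => ext_mul u2 k
  have e14 := fun k => ext_mul v2 k
  have e15 := fun k => ext_mul z2 k
  have yx : y * x = m * (z * (x * y)) := by
    rw [xy, e15, e2, one_mul]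
  have e16 := fun k => ext_mul yx k
  have h8 : Nat.card (commutator G) ≤ [x, m * (z * x), u * x, m * (u * (z * x))].length := by
    refine bound_list hgen _ ?_ ?_ (k := x) (by simp) hf
    · intro s hs
      simp only [List.mem_cons, List.not_mem_nil, or_false] at hs ⊢
      rcases hs with rfl | rfl | rfl | rfl <;>
      simp [mul_assoc, hm, m2, e1, e2, xz, e4, xu, e6, zu, e10, u2, e13, z2, e15]
    · intro s hs
      simp only [List.mem_cons, List.not_mem_nil, or_false] at hs ⊢
      rcases hs with rfl | rfl | rfl | rfl <;>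
      simp [mul_assoc, hm, m2, e1, e2, yx, e16, yz, e5, yu, e7, zu, e10, u2, e13, z2, e15]
  exact h8

/-- if `v ∈ ⟨u, m⟩` the derived subgroup is small -/
theorem P4 [Finite G] (D : Dat x y z u v m a b c t) (hgen : Subgroup.closure {x, y} = ⊤)
    (hv : v = 1 ∨ v = m ∨ v = u ∨ v = m * u) : Nat.card (commutator G) ≤ 8 := by
  obtain ⟨hm, m2, ha, hb, hc, ht, xy, xz, yz, xu, yu, xv, yv, zu, zv, uv, u2, v2, z2⟩ := D
  have e1 := fun g k => ext_mul (hm g) k
  have e2 := fun k => ext_mul m2 k
  have e3 := fun k => ext_mul xy k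
  have e4 := fun k => ext_mul xz k
  have e5 := fun k => ext_mul yz k
  have e6 := fun k => ext_mul xu k
  have e7 := fun k => ext_mul yu k
  have e8 := fun k => ext_mul xv k
  have e9 := fun k => ext_mul yv k
  have e10 := fun k => ext_mul zu k
  have e11 := fun k => ext_mul zv k
  have e12 := fun k => ext_mul uv k
  have e13 := fun k => ext_mul u2 k
  have e14 := fun k => ext_mul v2 k
  have e15 := fun k => ext_mul z2 k
  have hz : ⁅x, y⁆ = z := by
    rw [commutatorElement_def, xy]; group
  have h8 := (card_comm_le_list hgen [1, m, z, m * z, u, m * u, u * z, m * (u * z)] (by simp)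
    ?_ ?_ ?_ (by rw [hz]; simp)).2
  · exact h8
  · intro s hs r hr
    simp only [List.mem_cons, List.not_mem_nil, or_false] at hs hr ⊢
    rcases ht with rfl | rfl <;>
    rcases hs with rfl | rfl | rfl | rfl | rfl | rfl | rfl | rfl <;>
    rcases hr with rfl | rfl | rfl | rfl | rfl | rfl | rfl | rfl <;>
    simp [mul_assoc, hm, m2, e1, e2, zu, e10, u2, e13, z2, e15]
  · intro s hs
    simp only [List.mem_cons, List.not_mem_nil, or_false] at hs ⊢
    rcases ha with rfl | rfl <;>
    rcases hs with rfl | rfl | rfl | rfl | rfl | rfl | rfl | rfl <;>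
    simp [mul_assoc, hm, m2, e1, e2, zu, e10, u2, e13, xz, e4, xu, e6]
  · intro s hs
    simp only [List.mem_cons, List.not_mem_nil, or_false] at hs ⊢
    rcases hb with rfl | rfl <;> rcases hv with rfl | rfl | rfl | rfl <;>
    rcases hs with rfl | rfl | rfl | rfl | rfl | rfl | rfl | rfl <;>
    simp [mul_assoc, hm, m2, e1, e2, zu, e10, u2, e13, yz, e5, yu, e7]

/-- first contradiction for `|γ₂| = 16` -/
theorem C1 [Finite G] (D : Dat x y z u v m 1 m 1 t) (hgen : Subgroup.closure {x, y} = ⊤)
    {α : MulAut G} (hα : CP α) (h1 : α x = u * x) (h2 : α y = y) :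
    m = 1 ∨ u = m ∨ v = m ∨ v = u := by
  obtain ⟨hm, m2, ha, hb, hc, ht, xy, xz, yz, xu, yu, xv, yv, zu, zv, uv, u2, v2, z2⟩ := D
  have e1 := fun g k => ext_mul (hm g) k
  have e2 := fun k => ext_mul m2 k
  have e3 := fun k => ext_mul xy k
  have e4 := fun k => ext_mul xz k
  have e5 := fun k => ext_mul yz k
  have e6 := fun k => ext_mul xu k
  have e7 := fun k => ext_mul yu k
  have e8 := fun k => ext_mul xv k
  have e9 := fun k => ext_mul yv k
  have e10 := fun k => ext_mul zu k
  have e11 := fun k => ext_mul zv k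
  have e12 := fun k => ext_mul uv k
  have e13 := fun k => ext_mul u2 k
  have e14 := fun k => ext_mul v2 k
  have e15 := fun k => ext_mul z2 k
  have hz : ⁅x, y⁆ = z := by
    rw [commutatorElement_def, xy]; group
  have hui : u⁻¹ = u := inv_eq_of_mul_eq_one_left u2
  have hαz : α z = m * z := by
    rw [← hz, map_commutatorElement, h1, h2, hz, commutatorElement_def, mul_inv_rev, hui]
    simp [mul_assoc, hm, m2, e2, xy, e3, xz, e4, yz, e5, xu, e6, yu, e7, xv, e8, yv, e9, zu, zv, uv,
        u2, v2, z2, e1, e10, e11, e12, e13, e14, e15]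
  have hmem := not_conj_list hgen [z, u * z, v * z, m * (u * (v * z))] ?_ ?_ (k := z) (by simp)
    (hα z)
  · rw [hαz] at hmem
    simp only [List.mem_cons, List.not_mem_nil, or_false] at hmem
    rcases hmem with h | h | h | h
    · left; exact mul_eq_right.mp h
    · right; left; exact (mul_right_cancel h).symm
    · right; right; left; exact (mul_right_cancel h).symm
    · right; right; right
      have h5 := mul_left_cancel h
      have h6 : u * v = 1 := by
        have : 1 * z = (u * v) * z := by rw [one_mul, mul_assoc]; exact h5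
        exact (mul_right_cancel this).symm
      have h7 : u * v = u * u := by rw [h6, u2]
      exact mul_left_cancel h7
  · intro s hs
    simp only [List.mem_cons, List.not_mem_nil, or_false] at hs ⊢
    rcases hs with rfl | rfl | rfl | rfl <;>
    simp [mul_assoc, hm, m2, e1, e2, zu, e10, zv, e11, uv, e12, u2, e13, v2, e14, xz, e4, xu, e6,
      xv, e8]
  · intro s hs
    simp only [List.mem_cons, List.not_mem_nil, or_false] at hs ⊢
    rcases hs with rfl | rfl | rfl | rfl <;>
    simp [mul_assoc, hm, m2, e1, e2, zu, e10, zv, e11, uv, e12, u2, e13, v2, e14, yz, e5, yu, e7,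
      yv, e9]

/-- second contradiction for `|γ₂| = 16` -/
theorem C2 [Finite G] (D : Dat x y z u v m m 1 m t) (hgen : Subgroup.closure {x, y} = ⊤)
    {α : MulAut G} (hα : CP α) (h1 : α x = u * x) (h2 : α y = y) :
    m = 1 ∨ u = 1 ∨ u = m ∨ v = 1 ∨ v = m ∨ v = u := by
  obtain ⟨hm, m2, ha, hb, hc, ht, xy, xz, yz, xu, yu, xv, yv, zu, zv, uv, u2, v2, z2⟩ := D
  have e1 := fun g k => ext_mul (hm g) k
  have e2 := fun k => ext_mul m2 k
  have e3 := fun k => ext_mul xy k
  have e4 := fun k => ext_mul xz k
  have e5 := fun k => ext_mul yz k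
  have e6 := fun k => ext_mul xu k
  have e7 := fun k => ext_mul yu k
  have e8 := fun k => ext_mul xv k
  have e9 := fun k => ext_mul yv k
  have e10 := fun k => ext_mul zu k
  have e11 := fun k => ext_mul zv k
  have e12 := fun k => ext_mul uv k
  have e13 := fun k => ext_mul u2 k
  have e14 := fun k => ext_mul v2 k
  have e15 := fun k => ext_mul z2 k
  -- `y x = t z x y`
  have yx : y * x = t * (z * (x * y)) := by
    rw [xy]
    rcases ht with rfl | rfl <;> simp [e15, e2]
  have e16 := fun k => ext_mul yx k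
  have hαh : α (x * (x * (y * y))) = m * (x * (x * (y * y))) := by
    simp only [map_mul, h1, h2]
    simp [mul_assoc, hm, m2, e1, e2, u2, e13, xu, e6]
  -- conjugates of `h`
  have hx1 : x * (x * (x * (y * y))) = t * (v * (x * (x * (y * (y * x))))) := by
    have f1 : ∀ k, x * (v * k) = v * (x * k) := fun k => by rw [e8]; simp [mul_assoc]
    rcases ht with rfl | rfl <;>
    simp [mul_assoc, hm, m2, e1, e2, xy, e3, yz, e5, zv, e11, v2, e14, z2, e15, f1, yv, e9]
  have hy1 : y * (x * (x * (y * y))) = t * (u * (x * (x * (y * (y * y))))) := by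
    rcases ht with rfl | rfl <;>
    simp [mul_assoc, hm, m2, e1, e2, yx, e16, xz, e4, zu, e10, u2, e13, z2, e15, xu, e6]
  obtain ⟨h, hh⟩ : ∃ h, h = x * (x * (y * y)) := ⟨_, rfl⟩
  have hxh : x * h = t * (v * (h * x)) := by
    rw [hh, hx1]; simp only [mul_assoc]
  have hyh : y * h = t * (u * (h * y)) := by
    rw [hh, hy1]; simp only [mul_assoc]
  rw [← hh] at hαh
  have e17 := fun k => ext_mul hxh k
  have e18 := fun k => ext_mul hyh k
  have hmem := not_conj_list hgen [h, t * (v * h), t * (u * h), m * (u * (v * h))] ?_ ?_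
    (k := h) (by simp) (hα h)
  · rw [hαh] at hmem
    simp only [List.mem_cons, List.not_mem_nil, or_false] at hmem
    have g1 : ∀ w : G, m * h = m * (w * h) → w = 1 := fun w hw => by
      have h5 := mul_left_cancel hw
      exact (mul_eq_right.mp h5.symm)
    have g2 : ∀ w : G, m * h = w * h → w = m := fun w hw => (mul_right_cancel hw).symm
    rcases hmem with h' | h' | h' | h'
    · left; exact mul_eq_right.mp h'
    · rcases ht with rfl | rfl
      · rw [one_mul] at h'
        right; right; right; right; left; exact g2 v h'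
      · right; right; right; left; exact g1 v h'
    · rcases ht with rfl | rfl
      · rw [one_mul] at h'
        right; right; left; exact g2 u h'
      · right; left; exact g1 u h'
    · right; right; right; right; right
      have h6 : u * v = 1 := g1 (u * v) (by rw [mul_assoc]; exact h')
      have h7 : u * v = u * u := by rw [h6, u2]
      exact mul_left_cancel h7
  · intro s hs
    simp only [List.mem_cons, List.not_mem_nil, or_false] at hs ⊢
    rcases ht with rfl | rfl <;>
    rcases hs with rfl | rfl | rfl | rfl <;>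
    simp [mul_assoc, hm, m2, e1, e2, uv, e12, u2, e13, v2, e14, xu, e6, xv, e8, hxh, e17]
  · intro s hs
    simp only [List.mem_cons, List.not_mem_nil, or_false] at hs ⊢
    rcases ht with rfl | rfl <;>
    rcases hs with rfl | rfl | rfl | rfl <;>
    simp [mul_assoc, hm, m2, e1, e2, uv, e12, u2, e13, v2, e14, yu, e7, yv, e9, hyh, e18]

/-! ### changing the generators -/

theorem Dat.cen (D : Dat x y z u v m a b c t) :
    (∀ g, g * a = a * g) ∧ (∀ g, g * b = b * g) ∧ (∀ g, g * c = c * g) ∧ (∀ g, g * t = t * g) ∧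
      a * a = 1 ∧ b * b = 1 ∧ c * c = 1 ∧ t * t = 1 := by
  have key : ∀ r : G, (r = 1 ∨ r = m) → (∀ g, g * r = r * g) ∧ r * r = 1 := by
    rintro r (rfl | rfl)
    · exact ⟨fun g => by simp, one_mul 1⟩
    · exact ⟨D.hm, D.m2⟩
  exact ⟨(key a D.ha).1, (key b D.hb).1, (key c D.hc).1, (key t D.ht).1, (key a D.ha).2,
    (key b D.hb).2, (key c D.hc).2, (key t D.ht).2⟩

theorem prod_sign {r s : G} (m2 : m * m = 1) (hr : r = 1 ∨ r = m) (hs : s = 1 ∨ s = m) :
    r * s = 1 ∨ r * s = m := by
  rcases hr with rfl | rfl <;> rcases hs with rfl | rfl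
  · left; simp
  · right; simp
  · right; simp
  · left; exact m2

theorem Dat.swap (D : Dat x y z u v m a b c t) : Dat y x (t * z) v u m c b a t := by
  obtain ⟨hm, m2, ha, hb, hc, ht, xy, xz, yz, xu, yu, xv, yv, zu, zv, uv, u2, v2, z2⟩ := D
  have e1 := fun g k => ext_mul (hm g) k
  have e2 := fun k => ext_mul m2 k
  have e3 := fun k => ext_mul xy k
  have e4 := fun k => ext_mul xz k
  have e5 := fun k => ext_mul yz k
  have e6 := fun k => ext_mul xu k
  have e7 := fun k => ext_mul yu k
  have e8 := fun k => ext_mul xv k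
  have e9 := fun k => ext_mul yv k
  have e10 := fun k => ext_mul zu k
  have e11 := fun k => ext_mul zv k
  have e12 := fun k => ext_mul uv k
  have e13 := fun k => ext_mul u2 k
  have e14 := fun k => ext_mul v2 k
  have e15 := fun k => ext_mul z2 k
  refine ⟨hm, m2, hc, hb, ha, ht, ?_, ?_, ?_, yv, xv, yu, xu, ?_, ?_, uv.symm, v2, u2, ?_⟩
  all_goals rcases ht with rfl | rfl <;>
    simp [mul_assoc, hm, m2, e1, e2, xy, e3, zu, e10, zv, e11, z2, e15, xz, yz]

/-- the pair `(x, x y)` -/
theorem Dat.second (D : Dat x y z u v m a b c t) :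
    Dat x (x * y) (u * z) (a * u) (a * (v * u)) m a (a * b) (a * c) t := by
  obtain ⟨hm, m2, ha, hb, hc, ht, xy, xz, yz, xu, yu, xv, yv, zu, zv, uv, u2, v2, z2⟩ := D
  have e1 := fun g k => ext_mul (hm g) k
  have e2 := fun k => ext_mul m2 k
  have e3 := fun k => ext_mul xy k
  have e4 := fun k => ext_mul xz k
  have e5 := fun k => ext_mul yz k
  have e6 := fun k => ext_mul xu k
  have e7 := fun k => ext_mul yu k
  have e8 := fun k => ext_mul xv k
  have e9 := fun k => ext_mul yv k
  have e10 := fun k => ext_mul zu k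
  have e11 := fun k => ext_mul zv k
  have e12 := fun k => ext_mul uv k
  have e13 := fun k => ext_mul u2 k
  have e14 := fun k => ext_mul v2 k
  have e15 := fun k => ext_mul z2 k
  refine ⟨hm, m2, ha, prod_sign m2 ha hb, prod_sign m2 ha hc, ht, ?_, ?_, ?_, ?_, ?_, ?_, ?_, ?_,
    ?_, ?_, ?_, ?_, ?_⟩
  all_goals rcases ha with rfl | rfl <;> rcases hb with rfl | rfl <;> rcases hc with rfl | rfl <;>
    simp [mul_assoc, hm, m2, e1, e2, xy, e3, zu, e10, zv, e11, uv, e12, z2, xz, e4, yz, e5,
      xu, e6, yu, e7, xv, e8, yv, e9, u2, e13, v2, e14]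

/-- the pair `(x, x² y)` -/
theorem Dat.third (D : Dat x y z u v m a b c t) :
    Dat x (x * (x * y)) (a * z) u (a * v) m a b c t := by
  obtain ⟨hm, m2, ha, hb, hc, ht, xy, xz, yz, xu, yu, xv, yv, zu, zv, uv, u2, v2, z2⟩ := D
  have e1 := fun g k => ext_mul (hm g) k
  have e2 := fun k => ext_mul m2 k
  have e3 := fun k => ext_mul xy k
  have e4 := fun k => ext_mul xz k
  have e5 := fun k => ext_mul yz k
  have e6 := fun k => ext_mul xu k
  have e7 := fun k => ext_mul yu k
  have e8 := fun k => ext_mul xv k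
  have e9 := fun k => ext_mul yv k
  have e10 := fun k => ext_mul zu k
  have e11 := fun k => ext_mul zv k
  have e12 := fun k => ext_mul uv k
  have e13 := fun k => ext_mul u2 k
  have e14 := fun k => ext_mul v2 k
  have e15 := fun k => ext_mul z2 k
  refine ⟨hm, m2, ha, hb, hc, ht, ?_, ?_, ?_, ?_, ?_, ?_, ?_, ?_, ?_, ?_, ?_, ?_, ?_⟩
  all_goals rcases ha with rfl | rfl <;> rcases hb with rfl | rfl <;> rcases hc with rfl | rfl <;>
    rcases ht with rfl | rfl <;>
    simp [mul_assoc, hm, m2, e1, e2, xy, e3, zu, e10, zv, e11, uv, e12, z2, e15, xz, e4, yz, e5,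
      xu, e6, yu, e7, xv, e8, yv, e9, u2, e13, v2, e14]

end tables

end Pool.Agent.V1132.CPA
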