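import Mathlib
import Pool.Agent.V1132.CPA4

/-!
Two-generator 2-groups attaining the bound: `|γ₂| = 8` and `|γ₂| = 16`.
-/

set_option autoImplicit false
set_option linter.unusedSimpArgs false
set_option linter.unusedVariables false

open scoped commutatorElement

namespace Pool.Agent.V1132.CPA

variable {G : Type} [Group G]

theorem inv_rule {g w r : G} (hr : ∀ k, k * r = r * k) (r2 : r * r = 1) (h : g * w = r * (w * g)) :
    g⁻¹ * w = r * (w * g⁻¹) := by
  have h1 : w * g⁻¹ = g⁻¹ * (r * w) := by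
    have h2 : g⁻¹ * (g * w) * g⁻¹ = g⁻¹ * (r * (w * g)) * g⁻¹ := by rw [h]
    have h3 : g⁻¹ * (g * w) * g⁻¹ = w * g⁻¹ := by group
    have h4 : g⁻¹ * (r * (w * g)) * g⁻¹ = g⁻¹ * (r * w) := by group
    rw [← h3, h2, h4]
  rw [h1, ← mul_assoc g⁻¹, hr g⁻¹]
  rw [mul_assoc r, ← mul_assoc r, r2, one_mul]

theorem comm_rule (x y : G) : x * y = ⁅x, y⁆ * (y * x) := by
  rw [commutatorElement_def]; group

theorem sign_cen {m r : G} (hm : ∀ g, g * m = m * g) (m2 : m * m = 1) (h : r = 1 ∨ r = m) :
    (∀ g, g * r = r * g) ∧ r * r = 1 := by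
  rcases h with rfl | rfl
  · exact ⟨fun g => by simp, one_mul 1⟩
  · exact ⟨hm, m2⟩

theorem mkDat {x y z u v m : G} (hm : ∀ g, g * m = m * g) (m2 : m * m = 1) (hz : ⁅x, y⁆ = z)
    (hu : ⁅x, z⁆ = u) (hv : ⁅y, z⁆ = v)
    (hxu : ⁅x, u⁆ = 1 ∨ ⁅x, u⁆ = m) (hyu : ⁅y, u⁆ = 1 ∨ ⁅y, u⁆ = m)
    (hxv : ⁅x, v⁆ = 1 ∨ ⁅x, v⁆ = m) (hyv : ⁅y, v⁆ = 1 ∨ ⁅y, v⁆ = m)
    (hz2 : z * z = 1 ∨ z * z = m) :
    Dat x y z u v m ⁅x, u⁆ ⁅y, u⁆ ⁅y, v⁆ (z * z) := by
  have xy : x * y = z * (y * x) := by rw [← hz]; exact comm_rule x y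
  have xz : x * z = u * (z * x) := by rw [← hu]; exact comm_rule x z
  have yz : y * z = v * (z * y) := by rw [← hv]; exact comm_rule y z
  have xu := comm_rule x u
  have yu := comm_rule y u
  have xv := comm_rule x v
  have yv := comm_rule y v
  obtain ⟨a, ha'⟩ : ∃ a, a = ⁅x, u⁆ := ⟨_, rfl⟩
  obtain ⟨b, hb'⟩ : ∃ b, b = ⁅y, u⁆ := ⟨_, rfl⟩
  obtain ⟨b', hb''⟩ : ∃ b, b = ⁅x, v⁆ := ⟨_, rfl⟩
  obtain ⟨c, hc'⟩ : ∃ c, c = ⁅y, v⁆ := ⟨_, rfl⟩
  rw [← ha'] at hxu xu ⊢
  rw [← hb'] at hyu yu ⊢
  rw [← hb''] at hxv xv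
  rw [← hc'] at hyv yv ⊢
  clear ha' hb' hb'' hc'
  obtain ⟨ca, a2⟩ := sign_cen hm m2 hxu
  obtain ⟨cb, b2⟩ := sign_cen hm m2 hyu
  obtain ⟨cb', b2'⟩ := sign_cen hm m2 hxv
  obtain ⟨cc, c2⟩ := sign_cen hm m2 hyv
  obtain ⟨ct, t2⟩ := sign_cen hm m2 hz2
  have e1 := fun g k => ext_mul (hm g) k
  have e2 := fun k => ext_mul m2 k
  have hzd : z = x * (y * (x⁻¹ * y⁻¹)) := by rw [← hz, commutatorElement_def]; group
  have hud : u = x * (z * (x⁻¹ * z⁻¹)) := by rw [← hu, commutatorElement_def]; group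
  have xiu := inv_rule ca a2 xu
  have yiu := inv_rule cb b2 yu
  have xiv := inv_rule cb' b2' xv
  have yiv := inv_rule cc c2 yv
  have zu : z * u = u * z := by
    rw [hzd]
    have f1 := fun k => ext_mul xu k
    have f2 := fun k => ext_mul yu k
    have f3 := fun k => ext_mul xiu k
    rcases hxu with rfl | rfl <;> rcases hyu with rfl | rfl <;>
    simp [mul_assoc, hm, m2, e1, e2, xu, f1, yu, f2, xiu, f3, yiu]
  have zv : z * v = v * z := by
    rw [hzd]
    have f1 := fun k => ext_mul xv k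
    have f2 := fun k => ext_mul yv k
    have f3 := fun k => ext_mul xiv k
    rcases hxv with rfl | rfl <;> rcases hyv with rfl | rfl <;>
    simp [mul_assoc, hm, m2, e1, e2, xv, f1, yv, f2, xiv, f3, yiv]
  have ziv : z⁻¹ * v = v * z⁻¹ := (Commute.inv_left (show Commute z v from zv)).eq
  have uv : v * u = u * v := by
    have f1 := fun k => ext_mul xv k
    have f2 := fun k => ext_mul zv k
    have f3 := fun k => ext_mul xiv k
    have f4 : u * v = v * u := by
      rw [hud]
      rcases hxv with rfl | rfl <;>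
      simp [mul_assoc, hm, m2, e1, e2, xv, f1, zv, f2, xiv, f3, ziv]
    exact f4.symm
  have u2 : u * u = 1 := by
    have h1 : x * (z * z) = (u * u) * (z * z) * x := by
      calc x * (z * z) = (x * z) * z := by rw [mul_assoc]
        _ = (u * (z * x)) * z := by rw [xz]
        _ = u * (z * (x * z)) := by simp only [mul_assoc]
        _ = u * (z * (u * (z * x))) := by rw [xz]
        _ = u * ((z * u) * (z * x)) := by simp only [mul_assoc]
        _ = _ := by rw [zu]; simp only [mul_assoc]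
    rw [ct x] at h1
    have h2 := mul_right_cancel h1
    exact (mul_eq_right.mp h2.symm)
  have v2 : v * v = 1 := by
    have h1 : y * (z * z) = (v * v) * (z * z) * y := by
      calc y * (z * z) = (y * z) * z := by rw [mul_assoc]
        _ = (v * (z * y)) * z := by rw [yz]
        _ = v * (z * (y * z)) := by simp only [mul_assoc]
        _ = v * (z * (v * (z * y))) := by rw [yz]
        _ = v * ((z * v) * (z * y)) := by simp only [mul_assoc]
        _ = _ := by rw [zv]; simp only [mul_assoc]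
    rw [ct y] at h1
    have h2 := mul_right_cancel h1
    exact (mul_eq_right.mp h2.symm)
  have hbb : b = b' := by
    have h1 : y * (x * z) = b * (u * (v * (z * (y * x)))) := by
      calc y * (x * z) = (y * u) * (z * x) := by rw [xz]; simp only [mul_assoc]
        _ = b * (u * ((y * z) * x)) := by rw [yu]; simp only [mul_assoc]
        _ = _ := by rw [yz]; simp only [mul_assoc]
    have h2 : z * (y * (x * z)) = z * (b' * (u * (v * (z * (y * x))))) := by
      calc z * (y * (x * z)) = (z * (y * x)) * z := by simp only [mul_assoc]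
        _ = x * (y * z) := by rw [← xy, mul_assoc]
        _ = (x * v) * (z * y) := by rw [yz]; simp only [mul_assoc]
        _ = b' * (v * ((x * z) * y)) := by rw [xv]; simp only [mul_assoc]
        _ = b' * ((v * u) * (z * (x * y))) := by rw [xz]; simp only [mul_assoc]
        _ = b' * ((u * v) * (z * (z * (y * x)))) := by rw [uv, xy]
        _ = b' * (u * (v * z) * (z * (y * x))) := by simp only [mul_assoc]
        _ = b' * ((u * z) * (v * (z * (y * x)))) := by rw [← zv]; simp only [mul_assoc]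
        _ = (b' * z) * (u * (v * (z * (y * x)))) := by rw [← zu]; simp only [mul_assoc]
        _ = _ := by rw [← cb' z]; simp only [mul_assoc]
    have h3 := mul_left_cancel h2
    rw [h1] at h3
    exact mul_right_cancel h3
  exact ⟨hm, m2, hxu, hyu, hyv, hz2, xy, xz, yz, xu, yu, by rw [hbb]; exact xv, yv, zu, zv, uv, u2,
    v2, rfl⟩

/-! ### generating pairs -/

theorem gen_pair_of {x y x' y' : G} (h : Subgroup.closure ({x, y} : Set G) = ⊤)
    (h1 : x ∈ Subgroup.closure ({x', y'} : Set G)) (h2 : y ∈ Subgroup.closure ({x', y'} : Set G)) :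
    Subgroup.closure ({x', y'} : Set G) = ⊤ := by
  rw [eq_top_iff, ← h, Subgroup.closure_le]
  rintro _ (rfl | rfl)
  · exact h1
  · exact h2

omit [Group G] in
theorem range_pair (x y : G) : Set.range ![x, y] = {x, y} := by
  ext q
  constructor
  · rintro ⟨i, rfl⟩
    fin_cases i
    · exact Or.inl rfl
    · exact Or.inr rfl
  · rintro (h | h)
    · exact ⟨0, h.symm⟩
    · exact ⟨1, h.symm⟩

theorem Good.full_pair [Finite G] (h : Good 2 G) {x y : G}
    (hgen : Subgroup.closure ({x, y} : Set G) = ⊤) : Full x ∧ Full y ∧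
      ∀ c ∈ commutator G, ∃ α : MulAut G, CP α ∧ α x = c * x ∧ α y = y := by
  have h1 : GoodAt ![x, y] := h.at (by rw [range_pair]; exact hgen)
  refine ⟨fun c hc => h1.full 0 hc, fun c hc => h1.full 1 hc, fun c hc => ?_⟩
  obtain ⟨α, hα, h2, h3⟩ := h1.one 0 hc
  exact ⟨α, hα, h2, h3 1 (by decide)⟩

theorem Good.exists_pair (h : Good 2 G) : ∃ x y : G, Subgroup.closure ({x, y} : Set G) = ⊤ := by
  obtain ⟨x, hx, _⟩ := h
  refine ⟨x 0, x 1, ?_⟩
  rw [← hx, ← range_pair]
  congr 2
  funext i
  fin_cases i <;> rfl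

/-- the case `|γ₂| = 8` -/
theorem eight [Finite G] (hgood : Good 2 G) {x y z u v m : G}
    (hgen : Subgroup.closure ({x, y} : Set G) = ⊤)
    {a b c t : G} (D : Dat x y z u v m a b c t) (hv : v = 1 ∨ v = m)
    (hcard : 4 < Nat.card (commutator G)) :
    Dat x y z u m m 1 1 1 1 := by
  have hz : ⁅x, y⁆ = z := by
    rw [commutatorElement_def, D.xy]; group
  -- `b = c = 1`
  have hb : b = 1 := by
    have h1 := D.xv
    rcases hv with rfl | rfl
    · rw [mul_one, one_mul] at h1
      exact (mul_eq_right.mp h1.symm)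
    · rw [D.hm] at h1
      exact (mul_eq_right.mp h1.symm)
  have hc : c = 1 := by
    have h1 := D.yv
    rcases hv with rfl | rfl
    · rw [mul_one, one_mul] at h1
      exact (mul_eq_right.mp h1.symm)
    · rw [D.hm] at h1
      exact (mul_eq_right.mp h1.symm)
  subst hb hc
  obtain ⟨fx, fy, _⟩ := hgood.full_pair hgen
  have hv1 : v ≠ 1 := by
    rintro rfl
    have := P2 D hgen fy
    omega
  have hvm : v = m := hv.resolve_left hv1
  subst hvm
  have hgen2 : Subgroup.closure ({x, x * (x * y)} : Set G) = ⊤ := by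
    have m1 : x ∈ Subgroup.closure ({x, x * (x * y)} : Set G) := Subgroup.subset_closure (Or.inl rfl)
    have m2 : x * (x * y) ∈ Subgroup.closure ({x, x * (x * y)} : Set G) :=
      Subgroup.subset_closure (Or.inr rfl)
    refine gen_pair_of hgen m1 ?_
    have m3 := mul_mem (inv_mem m1) (mul_mem (inv_mem m1) m2)
    have : x⁻¹ * (x⁻¹ * (x * (x * y))) = y := by group
    rwa [this] at m3
  obtain ⟨_, fy2, _⟩ := hgood.full_pair hgen2
  have ha : a = 1 := by
    rcases D.ha with h | h
    · exact h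
    · exfalso
      subst h
      have D2 := D.third
      rw [D.m2] at D2
      have := P2 D2 hgen2 fy2
      omega
  subst ha
  have ht : t = 1 := by
    rcases D.ht with h | h
    · exact h
    · exfalso
      subst h
      have := P3 D hgen fx
      omega
  subst ht
  exact D

/-- the case `|γ₂| = 16` -/
theorem sixteen [Finite G] (hgood : Good 2 G) {x y z u v m : G} (hm1 : m ≠ 1)
    (hgen : Subgroup.closure ({x, y} : Set G) = ⊤)
    {a b c t : G} (D : Dat x y z u v m a b c t) (hcard : 8 < Nat.card (commutator G)) : False := by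
  -- exclude `b = c = 1` for every pair
  have key1 : ∀ {x y z u v a t : G}, Subgroup.closure ({x, y} : Set G) = ⊤ →
      Dat x y z u v m a 1 1 t → False := by
    intro x y z u v a t hg D
    have := P1 D hg (hgood.full_pair hg).2.1
    omega
  have dist : ∀ {x y z u v a b c t : G}, Subgroup.closure ({x, y} : Set G) = ⊤ →
      Dat x y z u v m a b c t → v ≠ 1 ∧ v ≠ m ∧ v ≠ u := by
    intro x y z u v a b c t hg D
    refine ⟨fun h => ?_, fun h => ?_, fun h => ?_⟩
    · have := P4 D hg (Or.inl h); omega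
    · have := P4 D hg (Or.inr (Or.inl h)); omega
    · have := P4 D hg (Or.inr (Or.inr (Or.inl h))); omega
  have swapgen : ∀ {x y : G}, Subgroup.closure ({x, y} : Set G) = ⊤ →
      Subgroup.closure ({y, x} : Set G) = ⊤ := by
    intro x y h
    rw [Set.pair_comm]; exact h
  have secgen : ∀ {x y : G}, Subgroup.closure ({x, y} : Set G) = ⊤ →
      Subgroup.closure ({x, x * y} : Set G) = ⊤ := by
    intro x y h
    have m1 : x ∈ Subgroup.closure ({x, x * y} : Set G) := Subgroup.subset_closure (Or.inl rfl)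
    have m2 : x * y ∈ Subgroup.closure ({x, x * y} : Set G) := Subgroup.subset_closure (Or.inr rfl)
    refine gen_pair_of h m1 ?_
    have m3 := mul_mem (inv_mem m1) m2
    have : x⁻¹ * (x * y) = y := by group
    rwa [this] at m3
  have umem : ∀ {x y z u v a b c t : G}, Dat x y z u v m a b c t → u ∈ commutator G := by
    intro x y z u v a b c t D
    have : ⁅x, z⁆ = u := by rw [commutatorElement_def, D.xz]; group
    rw [← this]; exact comm_mem _ _
  -- `(1, m, 1)`
  have c1 : ∀ {x y z u v t : G}, Subgroup.closure ({x, y} : Set G) = ⊤ →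
      Dat x y z u v m 1 m 1 t → False := by
    intro x y z u v t hg D
    obtain ⟨α, hα, h1, h2⟩ := (hgood.full_pair hg).2.2 u (umem D)
    obtain ⟨d1, d2, d3⟩ := dist hg D
    obtain ⟨d4, d5, d6⟩ := dist (swapgen hg) D.swap
    rcases C1 D hg hα h1 h2 with h | h | h | h
    · exact hm1 h
    · exact d5 h
    · exact d2 h
    · exact d3 h
  -- `(m, 1, m)`
  have c2 : ∀ {x y z u v t : G}, Subgroup.closure ({x, y} : Set G) = ⊤ →
      Dat x y z u v m m 1 m t → False := by
    intro x y z u v t hg D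
    obtain ⟨α, hα, h1, h2⟩ := (hgood.full_pair hg).2.2 u (umem D)
    obtain ⟨d1, d2, d3⟩ := dist hg D
    obtain ⟨d4, d5, d6⟩ := dist (swapgen hg) D.swap
    rcases C2 D hg hα h1 h2 with h | h | h | h | h | h
    · exact hm1 h
    · exact d4 h
    · exact d5 h
    · exact d1 h
    · exact d2 h
    · exact d3 h
  -- `(m, m, 1)`
  have c3 : ∀ {x y z u v t : G}, Subgroup.closure ({x, y} : Set G) = ⊤ →
      Dat x y z u v m m m 1 t → False := by
    intro x y z u v t hg D
    have D2 := D.second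
    rw [D.m2, mul_one] at D2
    exact c2 (secgen hg) D2
  rcases D.ha with ha | ha <;> rcases D.hb with hb | hb <;> rcases D.hc with hc | hc <;>
    subst ha hb hc
  · exact key1 hgen D
  · exact key1 (swapgen hgen) D.swap
  · exact c1 hgen D
  · exact c3 (swapgen hgen) D.swap
  · exact key1 hgen D
  · exact c2 hgen D
  · exact c3 hgen D
  · have D2 := D.second
    rw [D.m2] at D2
    exact key1 (secgen hgen) D2

end Pool.Agent.V1132.CPA
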