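import Mathlib
import Pool.Agent.V1132.CPA5

/-!
Two-generator p-groups attaining the bound: structure of the derived subgroup.
-/

set_option autoImplicit false
set_option linter.unusedSimpArgs false
set_option linter.unusedVariables false
set_option linter.unusedSectionVars false
set_option linter.style.haveILetI false

open scoped commutatorElement

namespace Pool.Agent.V1132.CPA

open Pool.Agent.Helper832.AutC (frattini_facts)

/-- commutators `⁅a, g⁆` with `a` in the derived subgroup are central (class at most three) -/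
def C3 (G : Type) [Group G] : Prop :=
  ∀ a ∈ commutator G, ∀ g k : G, ⁅a, g⁆ * k = k * ⁅a, g⁆

section general

variable {p : ℕ} [hp : Fact p.Prime] {G : Type} [Group G] [Finite G]

omit hp in
theorem comm_lt [hN : Group.IsNilpotent G] (N : Subgroup G) [N.Normal] (h : N ≠ ⊥) :
    ⁅N, (⊤ : Subgroup G)⁆ < N := by
  refine lt_of_le_of_ne (Subgroup.commutator_le_left _ _) (fun heq => h ?_)
  have h1 : ∀ n, N ≤ (⊤ : Subgroup G).lowerCentralSeries n := by
    intro n
    induction n with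
    | zero => exact le_top
    | succ n ih =>
      rw [← heq]
      exact Subgroup.commutator_mono ih le_rfl
  obtain ⟨n, hn⟩ := Subgroup.nilpotent_iff_lowerCentralSeries.mp hN
  exact le_bot_iff.mp (hn ▸ h1 n)

omit hp in
theorem card_lt_of {A B : Subgroup G} (h : A < B) : Nat.card A < Nat.card B := by
  have := Set.ncard_lt_ncard (SetLike.coe_ssubset_coe.mpr h) (Set.toFinite _)
  exact this

theorem exists_central (hG : IsPGroup p G) (N : Subgroup G) [N.Normal] (h : N ≠ ⊥) :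
    ∃ m ∈ N, m ≠ 1 ∧ m ^ p = 1 ∧ ∀ g, g * m = m * g := by
  haveI := hG.isNilpotent
  obtain ⟨n, hn⟩ : ∃ n, n = Nat.card N := ⟨_, rfl⟩
  induction n using Nat.strong_induction_on generalizing N with
  | _ n ih =>
    by_cases hc : ⁅N, (⊤ : Subgroup G)⁆ = ⊥
    · obtain ⟨a, ha, ha1⟩ : ∃ a ∈ N, a ≠ 1 := by
        obtain ⟨a, ha⟩ := Subgroup.ne_bot_iff_exists_ne_one.mp h
        exact ⟨a.1, a.2, fun h => ha (Subtype.ext h)⟩
      have hcen : ∀ g, g * a = a * g := by
        intro g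
        have h1 : ⁅a, g⁆ = 1 := by
          have h2 : ⁅a, g⁆ ∈ ⁅N, (⊤ : Subgroup G)⁆ :=
            Subgroup.commutator_mem_commutator ha (Subgroup.mem_top g)
          rw [hc] at h2
          exact Subgroup.mem_bot.mp h2
        exact (commutatorElement_eq_one_iff_mul_comm.mp h1).symm
      obtain ⟨k, hk⟩ := hG.dvd_orderOf ha1
      have hpos := orderOf_pos a
      have hk0 : k ≠ 0 := by rintro rfl; rw [hk] at hpos; simp at hpos
      refine ⟨a ^ k, pow_mem ha k, ?_, ?_, ?_⟩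
      · intro h1
        have h2 := orderOf_dvd_of_pow_eq_one h1
        have h3 := Nat.le_of_dvd (Nat.pos_of_ne_zero hk0) h2
        rw [hk] at h3
        have h4 := hp.out.two_le
        nlinarith [Nat.pos_of_ne_zero hk0]
      · rw [← pow_mul, mul_comm k p, ← hk, pow_orderOf_eq_one]
      · intro g
        have : Commute g a := hcen g
        exact (this.pow_right k).eq
    · have hlt := comm_lt N h
      have hcard : Nat.card (⁅N, (⊤ : Subgroup G)⁆ : Subgroup G) < n := by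
        rw [hn]
        exact card_lt_of hlt
      obtain ⟨m, hm, h1⟩ := ih _ hcard ⁅N, (⊤ : Subgroup G)⁆ hc rfl
      exact ⟨m, hlt.le hm, h1⟩

theorem comm_le_frattini (hG : IsPGroup p G) : commutator G ≤ frattini G := by
  rw [commutator_def, Subgroup.commutator_le]
  intro a _ b _
  exact (frattini_facts hG).1 a b

/-- generators lift through quotients by subgroups of the derived subgroup -/
theorem lift_gen (hG : IsPGroup p G) (N : Subgroup G) [N.Normal] (hN : N ≤ commutator G)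
    {x y : G} (h : Subgroup.closure ({(x : G ⧸ N), (y : G ⧸ N)} : Set (G ⧸ N)) = ⊤) :
    Subgroup.closure ({x, y} : Set G) = ⊤ := by
  apply frattini_nongenerating
  rw [eq_top_iff]
  have e1 : ({(x : G ⧸ N), (y : G ⧸ N)} : Set (G ⧸ N)) = QuotientGroup.mk' N '' {x, y} := by
    rw [Set.image_pair]; rfl
  rw [e1, ← MonoidHom.map_closure] at h
  intro g _
  have h1 : QuotientGroup.mk' N g ∈ (Subgroup.closure ({x, y} : Set G)).map (QuotientGroup.mk' N) := by
    rw [h]; trivial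
  obtain ⟨k, hk, hk'⟩ := h1
  have h2 : k⁻¹ * g ∈ N := QuotientGroup.eq.mp hk'
  have h3 : g = k * (k⁻¹ * g) := by group
  rw [h3]
  exact mul_mem ((le_sup_left : _ ≤ Subgroup.closure ({x, y} : Set G) ⊔ frattini G) hk)
    ((le_sup_right : _ ≤ Subgroup.closure ({x, y} : Set G) ⊔ frattini G)
      (comm_le_frattini hG (hN h2)))

theorem gen_pair_mk (N : Subgroup G) [N.Normal] {x y : G}
    (h : Subgroup.closure ({x, y} : Set G) = ⊤) :
    Subgroup.closure ({(x : G ⧸ N), (y : G ⧸ N)} : Set (G ⧸ N)) = ⊤ := by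
  have e1 : ({(x : G ⧸ N), (y : G ⧸ N)} : Set (G ⧸ N)) = QuotientGroup.mk' N '' {x, y} := by
    rw [Set.image_pair]; rfl
  rw [e1, ← MonoidHom.map_closure, h, Subgroup.map_top_of_surjective _
    (QuotientGroup.mk'_surjective N)]

/-- in a noncyclic group of order `p²` every element has `p`-th power one -/
theorem pow_of_sq {C : Type} [Group C] [Finite C] (hc : Nat.card C = p ^ 2) (h : ¬ IsCyclic C)
    (a : C) : a ^ p = 1 := by
  have h1 : orderOf a ∣ p ^ 2 := hc ▸ orderOf_dvd_natCard a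
  obtain ⟨k, hk, hk'⟩ := (Nat.dvd_prime_pow hp.out).mp h1
  have h2 : k ≠ 2 := by
    rintro rfl
    exact h (isCyclic_of_orderOf_eq_card a (by rw [hk', hc]))
  apply orderOf_dvd_iff_pow_eq_one.mp
  rw [hk']
  have h3 : k ≤ 1 := by omega
  calc p ^ k ∣ p ^ 1 := pow_dvd_pow p h3
    _ = p := pow_one p

theorem cyclic_of_le_zpowers {z : G} (h : commutator G ≤ Subgroup.zpowers z) :
    IsCyclic (commutator G) := by
  haveI : IsCyclic (Subgroup.zpowers z) := inferInstance
  exact isCyclic_of_injective (Subgroup.inclusion h) (Subgroup.inclusion_injective h)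

theorem not_cyclic_comm {x y : G} (hgen : Subgroup.closure ({x, y} : Set G) = ⊤)
    (hnc : ¬ IsCyclic (commutator G)) : ⁅⁅x, y⁆, x⁆ ≠ 1 ∨ ⁅⁅x, y⁆, y⁆ ≠ 1 := by
  by_contra hcon
  push Not at hcon
  obtain ⟨h1, h2⟩ := hcon
  rw [commutatorElement_eq_one_iff_mul_comm] at h1 h2
  apply hnc
  apply cyclic_of_le_zpowers (z := ⁅x, y⁆)
  refine comm_le_of hgen _ ?_ ?_ (Subgroup.mem_zpowers _)
  · rintro s ⟨k, rfl⟩
    have h3 : Commute x (⁅x, y⁆ ^ k) := (show Commute x ⁅x, y⁆ from h1.symm).zpow_right k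
    show x * ⁅x, y⁆ ^ k * x⁻¹ ∈ _
    rw [h3.eq, mul_inv_cancel_right]
    exact ⟨k, rfl⟩
  · rintro s ⟨k, rfl⟩
    have h3 : Commute y (⁅x, y⁆ ^ k) := (show Commute y ⁅x, y⁆ from h2.symm).zpow_right k
    show y * ⁅x, y⁆ ^ k * y⁻¹ ∈ _
    rw [h3.eq, mul_inv_cancel_right]
    exact ⟨k, rfl⟩

theorem C3_of_sq (hG : IsPGroup p G) (hc : Nat.card (commutator G) = p ^ 2) :
    C3 G ∧ Nat.card (⁅commutator G, (⊤ : Subgroup G)⁆ : Subgroup G) ∣ p := by
  haveI := hG.isNilpotent
  have hp1 := hp.out.one_lt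
  have hne : commutator G ≠ ⊥ := by
    intro h
    rw [h, Subgroup.card_bot] at hc
    have : 1 < p ^ 2 := Nat.one_lt_pow two_ne_zero hp1
    omega
  have cardlt : ∀ A B : Subgroup G, A < B → Nat.card A < Nat.card B := fun _ _ h => card_lt_of h
  let L : Subgroup G := ⁅commutator G, (⊤ : Subgroup G)⁆
  have hlt : L < commutator G := comm_lt _ hne
  have hdvd : Nat.card L ∣ p ^ 2 := hc ▸ Subgroup.card_dvd_of_le hlt.le
  obtain ⟨k, hk, hk'⟩ := (Nat.dvd_prime_pow hp.out).mp hdvd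
  have hk1 : k ≤ 1 := by
    by_contra hcon
    have : k = 2 := by omega
    subst this
    have := cardlt _ _ hlt
    rw [hk', hc] at this
    exact lt_irrefl _ this
  have hLp : Nat.card L ∣ p := by
    rw [hk']
    calc p ^ k ∣ p ^ 1 := pow_dvd_pow p hk1
      _ = p := pow_one p
  refine ⟨?_, hLp⟩
  have hbot : ⁅L, (⊤ : Subgroup G)⁆ = ⊥ := by
    by_cases hL : L = ⊥
    · rw [hL, Subgroup.commutator_bot_left]
    · have hlt2 := comm_lt L hL
      have h1 := cardlt _ _ hlt2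
      have h2 : Nat.card (⁅L, (⊤ : Subgroup G)⁆ : Subgroup G) ∣ p :=
        (Subgroup.card_dvd_of_le hlt2.le).trans hLp
      rcases (Nat.dvd_prime hp.out).mp h2 with h3 | h3
      · exact Subgroup.card_eq_one.mp h3
      · have h4 := Nat.le_of_dvd hp.out.pos hLp
        omega
  intro a ha g k
  have h1 : ⁅a, g⁆ ∈ L := Subgroup.commutator_mem_commutator ha (Subgroup.mem_top g)
  have h2 : ⁅⁅a, g⁆, k⁆ ∈ ⁅L, (⊤ : Subgroup G)⁆ :=
    Subgroup.commutator_mem_commutator h1 (Subgroup.mem_top k)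
  rw [hbot] at h2
  exact commutatorElement_eq_one_iff_mul_comm.mp (Subgroup.mem_bot.mp h2)

/-- a good pair of generators when `|γ₂| = p²` is not cyclic -/
theorem pick (hG : IsPGroup p G) (hc : Nat.card (commutator G) = p ^ 2)
    (hnc : ¬ IsCyclic (commutator G)) {x0 y0 : G}
    (hgen : Subgroup.closure ({x0, y0} : Set G) = ⊤) :
    ∃ x y : G, Subgroup.closure ({x, y} : Set G) = ⊤ ∧ (∀ a ∈ commutator G, a * y = y * a) ∧
      ⁅⁅x, y⁆, x⁆ ≠ 1 := by
  obtain ⟨h3, hL⟩ := C3_of_sq hG hc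
  -- it suffices to treat the case `⁅⁅x, y⁆, x⁆ ≠ 1`
  have main : ∀ x0 y0 : G, Subgroup.closure ({x0, y0} : Set G) = ⊤ → ⁅⁅x0, y0⁆, x0⁆ ≠ 1 →
      ∃ x y : G, Subgroup.closure ({x, y} : Set G) = ⊤ ∧ (∀ a ∈ commutator G, a * y = y * a) ∧
      ⁅⁅x, y⁆, x⁆ ≠ 1 := by
    intro x0 y0 hgen hne
    have hz : ⁅x0, y0⁆ ∈ commutator G := comm_mem _ _
    let L : Subgroup G := ⁅commutator G, (⊤ : Subgroup G)⁆
    have hmem : ∀ g, ⁅⁅x0, y0⁆, g⁆ ∈ L := fun g =>
      Subgroup.commutator_mem_commutator hz (Subgroup.mem_top g)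
    have hLp : Nat.card L = p := by
      rcases (Nat.dvd_prime hp.out).mp hL with h | h
      · exfalso
        have h1 := Subgroup.card_eq_one.mp h
        have h2 := hmem x0
        rw [show L = ⊥ from h1] at h2
        exact hne (Subgroup.mem_bot.mp h2)
      · exact h
    obtain ⟨k, hk⟩ : ∃ k : ℤ, ⁅⁅x0, y0⁆, x0⁆ ^ k = ⁅⁅x0, y0⁆, y0⁆ := by
      have h1 : (⟨_, hmem x0⟩ : L) ≠ 1 := fun h => hne (congrArg Subtype.val h)
      have h2 := zpowers_eq_top_of_prime_card hLp h1
      have h3 : (⟨_, hmem y0⟩ : L) ∈ Subgroup.zpowers (⟨_, hmem x0⟩ : L) := by rw [h2]; trivial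
      obtain ⟨k, hk⟩ := h3
      exact ⟨k, congrArg Subtype.val hk⟩
    let y := y0 * x0 ^ (-k)
    have hzy : ⁅x0, y⁆ = ⁅x0, y0⁆ := by
      show ⁅x0, y0 * x0 ^ (-k)⁆ = _
      have h1 : x0 * x0 ^ (-k) = x0 ^ (-k) * x0 := (Commute.zpow_right (Commute.refl x0) (-k)).eq
      simp only [commutatorElement_def]
      calc x0 * (y0 * x0 ^ (-k)) * x0⁻¹ * (y0 * x0 ^ (-k))⁻¹
          = x0 * y0 * (x0 ^ (-k) * x0⁻¹ * (x0 ^ (-k))⁻¹) * y0⁻¹ := by group
        _ = x0 * y0 * x0⁻¹ * y0⁻¹ := by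
            have h2 : x0 ^ (-k) * x0⁻¹ * (x0 ^ (-k))⁻¹ = x0⁻¹ := by group
            rw [h2]
    have hcom : ⁅⁅x0, y0⁆, y⁆ = 1 := by
      show ⁅⁅x0, y0⁆, y0 * x0 ^ (-k)⁆ = 1
      rw [br_mul_right h3 hz, br_zpow_right h3 hz, ← hk, ← zpow_add, add_neg_cancel, zpow_zero]
    have hgen' : Subgroup.closure ({x0, y} : Set G) = ⊤ := by
      have m1 : x0 ∈ Subgroup.closure ({x0, y} : Set G) := Subgroup.subset_closure (Or.inl rfl)
      have m2 : y ∈ Subgroup.closure ({x0, y} : Set G) := Subgroup.subset_closure (Or.inr rfl)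
      refine gen_pair_of hgen m1 ?_
      have m3 := mul_mem m2 (zpow_mem m1 k)
      have : y * x0 ^ k = y0 := by show y0 * x0 ^ (-k) * x0 ^ k = y0; group
      rwa [this] at m3
    refine ⟨x0, y, hgen', ?_, by rw [hzy]; exact hne⟩
    -- the centraliser of `y` in `γ₂`
    let N : Subgroup G := Subgroup.centralizer {y} ⊓ commutator G
    have hN : commutator G ≤ N := by
      refine comm_le_of hgen' N ?_ ?_ ?_
      · intro s hs
        refine ⟨?_, conj_mem hs.2 _⟩
        show x0 * s * x0⁻¹ ∈ Subgroup.centralizer {y}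
        rw [Subgroup.mem_centralizer_singleton_iff]
        have h1 : x0 * s * x0⁻¹ = ⁅s, x0⁆⁻¹ * s := by simp only [commutatorElement_def]; group
        have h2 : s * y = y * s := Subgroup.mem_centralizer_singleton_iff.mp hs.1
        have h4 : Commute ⁅s, x0⁆ y := h3 s hs.2 x0 y
        have h5 : Commute (⁅s, x0⁆⁻¹ * s) y := Commute.mul_left h4.inv_left h2
        rw [h1]
        exact h5.eq
      · intro s hs
        have h2 : s * y = y * s := Subgroup.mem_centralizer_singleton_iff.mp hs.1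
        rw [← h2, mul_inv_cancel_right]
        exact hs
      · refine ⟨?_, comm_mem _ _⟩
        show ⁅x0, y⁆ ∈ Subgroup.centralizer {y}
        rw [Subgroup.mem_centralizer_singleton_iff, hzy]
        exact commutatorElement_eq_one_iff_mul_comm.mp hcom
    intro a ha
    exact Subgroup.mem_centralizer_singleton_iff.mp (hN ha).1
  rcases not_cyclic_comm hgen hnc with h | h
  · exact main x0 y0 hgen h
  · refine main y0 x0 (by rw [Set.pair_comm]; exact hgen) ?_
    intro h1
    apply h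
    rw [commutatorElement_eq_one_iff_mul_comm] at h1 ⊢
    have h2 : ⁅x0, y0⁆ = ⁅y0, x0⁆⁻¹ := (commutatorElement_inv _ _).symm
    rw [h2]
    exact (Commute.inv_left (show Commute ⁅y0, x0⁆ y0 from h1)).eq

/-- odd primes: no noncyclic derived subgroup of order `p²` -/
theorem odd_base (hp2 : p ≠ 2) (hG : IsPGroup p G) (hgood : Good 2 G)
    (hc : Nat.card (commutator G) = p ^ 2) (hnc : ¬ IsCyclic (commutator G)) : False := by
  obtain ⟨x0, y0, hgen0⟩ := hgood.exists_pair
  obtain ⟨x, y, hgen, hy, hne⟩ := pick hG hc hnc hgen0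
  obtain ⟨h3, _⟩ := C3_of_sq hG hc
  obtain ⟨_, fy, _⟩ := hgood.full_pair hgen
  have hexp : ∀ a ∈ commutator G, a ^ p = 1 := fun a ha =>
    congrArg Subtype.val (pow_of_sq hc hnc ⟨a, ha⟩)
  obtain ⟨z, hz⟩ : ∃ z, z = ⁅x, y⁆ := ⟨_, rfl⟩
  obtain ⟨w, hw⟩ : ∃ w, w = ⁅z, x⁆⁻¹ := ⟨_, rfl⟩
  have hzm : z ∈ commutator G := hz ▸ comm_mem _ _
  have hwm : w ∈ commutator G := hw ▸ inv_mem (comm_mem _ _)
  have hwc : ∀ k, w * k = k * w := fun k => by
    rw [hw]; exact (Commute.inv_left (show Commute ⁅z, x⁆ k from h3 z hzm x k)).eq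
  have cxy : x * y * x⁻¹ = z * y := by rw [hz, commutatorElement_def]; group
  have cxz : x * z * x⁻¹ = w * z := by rw [hw, commutatorElement_def]; group
  have hform : ∀ n : ℕ, x ^ n * y * (x ^ n)⁻¹ = w ^ (n.choose 2) * (z ^ n * y) := by
    intro n
    induction n with
    | zero => simp
    | succ n ih =>
      have h1 : x ^ (n + 1) * y * (x ^ (n + 1))⁻¹ = x * (x ^ n * y * (x ^ n)⁻¹) * x⁻¹ := by
        rw [pow_succ']; group
      have h2 : x * (w ^ (n.choose 2) * (z ^ n * y)) * x⁻¹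
          = (x * w ^ (n.choose 2) * x⁻¹) * ((x * z * x⁻¹) ^ n * (x * y * x⁻¹)) := by
        rw [conj_pow]; group
      have h4 : x * w ^ (n.choose 2) * x⁻¹ = w ^ (n.choose 2) := by
        have : Commute w x := hwc x
        rw [← (this.pow_left (n.choose 2)).eq, mul_inv_cancel_right]
      rw [h1, ih, h2, h4, cxz, cxy, (show Commute w z from hwc z).mul_pow n, Nat.choose_succ_succ' n 1,
        Nat.choose_one_right, add_comm n, pow_add, pow_succ z n]
      simp only [mul_assoc]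
  have hpc : p ∣ p.choose 2 := by
    have h1 := hp.out.two_le
    exact hp.out.dvd_choose_self two_ne_zero (by omega)
  have hperiod : x ^ p * y * (x ^ p)⁻¹ = y := by
    obtain ⟨k, hk⟩ := hpc
    rw [hform, hexp z hzm, hk, pow_mul, hexp w hwm, one_pow, one_mul, one_mul]
  have hb := bound_list hgen ((List.range p).map (fun n => x ^ n * y * (x ^ n)⁻¹)) ?_ ?_
    (k := y) ?_ fy
  · rw [List.length_map, List.length_range, hc] at hb
    have h1 := hp.out.one_lt
    nlinarith
  · intro s hs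
    rw [List.mem_map] at hs ⊢
    obtain ⟨n, hn, rfl⟩ := hs
    rw [List.mem_range] at hn
    have h1 : x * (x ^ n * y * (x ^ n)⁻¹) * x⁻¹ = x ^ (n + 1) * y * (x ^ (n + 1))⁻¹ := by
      rw [pow_succ']; group
    rw [h1]
    by_cases h2 : n + 1 = p
    · refine ⟨0, List.mem_range.mpr hp.out.pos, ?_⟩
      rw [h2, hperiod]; simp
    · exact ⟨n + 1, List.mem_range.mpr (by omega), rfl⟩
  · intro s hs
    have h1 : y * s * y⁻¹ = s := by
      rw [List.mem_map] at hs
      obtain ⟨n, hn, rfl⟩ := hs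
      have h2 : x ^ n * y * (x ^ n)⁻¹ = ⁅x ^ n, y⁆ * y := by
        rw [commutatorElement_def]; group
      have h4 := hy _ (comm_mem (x ^ n) y)
      rw [h2]
      calc y * (⁅x ^ n, y⁆ * y) * y⁻¹ = y * ⁅x ^ n, y⁆ := by group
        _ = ⁅x ^ n, y⁆ * y := h4.symm
    rw [h1]; exact hs
  · rw [List.mem_map]
    exact ⟨0, List.mem_range.mpr hp.out.pos, by simp⟩

end general

end Pool.Agent.V1132.CPA
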