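import Mathlib
import Pool.Agent.V1132.CPA6

/-!
Two-generator p-groups attaining the bound: the derived subgroup is cyclic, or `p = 2` and it is
elementary abelian of order four or eight.
-/

set_option autoImplicit false
set_option linter.unusedSimpArgs false
set_option linter.unusedVariables false
set_option linter.unusedSectionVars false
set_option linter.style.haveILetI false

open scoped commutatorElement

namespace Pool.Agent.V1132.CPA

open Pool.Agent.Helper832.AutC (frattini_facts)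

section quotients

variable {G : Type} [Group G]

theorem card_comm_quot [Finite G] (N : Subgroup G) [N.Normal] (hN : N ≤ commutator G) :
    Nat.card (commutator (G ⧸ N)) * Nat.card N = Nat.card (commutator G) := by
  let f : commutator G →* G ⧸ N := (QuotientGroup.mk' N).comp (commutator G).subtype
  have h1 : f.range = commutator (G ⧸ N) := by
    rw [← map_comm_mk N, MonoidHom.range_comp, Subgroup.range_subtype]
  have h2 : f.ker = N.subgroupOf (commutator G) := by
    ext a
    rw [MonoidHom.mem_ker, Subgroup.mem_subgroupOf]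
    exact QuotientGroup.eq_one_iff (a : G)
  have h3 : Nat.card f.ker = Nat.card N := by
    rw [h2]
    exact Nat.card_congr (Subgroup.subgroupOfEquivOfLe hN).toEquiv
  have h4 := Subgroup.card_mul_index f.ker
  rw [Subgroup.index_ker, h1, h3, mul_comm] at h4
  exact h4

theorem mem_zp {m : G} (m2 : m * m = 1) {a : G} (h : a ∈ Subgroup.zpowers m) : a = 1 ∨ a = m := by
  obtain ⟨k, rfl⟩ := h
  show m ^ k = 1 ∨ m ^ k = m
  have h2 : m ^ (2 : ℤ) = 1 := by rw [zpow_two]; exact m2
  rcases Int.emod_two_eq_zero_or_one k with hk | hk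
  · left
    rw [← Int.emod_add_mul_ediv k 2, hk, zero_add, zpow_mul, h2, one_zpow]
  · right
    rw [← Int.emod_add_mul_ediv k 2, hk, zpow_add, zpow_mul, h2, one_zpow, mul_one, zpow_one]

theorem card_zp [Finite G] {p : ℕ} (hp : p.Prime) {m : G} (hm : m ^ p = 1) (hm1 : m ≠ 1) :
    Nat.card (Subgroup.zpowers m) = p := by
  haveI : Fact p.Prime := ⟨hp⟩
  rw [Nat.card_zpowers]
  exact orderOf_eq_prime hm hm1

theorem normal_zp {m : G} (hm : ∀ g, g * m = m * g) : (Subgroup.zpowers m).Normal := by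
  refine ⟨?_⟩
  rintro _ ⟨k, rfl⟩ g
  have h1 : Commute g (m ^ k) := (show Commute g m from hm g).zpow_right k
  show g * m ^ k * g⁻¹ ∈ _
  rw [h1.eq, mul_inv_cancel_right]
  exact ⟨k, rfl⟩

theorem D8_conc [Finite G] {x y z u m : G} (D : Dat x y z u m m 1 1 1 1)
    (hgen : Subgroup.closure ({x, y} : Set G) = ⊤) :
    (∀ a ∈ commutator G, a * a = 1) ∧ C3 G := by
  have hz : ⁅x, y⁆ = z := by rw [commutatorElement_def, D.xy]; group
  obtain ⟨hm, m2, _, _, _, _, xy, xz, yz, xu, yu, xv, yv, zu, zv, uv, u2, v2, z2⟩ := D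
  have e1 := fun g k => ext_mul (hm g) k
  have e2 := fun k => ext_mul m2 k
  have e4 := fun k => ext_mul xz k
  have e5 := fun k => ext_mul yz k
  have e6 := fun k => ext_mul xu k
  have e7 := fun k => ext_mul yu k
  have e10 := fun k => ext_mul zu k
  have e13 := fun k => ext_mul u2 k
  have e15 := fun k => ext_mul z2 k
  have hucen : ∀ g, g * u = u * g := by
    have h1 : (⊤ : Subgroup G) ≤ Subgroup.centralizer {u} := by
      rw [← hgen, Subgroup.closure_le]
      rintro _ (rfl | rfl)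
      · show _ ∈ Subgroup.centralizer {u}
        rw [Subgroup.mem_centralizer_singleton_iff, xu, one_mul]
      · show _ ∈ Subgroup.centralizer {u}
        rw [Subgroup.mem_centralizer_singleton_iff, yu, one_mul]
    exact fun g => Subgroup.mem_centralizer_singleton_iff.mp (h1 (Subgroup.mem_top g))
  obtain ⟨hL, _⟩ := card_comm_le_list hgen [1, m, z, m * z, u, m * u, u * z, m * (u * z)] (by simp)
    (by
      intro s hs r hr
      simp only [List.mem_cons, List.not_mem_nil, or_false] at hs hr ⊢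
      rcases hs with rfl | rfl | rfl | rfl | rfl | rfl | rfl | rfl <;>
      rcases hr with rfl | rfl | rfl | rfl | rfl | rfl | rfl | rfl <;>
      simp [mul_assoc, hm, m2, e1, e2, zu, e10, u2, e13, z2, e15])
    (by
      intro s hs
      simp only [List.mem_cons, List.not_mem_nil, or_false] at hs ⊢
      rcases hs with rfl | rfl | rfl | rfl | rfl | rfl | rfl | rfl <;>
      simp [mul_assoc, hm, m2, e1, e2, zu, e10, u2, e13, xz, e4, xu, e6])
    (by
      intro s hs
      simp only [List.mem_cons, List.not_mem_nil, or_false] at hs ⊢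
      rcases hs with rfl | rfl | rfl | rfl | rfl | rfl | rfl | rfl <;>
      simp [mul_assoc, hm, m2, e1, e2, zu, e10, u2, e13, yz, e5, yu, e7]) (by rw [hz]; simp)
  refine ⟨fun a ha => ?_, ?_⟩
  · have h1 := hL a ha
    simp only [List.mem_cons, List.not_mem_nil, or_false] at h1
    rcases h1 with rfl | rfl | rfl | rfl | rfl | rfl | rfl | rfl <;>
    simp [mul_assoc, hm, m2, e1, e2, zu, e10, u2, e13, z2, e15]
  · intro a ha g
    have h1 := hL a ha
    have h2 : x * a * x⁻¹ = a ∨ x * a * x⁻¹ = u * a := by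
      simp only [List.mem_cons, List.not_mem_nil, or_false] at h1
      rcases h1 with rfl | rfl | rfl | rfl | rfl | rfl | rfl | rfl <;>
      simp [mul_assoc, hm, m2, e1, e2, zu, e10, u2, e13, xz, e4, xu, e6]
    have h3 : y * a * y⁻¹ = a ∨ y * a * y⁻¹ = m * a := by
      simp only [List.mem_cons, List.not_mem_nil, or_false] at h1
      rcases h1 with rfl | rfl | rfl | rfl | rfl | rfl | rfl | rfl <;>
      simp [mul_assoc, hm, m2, e1, e2, zu, e10, u2, e13, yz, e5, yu, e7]
    have cu : ∀ g k : G, g * (u * k) * g⁻¹ = u * (g * k * g⁻¹) := by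
      intro g k
      calc g * (u * k) * g⁻¹ = (g * u) * k * g⁻¹ := by group
        _ = _ := by rw [hucen]; group
    have cm : ∀ g k : G, g * (m * k) * g⁻¹ = m * (g * k * g⁻¹) := by
      intro g k
      calc g * (m * k) * g⁻¹ = (g * m) * k * g⁻¹ := by group
        _ = _ := by rw [hm]; group
    have h4 : g * a * g⁻¹ ∈ [a, u * a, m * a, m * (u * a)] := by
      refine not_conj_list hgen _ ?_ ?_ (k := a) (by simp) (isConj_iff.mpr ⟨g, rfl⟩)
      · intro s hs
        simp only [List.mem_cons, List.not_mem_nil, or_false] at hs ⊢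
        rcases hs with rfl | rfl | rfl | rfl <;> (try simp only [cu, cm]) <;>
        rcases h2 with h2 | h2 <;> rw [h2] <;> simp [u2, e13, m2, e2]
      · intro s hs
        simp only [List.mem_cons, List.not_mem_nil, or_false] at hs ⊢
        rcases hs with rfl | rfl | rfl | rfl <;> (try simp only [cu, cm]) <;>
        rcases h3 with h3 | h3 <;> rw [h3] <;> simp [u2, e13, m2, e2, hm, e1, mul_assoc]
    have h5 : ∃ c : G, (∀ k, k * c = c * k) ∧ g * a * g⁻¹ = c * a := by
      simp only [List.mem_cons, List.not_mem_nil, or_false] at h4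
      rcases h4 with h4 | h4 | h4 | h4
      · exact ⟨1, fun k => by simp, by rw [h4, one_mul]⟩
      · exact ⟨u, hucen, h4⟩
      · exact ⟨m, hm, h4⟩
      · refine ⟨m * u, fun k => ?_, by rw [h4, mul_assoc]⟩
        rw [← mul_assoc, hm, mul_assoc, hucen, ← mul_assoc]
    obtain ⟨c, hc, h6⟩ := h5
    have h7 : ⁅a, g⁆ = c⁻¹ := by
      have h8 : ⁅g, a⁆ = c := by
        rw [commutatorElement_def, h6, mul_inv_cancel_right]
      rw [← commutatorElement_inv, h8]
    intro k
    rw [h7]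
    exact (show Commute k c from hc k).inv_right.eq.symm

theorem T8 [Finite G] (hG : IsPGroup 2 G) (hgood : Good 2 G) {m : G} (hm : ∀ g, g * m = m * g)
    (m2 : m * m = 1) (hm1 : m ≠ 1) (hmem : m ∈ commutator G)
    (hcard : Nat.card (commutator G) = 8) [hN : (Subgroup.zpowers m).Normal]
    (hnc : ¬ IsCyclic (commutator (G ⧸ Subgroup.zpowers m))) :
    (∀ a ∈ commutator G, a * a = 1) ∧ C3 G := by
  haveI : Fact (Nat.Prime 2) := ⟨Nat.prime_two⟩
  let N : Subgroup G := Subgroup.zpowers m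
  have hNle : N ≤ commutator G := by
    show Subgroup.zpowers m ≤ _
    rw [Subgroup.zpowers_le]; exact hmem
  have hN2 : Nat.card N = 2 := card_zp Nat.prime_two (by rw [pow_two]; exact m2) hm1
  have hq := card_comm_quot N hNle
  have hq4 : Nat.card (commutator (G ⧸ N)) = 2 ^ 2 := by
    rw [hN2, hcard] at hq; omega
  obtain ⟨x0, y0, h0⟩ := hgood.exists_pair
  obtain ⟨xq, yq, hgq, hyq, hneq⟩ := pick (hG.to_quotient N) hq4 hnc (gen_pair_mk N h0)
  obtain ⟨c3, _⟩ := C3_of_sq (hG.to_quotient N) hq4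
  obtain ⟨x, rfl⟩ := QuotientGroup.mk'_surjective N xq
  obtain ⟨y, rfl⟩ := QuotientGroup.mk'_surjective N yq
  have hgen : Subgroup.closure ({x, y} : Set G) = ⊤ := lift_gen hG N hNle hgq
  have hmk : ∀ a : G, (QuotientGroup.mk' N) a = 1 → a = 1 ∨ a = m := fun a h =>
    mem_zp m2 ((QuotientGroup.eq_one_iff a).mp h)
  let π := QuotientGroup.mk' N
  have hzq : π ⁅x, y⁆ ∈ commutator (G ⧸ N) := by rw [map_commutatorElement]; exact comm_mem _ _
  have hv : ⁅y, ⁅x, y⁆⁆ = 1 ∨ ⁅y, ⁅x, y⁆⁆ = m := by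
    apply hmk
    rw [map_commutatorElement, commutatorElement_eq_one_iff_mul_comm]
    exact (hyq _ hzq).symm
  have hu : ∀ k : G, (⁅k, ⁅x, ⁅x, y⁆⁆⁆ : G) = 1 ∨ (⁅k, ⁅x, ⁅x, y⁆⁆⁆ : G) = m := by
    intro k
    apply hmk
    rw [map_commutatorElement, map_commutatorElement (QuotientGroup.mk' N) x ⁅x, y⁆,
      commutatorElement_eq_one_iff_mul_comm]
    have h1 := c3 _ hzq (π x) (π k)
    have h2 : ⁅π x, π ⁅x, y⁆⁆ = ⁅π ⁅x, y⁆, π x⁆⁻¹ := (commutatorElement_inv _ _).symm
    rw [h2]
    exact (show Commute ⁅π ⁅x, y⁆, π x⁆ (π k) from h1).inv_left.eq.symm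
  have hvv : ∀ k : G, (⁅k, ⁅y, ⁅x, y⁆⁆⁆ : G) = 1 := by
    intro k
    rw [commutatorElement_eq_one_iff_mul_comm]
    rcases hv with h | h
    · rw [h]; simp
    · rw [h]; exact hm k
  have hz2 : ⁅x, y⁆ * ⁅x, y⁆ = 1 ∨ ⁅x, y⁆ * ⁅x, y⁆ = m := by
    apply hmk
    have h1 := congrArg Subtype.val (pow_of_sq hq4 hnc ⟨_, hzq⟩)
    rw [map_mul, ← pow_two]
    exact h1
  have D := mkDat hm m2 rfl rfl rfl (hu x) (hu y) (Or.inl (hvv x)) (Or.inl (hvv y)) hz2
  exact D8_conc (eight hgood hgen D hv (by omega)) hgen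

theorem T16 [Finite G] (hG : IsPGroup 2 G) (hgood : Good 2 G) {m : G} (hm : ∀ g, g * m = m * g)
    (m2 : m * m = 1) (hm1 : m ≠ 1) [hN : (Subgroup.zpowers m).Normal]
    (hcard : Nat.card (commutator G) = 16)
    (hexp : ∀ a ∈ commutator (G ⧸ Subgroup.zpowers m), a * a = 1)
    (c3 : C3 (G ⧸ Subgroup.zpowers m)) : False := by
  let N : Subgroup G := Subgroup.zpowers m
  obtain ⟨x, y, hgen⟩ := hgood.exists_pair
  have hmk : ∀ a : G, (QuotientGroup.mk' N) a = 1 → a = 1 ∨ a = m := fun a h =>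
    mem_zp m2 ((QuotientGroup.eq_one_iff a).mp h)
  let π := QuotientGroup.mk' N
  have hzq : π ⁅x, y⁆ ∈ commutator (G ⧸ N) := by rw [map_commutatorElement]; exact comm_mem _ _
  have hu : ∀ l k : G, (⁅k, ⁅l, ⁅x, y⁆⁆⁆ : G) = 1 ∨ (⁅k, ⁅l, ⁅x, y⁆⁆⁆ : G) = m := by
    intro l k
    apply hmk
    rw [map_commutatorElement, map_commutatorElement (QuotientGroup.mk' N) l ⁅x, y⁆,
      commutatorElement_eq_one_iff_mul_comm]
    have h1 := c3 _ hzq (π l) (π k)
    have h2 : ⁅π l, π ⁅x, y⁆⁆ = ⁅π ⁅x, y⁆, π l⁆⁻¹ := (commutatorElement_inv _ _).symm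
    rw [h2]
    exact (show Commute ⁅π ⁅x, y⁆, π l⁆ (π k) from h1).inv_left.eq.symm
  have hz2 : ⁅x, y⁆ * ⁅x, y⁆ = 1 ∨ ⁅x, y⁆ * ⁅x, y⁆ = m := by
    apply hmk
    rw [map_mul]
    exact hexp _ hzq
  have D := mkDat hm m2 rfl rfl rfl (hu x x) (hu x y) (hu y x) (hu y y) hz2
  exact sixteen hgood hm1 hgen D (by omega)

end quotients

end Pool.Agent.V1132.CPA
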