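import Mathlib
import Pool.Agent.V1132.CPA7

/-!
Two-generator p-groups attaining the bound with a noncyclic derived subgroup.
-/

set_option autoImplicit false
set_option linter.unusedSimpArgs false
set_option linter.unusedVariables false
set_option linter.unusedSectionVars false
set_option linter.style.haveILetI false

open scoped commutatorElement

namespace Pool.Agent.V1132.CPA

open Pool.Agent.Helper832.AutC (frattini_facts)

theorem exists_of_mem_comm {G : Type} [Group G] {N : Subgroup G} [N.Normal] {g : G ⧸ N}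
    (h : g ∈ commutator (G ⧸ N)) : ∃ a ∈ commutator G, QuotientGroup.mk' N a = g := by
  rw [← map_comm_mk] at h
  exact h

section

variable {p : ℕ} [hp : Fact p.Prime] {G : Type} [Group G] [Finite G]

/-- if `γ₂` has order at least `p³` and is not cyclic, some central element of order `p` in `γ₂` has
a noncyclic quotient -/
theorem exists_m (hG : IsPGroup p G) (hnc : ¬ IsCyclic (commutator G)) {k : ℕ}
    (hk : Nat.card (commutator G) = p ^ k) (hk3 : 3 ≤ k) :
    ∃ m ∈ commutator G, m ≠ 1 ∧ m ^ p = 1 ∧ (∀ g, g * m = m * g) ∧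
      ∀ [(Subgroup.zpowers m).Normal], ¬ IsCyclic (commutator (G ⧸ Subgroup.zpowers m)) := by
  have hK : IsPGroup p (commutator G) := hG.to_subgroup _
  obtain ⟨hF1, hF2⟩ := frattini_facts hK
  let P : Subgroup G := (frattini (commutator G)).map (commutator G).subtype
  haveI hPn : P.Normal := by
    haveI : (frattini (commutator G)).Characteristic := inferInstance
    infer_instance
  by_cases hP : P = ⊥
  · -- elementary abelian
    have hF : ∀ a : commutator G, a ∈ frattini (commutator G) → a = 1 := by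
      intro a ha
      have : (a : G) ∈ P := ⟨a, ha, rfl⟩
      rw [hP] at this
      exact Subtype.ext (Subgroup.mem_bot.mp this)
    have hexp : ∀ a ∈ commutator G, a ^ p = 1 := fun a ha =>
      congrArg Subtype.val (hF _ (hF2 ⟨a, ha⟩))
    have hne : commutator G ≠ ⊥ := by
      intro h
      apply hnc
      rw [h]
      infer_instance
    obtain ⟨m, hm, hm1, hmp, hmc⟩ := exists_central hG (commutator G) hne
    refine ⟨m, hm, hm1, hmp, hmc, ?_⟩
    intro hN hcyc
    have h1 := card_comm_quot (Subgroup.zpowers m) (by rw [Subgroup.zpowers_le]; exact hm)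
    rw [card_zp hp.out hmp hm1, hk] at h1
    obtain ⟨g, hg⟩ := hcyc.exists_generator
    have h2 : orderOf g = Nat.card (commutator (G ⧸ Subgroup.zpowers m)) :=
      orderOf_eq_card_of_forall_mem_zpowers hg
    have h3 : g ^ p = 1 := by
      obtain ⟨a, ha, ha'⟩ := exists_of_mem_comm g.2
      apply Subtype.ext
      show (g : G ⧸ Subgroup.zpowers m) ^ p = 1
      rw [← ha', ← map_pow, hexp a ha, map_one]
    have h5 : orderOf g ∣ p := orderOf_dvd_of_pow_eq_one h3
    have h6 := Nat.le_of_dvd hp.out.pos h5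
    rw [h2] at h6
    have h7 : p ^ 3 ≤ p ^ k := Nat.pow_le_pow_right hp.out.pos hk3
    have h8 := hp.out.one_lt
    have h9 : p ^ k ≤ p * p := by rw [← h1]; exact Nat.mul_le_mul_right p h6
    nlinarith
  · obtain ⟨m, hm, hm1, hmp, hmc⟩ := exists_central hG P hP
    obtain ⟨hm2, hm3⟩ : ∃ h : m ∈ commutator G, (⟨m, h⟩ : commutator G) ∈ frattini (commutator G) := by
      obtain ⟨m', hm', rfl⟩ := hm
      exact ⟨m'.2, hm'⟩
    refine ⟨m, hm2, hm1, hmp, hmc, ?_⟩
    intro hN hcyc
    apply hnc
    obtain ⟨g, hg⟩ := hcyc.exists_generator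
    obtain ⟨a, ha, ha'⟩ := exists_of_mem_comm g.2
    have h5 : Subgroup.zpowers (⟨a, ha⟩ : commutator G) ⊔ frattini (commutator G) = ⊤ := by
      rw [eq_top_iff]
      rintro ⟨b, hb⟩ _
      have h6 : (QuotientGroup.mk' (Subgroup.zpowers m)) b ∈ commutator (G ⧸ Subgroup.zpowers m) := by
        rw [← map_comm_mk]; exact ⟨b, hb, rfl⟩
      obtain ⟨j, hj⟩ := hg ⟨_, h6⟩
      have hj' : (g : G ⧸ Subgroup.zpowers m) ^ j = QuotientGroup.mk' (Subgroup.zpowers m) b :=
        congrArg Subtype.val hj
      rw [← ha', ← map_zpow] at hj'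
      have h7 : (a ^ j)⁻¹ * b ∈ Subgroup.zpowers m := QuotientGroup.eq.mp hj'
      obtain ⟨l, hl⟩ := h7
      have h8 : (⟨b, hb⟩ : commutator G) = (⟨a, ha⟩ : commutator G) ^ j * (⟨m, hm2⟩ : commutator G) ^ l := by
        apply Subtype.ext
        show b = a ^ j * m ^ l
        have hl' : m ^ l = (a ^ j)⁻¹ * b := hl
        rw [hl', mul_inv_cancel_left]
      rw [h8]
      exact mul_mem ((le_sup_left : Subgroup.zpowers (⟨a, ha⟩ : commutator G) ≤ _)
        ⟨j, rfl⟩) ((le_sup_right : frattini (commutator G) ≤ _) (zpow_mem hm3 l))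
    have h6 : Subgroup.zpowers (⟨a, ha⟩ : commutator G) = ⊤ := frattini_nongenerating h5
    refine ⟨⟨⟨a, ha⟩, fun b => ?_⟩⟩
    have h7 : b ∈ Subgroup.zpowers (⟨a, ha⟩ : commutator G) := by rw [h6]; trivial
    exact h7

end

theorem noncyclic {p : ℕ} [hp : Fact p.Prime] : ∀ (n : ℕ) (G : Type) [Group G] [Finite G],
    Nat.card G = n → IsPGroup p G → Good 2 G → ¬ IsCyclic (commutator G) →
    p = 2 ∧ (∀ a ∈ commutator G, a * a = 1) ∧
      (Nat.card (commutator G) = 4 ∨ (Nat.card (commutator G) = 8 ∧ C3 G)) := by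
  intro n
  induction n using Nat.strong_induction_on with
  | _ n ih =>
    intro G _ _ hn hG hgood hnc
    obtain ⟨k, hk⟩ := (hG.to_subgroup (commutator G)).exists_card_eq
    have hk0 : k ≠ 0 := by
      rintro rfl
      apply hnc
      rw [pow_zero] at hk
      haveI := (Nat.card_eq_one_iff_unique.mp hk).1
      infer_instance
    have hk1 : k ≠ 1 := by
      rintro rfl
      apply hnc
      rw [pow_one] at hk
      exact isCyclic_of_prime_card hk
    by_cases hk2 : k = 2
    · subst hk2
      by_cases hp2 : p = 2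
      · subst hp2
        refine ⟨rfl, fun a ha => ?_, Or.inl (by rw [hk]; norm_num)⟩
        have h1 := congrArg Subtype.val (pow_of_sq hk hnc ⟨a, ha⟩)
        rw [← pow_two]; exact h1
      · exact (odd_base hp2 hG hgood hk hnc).elim
    · obtain ⟨m, hm, hm1, hmp, hmc, hq⟩ := exists_m hG hnc hk (by omega)
      haveI hN : (Subgroup.zpowers m).Normal := normal_zp hmc
      have hq := @hq hN
      have hle : Subgroup.zpowers m ≤ commutator G := by rw [Subgroup.zpowers_le]; exact hm
      have hcz : Nat.card (Subgroup.zpowers m) = p := card_zp hp.out hmp hm1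
      have hlt : Nat.card (G ⧸ Subgroup.zpowers m) < n := by
        rw [← hn]
        have h1 := Subgroup.card_eq_card_quotient_mul_card_subgroup (Subgroup.zpowers m)
        rw [hcz] at h1
        have h2 := hp.out.two_le
        have h3 : 0 < Nat.card (G ⧸ Subgroup.zpowers m) := Nat.card_pos
        rw [h1]
        nlinarith
      obtain ⟨hp2, hexp, hcase⟩ := ih _ hlt (G ⧸ Subgroup.zpowers m) rfl
        (hG.to_quotient _) (hgood.quot _) hq
      subst hp2
      refine ⟨rfl, ?_⟩
      have hcq := card_comm_quot (Subgroup.zpowers m) hle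
      rw [hcz] at hcq
      have m2 : m * m = 1 := by rw [← pow_two]; exact hmp
      rcases hcase with h4 | ⟨h8, c3⟩
      · have h8' : Nat.card (commutator G) = 8 := by omega
        obtain ⟨r1, r2⟩ := T8 hG hgood hmc m2 hm1 hm h8' hq
        exact ⟨r1, Or.inr ⟨h8', r2⟩⟩
      · exact (T16 hG hgood hmc m2 hm1 (by omega) hexp c3).elim

end Pool.Agent.V1132.CPA
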