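import Mathlib
import Pool.Agent.V1132.CPA8

/-!
Two-generator 2-groups attaining the bound with a cyclic derived subgroup.
-/

set_option autoImplicit false
set_option linter.unusedSimpArgs false
set_option linter.unusedVariables false
set_option linter.unusedSectionVars false
set_option linter.style.haveILetI false

open scoped commutatorElement

namespace Pool.Agent.V1132.CPA

variable {G : Type} [Group G] [Finite G]

theorem inv_case (hgood : Good 2 G) {x y : G} (hgen : Subgroup.closure ({x, y} : Set G) = ⊤)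
    (hx : ∀ c ∈ commutator G, x * c * x⁻¹ = c⁻¹) (hy : ∀ c ∈ commutator G, y * c * y⁻¹ = c) :
    Nat.card (commutator G) ≤ 2 := by
  obtain ⟨_, fy, _⟩ := hgood.full_pair hgen
  have hb := bound_list hgen [y, ⁅x, y⁆ * y] ?_ ?_ (k := y) (by simp) fy
  · exact hb
  · intro s hs
    simp only [List.mem_cons, List.not_mem_nil, or_false] at hs ⊢
    rcases hs with rfl | rfl
    · right; rw [commutatorElement_def]; group
    · left
      have h1 := hx _ (comm_mem x y)
      calc x * (⁅x, y⁆ * y) * x⁻¹ = (x * ⁅x, y⁆ * x⁻¹) * (x * y * x⁻¹) := by group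
        _ = ⁅x, y⁆⁻¹ * (x * y * x⁻¹) := by rw [h1]
        _ = y := by rw [commutatorElement_def]; group
  · intro s hs
    simp only [List.mem_cons, List.not_mem_nil, or_false] at hs ⊢
    rcases hs with rfl | rfl
    · left; group
    · right
      have h1 := hy _ (comm_mem x y)
      calc y * (⁅x, y⁆ * y) * y⁻¹ = (y * ⁅x, y⁆ * y⁻¹) * y := by group
        _ = _ := by rw [h1]

theorem dich {w : G} (hw : ∀ c ∈ commutator G, c ∈ Subgroup.zpowers w) (hwm : w ∈ commutator G)
    (w4 : w ^ 4 = 1) (g : G) :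
    (∀ c ∈ commutator G, g * c * g⁻¹ = c) ∨ (∀ c ∈ commutator G, g * c * g⁻¹ = c⁻¹) := by
  obtain ⟨k, hk⟩ := hw _ (conj_mem hwm g)
  have hk' : g * w * g⁻¹ = w ^ k := hk.symm
  have w4' : w ^ (4 : ℤ) = 1 := by exact_mod_cast w4
  have hkr : w ^ k = w ^ (k % 4) := by
    conv_lhs => rw [← Int.emod_add_mul_ediv k 4]
    rw [zpow_add, zpow_mul, w4', one_zpow, mul_one]
  rw [hkr] at hk'
  have h1 : ∀ j : ℤ, g * w ^ j * g⁻¹ = (g * w * g⁻¹) ^ j := fun j => conj_zpow.symm
  have h2 : k % 4 = 0 ∨ k % 4 = 1 ∨ k % 4 = 2 ∨ k % 4 = 3 := by omega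
  have triv : w = 1 → ∀ c ∈ commutator G, g * c * g⁻¹ = c := by
    rintro rfl c hc
    obtain ⟨j, hj⟩ := hw c hc
    have : c = 1 := by rw [← hj]; simp
    rw [this]; group
  rcases h2 with h | h | h | h
  · rw [h, zpow_zero] at hk'
    left
    apply triv
    have : w = g⁻¹ * 1 * g := by rw [← hk']; group
    rw [this]; group
  · rw [h, zpow_one] at hk'
    left
    intro c hc
    obtain ⟨j, hj⟩ := hw c hc
    have hj' : c = w ^ j := hj.symm
    rw [hj', h1, hk']
  · rw [h] at hk'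
    left
    apply triv
    have h3 : g * w ^ (2 : ℤ) * g⁻¹ = 1 := by
      rw [h1, hk', ← zpow_mul]; exact w4'
    have h4 : w ^ (2 : ℤ) = 1 := by
      have : w ^ (2 : ℤ) = g⁻¹ * 1 * g := by rw [← h3]; group
      rw [this]; group
    rw [h4] at hk'
    have : w = g⁻¹ * 1 * g := by rw [← hk']; group
    rw [this]; group
  · rw [h] at hk'
    right
    have h3 : w ^ (3 : ℤ) = w⁻¹ := by
      have : w ^ (3 : ℤ) = w ^ (4 : ℤ) * w⁻¹ := by
        rw [← zpow_sub_one]; norm_num
      rw [this, w4', one_mul]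
    rw [h3] at hk'
    intro c hc
    obtain ⟨j, hj⟩ := hw c hc
    have hj' : c = w ^ j := hj.symm
    rw [hj', h1, hk', inv_zpow]

theorem four_central (hgood : Good 2 G) {w : G} (hw : ∀ c ∈ commutator G, c ∈ Subgroup.zpowers w)
    (hwm : w ∈ commutator G) (w4 : w ^ 4 = 1) :
    ∀ c ∈ commutator G, ∀ g, g * c * g⁻¹ = c := by
  -- a derived subgroup of order at most two is central
  have small : Nat.card (commutator G) ≤ 2 → ∀ c ∈ commutator G, ∀ g, g * c * g⁻¹ = c := by
    intro hle c hc g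
    have h1 : c⁻¹ = c := by
      have h2 : orderOf (⟨c, hc⟩ : commutator G) ∣ Nat.card (commutator G) := orderOf_dvd_natCard _
      have h3 : (⟨c, hc⟩ : commutator G) ^ 2 = 1 := by
        apply orderOf_dvd_iff_pow_eq_one.mp
        have h4 : 0 < orderOf (⟨c, hc⟩ : commutator G) := orderOf_pos _
        have h5 : orderOf (⟨c, hc⟩ : commutator G) ≤ 2 :=
          (Nat.le_of_dvd Nat.card_pos h2).trans hle
        interval_cases h : orderOf (⟨c, hc⟩ : commutator G)
        · exact one_dvd _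
        · exact dvd_rfl
      have h6 : c ^ 2 = 1 := congrArg Subtype.val h3
      rw [pow_two] at h6
      exact inv_eq_of_mul_eq_one_left h6
    rcases dich hw hwm w4 g with h | h
    · exact h c hc
    · rw [h c hc, h1]
  obtain ⟨x, y, hgen⟩ := hgood.exists_pair
  have mulc : ∀ a b : G, (∀ c ∈ commutator G, a * c * a⁻¹ = c⁻¹) →
      (∀ c ∈ commutator G, b * c * b⁻¹ = c⁻¹) → ∀ c ∈ commutator G, (b * a) * c * (b * a)⁻¹ = c := by
    intro a b ha hb c hc
    calc (b * a) * c * (b * a)⁻¹ = b * (a * c * a⁻¹) * b⁻¹ := by group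
      _ = c := by rw [ha c hc, hb _ (inv_mem hc), inv_inv]
  rcases dich hw hwm w4 x with hx | hx <;> rcases dich hw hwm w4 y with hy | hy
  · intro c hc g
    have h1 : (⊤ : Subgroup G) ≤ Subgroup.centralizer {c} := by
      rw [← hgen, Subgroup.closure_le]
      rintro _ (rfl | rfl)
      · show _ ∈ Subgroup.centralizer {c}
        rw [Subgroup.mem_centralizer_singleton_iff]
        exact mul_inv_eq_iff_eq_mul.mp (hx c hc)
      · show _ ∈ Subgroup.centralizer {c}
        rw [Subgroup.mem_centralizer_singleton_iff]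
        exact mul_inv_eq_iff_eq_mul.mp (hy c hc)
    have h2 := Subgroup.mem_centralizer_singleton_iff.mp (h1 (Subgroup.mem_top g))
    exact mul_inv_eq_iff_eq_mul.mpr h2
  · exact small (inv_case hgood (by rw [Set.pair_comm]; exact hgen) hy hx)
  · exact small (inv_case hgood hgen hx hy)
  · refine small (inv_case hgood (x := x) (y := y * x) ?_ hx (mulc x y hx hy))
    have m1 : x ∈ Subgroup.closure ({x, y * x} : Set G) := Subgroup.subset_closure (Or.inl rfl)
    have m2 : y * x ∈ Subgroup.closure ({x, y * x} : Set G) := Subgroup.subset_closure (Or.inr rfl)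
    refine gen_pair_of hgen m1 ?_
    have m3 := mul_mem m2 (inv_mem m1)
    rwa [mul_inv_cancel_right] at m3

/-- if the derived subgroup is cyclic then `⁅c, g⁆` is a fourth power -/
theorem cyclic_fourth (hgood : Good 2 G) (hcyc : IsCyclic (commutator G)) :
    ∀ c ∈ commutator G, ∀ g : G, ∃ e ∈ commutator G, ⁅c, g⁆ = e ^ 4 := by
  obtain ⟨w0, hw0⟩ := hcyc.exists_generator
  obtain ⟨w, hwm⟩ := w0
  have hw : ∀ c ∈ commutator G, c ∈ Subgroup.zpowers w := by
    intro c hc
    obtain ⟨j, hj⟩ := hw0 ⟨c, hc⟩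
    exact ⟨j, congrArg Subtype.val hj⟩
  haveI hN : (Subgroup.zpowers (w ^ 4)).Normal := by
    refine ⟨?_⟩
    rintro _ ⟨k, rfl⟩ g
    obtain ⟨l, hl⟩ := hw _ (conj_mem hwm g)
    have hl' : g * w * g⁻¹ = w ^ l := hl.symm
    refine ⟨l * k, ?_⟩
    show (w ^ 4) ^ (l * k) = g * (w ^ 4) ^ k * g⁻¹
    rw [← conj_zpow, ← conj_pow, hl', zpow_mul]
    congr 1
    rw [← zpow_natCast, ← zpow_natCast, ← zpow_mul, ← zpow_mul, mul_comm]
  have h1 := four_central (hgood.quot (Subgroup.zpowers (w ^ 4)))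
    (w := QuotientGroup.mk' (Subgroup.zpowers (w ^ 4)) w) ?_ ?_ ?_
  · intro c hc g
    have h2 := h1 (QuotientGroup.mk' (Subgroup.zpowers (w ^ 4)) c)
      (by rw [← map_comm_mk]; exact ⟨c, hc, rfl⟩) (QuotientGroup.mk' (Subgroup.zpowers (w ^ 4)) g)
    have h3 : ⁅c, g⁆ ∈ Subgroup.zpowers (w ^ 4) := by
      refine (QuotientGroup.eq_one_iff _).mp ?_
      have h4 : (QuotientGroup.mk' (Subgroup.zpowers (w ^ 4))) ⁅c, g⁆ = 1 := by
        rw [map_commutatorElement, commutatorElement_eq_one_iff_mul_comm]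
        exact (mul_inv_eq_iff_eq_mul.mp h2).symm
      exact h4
    obtain ⟨j, hj⟩ := h3
    refine ⟨w ^ j, zpow_mem hwm j, ?_⟩
    have hj' : ⁅c, g⁆ = (w ^ 4) ^ j := hj.symm
    rw [hj', ← zpow_natCast, ← zpow_natCast, ← zpow_mul, ← zpow_mul, mul_comm]
  · intro c hc
    obtain ⟨a, ha, rfl⟩ := exists_of_mem_comm hc
    obtain ⟨j, hj⟩ := hw a ha
    have hj' : a = w ^ j := hj.symm
    exact ⟨j, by rw [hj', map_zpow]⟩
  · rw [← map_comm_mk]; exact ⟨w, hwm, rfl⟩
  · rw [← map_pow]
    exact (QuotientGroup.eq_one_iff _).mpr (Subgroup.mem_zpowers _)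

end Pool.Agent.V1132.CPA
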