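import Mathlib
import Pool.Agent.V1132.CPA9
import Pool.Agent.Helper832.AutC.Suff

/-!
Minimal generating tuples of finite p-groups, and groups of class at most two.
-/

set_option autoImplicit false
set_option linter.unusedSimpArgs false
set_option linter.unusedVariables false
set_option linter.unusedSectionVars false
set_option linter.style.haveILetI false

open scoped commutatorElement

namespace Pool.Agent.V1132.CPA

open Pool.Agent.Helper832.AutC (frattini_facts wd hom_wd exists_exponents Crit surjP_of_crit SurjP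
  AutC pr pr_coe pr_wd pr_of_of)

section

variable {p : ℕ} [hp : Fact p.Prime] {G : Type} [Group G] [Finite G]

theorem mem_of_wd (hG : IsPGroup p G) (H : Subgroup G) (hH : frattini G ≤ H) {d : ℕ}
    (x : Fin d → G) (j : Fin d) (hx : ∀ i, i ≠ j → x i ∈ H) (a : Fin d → ℤ) (ha : wd x a ∈ H)
    (hj : ¬ (p : ℤ) ∣ a j) : x j ∈ H := by
  classical
  obtain ⟨hF1, hF2⟩ := frattini_facts hG
  haveI hN : H.Normal := by
    refine ⟨fun h hh g => ?_⟩
    have e1 : g * h * g⁻¹ = ⁅g, h⁆ * h := by rw [commutatorElement_def]; group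
    rw [e1]
    exact mul_mem (hH (hF1 g h)) hh
  let V := G ⧸ H
  letI : CommGroup V :=
    { (inferInstance : Group (G ⧸ H)) with
      mul_comm := by
        intro a b
        obtain ⟨a, rfl⟩ := QuotientGroup.mk'_surjective H a
        obtain ⟨b, rfl⟩ := QuotientGroup.mk'_surjective H b
        rw [← commutatorElement_eq_one_iff_mul_comm, ← map_commutatorElement]
        exact (QuotientGroup.eq_one_iff _).mpr (hH (hF1 a b)) }
  let π : G →* V := QuotientGroup.mk' H
  have hπ : ∀ g, π g = 1 ↔ g ∈ H := fun g => QuotientGroup.eq_one_iff g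
  have h1 : π (wd x a) = 1 := (hπ _).mpr ha
  rw [hom_wd, Finset.prod_eq_single j] at h1
  · have h2 : π (x j) ^ p = 1 := by
      rw [← map_pow]
      exact (hπ _).mpr (hH (hF2 _))
    have h4 : IsCoprime (a j) (p : ℤ) := by
      rw [isCoprime_comm]
      exact (Prime.coprime_iff_not_dvd (Nat.prime_iff_prime_int.mp hp.out)).mpr hj
    obtain ⟨r, s, hrs⟩ := h4
    rw [← hπ]
    calc π (x j) = π (x j) ^ (r * a j + s * (p : ℤ)) := by rw [hrs, zpow_one]
      _ = (π (x j) ^ a j) ^ r * (π (x j) ^ p) ^ s := by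
          rw [zpow_add, mul_comm r, zpow_mul, mul_comm s, zpow_mul, zpow_natCast]
      _ = 1 := by rw [h1, h2, one_zpow, one_zpow, mul_one]
  · intro i _ hij
    rw [(hπ _).mpr (hx i hij), one_zpow]
  · intro h
    exact absurd (Finset.mem_univ j) h

/-- exponents modulo the derived subgroup -/
theorem exists_wd {d : ℕ} (x : Fin d → G) (hx : Subgroup.closure (Set.range x) = ⊤) (u : G) :
    ∃ a : Fin d → ℤ, ∃ c ∈ commutator G, u = wd x a * c := by
  obtain ⟨a, ha⟩ := exists_exponents x hx u
  rw [← hom_wd] at ha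
  refine ⟨a, (wd x a)⁻¹ * u, ?_, by rw [mul_inv_cancel_left]⟩
  have h1 : Abelianization.of ((wd x a)⁻¹ * u) = 1 := by
    rw [map_mul, map_inv, ha, inv_mul_cancel]
  rw [← Abelianization.ker_of G]
  exact h1

theorem wd_mem (H : Subgroup G) {d : ℕ} (x : Fin d → G) (a : Fin d → ℤ)
    (h : ∀ i, x i ^ a i ∈ H) : wd x a ∈ H := by
  unfold wd
  refine Subgroup.list_prod_mem _ ?_
  intro s hs
  rw [List.mem_ofFn] at hs
  obtain ⟨i, rfl⟩ := hs
  exact h i

/-- an element outside the Frattini subgroup can replace one of the generators -/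
theorem exchange (hG : IsPGroup p G) {d : ℕ} (x : Fin d → G)
    (hx : Subgroup.closure (Set.range x) = ⊤) {h : G} (hh : h ∉ frattini G) :
    ∃ j, Subgroup.closure (Set.range (Function.update x j h)) = ⊤ := by
  classical
  obtain ⟨hF1, hF2⟩ := frattini_facts hG
  obtain ⟨a, c, hc, hu⟩ := exists_wd x hx h
  have hcF : c ∈ frattini G := comm_le_frattini hG hc
  obtain ⟨j, hj⟩ : ∃ j, ¬ (p : ℤ) ∣ a j := by
    by_contra hcon
    push Not at hcon
    apply hh
    rw [hu]
    refine mul_mem (wd_mem _ x a (fun i => ?_)) hcF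
    obtain ⟨k, hk⟩ := hcon i
    rw [hk, zpow_mul, zpow_natCast]
    exact zpow_mem (hF2 _) k
  refine ⟨j, ?_⟩
  apply frattini_nongenerating
  set H : Subgroup G := Subgroup.closure (Set.range (Function.update x j h)) ⊔ frattini G with hHdef
  have hH : frattini G ≤ H := le_sup_right
  have hH2 : Subgroup.closure (Set.range (Function.update x j h)) ≤ H := le_sup_left
  have hxi : ∀ i, i ≠ j → x i ∈ H := by
    intro i hij
    refine hH2 (Subgroup.subset_closure ⟨i, ?_⟩)
    rw [Function.update_of_ne hij]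
  have hhH : h ∈ H := hH2 (Subgroup.subset_closure ⟨j, by rw [Function.update_self]⟩)
  have hwd : wd x a ∈ H := by
    have : wd x a = h * c⁻¹ := by rw [hu, mul_inv_cancel_right]
    rw [this]
    exact mul_mem hhH (inv_mem (hH hcF))
  have hxj := mem_of_wd hG H hH x j hxi a hwd hj
  rw [eq_top_iff, ← hx, Subgroup.closure_le]
  rintro _ ⟨i, rfl⟩
  by_cases hij : i = j
  · subst hij; exact hxj
  · exact hxi i hij

theorem irredundant (x : Fin (Group.rank G) → G)
    (hx : Subgroup.closure (Set.range x) = ⊤) (j : Fin (Group.rank G)) (H : Subgroup G)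
    (hH : H = Subgroup.closure (x '' {j}ᶜ) ⊔ frattini G) : x j ∉ H := by
  classical
  intro hmem
  let S : Finset G := (Finset.univ.erase j).image x
  have hS : Subgroup.closure (S : Set G) = ⊤ := by
    have hST : (S : Set G) = x '' {j}ᶜ := by
      ext g
      constructor
      · intro hg
        obtain ⟨i, hi, rfl⟩ := Finset.mem_image.mp (Finset.mem_coe.mp hg)
        exact ⟨i, (Finset.mem_erase.mp hi).1, rfl⟩
      · rintro ⟨i, hi, rfl⟩
        exact Finset.mem_coe.mpr (Finset.mem_image.mpr ⟨i, Finset.mem_erase.mpr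
          ⟨hi, Finset.mem_univ _⟩, rfl⟩)
    rw [hST]
    apply frattini_nongenerating
    rw [← hH, eq_top_iff, ← hx, Subgroup.closure_le]
    rintro _ ⟨i, rfl⟩
    by_cases hij : i = j
    · subst hij; exact hmem
    · rw [hH]
      exact (le_sup_left : Subgroup.closure (x '' {j}ᶜ) ≤ _) (Subgroup.subset_closure ⟨i, hij, rfl⟩)
  have h1 := Group.rank_le hS
  have h2 : S.card ≤ (Finset.univ.erase j).card := Finset.card_image_le
  rw [Finset.card_erase_of_mem (Finset.mem_univ j), Finset.card_univ, Fintype.card_fin] at h2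
  have h3 := j.2
  omega

/-- independence of a minimal generating tuple modulo the Frattini subgroup -/
theorem indep (hG : IsPGroup p G) (x : Fin (Group.rank G) → G)
    (hx : Subgroup.closure (Set.range x) = ⊤) (a : Fin (Group.rank G) → ℤ)
    (j : Fin (Group.rank G)) (hj : ¬ (p : ℤ) ∣ a j) : wd x a ∉ frattini G := by
  intro hmem
  refine irredundant x hx j _ rfl ?_
  refine mem_of_wd hG _ le_sup_right x j ?_ a
    ((le_sup_right : frattini G ≤ Subgroup.closure (x '' {j}ᶜ) ⊔ frattini G) hmem) hj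
  intro i hij
  exact (le_sup_left : Subgroup.closure (x '' {j}ᶜ) ≤ _) (Subgroup.subset_closure ⟨i, hij, rfl⟩)

theorem gen_not_frattini (x : Fin (Group.rank G) → G)
    (hx : Subgroup.closure (Set.range x) = ⊤) (j : Fin (Group.rank G)) : x j ∉ frattini G :=
  fun h => irredundant x hx j _ rfl
    ((le_sup_right : frattini G ≤ Subgroup.closure (x '' {j}ᶜ) ⊔ frattini G) h)

/-- a minimal generating tuple exists -/
theorem exists_gen (G : Type) [Group G] [Finite G] :
    ∃ x : Fin (Group.rank G) → G, Subgroup.closure (Set.range x) = ⊤ := by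
  obtain ⟨S, hS, hS2⟩ := Group.rank_spec G
  have e : Fin (Group.rank G) ≃ S := (S.equivFinOfCardEq hS).symm
  refine ⟨fun i => (e i : G), ?_⟩
  rw [← hS2]
  congr 1
  ext g
  constructor
  · rintro ⟨i, rfl⟩
    exact (e i).2
  · intro hg
    exact ⟨e.symm ⟨g, hg⟩, by simp⟩

theorem exists_prime_pow_mul {d : ℕ} (a : Fin d → ℤ) (j : Fin d) (h : a j ≠ 0) :
    ∃ k : ℕ, ∃ b : Fin d → ℤ, (∀ i, a i = (p : ℤ) ^ k * b i) ∧ ∃ i, ¬ (p : ℤ) ∣ b i := by
  obtain ⟨n, hn⟩ : ∃ n, n = (a j).natAbs := ⟨_, rfl⟩
  induction n using Nat.strong_induction_on generalizing a with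
  | _ n ih =>
    by_cases hcon : ∀ i, (p : ℤ) ∣ a i
    · choose b hb using hcon
      have hbj : b j ≠ 0 := by
        intro h0
        apply h
        rw [hb j, h0, mul_zero]
      have hlt : (b j).natAbs < n := by
        rw [hn, hb j, Int.natAbs_mul, Int.natAbs_natCast]
        have h1 := hp.out.two_le
        have h2 : 0 < (b j).natAbs := Int.natAbs_pos.mpr hbj
        nlinarith
      obtain ⟨k, c, hc, hi⟩ := ih _ hlt b hbj rfl
      refine ⟨k + 1, c, fun i => ?_, hi⟩
      rw [hb i, hc i, pow_succ]; ring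
    · push Not at hcon
      exact ⟨0, a, fun i => by rw [pow_zero, one_mul], hcon⟩

/-- the sufficiency of (A) -/
theorem classtwo_suff (hG : IsPGroup p G) (hc : ∀ a b c : G, ⁅⁅a, b⁆, c⁆ = 1)
    (hfull : ∀ h : G, h ∉ frattini G → ∀ c ∈ commutator G, IsConj h (c * h))
    (x : Fin (Group.rank G) → G) (hx : Subgroup.closure (Set.range x) = ⊤) : GoodAt x := by
  classical
  have hcrit : Crit hc x := by
    intro a j g
    by_cases hzero : a j = 0
    · by_cases hall : ∀ i, a i = 0
      · refine ⟨1, ?_⟩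
        rw [Finset.prod_eq_one (fun i _ => by rw [hall i, zpow_zero]), hzero, zpow_zero]
      · push Not at hall
        refine ⟨1, ?_⟩
        rw [hzero, zpow_zero, Finset.prod_eq_one]
        intro i _
        have : pr hc (x i) 1 = 1 := map_one _
        rw [this, one_zpow]
    · obtain ⟨k, b, hb, i, hi⟩ := exists_prime_pow_mul (p := p) a j hzero
      have hy := indep hG x hx b i hi
      have hmem : ⁅x j, g⁆ ^ b j ∈ commutator G := zpow_mem (comm_mem _ _) _
      obtain ⟨h, hh⟩ := full_comm (hfull _ hy) hmem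
      refine ⟨h, ?_⟩
      have e1 : ∏ i, (pr hc (x i) h) ^ a i = (∏ i, (pr hc (x i) h) ^ b i) ^ ((p : ℤ) ^ k) := by
        rw [← Finset.prod_zpow]
        refine Finset.prod_congr rfl (fun i _ => ?_)
        rw [hb i, mul_comm, zpow_mul]
      rw [e1, ← pr_wd, hb j, mul_comm, zpow_mul]
      congr 1
      apply Subtype.ext
      exact hh.symm
  have hs : SurjP x := surjP_of_crit hc x hx hcrit
  have hxF : ∀ i, x i ∉ frattini G := gen_not_frattini x hx
  intro c hc'
  obtain ⟨α, hα, hα'⟩ := hs (fun i => c i * x i) (fun i => hfull _ (hxF i) _ (hc' i))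
  exact ⟨α, hα, hα'⟩

end

end Pool.Agent.V1132.CPA
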