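import Mathlib
import Pool.Agent.V1132.CPA10

/-!
Sufficiency: two-generator p-groups with a cyclic derived subgroup, and the case `|γ₂| = 4`.
-/

set_option autoImplicit false
set_option linter.unusedSimpArgs false
set_option linter.unusedVariables false
set_option linter.unusedSectionVars false
set_option linter.style.haveILetI false

open scoped commutatorElement

namespace Pool.Agent.V1132.CPA

theorem geom_dvd {p : ℕ} (hp : p.Prime) {l : ℤ} (h1 : (p : ℤ) ∣ l - 1) (h4 : p = 2 → (4 : ℤ) ∣ l - 1)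
    {k n : ℕ} (h : (p : ℤ) ^ k ∣ ∑ i ∈ Finset.range n, l ^ i) : p ^ k ∣ n := by
  by_cases hl : l = 1
  · subst hl
    simp only [one_pow, Finset.sum_const, Finset.card_range, nsmul_eq_mul, mul_one] at h
    exact_mod_cast h
  · have hpi : Prime (p : ℤ) := Nat.prime_iff_prime_int.mp hp
    have hpl : ¬ (p : ℤ) ∣ l := by
      intro h2
      have h3 : (p : ℤ) ∣ 1 := by
        have := dvd_sub h2 h1
        rwa [sub_sub_cancel] at this
      exact hpi.not_isUnit (isUnit_of_dvd_one h3)
    have hmul : emultiplicity (p : ℤ) (l ^ n - 1 ^ n)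
        = emultiplicity (p : ℤ) (l - 1) + emultiplicity p n := by
      rcases hp.eq_two_or_odd' with h2 | h2
      · subst h2
        have h5 := Int.two_pow_sub_pow' n (h4 rfl) hpl
        have h6 : emultiplicity (2 : ℤ) (n : ℤ) = emultiplicity 2 n := by
          exact_mod_cast Int.natCast_emultiplicity 2 n
        rw [h6] at h5
        exact h5
      · exact Int.emultiplicity_pow_sub_pow hp h2 h1 hpl n
    rw [one_pow, ← geom_sum_mul, emultiplicity_mul hpi, add_comm] at hmul
    have hfin : FiniteMultiplicity (p : ℤ) (l - 1) :=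
      Int.finiteMultiplicity_iff.mpr ⟨by
        rw [Int.natAbs_natCast]; exact hp.ne_one, sub_ne_zero.mpr hl⟩
    have hne : emultiplicity (p : ℤ) (l - 1) ≠ ⊤ := finiteMultiplicity_iff_emultiplicity_ne_top.mp hfin
    have heq : emultiplicity (p : ℤ) (∑ i ∈ Finset.range n, l ^ i) = emultiplicity p n :=
      ENat.add_right_injective_of_ne_top hne hmul
    rw [pow_dvd_iff_le_emultiplicity] at h ⊢
    rwa [heq] at h

section

variable {G : Type} [Group G]

/-- if the centraliser of `x` moves `y` to everything, and the class of `x` is full, then the pair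
is good, with inner automorphisms -/
theorem inn_two {x y : G} (h1 : ∀ t ∈ commutator G, ∃ k, k * x = x * k ∧ k * y * k⁻¹ = t * y)
    (h2 : ∀ t ∈ commutator G, IsConj x (t * x)) : GoodAt ![x, y] := by
  intro c hc
  obtain ⟨h, hh⟩ := isConj_iff.mp (h2 (c 0) (hc 0))
  obtain ⟨k, hk, hk'⟩ := h1 (h⁻¹ * c 1 * h * (h⁻¹ * y * h * y⁻¹)) (by
    refine mul_mem (conj_mem' (hc 1) h) ?_
    have e1 : h⁻¹ * y * h * y⁻¹ = ⁅h⁻¹, y⁆ := by rw [commutatorElement_def, inv_inv]
    rw [e1]; exact comm_mem _ _)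
  have hk2 : k * x * k⁻¹ = x := by rw [hk, mul_inv_cancel_right]
  refine ⟨MulAut.conj (h * k), CP.conj _, fun i => ?_⟩
  fin_cases i
  · show (h * k) * x * (h * k)⁻¹ = c 0 * x
    calc (h * k) * x * (h * k)⁻¹ = h * (k * x * k⁻¹) * h⁻¹ := by group
      _ = _ := by rw [hk2, hh]
  · show (h * k) * y * (h * k)⁻¹ = c 1 * y
    calc (h * k) * y * (h * k)⁻¹ = h * (k * y * k⁻¹) * h⁻¹ := by group
      _ = _ := by rw [hk']; group

variable {p : ℕ} [hp : Fact p.Prime] [Finite G]

/-- the orbit of `y` under the powers of `x` when the derived subgroup is cyclic -/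
theorem cyclic_orbit (hG : IsPGroup p G) (hcyc : IsCyclic (commutator G))
    (h2 : p = 2 → ∀ c ∈ commutator G, ∀ g : G, ∃ e ∈ commutator G, ⁅c, g⁆ = e ^ 4)
    {x y : G} (hgen : Subgroup.closure ({x, y} : Set G) = ⊤) :
    ∀ t ∈ commutator G, ∃ k, k * x = x * k ∧ k * y * k⁻¹ = t * y := by
  classical
  haveI := hG.isNilpotent
  obtain ⟨w0, hw0⟩ := hcyc.exists_generator
  obtain ⟨w, hwm⟩ := w0
  have hw : ∀ c ∈ commutator G, ∃ j : ℤ, c = w ^ j := by
    intro c hc
    obtain ⟨j, hj⟩ := hw0 ⟨c, hc⟩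
    exact ⟨j, (congrArg Subtype.val hj).symm⟩
  obtain ⟨z, hz⟩ : ∃ z, z = ⁅x, y⁆ := ⟨_, rfl⟩
  have hzm : z ∈ commutator G := hz ▸ comm_mem _ _
  -- `z` generates the derived subgroup
  have hzn : ∀ g : G, ∀ s ∈ Subgroup.zpowers z, g * s * g⁻¹ ∈ Subgroup.zpowers z := by
    rintro g _ ⟨k, rfl⟩
    obtain ⟨a, ha⟩ := hw z hzm
    obtain ⟨b, hb⟩ := hw _ (conj_mem hwm g)
    refine ⟨b * k, ?_⟩
    show z ^ (b * k) = g * z ^ k * g⁻¹
    rw [← conj_zpow, ha, ← conj_zpow, hb, ← zpow_mul, ← zpow_mul, ← zpow_mul]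
    congr 1; ring
  have hle : commutator G ≤ Subgroup.zpowers z :=
    comm_le_of hgen _ (hzn x) (hzn y) (by rw [← hz]; exact Subgroup.mem_zpowers z)
  have heq : commutator G = Subgroup.zpowers z :=
    le_antisymm hle (by rw [Subgroup.zpowers_le]; exact hzm)
  obtain ⟨k, hk⟩ := (hG.to_subgroup (commutator G)).exists_card_eq
  have hord : orderOf z = p ^ k := by rw [← hk, heq, Nat.card_zpowers]
  -- the action of `x`
  obtain ⟨l, hl, hl1, hl4⟩ : ∃ l : ℤ, x * z * x⁻¹ = z ^ l ∧ (p : ℤ) ∣ l - 1 ∧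
      (p = 2 → (4 : ℤ) ∣ l - 1) := by
    have e1 : x * z * x⁻¹ = ⁅z, x⁆⁻¹ * z := by rw [commutatorElement_def]; group
    by_cases hp2 : p = 2
    · obtain ⟨e, he, he'⟩ := h2 hp2 z hzm x
      obtain ⟨j, hj⟩ := hle he
      have hj' : e = z ^ j := hj.symm
      refine ⟨1 - 4 * j, ?_, ?_, fun _ => ?_⟩
      · rw [e1, he', hj', ← zpow_natCast, ← zpow_mul, ← zpow_neg, ← zpow_add_one]
        congr 1; push_cast; ring
      · subst hp2
        exact ⟨-2 * j, by push_cast; ring⟩
      · exact ⟨-j, by ring⟩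
    · obtain ⟨j, hj, hpj⟩ : ∃ j : ℤ, ⁅z, x⁆ = z ^ j ∧ (p : ℤ) ∣ j := by
        obtain ⟨j, hj⟩ := hle (comm_mem z x)
        have hj' : ⁅z, x⁆ = z ^ j := hj.symm
        by_cases hpj : (p : ℤ) ∣ j
        · exact ⟨j, hj', hpj⟩
        · -- then `⁅z, x⁆` generates, so `z = 1`
          have hz1 : z = 1 := by
            by_contra hz1
            have hne : commutator G ≠ ⊥ := by
              intro h
              rw [h] at hzm
              exact hz1 (Subgroup.mem_bot.mp hzm)
            have hlt := comm_lt (commutator G) hne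
            have h3 : ⁅z, x⁆ ∈ (⁅commutator G, (⊤ : Subgroup G)⁆ : Subgroup G) :=
              Subgroup.commutator_mem_commutator hzm (Subgroup.mem_top x)
            have hco : IsCoprime j (p : ℤ) := by
              rw [isCoprime_comm]
              exact (Prime.coprime_iff_not_dvd (Nat.prime_iff_prime_int.mp hp.out)).mpr hpj
            have hco2 : IsCoprime j ((p : ℤ) ^ k) := hco.pow_right
            obtain ⟨r, s, hrs⟩ := hco2
            have h4 : z = ⁅z, x⁆ ^ r := by
              have h5 : z ^ ((p : ℤ) ^ k) = 1 := by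
                have := pow_orderOf_eq_one z
                rw [hord] at this
                rw [← this, ← zpow_natCast]; push_cast; rfl
              calc z = z ^ (r * j + s * (p : ℤ) ^ k) := by rw [hrs, zpow_one]
                _ = _ := by
                  rw [zpow_add, mul_comm r, zpow_mul, mul_comm s, zpow_mul, h5, one_zpow, mul_one,
                    hj']
            have h6 : z ∈ (⁅commutator G, (⊤ : Subgroup G)⁆ : Subgroup G) := by
              rw [h4]; exact zpow_mem h3 r
            apply hlt.not_ge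
            rw [heq, Subgroup.zpowers_le, ← heq]
            exact h6
          exact ⟨0, by rw [hz1]; simp, dvd_zero _⟩
      refine ⟨1 - j, ?_, ?_, fun h => absurd h hp2⟩
      · rw [e1, hj, ← zpow_neg, ← zpow_add_one]
        congr 1; ring
      · obtain ⟨m, hm⟩ := hpj
        exact ⟨-m, by rw [hm]; ring⟩
  -- the orbit
  have hform : ∀ n : ℕ, x ^ n * y * (x ^ n)⁻¹ = z ^ (∑ i ∈ Finset.range n, l ^ i) * y := by
    intro n
    induction n with
    | zero => simp
    | succ n ih =>
      have e1 : x ^ (n + 1) * y * (x ^ (n + 1))⁻¹ = x * (x ^ n * y * (x ^ n)⁻¹) * x⁻¹ := by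
        rw [pow_succ']; group
      have cxy : x * y * x⁻¹ = z * y := by rw [hz, commutatorElement_def]; group
      rw [e1, ih]
      calc x * (z ^ (∑ i ∈ Finset.range n, l ^ i) * y) * x⁻¹
          = (x * z ^ (∑ i ∈ Finset.range n, l ^ i) * x⁻¹) * (x * y * x⁻¹) := by group
        _ = (z ^ l) ^ (∑ i ∈ Finset.range n, l ^ i) * (z * y) := by rw [← conj_zpow, hl, cxy]
        _ = _ := by
          rw [← zpow_mul, ← mul_assoc, ← zpow_add_one]
          congr 2
          rw [Finset.sum_range_succ' , pow_zero, Finset.mul_sum]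
          congr 1
          exact Finset.sum_congr rfl (fun i _ => (pow_succ' l i).symm)
  have hinj : Function.Injective (fun a : Fin (p ^ k) =>
      (⟨z ^ (∑ i ∈ Finset.range (a : ℕ), l ^ i), zpow_mem hzm _⟩ : commutator G)) := by
    have key : ∀ a b : Fin (p ^ k), (a : ℕ) < (b : ℕ) →
        z ^ (∑ i ∈ Finset.range (a : ℕ), l ^ i) = z ^ (∑ i ∈ Finset.range (b : ℕ), l ^ i) → False := by
      intro a b hab h
      have h3 : z ^ (∑ i ∈ Finset.range (b : ℕ), l ^ i - ∑ i ∈ Finset.range (a : ℕ), l ^ i) = 1 := by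
        rw [zpow_sub, h, mul_inv_cancel]
      have h4 : (orderOf z : ℤ) ∣ _ := orderOf_dvd_iff_zpow_eq_one.mpr h3
      have h5 : ∑ i ∈ Finset.range (b : ℕ), l ^ i - ∑ i ∈ Finset.range (a : ℕ), l ^ i
          = l ^ (a : ℕ) * ∑ i ∈ Finset.range ((b : ℕ) - a), l ^ i := by
        have e1 : (b : ℕ) = (a : ℕ) + ((b : ℕ) - a) := by omega
        conv_lhs => rw [e1]
        rw [Finset.sum_range_add, add_sub_cancel_left, Finset.mul_sum]
        exact Finset.sum_congr rfl (fun i _ => pow_add l _ _)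
      rw [h5, hord] at h4
      have hco : IsCoprime ((p ^ k : ℕ) : ℤ) (l ^ (a : ℕ)) := by
        push_cast
        refine IsCoprime.pow ?_
        refine (Prime.coprime_iff_not_dvd (Nat.prime_iff_prime_int.mp hp.out)).mpr ?_
        intro h6
        have h7 : (p : ℤ) ∣ 1 := by
          have := dvd_sub h6 hl1
          rwa [sub_sub_cancel] at this
        exact (Nat.prime_iff_prime_int.mp hp.out).not_isUnit (isUnit_of_dvd_one h7)
      have h6 := hco.dvd_of_dvd_mul_left h4
      have h7 : p ^ k ∣ (b : ℕ) - a := geom_dvd hp.out hl1 hl4 (by exact_mod_cast h6)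
      have h8 := Nat.le_of_dvd (by omega) h7
      have := b.2
      omega
    intro a b hab
    have h3 := congrArg Subtype.val hab
    rcases lt_trichotomy (a : ℕ) (b : ℕ) with h | h | h
    · exact (key a b h h3).elim
    · exact Fin.ext h
    · exact (key b a h h3.symm).elim
  have hbij := hinj.bijective_of_nat_card_le (by
    rw [hk, Nat.card_eq_fintype_card, Fintype.card_fin])
  intro t ht
  obtain ⟨a, ha⟩ := hbij.2 ⟨t, ht⟩
  refine ⟨x ^ (a : ℕ), ?_, ?_⟩
  · rw [← pow_succ, ← pow_succ']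
  · rw [hform]
    congr 1
    exact congrArg Subtype.val ha

theorem cyclic_good (hG : IsPGroup p G) (hcyc : IsCyclic (commutator G))
    (h2 : p = 2 → ∀ c ∈ commutator G, ∀ g : G, ∃ e ∈ commutator G, ⁅c, g⁆ = e ^ 4)
    {x y : G} (hgen : Subgroup.closure ({x, y} : Set G) = ⊤) : GoodAt ![x, y] := by
  refine inn_two (cyclic_orbit hG hcyc h2 hgen) (fun t ht => ?_)
  obtain ⟨k, _, hk⟩ := cyclic_orbit hG hcyc h2 (x := y) (y := x)
    (by rw [Set.pair_comm]; exact hgen) t ht
  exact isConj_iff.mpr ⟨k, hk⟩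

end

end Pool.Agent.V1132.CPA
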