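import Mathlib
import Pool.Agent.V1132.CPA11

/-!
Sufficiency: two-generator 2-groups of class at most three with elementary abelian derived
subgroup have full classes outside the Frattini subgroup.
-/

set_option autoImplicit false
set_option linter.unusedSimpArgs false
set_option linter.unusedVariables false
set_option linter.unusedSectionVars false
set_option linter.style.haveILetI false

open scoped commutatorElement

namespace Pool.Agent.V1132.CPA

open Pool.Agent.Helper832.AutC (frattini_facts wd hom_wd exists_exponents)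

section

variable {G : Type} [Group G] [Finite G]

/-- the list of elements of the derived subgroup in class three and exponent two -/
theorem comm_list (hexp : ∀ a ∈ commutator G, a * a = 1) (c3 : C3 G) {x y z u v : G}
    (hgen : Subgroup.closure ({x, y} : Set G) = ⊤) (hz : z = ⁅x, y⁆) (hu : u = ⁅x, z⁆)
    (hv : v = ⁅y, z⁆) :
    ((∀ g, g * u = u * g) ∧ (∀ g, g * v = v * g)) ∧ (u * u = 1 ∧ v * v = 1 ∧ z * z = 1) ∧
    (x * y = z * (y * x) ∧ x * z = u * (z * x) ∧ y * z = v * (z * y)) ∧
    (∀ a ∈ commutator G, a ∈ [1, z, u, u * z, v, v * z, v * u, v * (u * z)]) := by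
  have hzm : z ∈ commutator G := hz ▸ comm_mem _ _
  have hum : u ∈ commutator G := hu ▸ comm_mem _ _
  have hvm : v ∈ commutator G := hv ▸ comm_mem _ _
  have cen : ∀ g k : G, k * ⁅g, z⁆ = ⁅g, z⁆ * k := by
    intro g k
    have h1 : Commute ⁅z, g⁆ k := c3 z hzm g k
    have h2 : ⁅g, z⁆ = ⁅z, g⁆⁻¹ := (commutatorElement_inv _ _).symm
    rw [h2]
    exact (h1.inv_left).eq.symm
  have cu : ∀ g, g * u = u * g := fun g => by rw [hu]; exact cen x g
  have cv : ∀ g, g * v = v * g := fun g => by rw [hv]; exact cen y g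
  have u2 := hexp u hum
  have v2 := hexp v hvm
  have z2 := hexp z hzm
  have xy : x * y = z * (y * x) := by rw [hz]; exact comm_rule x y
  have xz : x * z = u * (z * x) := by rw [hu]; exact comm_rule x z
  have yz : y * z = v * (z * y) := by rw [hv]; exact comm_rule y z
  refine ⟨⟨cu, cv⟩, ⟨u2, v2, z2⟩, ⟨xy, xz, yz⟩, ?_⟩
  have e1 := fun g k => ext_mul (cu g) k
  have e2 := fun g k => ext_mul (cv g) k
  have e3 := fun k => ext_mul u2 k
  have e4 := fun k => ext_mul v2 k
  have e5 := fun k => ext_mul z2 k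
  have e6 := fun k => ext_mul xz k
  have e7 := fun k => ext_mul yz k
  have zu := cu z
  have f1 := e1 z
  have zv := cv z
  have f2 := e2 z
  have uv := cv u
  have f3 := e2 u
  have xu := cu x
  have f4 := e1 x
  have xv := cv x
  have f5 := e2 x
  have yu := cu y
  have f6 := e1 y
  have yv := cv y
  have f7 := e2 y
  refine (card_comm_le_list hgen _ (by simp) ?_ ?_ ?_ (by rw [← hz]; simp)).1
  · intro s hs r hr
    simp only [List.mem_cons, List.not_mem_nil, or_false] at hs hr ⊢
    rcases hs with rfl | rfl | rfl | rfl | rfl | rfl | rfl | rfl <;>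
    rcases hr with rfl | rfl | rfl | rfl | rfl | rfl | rfl | rfl <;>
    simp [mul_assoc, u2, v2, z2, e3, e4, e5, zu, f1, zv, f2, uv, f3]
  · intro s hs
    simp only [List.mem_cons, List.not_mem_nil, or_false] at hs ⊢
    rcases hs with rfl | rfl | rfl | rfl | rfl | rfl | rfl | rfl <;>
    simp [mul_assoc, u2, v2, z2, e3, e4, e5, zu, f1, zv, f2, uv, f3, xz, e6, xu, f4, xv, f5]
  · intro s hs
    simp only [List.mem_cons, List.not_mem_nil, or_false] at hs ⊢
    rcases hs with rfl | rfl | rfl | rfl | rfl | rfl | rfl | rfl <;>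
    simp [mul_assoc, u2, v2, z2, e3, e4, e5, zu, f1, zv, f2, uv, f3, yz, e7, yu, f6, yv, f7]

/-- the class of `x` is full -/
theorem full_of_c3 (hexp : ∀ a ∈ commutator G, a * a = 1) (c3 : C3 G) {x y : G}
    (hgen : Subgroup.closure ({x, y} : Set G) = ⊤) : Full x := by
  obtain ⟨z, hz⟩ : ∃ z, z = ⁅x, y⁆ := ⟨_, rfl⟩
  obtain ⟨u, hu⟩ : ∃ u, u = ⁅x, z⁆ := ⟨_, rfl⟩
  obtain ⟨v, hv⟩ : ∃ v, v = ⁅y, z⁆ := ⟨_, rfl⟩
  obtain ⟨⟨cu, cv⟩, ⟨u2, v2, z2⟩, ⟨xy, xz, yz⟩, hL⟩ := comm_list hexp c3 hgen hz hu hv
  have e1 := fun g k => ext_mul (cu g) k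
  have e2 := fun g k => ext_mul (cv g) k
  have e3 := fun k => ext_mul u2 k
  have e4 := fun k => ext_mul v2 k
  have e5 := fun k => ext_mul z2 k
  have yx : y * x = z * (x * y) := by rw [xy, e5, one_mul]
  have zx : z * x = u * (x * z) := by rw [xz, e3, one_mul]
  have e8 := fun k => ext_mul yx k
  have e9 := fun k => ext_mul zx k
  have e7 := fun k => ext_mul yz k
  have zu := cu z
  have f1 := e1 z
  have zv := cv z
  have f2 := e2 z
  have yu := cu y
  have f6 := e1 y
  have yv := cv y
  have f7 := e2 y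
  have uv := cv u
  have f3 := e2 u
  have c1 : ∀ g s t : G, g * (s * x) = t * (x * g) → IsConj (s * x) (t * x) := by
    intro g s t h
    refine isConj_iff.mpr ⟨g, ?_⟩
    rw [h, mul_assoc t, mul_assoc x, mul_inv_cancel, mul_one]
  have s1 : IsConj x (z * x) := by
    have := c1 y 1 z (by rw [one_mul, yx])
    rwa [one_mul] at this
  have s2 : IsConj x (u * x) := by
    have := c1 z 1 u (by rw [one_mul, zx])
    rwa [one_mul] at this
  have s3 : IsConj (z * x) (v * x) := by
    apply c1 y
    simp [mul_assoc, yz, e7, yx, e8, e5]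
  have s4 : IsConj (u * x) (u * z * x) := by
    apply c1 y
    simp [mul_assoc, yu, f6, yx, e8]
  have s5 : IsConj (v * x) (v * z * x) := by
    apply c1 y
    simp [mul_assoc, yv, f7, yx, e8]
  have s6 : IsConj (v * x) (v * u * x) := by
    apply c1 z
    simp [mul_assoc, zv, f2, zx, e9]
  have s7 : IsConj (v * u * x) (v * (u * z) * x) := by
    apply c1 y
    simp [mul_assoc, yv, f7, yu, f6, yx, e8]
  have t3 := s1.trans s3
  have t6 := t3.trans s6
  intro c hc
  have hc' := hL c hc
  simp only [List.mem_cons, List.not_mem_nil, or_false] at hc'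
  rcases hc' with rfl | rfl | rfl | rfl | rfl | rfl | rfl | rfl
  · rw [one_mul]
  · exact s1
  · exact s2
  · exact s2.trans s4
  · exact t3
  · exact t3.trans s5
  · exact t6
  · exact t6.trans s7

end

end Pool.Agent.V1132.CPA
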