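import Mathlib
import Pool.Agent.V1132.CPA12

/-!
Sufficiency: central automorphisms, and the class three case.
-/

set_option autoImplicit false
set_option linter.unusedSimpArgs false
set_option linter.unusedVariables false
set_option linter.unusedSectionVars false
set_option linter.style.haveILetI false

open scoped commutatorElement

namespace Pool.Agent.V1132.CPA

open Pool.Agent.Helper832.AutC (frattini_facts wd hom_wd exists_exponents)

section

variable {p : ℕ} [hp : Fact p.Prime] {G : Type} [Group G] [Finite G]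

/-- homomorphisms to an abelian group are prescribed by elements of order `p` on a minimal
generating tuple -/
theorem exists_hom (hG : IsPGroup p G) {d : ℕ} (hd : Group.rank G = d) (x : Fin d → G)
    (hx : Subgroup.closure (Set.range x) = ⊤) {A : Type} [CommGroup A] (a : Fin d → A)
    (ha : ∀ i, a i ^ p = 1) :
    ∃ f : G →* A, (∀ i, f (x i) = a i) ∧ ∀ h ∈ frattini G, f h = 1 := by
  subst hd
  let φ : FreeGroup (Fin (Group.rank G)) →* G := FreeGroup.lift x
  let ψ : FreeGroup (Fin (Group.rank G)) →* A := FreeGroup.lift a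
  have hφ : Function.Surjective φ := by
    rw [← MonoidHom.range_eq_top, FreeGroup.range_lift_eq_closure, hx]
  have key : ∀ w, φ w ∈ frattini G → ψ w = 1 := by
    intro w hw
    obtain ⟨b, hb⟩ := exists_exponents (FreeGroup.of : Fin (Group.rank G) → _)
      (FreeGroup.closure_range_of _) w
    have h1 : ψ w = ∏ i, a i ^ b i := by
      have h2 : Abelianization.lift ψ (Abelianization.of w) = ψ w := Abelianization.lift_apply_of ψ w
      rw [← h2, hb, map_prod]
      refine Finset.prod_congr rfl (fun i _ => ?_)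
      rw [map_zpow, Abelianization.lift_apply_of]
      show (FreeGroup.lift a (FreeGroup.of i)) ^ b i = _
      rw [FreeGroup.lift_apply_of]
    have h3 : Abelianization.of (φ w) = Abelianization.of (wd x b) := by
      have h2 : Abelianization.lift (Abelianization.of.comp φ) (Abelianization.of w)
          = Abelianization.of (φ w) := Abelianization.lift_apply_of _ w
      rw [hom_wd, ← h2, hb, map_prod]
      refine Finset.prod_congr rfl (fun i _ => ?_)
      rw [map_zpow, Abelianization.lift_apply_of]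
      show (Abelianization.of (FreeGroup.lift x (FreeGroup.of i))) ^ b i = _
      rw [FreeGroup.lift_apply_of]
    have h4 : wd x b ∈ frattini G := by
      have h5 : (φ w)⁻¹ * wd x b ∈ commutator G := by
        rw [← Abelianization.ker_of G, MonoidHom.mem_ker, map_mul, map_inv, h3, inv_mul_cancel]
      have h6 : wd x b = φ w * ((φ w)⁻¹ * wd x b) := by rw [mul_inv_cancel_left]
      rw [h6]
      exact mul_mem hw (comm_le_frattini hG h5)
    rw [h1]
    refine Finset.prod_eq_one (fun i _ => ?_)
    by_cases hi : (p : ℤ) ∣ b i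
    · obtain ⟨k, hk⟩ := hi
      rw [hk, zpow_mul, zpow_natCast, ha, one_zpow]
    · exact absurd h4 (indep hG x hx b i hi)
  have hker : φ.ker ≤ ψ.ker := by
    intro w hw
    rw [MonoidHom.mem_ker] at hw ⊢
    apply key
    rw [hw]
    exact one_mem _
  let f : G →* A := φ.liftOfSurjective hφ ⟨ψ, hker⟩
  have hf : ∀ w, f (φ w) = ψ w := fun w => φ.liftOfRightInverse_comp_apply _ _ ⟨ψ, hker⟩ w
  refine ⟨f, fun i => ?_, fun h hh => ?_⟩
  · have h1 := hf (FreeGroup.of i)
    have h2 : φ (FreeGroup.of i) = x i := FreeGroup.lift_apply_of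
    have h3 : ψ (FreeGroup.of i) = a i := FreeGroup.lift_apply_of
    rw [h2, h3] at h1
    exact h1
  · obtain ⟨w, rfl⟩ := hφ h
    rw [hf]
    exact key w hh

/-- central automorphisms are class-preserving when all classes outside the Frattini subgroup are
full -/
theorem central_aut (hG : IsPGroup p G) (hfull : ∀ h, h ∉ frattini G → Full h)
    {d : ℕ} (hd : Group.rank G = d) (x : Fin d → G) (hx : Subgroup.closure (Set.range x) = ⊤)
    (s : Fin d → G) (hsm : ∀ i, s i ∈ commutator G) (hsc : ∀ i, ∀ g, g * s i = s i * g)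
    (hsp : ∀ i, s i ^ p = 1) :
    ∃ β : MulAut G, CP β ∧ (∀ i, β (x i) = s i * x i) ∧ ∀ c ∈ commutator G, β c = c := by
  classical
  obtain ⟨f, hf, hfF⟩ := exists_hom hG hd x hx
    (fun i => (⟨s i, Subgroup.mem_center_iff.mpr (hsc i)⟩ : Subgroup.center G))
    (fun i => Subtype.ext (hsp i))
  have hcen : ∀ g k : G, k * (f g : G) = (f g : G) * k := fun g k =>
    Subgroup.mem_center_iff.mp (f g).2 k
  have hmem : ∀ g : G, (f g : G) ∈ commutator G := by
    have h1 : (⊤ : Subgroup G) ≤ (commutator G).comap ((Subgroup.center G).subtype.comp f) := by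
      rw [← hx, Subgroup.closure_le]
      rintro _ ⟨i, rfl⟩
      show (f (x i) : G) ∈ commutator G
      rw [hf i]
      exact hsm i
    intro g
    exact h1 (Subgroup.mem_top g)
  let b : G →* G := MonoidHom.mk' (fun g => (f g : G) * g) (by
    intro g k
    rw [map_mul]
    show (f g : G) * (f k : G) * (g * k) = (f g : G) * g * ((f k : G) * k)
    calc (f g : G) * (f k : G) * (g * k) = (f g : G) * ((f k : G) * g) * k := by group
      _ = (f g : G) * (g * (f k : G)) * k := by rw [hcen k g]
      _ = _ := by group)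
  have hb : ∀ g, b g = (f g : G) * g := fun g => rfl
  have hinj : Function.Injective b := by
    rw [injective_iff_map_eq_one]
    intro g hg
    rw [hb] at hg
    have h1 : g = (f g : G)⁻¹ := (eq_inv_of_mul_eq_one_right hg)
    have h2 : g ∈ commutator G := by rw [h1]; exact inv_mem (hmem g)
    have h3 : f g = 1 := hfF g (comm_le_frattini hG h2)
    rw [h3] at hg
    simpa using hg
  let β : MulAut G := MulEquiv.ofBijective b (Finite.injective_iff_bijective.mp hinj)
  have hβ : ∀ g, β g = (f g : G) * g := fun g => rfl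
  refine ⟨β, fun g => ?_, fun i => ?_, fun c hc => ?_⟩
  · rw [hβ]
    by_cases hg : g ∈ frattini G
    · rw [hfF g hg, Subgroup.coe_one, one_mul]
    · exact hfull g hg _ (hmem g)
  · rw [hβ, hf i]
  · rw [hβ, hfF c (comm_le_frattini hG hc), Subgroup.coe_one, one_mul]

end

/-- case (C): two generators, class at most three, exponent two -/
theorem three_good {G : Type} [Group G] [Finite G] (hG : IsPGroup 2 G) (hd : Group.rank G = 2)
    (hexp : ∀ a ∈ commutator G, a * a = 1) (c3 : C3 G) {x y : G}
    (hgen : Subgroup.closure ({x, y} : Set G) = ⊤) : GoodAt ![x, y] := by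
  haveI : Fact (Nat.Prime 2) := ⟨Nat.prime_two⟩
  have hgen2 : Subgroup.closure (Set.range ![x, y]) = ⊤ := by rw [range_pair]; exact hgen
  have hfull : ∀ h, h ∉ frattini G → Full h := by
    intro h hh
    obtain ⟨j, hj⟩ := exchange hG ![x, y] hgen2 hh
    fin_cases j
    · have e1 : Function.update ![x, y] (0 : Fin 2) h = ![h, y] := by
        funext i; fin_cases i <;> rfl
      have hj' : Subgroup.closure (Set.range (Function.update ![x, y] (0 : Fin 2) h)) = ⊤ := hj
      rw [e1, range_pair] at hj'
      exact full_of_c3 hexp c3 hj'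
    · have e1 : Function.update ![x, y] (1 : Fin 2) h = ![x, h] := by
        funext i; fin_cases i <;> rfl
      have hj' : Subgroup.closure (Set.range (Function.update ![x, y] (1 : Fin 2) h)) = ⊤ := hj
      rw [e1, range_pair, Set.pair_comm] at hj'
      exact full_of_c3 hexp c3 hj'
  obtain ⟨z, hz⟩ : ∃ z, z = ⁅x, y⁆ := ⟨_, rfl⟩
  obtain ⟨u, hu⟩ : ∃ u, u = ⁅x, z⁆ := ⟨_, rfl⟩
  obtain ⟨v, hv⟩ : ∃ v, v = ⁅y, z⁆ := ⟨_, rfl⟩
  have hzm : z ∈ commutator G := hz ▸ comm_mem _ _
  have hum : u ∈ commutator G := hu ▸ comm_mem _ _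
  have hvm : v ∈ commutator G := hv ▸ comm_mem _ _
  obtain ⟨⟨cu, cv⟩, ⟨u2, v2, z2⟩, ⟨xy, xz, yz⟩, hL⟩ := comm_list hexp c3 hgen hz hu hv
  -- the derived subgroup modulo its central part
  have hdec : ∀ c ∈ commutator G, ∃ s ∈ commutator G, (∀ g, g * s = s * g) ∧ (c = s ∨ c = z * s) := by
    intro c hc
    have h1 := hL c hc
    have cvu : ∀ g, g * (v * u) = (v * u) * g := fun g => by
      rw [← mul_assoc, cv, mul_assoc, cu, ← mul_assoc]
    simp only [List.mem_cons, List.not_mem_nil, or_false] at h1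
    rcases h1 with h | h | h | h | h | h | h | h
    · exact ⟨1, one_mem _, fun g => by simp, Or.inl h⟩
    · exact ⟨1, one_mem _, fun g => by simp, Or.inr (by rw [h, mul_one])⟩
    · exact ⟨u, hum, cu, Or.inl h⟩
    · exact ⟨u, hum, cu, Or.inr (by rw [h, cu])⟩
    · exact ⟨v, hvm, cv, Or.inl h⟩
    · exact ⟨v, hvm, cv, Or.inr (by rw [h, cv])⟩
    · exact ⟨v * u, mul_mem hvm hum, cvu, Or.inl h⟩
    · exact ⟨v * u, mul_mem hvm hum, cvu, Or.inr (by rw [h, cvu, mul_assoc])⟩
  have cxy : x * y * x⁻¹ = z * y := by rw [xy]; group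
  have cyx : y * x * y⁻¹ = z * x := by
    have : y * x = z * (x * y) := by rw [xy, ← mul_assoc, z2, one_mul]
    rw [this]; group
  have cxzx : x * (z * x) * x⁻¹ = (u * z) * x := by
    rw [← mul_assoc, xz]; group
  -- central corrections
  have main : ∀ g a b s t : G, g * x * g⁻¹ = a * x → g * y * g⁻¹ = b * y → a ∈ commutator G →
      b ∈ commutator G → s ∈ commutator G → t ∈ commutator G → (∀ g, g * s = s * g) →
      (∀ g, g * t = t * g) → ∃ α : MulAut G, CP α ∧ α x = a * (s * x) ∧ α y = b * (t * y) := by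
    intro g a b s t h1 h2 ha hb hs ht hsc htc
    obtain ⟨β, hβ, hβx, hβc⟩ := central_aut hG hfull hd ![x, y] hgen2 ![s, t] (by
      intro i; fin_cases i
      · exact hs
      · exact ht) (by
      intro i; fin_cases i
      · exact hsc
      · exact htc) (by
      intro i; fin_cases i
      · show s ^ 2 = 1
        rw [pow_two]; exact hexp s hs
      · show t ^ 2 = 1
        rw [pow_two]; exact hexp t ht)
    have b0 : β x = s * x := hβx 0
    have b1 : β y = t * y := hβx 1
    refine ⟨β * MulAut.conj g, hβ.mul (CP.conj g), ?_, ?_⟩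
    · show β (g * x * g⁻¹) = _
      rw [h1, map_mul, hβc a ha, b0]
    · show β (g * y * g⁻¹) = _
      rw [h2, map_mul, hβc b hb, b1]
  intro c hc
  obtain ⟨s, hs, hsc, hs'⟩ := hdec (c 0) (hc 0)
  obtain ⟨t, ht, htc, ht'⟩ := hdec (c 1) (hc 1)
  have fin : (∃ α : MulAut G, CP α ∧ α x = c 0 * x ∧ α y = c 1 * y) →
      ∃ α : MulAut G, CP α ∧ ∀ i, α (![x, y] i) = c i * ![x, y] i := by
    rintro ⟨α, hα, h0, h1⟩
    refine ⟨α, hα, fun i => ?_⟩
    fin_cases i
    · exact h0
    · exact h1
  apply fin
  rcases hs' with h0 | h0 <;> rcases ht' with h1 | h1 <;> rw [h0, h1]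
  · obtain ⟨α, hα, a0, a1⟩ := main 1 1 1 s t (by group) (by group) (one_mem _) (one_mem _) hs ht
      hsc htc
    exact ⟨α, hα, by rw [a0, one_mul], by rw [a1, one_mul]⟩
  · obtain ⟨α, hα, a0, a1⟩ := main x 1 z s t (by group) cxy (one_mem _) hzm hs ht hsc htc
    exact ⟨α, hα, by rw [a0, one_mul], by rw [a1, mul_assoc]⟩
  · obtain ⟨α, hα, a0, a1⟩ := main y z 1 s t cyx (by group) hzm (one_mem _) hs ht hsc htc
    exact ⟨α, hα, by rw [a0, mul_assoc], by rw [a1, one_mul]⟩
  · obtain ⟨α, hα, a0, a1⟩ := main (x * y) (u * z) z (u * s) t (by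
        calc x * y * x * (x * y)⁻¹ = x * (y * x * y⁻¹) * x⁻¹ := by group
          _ = _ := by rw [cyx, cxzx]) (by
        calc x * y * y * (x * y)⁻¹ = x * y * x⁻¹ := by group
          _ = _ := cxy) (mul_mem hum hzm) hzm (mul_mem hum hs) ht (fun g => by
        rw [← mul_assoc, cu, mul_assoc, hsc, ← mul_assoc]) htc
    refine ⟨α, hα, ?_, by rw [a1, mul_assoc]⟩
    rw [a0]
    calc u * z * (u * s * x) = u * (z * u) * (s * x) := by group
      _ = u * (u * z) * (s * x) := by rw [cu z]
      _ = (u * u) * (z * s * x) := by group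
      _ = _ := by rw [u2, one_mul]

end Pool.Agent.V1132.CPA
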