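import Mathlib
import Pool.Agent.V1132.CPA13

/-!
The finite p-groups attaining `|Aut_c(G)| = |γ₂(G)|^d`.
-/

set_option autoImplicit false
set_option linter.unusedSimpArgs false
set_option linter.unusedVariables false
set_option linter.unusedSectionVars false
set_option linter.style.haveILetI false

open scoped commutatorElement

namespace Pool.Agent.V1132.CPA

section

variable {G : Type} [Group G]

theorem C3_iff : C3 G ↔ ⁅⁅commutator G, (⊤ : Subgroup G)⁆, (⊤ : Subgroup G)⁆ = ⊥ := by
  constructor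
  · intro h
    rw [Subgroup.commutator_eq_bot_iff_le_centralizer, Subgroup.commutator_le]
    intro a ha g _
    rw [Subgroup.mem_centralizer_iff]
    intro k _
    exact (h a ha g k).symm
  · intro h a ha g k
    have h1 : ⁅a, g⁆ ∈ (⁅commutator G, (⊤ : Subgroup G)⁆ : Subgroup G) :=
      Subgroup.commutator_mem_commutator ha (Subgroup.mem_top g)
    have h2 : ⁅⁅a, g⁆, k⁆ ∈ (⁅⁅commutator G, (⊤ : Subgroup G)⁆, (⊤ : Subgroup G)⁆ : Subgroup G) :=
      Subgroup.commutator_mem_commutator h1 (Subgroup.mem_top k)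
    rw [h] at h2
    exact commutatorElement_eq_one_iff_mul_comm.mp (Subgroup.mem_bot.mp h2)

theorem central_iff : (∀ a ∈ commutator G, ∀ g : G, ⁅a, g⁆ = 1) ↔
    ⁅commutator G, (⊤ : Subgroup G)⁆ = ⊥ := by
  constructor
  · intro h
    rw [eq_bot_iff, Subgroup.commutator_le]
    intro a ha g _
    exact Subgroup.mem_bot.mpr (h a ha g)
  · intro h a ha g
    have h1 : ⁅a, g⁆ ∈ (⁅commutator G, (⊤ : Subgroup G)⁆ : Subgroup G) :=
      Subgroup.commutator_mem_commutator ha (Subgroup.mem_top g)
    rw [h] at h1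
    exact Subgroup.mem_bot.mp h1

theorem comm_abelian_of_C3 (h : C3 G) : ∀ a ∈ commutator G, ∀ b ∈ commutator G, a * b = b * a := by
  intro a ha b hb
  have h1 : commutator G ≤ Subgroup.centralizer {a} := by
    rw [commutator_def, Subgroup.commutator_le]
    intro g _ k _
    rw [Subgroup.mem_centralizer_singleton_iff]
    have e1 : ⁅a, ⁅g, k⁆⁆ = 1 := by
      rw [commutatorElement_def g k, br_mul_right h ha, br_mul_right h ha, br_mul_right h ha,
        br_inv_right h ha, br_inv_right h ha]
      have h2 : ⁅a, g⁆ * ⁅a, k⁆ = ⁅a, k⁆ * ⁅a, g⁆ := h a ha g _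
      rw [h2]; group
    exact (commutatorElement_eq_one_iff_mul_comm.mp e1).symm
  exact (Subgroup.mem_centralizer_singleton_iff.mp (h1 hb)).symm

end

section

variable {p : ℕ} [hp : Fact p.Prime] {G : Type} [Group G] [Finite G]

theorem rank_two (hG : IsPGroup p G) {d : ℕ} {x : Fin d → G}
    (hx : Subgroup.closure (Set.range x) = ⊤) (hgood : GoodAt x)
    (hne : ⁅commutator G, (⊤ : Subgroup G)⁆ ≠ ⊥) : d = 2 := by
  have hcomm : ¬ ∀ a b : G, a * b = b * a := by
    intro h
    apply hne
    rw [← central_iff]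
    intro a _ g
    rw [commutatorElement_eq_one_iff_mul_comm]
    exact h a g
  have h0 : d ≠ 0 := by
    rintro rfl
    apply hcomm
    have h1 : (⊤ : Subgroup G) = ⊥ := by
      rw [← hx, Set.range_eq_empty, Subgroup.closure_empty]
    intro a b
    have ha : a = 1 := Subgroup.mem_bot.mp (h1 ▸ Subgroup.mem_top a)
    have hb : b = 1 := Subgroup.mem_bot.mp (h1 ▸ Subgroup.mem_top b)
    rw [ha, hb]
  have h1 : d ≠ 1 := by
    rintro rfl
    apply hcomm
    have h2 : Set.range x = {x 0} := by
      ext g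
      constructor
      · rintro ⟨i, rfl⟩
        rw [Subsingleton.elim i 0]; rfl
      · rintro rfl
        exact ⟨0, rfl⟩
    rw [h2] at hx
    intro a b
    have ha : a ∈ Subgroup.closure {x 0} := by rw [hx]; trivial
    have hb : b ∈ Subgroup.closure {x 0} := by rw [hx]; trivial
    obtain ⟨k, rfl⟩ := Subgroup.mem_closure_singleton.mp ha
    obtain ⟨l, rfl⟩ := Subgroup.mem_closure_singleton.mp hb
    rw [← zpow_add, ← zpow_add, add_comm]
  have h3 : ¬ 3 ≤ d := by
    intro h3
    haveI := hG.isNilpotent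
    let N : Subgroup G := ⁅⁅commutator G, (⊤ : Subgroup G)⁆, (⊤ : Subgroup G)⁆
    have hlt : N < ⁅commutator G, (⊤ : Subgroup G)⁆ := comm_lt _ hne
    have c3 : C3 (G ⧸ N) := by
      intro a ha g k
      obtain ⟨a', ha', rfl⟩ := exists_of_mem_comm ha
      obtain ⟨g, rfl⟩ := QuotientGroup.mk'_surjective N g
      obtain ⟨k, rfl⟩ := QuotientGroup.mk'_surjective N k
      rw [← commutatorElement_eq_one_iff_mul_comm, ← map_commutatorElement,
        ← map_commutatorElement]
      exact (QuotientGroup.eq_one_iff _).mpr (Subgroup.commutator_mem_commutator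
        (Subgroup.commutator_mem_commutator ha' (Subgroup.mem_top g)) (Subgroup.mem_top k))
    -- some generator does not centralise
    have hex : ∃ i, ∃ a ∈ commutator (G ⧸ N), ⁅a, (x i : G ⧸ N)⁆ ≠ 1 := by
      by_contra hcon
      push Not at hcon
      apply hlt.not_ge
      rw [Subgroup.commutator_le]
      intro a ha g _
      have h4 : (⊤ : Subgroup (G ⧸ N)) ≤ Subgroup.centralizer {QuotientGroup.mk' N a} := by
        rw [← gen_mk hx N, Subgroup.closure_le]
        rintro _ ⟨i, rfl⟩
        show _ ∈ Subgroup.centralizer {QuotientGroup.mk' N a}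
        rw [Subgroup.mem_centralizer_singleton_iff]
        have h5 := hcon i (QuotientGroup.mk' N a) (by rw [← map_comm_mk]; exact ⟨a, ha, rfl⟩)
        exact (commutatorElement_eq_one_iff_mul_comm.mp h5).symm
      have h5 := Subgroup.mem_centralizer_singleton_iff.mp
        (h4 (Subgroup.mem_top (QuotientGroup.mk' N g)))
      have h6 : QuotientGroup.mk' N ⁅a, g⁆ = 1 := by
        rw [map_commutatorElement, commutatorElement_eq_one_iff_mul_comm]
        exact h5.symm
      exact (QuotientGroup.eq_one_iff _).mp h6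
    obtain ⟨i, hi⟩ := hex
    exact three_main c3 (comm_abelian_of_C3 c3) (gen_mk hx N) (hgood.quot N) h3 hi
  omega

/-- the classification, in terms of good tuples -/
theorem good_iff (hG : IsPGroup p G) {x : Fin (Group.rank G) → G}
    (hx : Subgroup.closure (Set.range x) = ⊤) : GoodAt x ↔
    (⁅commutator G, (⊤ : Subgroup G)⁆ = ⊥ ∧
        ∀ h, h ∉ frattini G → ∀ c ∈ commutator G, IsConj h (c * h)) ∨
    (Group.rank G = 2 ∧ IsCyclic (commutator G) ∧
      (p = 2 → ∀ c ∈ commutator G, ∀ g : G, ∃ e ∈ commutator G, ⁅c, g⁆ = e ^ 4)) ∨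
    (Group.rank G = 2 ∧ p = 2 ∧ (∀ c ∈ commutator G, c ^ 2 = 1) ∧
      ⁅⁅commutator G, (⊤ : Subgroup G)⁆, (⊤ : Subgroup G)⁆ = ⊥) := by
  constructor
  · intro hgood
    by_cases h3 : ⁅commutator G, (⊤ : Subgroup G)⁆ = ⊥
    · left
      refine ⟨h3, fun h hh => ?_⟩
      obtain ⟨j, hj⟩ := exchange hG x hx hh
      have h4 : GoodAt (Function.update x j h) := hgood.other hx hj
      intro c hc
      have h5 := h4.full j hc
      rwa [Function.update_self] at h5
    · right
      have hd := rank_two hG hx hgood h3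
      have hgood2 : Good 2 G := by
        have h4 : Good (Group.rank G) G := ⟨x, hx, hgood⟩
        rwa [hd] at h4
      by_cases hcyc : IsCyclic (commutator G)
      · left
        exact ⟨hd, hcyc, fun _ => cyclic_fourth hgood2 hcyc⟩
      · right
        obtain ⟨hp2, hexp, hcase⟩ := noncyclic _ G rfl hG hgood2 hcyc
        refine ⟨hd, hp2, fun c hc => by rw [pow_two]; exact hexp c hc, ?_⟩
        rw [← C3_iff]
        rcases hcase with h4 | ⟨_, c3⟩
        · subst hp2
          exact (C3_of_sq hG (by rw [h4]; norm_num)).1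
        · exact c3
  · have pair : Group.rank G = 2 → (∀ x y : G, Subgroup.closure ({x, y} : Set G) = ⊤ →
        GoodAt ![x, y]) → GoodAt x := by
      intro hd h
      have h1 : ∀ (d : ℕ), d = 2 → ∀ w : Fin d → G, Subgroup.closure (Set.range w) = ⊤ →
          GoodAt w := by
        rintro d rfl w hw
        have e1 : w = ![w 0, w 1] := by funext i; fin_cases i <;> rfl
        rw [e1, range_pair] at hw
        rw [e1]
        exact h _ _ hw
      exact h1 _ hd x hx
    rintro (⟨h3, hfull⟩ | ⟨hd, hcyc, h2⟩ | ⟨hd, hp2, hexp, h4⟩)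
    · refine classtwo_suff hG (fun a b c => ?_) hfull x hx
      exact central_iff.mpr h3 _ (comm_mem a b) c
    · exact pair hd (fun x y hgen => cyclic_good hG hcyc h2 hgen)
    · subst hp2
      exact pair hd (fun x y hgen => three_good hG hd
        (fun a ha => by rw [← pow_two]; exact hexp a ha) (C3_iff.mpr h4) hgen)

theorem full_iff {h : G} : (∀ c ∈ commutator G, IsConj h (c * h)) ↔
    ∀ c ∈ commutator G, IsConj h (h * c) := by
  constructor
  · intro hf c hc
    have h1 := hf (h * c * h⁻¹) (conj_mem hc h)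
    rwa [inv_mul_cancel_right] at h1
  · intro hf c hc
    have h1 := hf (h⁻¹ * c * h) (conj_mem' hc h)
    rwa [show h * (h⁻¹ * c * h) = c * h by group] at h1

/-- the classification -/
theorem classification (hG : IsPGroup p G) :
    Nat.card {α : MulAut G // ∀ x, IsConj x (α x)} = Nat.card (commutator G) ^ Group.rank G ↔
    (⁅commutator G, (⊤ : Subgroup G)⁆ = ⊥ ∧
        ∀ h, h ∉ frattini G → ∀ c ∈ commutator G, IsConj h (h * c)) ∨
    (Group.rank G = 2 ∧ IsCyclic (commutator G) ∧
      (p = 2 → ∀ c ∈ commutator G, ∀ g : G, ∃ e ∈ commutator G, ⁅c, g⁆ = e ^ 4)) ∨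
    (Group.rank G = 2 ∧ p = 2 ∧ (∀ c ∈ commutator G, c ^ 2 = 1) ∧
      ⁅⁅commutator G, (⊤ : Subgroup G)⁆, (⊤ : Subgroup G)⁆ = ⊥) := by
  obtain ⟨x, hx⟩ := exists_gen G
  have h1 : Nat.card {α : MulAut G // ∀ x, IsConj x (α x)}
      = Nat.card (commutator G) ^ Group.rank G ↔ GoodAt x := card_iff hx
  rw [h1, good_iff hG hx]
  simp only [full_iff]

end

end Pool.Agent.V1132.CPA
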