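import Pool.Agent.V1132.CommutingGraph

/-!
# Commuting graphs of `C_r × PGL(2, p)`

The commuting graph of `C_r × PGL(2, p)` (`p` an odd prime, `r ≥ 1`) has a clique of size `r * p`
and a proper colouring with `r * p` colours.
-/

set_option autoImplicit false

open Matrix

namespace Pool.Agent.V1132.CommPGL

open Pool.Agent.V1132.CommutingGraph


section greedy

/-- Greedy colouring along a rank function. -/
theorem greedy {V : Type*} [Finite V] (Γ : SimpleGraph V) (ρ : V → ℕ) (k : ℕ)
    (h : ∀ v, {u | Γ.Adj v u ∧ ρ u ≤ ρ v}.ncard < k) : Γ.Colorable k := by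
  classical
  cases isEmpty_or_nonempty V with
  | inl hV => exact SimpleGraph.Colorable.of_isEmpty k
  | inr hV =>
    have hk : 0 < k := lt_of_le_of_lt (Nat.zero_le _) (h hV.some)
    have key : ∀ T : Finset V, ∃ f : V → Fin k, ∀ u ∈ T, ∀ v ∈ T, Γ.Adj u v → f u ≠ f v := by
      intro T
      induction T using Finset.strongInduction with
      | H T ih =>
        rcases T.eq_empty_or_nonempty with hT | hT
        · refine ⟨fun _ => ⟨0, hk⟩, ?_⟩
          subst hT
          intro u hu
          exact absurd hu (Finset.notMem_empty u)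
        · obtain ⟨v, hv, hmax⟩ := Finset.exists_max_image T ρ hT
          obtain ⟨f, hf⟩ := ih (T.erase v) (Finset.erase_ssubset hv)
          have hc : ∃ c : Fin k, c ∉ f '' {u | Γ.Adj v u ∧ ρ u ≤ ρ v} := by
            by_contra hcon
            push Not at hcon
            have h1 : (Set.univ : Set (Fin k)) ⊆ f '' {u | Γ.Adj v u ∧ ρ u ≤ ρ v} :=
              fun c _ => hcon c
            have h2 := Set.ncard_le_ncard h1 (Set.toFinite _)
            rw [Set.ncard_univ, Nat.card_eq_fintype_card, Fintype.card_fin] at h2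
            have h3 := Set.ncard_image_le (f := f) (s := {u | Γ.Adj v u ∧ ρ u ≤ ρ v})
              (Set.toFinite _)
            have h4 := h v
            omega
          obtain ⟨c, hc⟩ := hc
          refine ⟨Function.update f v c, ?_⟩
          intro a ha b hb hab
          by_cases hav : a = v
          · subst hav
            have hba : b ≠ a := hab.ne'
            rw [Function.update_self, Function.update_of_ne hba]
            intro hcb
            exact hc ⟨b, ⟨hab, hmax b hb⟩, hcb.symm⟩
          · by_cases hbv : b = v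
            · subst hbv
              rw [Function.update_self, Function.update_of_ne hav]
              intro hcb
              exact hc ⟨a, ⟨hab.symm, hmax a ha⟩, hcb⟩
            · rw [Function.update_of_ne hav, Function.update_of_ne hbv]
              exact hf a (Finset.mem_erase.2 ⟨hav, ha⟩) b (Finset.mem_erase.2 ⟨hbv, hb⟩) hab
    cases nonempty_fintype V
    obtain ⟨f, hf⟩ := key Finset.univ
    exact ⟨SimpleGraph.Coloring.mk f (fun {u v} huv => hf u (Finset.mem_univ _) v
      (Finset.mem_univ _) huv)⟩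

end greedy

section field

variable {F : Type*} [Field F]

/-- The centralizer of a non-scalar `2 × 2` matrix. -/
theorem centralizer_two {A B : Matrix (Fin 2) (Fin 2) F} (hA : ∀ c : F, A ≠ c • 1)
    (h : A * B = B * A) : ∃ x y : F, B = x • (1 : Matrix (Fin 2) (Fin 2) F) + y • A := by
  have e00 := congrFun (congrFun h 0) 0
  have e01 := congrFun (congrFun h 0) 1
  have e10 := congrFun (congrFun h 1) 0
  simp only [Matrix.mul_apply, Fin.sum_univ_two] at e00 e01 e10
  by_cases hb : A 0 1 = 0
  · by_cases hc : A 1 0 = 0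
    · have had : A 0 0 - A 1 1 ≠ 0 := by
        intro had
        apply hA (A 0 0)
        ext i j
        fin_cases i <;> fin_cases j
        · simp
        · simpa using hb
        · simpa using hc
        · simp only [Fin.mk_one, Matrix.smul_apply, Matrix.one_apply_eq, smul_eq_mul, mul_one]
          exact (sub_eq_zero.1 had).symm
      have h1 : B 0 1 = 0 := by
        have : (A 0 0 - A 1 1) * B 0 1 = 0 := by
          linear_combination e01 + (B 0 0 - B 1 1) * hb
        exact (mul_eq_zero.1 this).resolve_left had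
      have h2 : B 1 0 = 0 := by
        have : (A 0 0 - A 1 1) * B 1 0 = 0 := by
          linear_combination -e10 + (B 0 0 - B 1 1) * hc
        exact (mul_eq_zero.1 this).resolve_left had
      refine ⟨B 0 0 - (B 0 0 - B 1 1) / (A 0 0 - A 1 1) * A 0 0,
        (B 0 0 - B 1 1) / (A 0 0 - A 1 1), ?_⟩
      ext i j
      fin_cases i <;> fin_cases j
      · simp
      · simp [h1, hb]
      · simp [h2, hc]
      · simp
        field_simp
        ring
    · refine ⟨B 0 0 - (B 1 0) / (A 1 0) * A 0 0, (B 1 0) / (A 1 0), ?_⟩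
      have h1 : B 0 1 = 0 := by
        have : A 1 0 * B 0 1 = 0 := by linear_combination -e00 + B 1 0 * hb
        exact (mul_eq_zero.1 this).resolve_left hc
      ext i j
      fin_cases i <;> fin_cases j
      · simp
      · simp [h1, hb]
      · simp [hc]
      · simp
        field_simp
        linear_combination -e10
  · refine ⟨B 0 0 - (B 0 1) / (A 0 1) * A 0 0, (B 0 1) / (A 0 1), ?_⟩
    ext i j
    fin_cases i <;> fin_cases j
    · simp
    · simp [hb]
    · simp
      field_simp
      linear_combination e00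
    · simp
      field_simp
      linear_combination e01

end field

section pgl

variable {F : Type*} [Field F]

open ProjGenLinGroup

theorem coe_scalar (u : Fˣ) : (GeneralLinearGroup.scalar (Fin 2) u).1 =
    (u : F) • (1 : Matrix (Fin 2) (Fin 2) F) := by
  ext i j
  fin_cases i <;> fin_cases j <;> simp [GeneralLinearGroup.scalar]

theorem det_ne (A : GL (Fin 2) F) : A.1.det ≠ 0 := by
  have := A.det.ne_zero
  simpa using this

theorem mk_comm_cases {A B : GL (Fin 2) F}
    (h : (mk A : ProjGenLinGroup (Fin 2) F) * mk B = mk B * mk A) :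
    (A.1 * B.1 = B.1 * A.1) ∨ (A.1 * B.1 = -(B.1 * A.1)) := by
  rw [← map_mul, ← map_mul, mk_eq_mk_iff] at h
  obtain ⟨u, hu⟩ := h
  have h1 : (u : F) • (A.1 * B.1) = B.1 * A.1 := by
    have := congrArg Units.val hu
    rw [Units.val_mul, Units.val_mul, Units.val_mul, coe_scalar] at this
    rw [← this]
    simp
  have h2 : (u : F) ^ 2 = 1 := by
    have := congrArg Matrix.det h1
    rw [Matrix.det_smul, Matrix.det_mul, Matrix.det_mul, Fintype.card_fin] at this
    have hne : A.1.det * B.1.det ≠ 0 := mul_ne_zero (det_ne A) (det_ne B)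
    apply mul_right_cancel₀ hne
    rw [this]
    ring
  rcases sq_eq_one_iff.1 h2 with h3 | h3
  · left
    rw [← h1, h3, one_smul]
  · right
    rw [← h1, h3]
    simp

theorem trace_of_anti (h2 : (2 : F) ≠ 0) {A B : GL (Fin 2) F} (h : A.1 * B.1 = -(B.1 * A.1)) :
    A.1.trace = 0 := by
  have h1 : A.1 = -(B.1 * A.1 * (B⁻¹).1) := by
    rw [← neg_mul, ← h, mul_assoc, ← Units.val_mul, mul_inv_cancel]
    simp
  have h3 : A.1.trace = - A.1.trace := by
    conv_lhs => rw [h1]
    rw [Matrix.trace_neg, Matrix.trace_mul_comm, ← mul_assoc, ← Units.val_mul, inv_mul_cancel]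
    simp
  have h4 : 2 * A.1.trace = 0 := by linear_combination h3
  exact (mul_eq_zero.1 h4).resolve_left h2

open Classical in
/-- The class of `x + A` in `PGL(2, F)`. -/
noncomputable def Phi (A : Matrix (Fin 2) (Fin 2) F) (x : F) : ProjGenLinGroup (Fin 2) F :=
  if h : (x • (1 : Matrix (Fin 2) (Fin 2) F) + A).det ≠ 0 then
    mk (GeneralLinearGroup.mkOfDetNeZero _ h) else 1

theorem eq_Phi {A : Matrix (Fin 2) (Fin 2) F} {B : GL (Fin 2) F} {x y : F} (hy : y ≠ 0)
    (h : B.1 = x • (1 : Matrix (Fin 2) (Fin 2) F) + y • A) :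
    B.1.det = y ^ 2 * ((x / y) • (1 : Matrix (Fin 2) (Fin 2) F) + A).det ∧
    mk B = Phi A (x / y) := by
  have h1 : B.1 = y • ((x / y) • (1 : Matrix (Fin 2) (Fin 2) F) + A) := by
    rw [h, smul_add, smul_smul, mul_div_cancel₀ _ hy]
  have h2 : B.1.det = y ^ 2 * ((x / y) • (1 : Matrix (Fin 2) (Fin 2) F) + A).det := by
    rw [h1, Matrix.det_smul, Fintype.card_fin]
  refine ⟨h2, ?_⟩
  have h3 : ((x / y) • (1 : Matrix (Fin 2) (Fin 2) F) + A).det ≠ 0 := by
    intro h3
    apply det_ne B
    rw [h2, h3, mul_zero]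
  rw [Phi, dif_pos h3]
  symm
  rw [mk_eq_mk_iff]
  refine ⟨Units.mk0 y hy, ?_⟩
  apply Units.ext
  rw [Units.val_mul, coe_scalar]
  rw [h1]
  simp [GeneralLinearGroup.mkOfDetNeZero]

theorem nonscalar {A : GL (Fin 2) F} (h : (mk A : ProjGenLinGroup (Fin 2) F) ≠ 1) (c : F) :
    A.1 ≠ c • (1 : Matrix (Fin 2) (Fin 2) F) := by
  intro hc
  apply h
  have hc0 : c ≠ 0 := by
    rintro rfl
    apply det_ne A
    rw [hc]
    simp
  have h1 : A = GeneralLinearGroup.scalar (Fin 2) (Units.mk0 c hc0) := by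
    apply Units.ext
    rw [coe_scalar, hc]
    simp
  rw [h1, mk_scalar]

theorem det_add {A : Matrix (Fin 2) (Fin 2) F} (h : A.trace = 0) (x : F) :
    (x • (1 : Matrix (Fin 2) (Fin 2) F) + A).det = x ^ 2 + A.det := by
  rw [Matrix.trace_fin_two] at h
  rw [Matrix.det_fin_two, Matrix.det_fin_two]
  simp
  linear_combination x * h

/-- Distinct commuting classes of trace zero matrices anticommute. -/
theorem anti_of_comm (h2 : (2 : F) ≠ 0) {A B : GL (Fin 2) F}
    (h : (mk A : ProjGenLinGroup (Fin 2) F) * mk B = mk B * mk A)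
    (hA : (mk A : ProjGenLinGroup (Fin 2) F) ≠ 1)
    (hAB : (mk B : ProjGenLinGroup (Fin 2) F) ≠ mk A) (htA : A.1.trace = 0)
    (htB : B.1.trace = 0) : A.1 * B.1 = -(B.1 * A.1) := by
  rcases mk_comm_cases h with h1 | h1
  · exfalso
    obtain ⟨x, y, hxy⟩ := centralizer_two (nonscalar hA) h1
    have hx : x = 0 := by
      rw [hxy, Matrix.trace_add, Matrix.trace_smul, Matrix.trace_smul, htA] at htB
      simp at htB
      rcases htB with h3 | h3
      · exact h3
      · exact absurd h3 h2
    subst hx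
    rw [zero_smul, zero_add] at hxy
    have hy : y ≠ 0 := by
      rintro rfl
      apply det_ne B
      rw [hxy]
      simp
    apply hAB
    symm
    rw [mk_eq_mk_iff]
    refine ⟨Units.mk0 y hy, ?_⟩
    apply Units.ext
    rw [Units.val_mul, coe_scalar, hxy]
    simp
  · exact h1

/-- The neighbours of an involution among the involutions. -/
theorem inv_nbrs {A B C : GL (Fin 2) F} (hA : (mk A : ProjGenLinGroup (Fin 2) F) ≠ 1)
    (hB : A.1 * B.1 = -(B.1 * A.1)) (hC : A.1 * C.1 = -(C.1 * A.1)) (htA : A.1.trace = 0) :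
    (mk B : ProjGenLinGroup (Fin 2) F) = mk C ∨ ∃ z y : F, y ≠ 0 ∧
      (mk B : ProjGenLinGroup (Fin 2) F) = Phi A.1 z * mk C ∧
      B.1.det = y ^ 2 * (z ^ 2 + A.1.det) * C.1.det := by
  have hC' : A.1 * (C⁻¹).1 = -((C⁻¹).1 * A.1) := by
    have h1 : (C⁻¹).1 * (A.1 * C.1) * (C⁻¹).1 = (C⁻¹).1 * A.1 := by
      rw [mul_assoc, mul_assoc, ← Units.val_mul, mul_inv_cancel]
      simp
    rw [hC] at h1
    have h2 : (C⁻¹).1 * -(C.1 * A.1) * (C⁻¹).1 = -(A.1 * (C⁻¹).1) := by
      rw [mul_neg, ← mul_assoc, ← Units.val_mul, inv_mul_cancel]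
      simp
    rw [← h1, h2, neg_neg]
  have hcom : A.1 * (B * C⁻¹).1 = (B * C⁻¹).1 * A.1 := by
    rw [Units.val_mul, ← mul_assoc, hB, neg_mul, mul_assoc, hC', mul_neg, neg_neg, mul_assoc]
  obtain ⟨x, y, hxy⟩ := centralizer_two (nonscalar hA) hcom
  by_cases hy : y = 0
  · left
    subst hy
    by_contra hne
    have h1 : (mk (B * C⁻¹) : ProjGenLinGroup (Fin 2) F) ≠ 1 := by
      intro h1
      rw [map_mul, map_inv, mul_inv_eq_one] at h1
      exact hne h1
    apply nonscalar h1 x
    rw [hxy]
    simp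
  · right
    obtain ⟨h1, h2⟩ := eq_Phi hy hxy
    refine ⟨x / y, y, hy, ?_, ?_⟩
    · rw [← h2, ← map_mul, inv_mul_cancel_right]
    · have h3 : B.1.det = (B * C⁻¹).1.det * C.1.det := by
        rw [← Matrix.det_mul, ← Units.val_mul, inv_mul_cancel_right]
      rw [h3, h1, det_add htA]

/-- If the non-squares can be translated... : for a non-square `ν` there is `x ≠ 0` with
`x ^ 2 - ν` a non-square. -/
theorem exists_nonsq {p : ℕ} [Fact p.Prime] {ν : ZMod p} (hν : ¬ IsSquare ν) :
    ∃ x : ZMod p, x ≠ 0 ∧ ¬ IsSquare (x ^ 2 - ν) := by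
  by_contra hcon
  push Not at hcon
  have h : ∀ n : ℕ, ∃ x : ZMod p, x ≠ 0 ∧ x ^ 2 = 1 - n * ν := by
    intro n
    induction n with
    | zero => exact ⟨1, one_ne_zero, by simp⟩
    | succ n ih =>
      obtain ⟨x, hx, hx2⟩ := ih
      obtain ⟨y, hy⟩ := hcon x hx
      refine ⟨y, ?_, ?_⟩
      · rintro rfl
        apply hν
        refine ⟨x, ?_⟩
        linear_combination -hy
      · push_cast
        linear_combination -hy + hx2
  have hν0 : ν ≠ 0 := by
    rintro rfl
    exact hν (IsSquare.zero)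
  obtain ⟨x, hx, hx2⟩ := h (ν⁻¹).val
  apply hx
  rw [ZMod.natCast_val, ZMod.cast_id', id, inv_mul_cancel₀ hν0, sub_self] at hx2
  exact pow_eq_zero_iff (two_ne_zero) |>.1 hx2

end pgl

section main

variable {p : ℕ} [Fact p.Prime]

open ProjGenLinGroup

/-- The projective general linear group of degree two over the field with `p` elements. -/
abbrev PG (p : ℕ) [Fact p.Prime] : Type := ProjGenLinGroup (Fin 2) (ZMod p)

instance : Finite (PG p) := Finite.of_surjective _ (mk_surjective (n := Fin 2) (R := ZMod p))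

/-- Elliptic involutions. -/
def Ell (g : PG p) : Prop :=
  ∃ A : GL (Fin 2) (ZMod p), mk A = g ∧ A.1.trace = 0 ∧ ¬ IsSquare (-A.1.det)

/-- Hyperbolic involutions. -/
def Hyp (g : PG p) : Prop :=
  ∃ A : GL (Fin 2) (ZMod p), mk A = g ∧ A.1.trace = 0 ∧ IsSquare (-A.1.det)

open Classical in
/-- The rank function: elliptic involutions first, then hyperbolic ones, then all the others. -/
noncomputable def rk (g : PG p) : ℕ := if Ell g then 0 else if Hyp g then 1 else 2

theorem two_ne (hp : p ≠ 2) : (2 : ZMod p) ≠ 0 := by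
  intro h
  have h1 : ((2 : ℕ) : ZMod p) = 0 := by exact_mod_cast h
  rw [ZMod.natCast_eq_zero_iff] at h1
  exact hp ((Nat.prime_dvd_prime_iff_eq Fact.out Nat.prime_two).1 h1)

/-- Counting: a set covered by one point and the image of the field minus two points. -/
theorem ncard_bound {N : Set (PG p)} (w : PG p) (f : ZMod p → PG p) {a b : ZMod p} (hab : a ≠ b)
    (h : ∀ u ∈ N, u = w ∨ ∃ z, z ≠ a ∧ z ≠ b ∧ u = f z) : N.ncard < p := by
  have h1 : N ⊆ insert w (f '' ({a, b}ᶜ : Set (ZMod p))) := by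
    intro u hu
    rcases h u hu with h2 | ⟨z, hza, hzb, rfl⟩
    · exact Or.inl h2
    · right
      exact ⟨z, by simp [hza, hzb], rfl⟩
  have h2 := Set.ncard_le_ncard h1 (Set.toFinite _)
  have h3 := Set.ncard_insert_le w (f '' ({a, b}ᶜ : Set (ZMod p)))
  have h4 := Set.ncard_image_le (f := f) (s := ({a, b}ᶜ : Set (ZMod p))) (Set.toFinite _)
  have h5 := Set.ncard_add_ncard_compl ({a, b} : Set (ZMod p))
  rw [Set.ncard_pair hab, Nat.card_zmod] at h5
  omega

/-- An element commuting with a class of nonzero trace. -/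
theorem bound_two {A : GL (Fin 2) (ZMod p)} (hp : p ≠ 2) (hA : (mk A : PG p) ≠ 1)
    (htA : A.1.trace ≠ 0) :
    {u : PG p | u ≠ 1 ∧ u ≠ mk A ∧ mk A * u = u * mk A}.ncard < p := by
  have h1 : {u : PG p | u ≠ 1 ∧ u ≠ mk A ∧ mk A * u = u * mk A} ⊆
      Phi A.1 '' ({0}ᶜ : Set (ZMod p)) := by
    rintro u ⟨hu1, huA, hcomm⟩
    obtain ⟨B, rfl⟩ := mk_surjective u
    have h2 : A.1 * B.1 = B.1 * A.1 := by
      rcases mk_comm_cases hcomm with h2 | h2
      · exact h2
      · exact absurd (trace_of_anti (two_ne hp) h2) htA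
    obtain ⟨x, y, hxy⟩ := centralizer_two (nonscalar hA) h2
    have hy : y ≠ 0 := by
      rintro rfl
      apply nonscalar hu1 x
      rw [hxy]
      simp
    obtain ⟨h3, h4⟩ := eq_Phi hy hxy
    refine ⟨x / y, ?_, h4.symm⟩
    intro h5
    simp only [Set.mem_singleton_iff] at h5
    apply huA
    rw [div_eq_zero_iff] at h5
    have hx : x = 0 := h5.resolve_right hy
    symm
    rw [mk_eq_mk_iff]
    refine ⟨Units.mk0 y hy, ?_⟩
    apply Units.ext
    rw [Units.val_mul, coe_scalar, hxy, hx]
    simp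
  have h2 := Set.ncard_le_ncard h1 (Set.toFinite _)
  have h4 := Set.ncard_image_le (f := Phi A.1) (s := ({0}ᶜ : Set (ZMod p))) (Set.toFinite _)
  have h5 := Set.ncard_add_ncard_compl ({0} : Set (ZMod p))
  rw [Set.ncard_singleton, Nat.card_zmod] at h5
  omega

theorem rk_cases (g : PG p) : (rk g = 0 ∧ Ell g) ∨ (rk g = 1 ∧ Hyp g) ∨
    (rk g = 2 ∧ ¬ Ell g ∧ ¬ Hyp g) := by
  unfold rk
  split_ifs <;> simp_all

/-- A representative of trace zero with given squareness; it does not depend on the choice. -/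
theorem trace_zero_of_mk_eq {A B : GL (Fin 2) (ZMod p)} (h : (mk A : PG p) = mk B)
    (hA : A.1.trace = 0) : B.1.trace = 0 := by
  rw [mk_eq_mk_iff] at h
  obtain ⟨u, rfl⟩ := h
  rw [Units.val_mul, coe_scalar]
  simp [hA]

/-- The main degree bound. -/
theorem degree_bound (hp : p ≠ 2) {g : PG p} (hg : g ≠ 1) :
    {u : PG p | u ≠ 1 ∧ u ≠ g ∧ g * u = u * g ∧ rk u ≤ rk g}.ncard < p := by
  have hp0 : 0 < p := (Fact.out : p.Prime).pos
  rcases rk_cases g with ⟨hr, hE⟩ | ⟨hr, hH⟩ | ⟨hr, hE, hH⟩
  · -- elliptic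
    obtain ⟨A, rfl, htA, hdA⟩ := hE
    set N := {u : PG p | u ≠ 1 ∧ u ≠ mk A ∧ mk A * u = u * mk A ∧ rk u ≤ rk (mk A)} with hN
    have hNE : ∀ u ∈ N, ∃ B : GL (Fin 2) (ZMod p), mk B = u ∧ ¬ IsSquare (-B.1.det) ∧
        A.1 * B.1 = -(B.1 * A.1) := by
      rintro u ⟨hu1, huA, hcomm, hrk⟩
      have hE : Ell u := by
        rcases rk_cases u with h | h | h
        · exact h.2
        · omega
        · omega
      obtain ⟨B, rfl, htB, hdB⟩ := hE
      exact ⟨B, rfl, hdB, anti_of_comm (two_ne hp) hcomm hg huA htA htB⟩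
    rcases N.eq_empty_or_nonempty with hemp | ⟨w, hw⟩
    · rw [hemp, Set.ncard_empty]
      exact hp0
    · obtain ⟨C, hC, hdC, hCanti⟩ := hNE w hw
      obtain ⟨x, hx0, hx⟩ := exists_nonsq hdA
      have hxx : x ≠ -x := by
        intro h
        apply hx0
        have h1 : 2 * x = 0 := by linear_combination h
        exact (mul_eq_zero.1 h1).resolve_left (two_ne hp)
      refine ncard_bound w (fun z => Phi A.1 z * mk C) hxx ?_
      intro u hu
      obtain ⟨B, hB, hdB, hBanti⟩ := hNE u hu
      have key := inv_nbrs hg hBanti hCanti htA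
      rcases key with h1 | ⟨z, y, hy, h1, h2⟩
      · left
        rw [← hB, h1, hC]
      · right
        have hsq : IsSquare (z ^ 2 + A.1.det) := by
          have h3 : IsSquare ((-B.1.det) * (-C.1.det)) := by
            have hne : (-B.1.det) * (-C.1.det) ≠ 0 :=
              mul_ne_zero (neg_ne_zero.2 (det_ne B)) (neg_ne_zero.2 (det_ne C))
            rw [← quadraticChar_one_iff_isSquare hne, map_mul,
              quadraticChar_neg_one_iff_not_isSquare.2 hdB,
              quadraticChar_neg_one_iff_not_isSquare.2 hdC]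
            norm_num
          obtain ⟨t, ht⟩ := h3
          have hCd : C.1.det ≠ 0 := det_ne C
          refine ⟨t / (y * C.1.det), ?_⟩
          field_simp
          rw [h2] at ht
          linear_combination ht
        refine ⟨z, ?_, ?_, ?_⟩
        · rintro rfl
          apply hx
          simpa using hsq
        · rintro rfl
          apply hx
          simpa using hsq
        · rw [← hB, h1]
  · -- hyperbolic
    obtain ⟨A, rfl, htA, ⟨s, hs⟩⟩ := hH
    set N := {u : PG p | u ≠ 1 ∧ u ≠ mk A ∧ mk A * u = u * mk A ∧ rk u ≤ rk (mk A)} with hN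
    have hNE : ∀ u ∈ N, ∃ B : GL (Fin 2) (ZMod p), mk B = u ∧
        A.1 * B.1 = -(B.1 * A.1) := by
      rintro u ⟨hu1, huA, hcomm, hrk⟩
      have hE : Ell u ∨ Hyp u := by
        rcases rk_cases u with h | h | h
        · exact Or.inl h.2
        · exact Or.inr h.2
        · omega
      obtain ⟨B, rfl, htB⟩ : ∃ B : GL (Fin 2) (ZMod p), mk B = u ∧ B.1.trace = 0 := by
        rcases hE with ⟨B, h1, h2, _⟩ | ⟨B, h1, h2, _⟩
        · exact ⟨B, h1, h2⟩
        · exact ⟨B, h1, h2⟩
      exact ⟨B, rfl, anti_of_comm (two_ne hp) hcomm hg huA htA htB⟩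
    have hs0 : s ≠ 0 := by
      rintro rfl
      apply det_ne A
      simpa using hs
    rcases N.eq_empty_or_nonempty with hemp | ⟨w, hw⟩
    · rw [hemp, Set.ncard_empty]
      exact hp0
    · obtain ⟨C, hC, hCanti⟩ := hNE w hw
      have hxx : s ≠ -s := by
        intro h
        apply hs0
        have h1 : 2 * s = 0 := by linear_combination h
        exact (mul_eq_zero.1 h1).resolve_left (two_ne hp)
      refine ncard_bound w (fun z => Phi A.1 z * mk C) hxx ?_
      intro u hu
      obtain ⟨B, hB, hBanti⟩ := hNE u hu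
      have key := inv_nbrs hg hBanti hCanti htA
      rcases key with h1 | ⟨z, y, hy, h1, h2⟩
      · left
        rw [← hB, h1, hC]
      · right
        have hz : z ^ 2 + A.1.det ≠ 0 := by
          intro h3
          apply det_ne B
          rw [h2, h3]
          ring
        refine ⟨z, ?_, ?_, ?_⟩
        · rintro rfl
          apply hz
          linear_combination -hs
        · rintro rfl
          apply hz
          linear_combination -hs
        · rw [← hB, h1]
  · -- the others
    obtain ⟨A, rfl⟩ := mk_surjective g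
    have htA : A.1.trace ≠ 0 := by
      intro h
      by_cases hs : IsSquare (-A.1.det)
      · exact hH ⟨A, rfl, h, hs⟩
      · exact hE ⟨A, rfl, h, hs⟩
    refine lt_of_le_of_lt (Set.ncard_le_ncard ?_ (Set.toFinite _)) (bound_two hp hg htA)
    rintro u ⟨h1, h2, h3, _⟩
    exact ⟨h1, h2, h3⟩

/-- A colouring of the nonidentity elements of `PGL(2, p)` with `p` colours. -/
theorem exists_col (hp : p ≠ 2) : ∃ f : PG p → Fin p, ∀ g h : PG p, g ≠ 1 → h ≠ 1 → g ≠ h →
    g * h = h * g → f g ≠ f h := by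
  classical
  let Γ : SimpleGraph {g : PG p // g ≠ 1} :=
    { Adj := fun g h => g ≠ h ∧ (g : PG p) * h = h * g
      symm := ⟨fun _ _ h => ⟨h.1.symm, h.2.symm⟩⟩
      loopless := ⟨fun _ h => h.1 rfl⟩ }
  have h1 : Γ.Colorable p := by
    apply greedy Γ (fun g => rk (g : PG p)) p
    intro v
    have h2 := degree_bound hp v.2
    refine lt_of_le_of_lt ?_ h2
    refine Set.ncard_le_ncard_of_injOn (fun u => (u : PG p)) ?_ ?_ (Set.toFinite _)
    · rintro u ⟨⟨hne, hcomm⟩, hrk⟩
      exact ⟨u.2, fun h => hne (Subtype.ext h.symm), hcomm, hrk⟩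
    · intro a _ b _ hab
      exact Subtype.ext hab
  obtain ⟨c⟩ := h1
  have hp0 : 0 < p := (Fact.out : p.Prime).pos
  refine ⟨fun g => if h : g ≠ 1 then c ⟨g, h⟩ else ⟨0, hp0⟩, ?_⟩
  intro g h hg hh hgh hcomm
  simp only [dif_pos hg, dif_pos hh]
  exact c.valid ⟨fun h1 => hgh (congrArg Subtype.val h1), hcomm⟩

/-- A unipotent element. -/
theorem not_central (hp : p ≠ 2) {g : PG p} (hg : g ≠ 1) : ∃ h : PG p, g * h ≠ h * g := by
  by_contra hcon
  push Not at hcon
  obtain ⟨A, rfl⟩ := mk_surjective g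
  have hdet1 : (!![1, 1; 0, 1] : Matrix (Fin 2) (Fin 2) (ZMod p)).det ≠ 0 := by
    simp [Matrix.det_fin_two]
  have hdet2 : (!![1, 0; 1, 1] : Matrix (Fin 2) (Fin 2) (ZMod p)).det ≠ 0 := by
    simp [Matrix.det_fin_two]
  have h1 := hcon (mk (GeneralLinearGroup.mkOfDetNeZero _ hdet1))
  have h2 := hcon (mk (GeneralLinearGroup.mkOfDetNeZero _ hdet2))
  have h1' : A.1 * !![1, 1; 0, 1] = !![1, 1; 0, 1] * A.1 := by
    rcases mk_comm_cases h1.symm with h3 | h3
    · exact h3.symm
    · exfalso
      have h4 := trace_of_anti (two_ne hp) h3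
      simp [GeneralLinearGroup.mkOfDetNeZero, Matrix.trace_fin_two] at h4
      apply two_ne hp
      rw [← h4]
      norm_num
  have h2' : A.1 * !![1, 0; 1, 1] = !![1, 0; 1, 1] * A.1 := by
    rcases mk_comm_cases h2.symm with h3 | h3
    · exact h3.symm
    · exfalso
      have h4 := trace_of_anti (two_ne hp) h3
      simp [GeneralLinearGroup.mkOfDetNeZero, Matrix.trace_fin_two] at h4
      apply two_ne hp
      rw [← h4]
      norm_num
  apply nonscalar hg (A.1 0 0)
  have e1 := congrFun (congrFun h1' 0) 0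
  have e2 := congrFun (congrFun h1' 0) 1
  have e3 := congrFun (congrFun h2' 0) 0
  simp [Matrix.mul_apply, Fin.sum_univ_two] at e1 e2 e3
  ext i j
  fin_cases i <;> fin_cases j
  · simp
  · simpa using e3
  · simpa using e1
  · simp
    linear_combination -e2

/-- A clique: the nonidentity elements of a nonsplit torus. -/
theorem exists_clique (hp : p ≠ 2) : ∃ f : ZMod p → PG p, Function.Injective f ∧
    (∀ x, f x ≠ 1) ∧ ∀ x y, f x * f y = f y * f x := by
  have hchar : ringChar (ZMod p) ≠ 2 := by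
    rw [ZMod.ringChar_zmod_n]
    exact hp
  obtain ⟨ν, hν⟩ := FiniteField.exists_nonsquare hchar
  have hdet : ∀ x : ZMod p, (!![x, ν; 1, x] : Matrix (Fin 2) (Fin 2) (ZMod p)).det ≠ 0 := by
    intro x h
    apply hν
    rw [Matrix.det_fin_two_of] at h
    exact ⟨x, by linear_combination -h⟩
  refine ⟨fun x => mk (GeneralLinearGroup.mkOfDetNeZero _ (hdet x)), ?_, ?_, ?_⟩
  · intro x y hxy
    simp only at hxy
    rw [mk_eq_mk_iff] at hxy
    obtain ⟨u, hu⟩ := hxy
    have h1 := congrArg Units.val hu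
    rw [Units.val_mul, coe_scalar] at h1
    have e1 := congrFun (congrFun h1 1) 0
    have e2 := congrFun (congrFun h1 0) 0
    simp [GeneralLinearGroup.mkOfDetNeZero] at e1 e2
    rw [e1] at e2
    simpa using e2
  · intro x hx
    rw [mk_eq_one, GeneralLinearGroup.center_eq_range_scalar] at hx
    obtain ⟨u, hu⟩ := hx
    have h1 := congrArg Units.val hu
    rw [coe_scalar] at h1
    have e1 := congrFun (congrFun h1 1) 0
    simp [GeneralLinearGroup.mkOfDetNeZero] at e1
  · intro x y
    rw [← map_mul, ← map_mul]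
    congr 1
    apply Units.ext
    rw [Units.val_mul, Units.val_mul]
    simp [GeneralLinearGroup.mkOfDetNeZero]
    constructor <;> constructor <;> ring

/-- The direct product of a cyclic group of order `r` and `PGL(2, p)`. -/
abbrev GG (r p : ℕ) [Fact p.Prime] : Type := Multiplicative (ZMod r) × PG p

theorem comm_iff {r : ℕ} (x y : GG r p) : x * y = y * x ↔ x.2 * y.2 = y.2 * x.2 := by
  rw [Prod.ext_iff]
  simp only [Prod.fst_mul, Prod.snd_mul]
  constructor
  · exact fun h => h.2
  · exact fun h => ⟨mul_comm _ _, h⟩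

theorem snd_ne_one {r : ℕ} {x : GG r p} (hx : x ∉ Subgroup.center (GG r p)) : x.2 ≠ 1 := by
  intro h
  apply hx
  rw [Subgroup.mem_center_iff]
  intro g
  rw [comm_iff, h, mul_one, one_mul]

theorem notMem_center (hp : p ≠ 2) {r : ℕ} {x : GG r p} (hx : x.2 ≠ 1) :
    x ∉ Subgroup.center (GG r p) := by
  intro h
  rw [Subgroup.mem_center_iff] at h
  obtain ⟨g, hg⟩ := not_central hp hx
  have h1 := h (1, g)
  rw [comm_iff] at h1
  exact hg h1.symm

theorem colorable_GG (hp : p ≠ 2) (r : ℕ) [NeZero r] :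
    (commutingGraph (GG r p)).Colorable (r * p) := by
  obtain ⟨f, hf⟩ := exists_col hp
  let c : (commutingGraph (GG r p)).Coloring (ZMod r × Fin p) :=
    SimpleGraph.Coloring.mk (fun x => (Multiplicative.toAdd (x : GG r p).1, f (x : GG r p).2)) (by
      rintro x y ⟨hxy, hcomm⟩ heq
      rw [Prod.ext_iff] at heq
      obtain ⟨h1, h2⟩ := heq
      simp only at h1 h2
      have h1' : (x : GG r p).1 = (y : GG r p).1 := h1
      refine hf _ _ (snd_ne_one x.2) (snd_ne_one y.2) ?_ ((comm_iff _ _).1 hcomm) h2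
      intro h3
      exact hxy (Subtype.ext (Prod.ext h1' h3)))
  have h := c.colorable
  rwa [Fintype.card_prod, ZMod.card, Fintype.card_fin] at h

theorem exists_clique_GG (hp : p ≠ 2) (r : ℕ) [NeZero r] :
    ∃ s : Finset {x : GG r p // x ∉ Subgroup.center (GG r p)},
      (commutingGraph (GG r p)).IsClique s ∧ s.card = r * p := by
  classical
  obtain ⟨f, hinj, hne, hcomm⟩ := exists_clique hp
  let F : ZMod r × ZMod p → {x : GG r p // x ∉ Subgroup.center (GG r p)} :=
    fun z => ⟨(Multiplicative.ofAdd z.1, f z.2), notMem_center hp (hne z.2)⟩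
  have hF : Function.Injective F := by
    intro a b hab
    have h1 := congrArg Subtype.val hab
    rw [Prod.ext_iff] at h1
    exact Prod.ext (Multiplicative.ofAdd.injective h1.1) (hinj h1.2)
  refine ⟨Finset.univ.image F, ?_, ?_⟩
  · intro x hx y hy hxy
    simp only [Finset.coe_image, Finset.coe_univ, Set.image_univ, Set.mem_range] at hx hy
    obtain ⟨a, rfl⟩ := hx
    obtain ⟨b, rfl⟩ := hy
    exact ⟨hxy, (comm_iff _ _).2 (hcomm _ _)⟩
  · rw [Finset.card_image_of_injective _ hF, Finset.card_univ, Fintype.card_prod, ZMod.card,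
      ZMod.card]

/-- For every odd number `m ≥ 3` there is a finite non-abelian group whose commuting graph has
clique number and chromatic number `m`. -/
theorem core (n : ℕ) (hn : 0 < n) : ∃ (G : Type) (_ : Group G) (_ : Finite G),
    (∃ a b : G, a * b ≠ b * a) ∧ (commutingGraph G).cliqueNum = 2 * n + 1 ∧
    (commutingGraph G).chromaticNumber = ((2 * n + 1 : ℕ) : ℕ∞) := by
  obtain ⟨p, hp, r, hr⟩ := Nat.exists_prime_and_dvd (n := 2 * n + 1) (by omega)
  have : Fact p.Prime := ⟨hp⟩
  have hp2 : p ≠ 2 := by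
    rintro rfl
    omega
  have hr0 : r ≠ 0 := by
    rintro rfl
    omega
  have : NeZero r := ⟨hr0⟩
  obtain ⟨s, hs, hcard⟩ := exists_clique_GG hp2 r
  have hcol := colorable_GG hp2 r
  have h1 : ((2 * n + 1 : ℕ) : ℕ∞) ≤ (commutingGraph (GG r p)).cliqueNum := by
    have := hs.card_le_cliqueNum
    rw [hcard, mul_comm, ← hr] at this
    exact_mod_cast this
  have h2 : (commutingGraph (GG r p)).chromaticNumber ≤ ((2 * n + 1 : ℕ) : ℕ∞) := by
    rw [hr, mul_comm p r]
    exact hcol.chromaticNumber_le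
  have h3 : ((commutingGraph (GG r p)).cliqueNum : ℕ∞) ≤
    (commutingGraph (GG r p)).chromaticNumber := SimpleGraph.cliqueNum_le_chromaticNumber
  refine ⟨GG r p, inferInstance, inferInstance, ?_, ?_, ?_⟩
  · obtain ⟨f, -, hne, -⟩ := exists_clique hp2
    obtain ⟨h, hh⟩ := not_central hp2 (hne 0)
    refine ⟨(1, f 0), (1, h), ?_⟩
    intro h4
    exact hh ((comm_iff _ _).1 h4)
  · have h4 := h3.trans h2
    have h5 : (commutingGraph (GG r p)).cliqueNum ≤ 2 * n + 1 := by exact_mod_cast h4
    have h6 : 2 * n + 1 ≤ (commutingGraph (GG r p)).cliqueNum := by exact_mod_cast h1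
    omega
  · exact le_antisymm h2 (h1.trans h3)

end main

end Pool.Agent.V1132.CommPGL
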