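import Mathlib

/-!
# The commuting graph of a group
-/

set_option autoImplicit false

namespace Pool.Agent.V1132.CommutingGraph

/-- The commuting graph of a group `G`: the vertices are the non-central elements, two distinct
vertices are adjacent exactly when they commute. -/
def commutingGraph (G : Type*) [Group G] : SimpleGraph {x : G // x ∉ Subgroup.center G} where
  Adj x y := x ≠ y ∧ (x : G) * y = y * x
  symm := ⟨fun _ _ h => ⟨h.1.symm, h.2.symm⟩⟩
  loopless := ⟨fun _ h => h.1 rfl⟩

end Pool.Agent.V1132.CommutingGraph
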