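import Pool.Agent.V1132.RootedTree

/-!
# Groups of finite type acting on the `d`-regular rooted tree
-/

set_option autoImplicit false

namespace Pool.Agent.V1132.FiniteType

open Pool.Agent.V1132.RootedTree

variable {d : ℕ}

theorem TreeAut.length_eq (g : TreeAut d) (w : List (Fin d)) :
    ((g : Equiv.Perm (List (Fin d))) w).length = w.length := g.2.1 w

theorem TreeAut.prefix_iff (g : TreeAut d) (u v : List (Fin d)) :
    (g : Equiv.Perm (List (Fin d))) u <+: (g : Equiv.Perm (List (Fin d))) v ↔ u <+: v := g.2.2 u v

theorem section_aux (g : TreeAut d) (v w : List (Fin d)) :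
    (g : Equiv.Perm (List (Fin d))) (v ++ w) = (g : Equiv.Perm (List (Fin d))) v ++
      ((g : Equiv.Perm (List (Fin d))) (v ++ w)).drop v.length := by
  have h1 : (g : Equiv.Perm (List (Fin d))) v <+: (g : Equiv.Perm (List (Fin d))) (v ++ w) :=
    (TreeAut.prefix_iff g _ _).2 (List.prefix_append _ _)
  obtain ⟨t, ht⟩ := h1
  rw [← ht, ← TreeAut.length_eq g v, List.drop_left]

theorem prefix_append_right_iff {α : Type*} {v a b : List α} : v ++ a <+: v ++ b ↔ a <+: b :=
  List.prefix_append_right_inj v

/-- The section of the tree automorphism `g` at the vertex `v`: it is the automorphism `g_v` with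
`g (v ++ w) = g v ++ g_v w` for all words `w`. -/
def sect (g : TreeAut d) (v : List (Fin d)) : TreeAut d :=
  ⟨{ toFun := fun w => ((g : Equiv.Perm (List (Fin d))) (v ++ w)).drop v.length
     invFun := fun w => ((g : Equiv.Perm (List (Fin d))).symm
       ((g : Equiv.Perm (List (Fin d))) v ++ w)).drop v.length
     left_inv := fun w => by
       simp only
       rw [← section_aux, Equiv.symm_apply_apply, List.drop_left]
     right_inv := fun w => by
       simp only
       have h1 := section_aux g⁻¹ ((g : Equiv.Perm (List (Fin d))) v) w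
       have h3 : ((g⁻¹ : TreeAut d) : Equiv.Perm (List (Fin d))) =
         (g : Equiv.Perm (List (Fin d))).symm := rfl
       rw [h3, Equiv.symm_apply_apply, TreeAut.length_eq] at h1
       rw [← h1, Equiv.apply_symm_apply, ← TreeAut.length_eq g v, List.drop_left] },
   fun w => by
     show (((g : Equiv.Perm (List (Fin d))) (v ++ w)).drop v.length).length = w.length
     rw [List.length_drop, TreeAut.length_eq, List.length_append]
     omega,
   fun u w => by
     show ((g : Equiv.Perm (List (Fin d))) (v ++ u)).drop v.length <+:
       ((g : Equiv.Perm (List (Fin d))) (v ++ w)).drop v.length ↔ u <+: w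
     rw [← prefix_append_right_iff (v := (g : Equiv.Perm (List (Fin d))) v), ← section_aux,
       ← section_aux, TreeAut.prefix_iff, prefix_append_right_iff]⟩

/-- The vertices of the finite subtree of depth `D`: the words of length at most `D`. -/
abbrev Ball (d D : ℕ) : Type := {w : List (Fin d) // w.length ≤ D}

/-- The group of automorphisms of the finite subtree of depth `D`: the permutations of the set of
words of length at most `D` that preserve length and the initial segment relation. -/
def BallAut (d D : ℕ) : Subgroup (Equiv.Perm (Ball d D)) where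
  carrier := {f | (∀ w, (f w).1.length = w.1.length) ∧ ∀ u v, (f u).1 <+: (f v).1 ↔ u.1 <+: v.1}
  one_mem' := ⟨fun _ => rfl, fun _ _ => Iff.rfl⟩
  mul_mem' := by
    rintro f g ⟨hf1, hf2⟩ ⟨hg1, hg2⟩
    refine ⟨fun w => ?_, fun u v => ?_⟩
    · rw [Equiv.Perm.mul_apply, hf1, hg1]
    · rw [Equiv.Perm.mul_apply, Equiv.Perm.mul_apply, hf2, hg2]
  inv_mem' := by
    rintro f ⟨hf1, hf2⟩
    have key : ∀ w, f (f⁻¹ w) = w := fun w => f.apply_symm_apply w
    refine ⟨fun w => ?_, fun u v => ?_⟩
    · rw [← hf1 (f⁻¹ w), key]
    · rw [← hf2 (f⁻¹ u), key, key]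

/-- Restriction of a tree automorphism to the finite subtree of depth `D`. -/
def ballRestr (D : ℕ) (g : TreeAut d) : BallAut d D :=
  ⟨(g : Equiv.Perm (List (Fin d))).subtypePerm (fun w => by rw [g.2.1 w]),
    fun w => g.2.1 w.1, fun u v => g.2.2 u.1 v.1⟩

/-- Restriction to the finite subtree as a homomorphism. -/
def restr (d D : ℕ) : TreeAut d →* BallAut d D where
  toFun g := ballRestr D g
  map_one' := by
    apply Subtype.ext
    ext
    rfl
  map_mul' f g := by
    apply Subtype.ext
    ext
    rfl

theorem sect_apply (g : TreeAut d) (v w : List (Fin d)) :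
    (g : Equiv.Perm (List (Fin d))) (v ++ w) = (g : Equiv.Perm (List (Fin d))) v ++
      (sect g v : Equiv.Perm (List (Fin d))) w := section_aux g v w

theorem sect_mul (g h : TreeAut d) (v : List (Fin d)) :
    sect (g * h) v = sect g ((h : Equiv.Perm (List (Fin d))) v) * sect h v := by
  apply Subtype.ext
  apply Equiv.ext
  intro w
  have h1 := sect_apply (g * h) v w
  have h2 : ((g * h : TreeAut d) : Equiv.Perm (List (Fin d))) (v ++ w) =
    (g : Equiv.Perm (List (Fin d))) ((h : Equiv.Perm (List (Fin d))) (v ++ w)) := rfl
  rw [h2, sect_apply h, sect_apply g] at h1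
  exact (List.append_cancel_left h1).symm

theorem sect_one (v : List (Fin d)) : sect (1 : TreeAut d) v = 1 := by
  apply Subtype.ext
  apply Equiv.ext
  intro w
  have h1 := sect_apply (1 : TreeAut d) v w
  exact (List.append_cancel_left (show v ++ w = v ++ _ from h1)).symm

/-- All sections of `g` restrict to an element of `P`. -/
def LocallyIn {D : ℕ} (P : Subgroup (BallAut d D)) (g : TreeAut d) : Prop :=
  ∀ v : List (Fin d), ballRestr D (sect g v) ∈ P

/-- The group of finite type `G_P` defined by a group `P` of automorphisms of the finite subtree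
of depth `D`: all tree automorphisms all of whose sections restrict to an element of `P`. -/
def finiteType (d D : ℕ) (P : Subgroup (BallAut d D)) : Subgroup (TreeAut d) where
  carrier := {g | LocallyIn P g}
  one_mem' := fun v => by
    show restr d D (sect 1 v) ∈ P
    rw [sect_one, map_one]
    exact P.one_mem
  mul_mem' := by
    intro g h hg hh v
    show restr d D (sect (g * h) v) ∈ P
    rw [sect_mul, map_mul]
    exact P.mul_mem (hg _) (hh _)
  inv_mem' := by
    intro g hg v
    show restr d D (sect g⁻¹ v) ∈ P
    have h2 := sect_mul g g⁻¹ v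
    rw [mul_inv_cancel, sect_one] at h2
    rw [eq_inv_of_mul_eq_one_right h2.symm, map_inv]
    exact P.inv_mem (hg _)

/-- The stabilizer `St_G(n)`: the elements of `G` fixing every vertex of level `n`. -/
def levelStab (G : Subgroup (TreeAut d)) (n : ℕ) : Subgroup (TreeAut d) where
  carrier := {g | g ∈ G ∧ ∀ w : List (Fin d), w.length = n →
    (g : Equiv.Perm (List (Fin d))) w = w}
  one_mem' := ⟨G.one_mem, fun _ _ => rfl⟩
  mul_mem' := by
    rintro g h ⟨hg1, hg2⟩ ⟨hh1, hh2⟩
    refine ⟨G.mul_mem hg1 hh1, fun w hw => ?_⟩
    show (g : Equiv.Perm (List (Fin d))) ((h : Equiv.Perm (List (Fin d))) w) = w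
    rw [hh2 w hw, hg2 w hw]
  inv_mem' := by
    rintro g ⟨hg1, hg2⟩
    refine ⟨G.inv_mem hg1, fun w hw => ?_⟩
    show (g : Equiv.Perm (List (Fin d))).symm w = w
    rw [Equiv.symm_apply_eq, hg2 w hw]

/-- The closure of a set of tree automorphisms in the profinite topology of the automorphism group
of the tree (the topology given by the level stabilizers): `g` lies in the closure of `S` exactly
when for every `n` some element of `S` agrees with `g` on level `n`. -/
def profClosure (S : Set (TreeAut d)) : Set (TreeAut d) :=
  {g | ∀ n : ℕ, ∃ s ∈ S, ∀ w : List (Fin d), w.length = n →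
    (g : Equiv.Perm (List (Fin d))) w = (s : Equiv.Perm (List (Fin d))) w}

end Pool.Agent.V1132.FiniteType
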