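import Pool.Agent.V1132.FiniteType

/-!
# Level stabilizers of groups of finite type have torsion abelianization
-/

set_option autoImplicit false

namespace Pool.Agent.V1132.FiniteTypeMain

open Pool.Agent.V1132.RootedTree Pool.Agent.V1132.FiniteType

section orbit

/-- The product over an invariant finite set of a function that is constant on cycles and killed by
the cycle lengths is trivial. -/
theorem orbit_prod {ι A : Type*} [DecidableEq ι] [CommMonoid A] (f : ι → ι) (F : ι → A)
    (hF : ∀ i, F (f i) = F i) (h0 : ∀ i, F i ^ Function.minimalPeriod f i = 1)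
    (hinj : Function.Injective f) (hper : ∀ i, 0 < Function.minimalPeriod f i) (s : Finset ι) :
    (∀ i ∈ s, f i ∈ s) → ∏ i ∈ s, F i = 1 := by
  induction s using Finset.strongInduction with
  | H s ih =>
    intro hs
    rcases s.eq_empty_or_nonempty with rfl | ⟨i, hi⟩
    · simp
    · set n := Function.minimalPeriod f i with hn
      set O := (Finset.range n).image (fun k => f^[k] i) with hO
      have hiter : ∀ k, f^[k] i ∈ s := by
        intro k
        induction k with
        | zero => exact hi
        | succ k ihk =>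
          rw [Function.iterate_succ_apply']
          exact hs _ ihk
      have hFk : ∀ k, F (f^[k] i) = F i := by
        intro k
        induction k with
        | zero => rfl
        | succ k ihk => rw [Function.iterate_succ_apply', hF, ihk]
      have hOs : O ⊆ s := by
        intro j hj
        rw [hO, Finset.mem_image] at hj
        obtain ⟨k, _, rfl⟩ := hj
        exact hiter k
      have hiO : i ∈ O := by
        rw [hO, Finset.mem_image]
        exact ⟨0, Finset.mem_range.2 (hper i), rfl⟩
      have hprodO : ∏ j ∈ O, F j = 1 := by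
        rw [hO, Finset.prod_image]
        · rw [Finset.prod_congr rfl (fun k _ => hFk k), Finset.prod_const, Finset.card_range]
          exact h0 i
        · intro a ha b hb hab
          rw [Finset.mem_coe, Finset.mem_range] at ha hb
          exact Function.iterate_injOn_Iio_minimalPeriod ha hb hab
      rw [← Finset.prod_sdiff hOs, hprodO, mul_one]
      apply ih
      · exact Finset.sdiff_ssubset hOs ⟨i, hiO⟩
      · intro j hj
        rw [Finset.mem_sdiff] at hj ⊢
        refine ⟨hs j hj.1, fun hfj => hj.2 ?_⟩
        rw [hO, Finset.mem_image] at hfj ⊢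
        obtain ⟨k, hk, hkj⟩ := hfj
        rw [Finset.mem_range] at hk
        rcases Nat.eq_zero_or_pos k with rfl | hk0
        · refine ⟨n - 1, Finset.mem_range.2 (by omega), ?_⟩
          apply hinj
          rw [← hkj, ← Function.iterate_succ_apply' f, Nat.succ_eq_add_one,
            Nat.sub_add_cancel (hper i)]
          exact Function.iterate_minimalPeriod
        · refine ⟨k - 1, Finset.mem_range.2 (by omega), ?_⟩
          apply hinj
          rw [← hkj, ← Function.iterate_succ_apply' f, Nat.succ_eq_add_one,
            Nat.sub_add_cancel hk0]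

end orbit

variable {d : ℕ}

/-- Evaluation. -/
abbrev ev (g : TreeAut d) (w : List (Fin d)) : List (Fin d) := (g : Equiv.Perm (List (Fin d))) w

theorem ev_mul (g h : TreeAut d) (w : List (Fin d)) : ev (g * h) w = ev g (ev h w) := rfl

theorem ev_one (w : List (Fin d)) : ev (1 : TreeAut d) w = w := rfl

theorem ext_ev {g h : TreeAut d} (H : ∀ w, ev g w = ev h w) : g = h :=
  Subtype.ext (Equiv.ext H)

theorem exists_rt (g : TreeAut d) (i : Fin d) : ∃ j, ev g [i] = [j] := by
  have h1 : (ev g [i]).length = 1 := g.2.1 [i]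
  exact List.length_eq_one_iff.1 h1

/-- The action on the first level. -/
noncomputable def rt (g : TreeAut d) (i : Fin d) : Fin d := (exists_rt g i).choose

theorem ev_single (g : TreeAut d) (i : Fin d) : ev g [i] = [rt g i] := (exists_rt g i).choose_spec

/-- First-level sections. -/
def sec (g : TreeAut d) (i : Fin d) : TreeAut d := sect g [i]

theorem ev_cons (g : TreeAut d) (i : Fin d) (w : List (Fin d)) :
    ev g (i :: w) = rt g i :: ev (sec g i) w := by
  have h1 := sect_apply g [i] w
  have h2 := ev_single g i
  unfold ev at h2 ⊢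
  rw [h2] at h1
  exact h1

theorem ev_nil (g : TreeAut d) : ev g [] = [] := by
  have h1 : (ev g []).length = 0 := g.2.1 []
  exact List.length_eq_zero_iff.1 h1

theorem rt_mul (g h : TreeAut d) (i : Fin d) : rt (g * h) i = rt g (rt h i) := by
  have h1 := ev_single (g * h) i
  rw [ev_mul, ev_single, ev_single] at h1
  simpa using h1.symm

theorem rt_one (i : Fin d) : rt (1 : TreeAut d) i = i := by
  have h1 := ev_single (1 : TreeAut d) i
  rw [ev_one] at h1
  simpa using h1.symm

theorem rt_injective (g : TreeAut d) : Function.Injective (rt g) := by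
  intro i j h
  have h1 : rt (g⁻¹ * g) i = rt (g⁻¹ * g) j := by rw [rt_mul, rt_mul, h]
  rwa [inv_mul_cancel, rt_one, rt_one] at h1

theorem rt_pow (g : TreeAut d) (n : ℕ) (i : Fin d) : rt (g ^ n) i = (rt g)^[n] i := by
  induction n with
  | zero => rw [pow_zero, rt_one]; rfl
  | succ n ih => rw [pow_succ', rt_mul, ih, Function.iterate_succ_apply']

theorem sec_mul (g h : TreeAut d) (i : Fin d) : sec (g * h) i = sec g (rt h i) * sec h i := by
  apply ext_ev
  intro w
  have h1 := ev_cons (g * h) i w
  rw [ev_mul, ev_cons h, ev_cons g] at h1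
  rw [ev_mul]
  exact (List.cons.inj h1).2.symm

theorem sec_one (i : Fin d) : sec (1 : TreeAut d) i = 1 := sect_one _

theorem sec_pow {g : TreeAut d} {i : Fin d} (h : rt g i = i) (n : ℕ) :
    sec (g ^ n) i = sec g i ^ n := by
  induction n with
  | zero => rw [pow_zero, pow_zero, sec_one]
  | succ n ih => rw [pow_succ, sec_mul, h, ih, pow_succ]

/-- Block automorphisms: act by `k j` below the vertex `j` of the first level. -/
def blk (k : Fin d → TreeAut d) : TreeAut d :=
  ⟨{ toFun := fun w => match w with
      | [] => []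
      | j :: w => j :: ev (k j) w
     invFun := fun w => match w with
      | [] => []
      | j :: w => j :: ev (k j)⁻¹ w
     left_inv := fun w => by
      cases w with
      | nil => rfl
      | cons j w =>
        simp only [List.cons.injEq, true_and]
        rw [← ev_mul, inv_mul_cancel]
        rfl
     right_inv := fun w => by
      cases w with
      | nil => rfl
      | cons j w =>
        simp only [List.cons.injEq, true_and]
        rw [← ev_mul, mul_inv_cancel]
        rfl },
   fun w => by
    cases w with
    | nil => rfl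
    | cons j w =>
      show (j :: ev (k j) w).length = _
      rw [List.length_cons, List.length_cons]
      congr 1
      exact (k j).2.1 w,
   fun u v => by
    cases u with
    | nil => exact ⟨fun _ => List.nil_prefix, fun _ => List.nil_prefix⟩
    | cons i u =>
      cases v with
      | nil =>
        show (i :: ev (k i) u) <+: [] ↔ _
        simp
      | cons j v =>
        show (i :: ev (k i) u) <+: (j :: ev (k j) v) ↔ _
        rw [List.cons_prefix_cons, List.cons_prefix_cons]
        constructor
        · rintro ⟨rfl, h⟩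
          exact ⟨rfl, ((k i).2.2 u v).1 h⟩
        · rintro ⟨rfl, h⟩
          exact ⟨rfl, ((k i).2.2 u v).2 h⟩⟩

theorem ev_blk_cons (k : Fin d → TreeAut d) (j : Fin d) (w : List (Fin d)) :
    ev (blk k) (j :: w) = j :: ev (k j) w := rfl

theorem blk_mul (k k' : Fin d → TreeAut d) : blk (fun j => k j * k' j) = blk k * blk k' := by
  apply ext_ev
  intro w
  cases w with
  | nil => rw [ev_nil, ev_nil]
  | cons j w => rw [ev_mul, ev_blk_cons, ev_blk_cons, ev_blk_cons, ev_mul]

theorem blk_one : blk (fun _ : Fin d => (1 : TreeAut d)) = 1 := by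
  apply ext_ev
  intro w
  cases w with
  | nil => rw [ev_nil, ev_nil]
  | cons j w => rw [ev_blk_cons]; rfl

theorem rt_blk (k : Fin d → TreeAut d) (j : Fin d) : rt (blk k) j = j := by
  have h1 := ev_single (blk k) j
  rw [ev_blk_cons] at h1
  simpa using (List.cons.inj h1).1.symm

theorem sec_blk (k : Fin d → TreeAut d) (j : Fin d) : sec (blk k) j = k j := by
  apply ext_ev
  intro w
  have h1 := ev_cons (blk k) j w
  rw [ev_blk_cons] at h1
  exact (List.cons.inj h1).2.symm

theorem eq_blk {g : TreeAut d} (h : ∀ j, rt g j = j) : g = blk (sec g) := by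
  apply ext_ev
  intro w
  cases w with
  | nil => rw [ev_nil, ev_nil]
  | cons j w => rw [ev_cons, ev_blk_cons, h]

/-- The element acting by `k` below the vertex `i` of the first level. -/
def inj (i : Fin d) (k : TreeAut d) : TreeAut d := blk (fun j => if j = i then k else 1)

theorem inj_mul (i : Fin d) (k k' : TreeAut d) : inj i (k * k') = inj i k * inj i k' := by
  rw [inj, inj, inj, ← blk_mul]
  congr 1
  funext j
  split_ifs
  · rfl
  · rw [mul_one]

theorem inj_conj (x : TreeAut d) (i : Fin d) (k : TreeAut d) :
    x * inj i k * x⁻¹ = inj (rt x i) (sec x i * k * (sec x i)⁻¹) := by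
  rw [mul_inv_eq_iff_eq_mul]
  apply ext_ev
  intro w
  cases w with
  | nil => rw [ev_nil, ev_nil]
  | cons j w =>
    rw [ev_mul, ev_mul, inj, inj, ev_blk_cons, ev_cons, ev_cons, ev_blk_cons]
    by_cases h : j = i
    · subst h
      rw [if_pos rfl, if_pos rfl, ← ev_mul, ← ev_mul, inv_mul_cancel_right]
    · rw [if_neg h, if_neg (fun h' => h (rt_injective x h')), ev_one, ev_one]

section stab

variable {G : Subgroup (TreeAut d)}

theorem mem_stab {n : ℕ} {g : TreeAut d} : g ∈ levelStab G n ↔
    g ∈ G ∧ ∀ w : List (Fin d), w.length = n → ev g w = w := Iff.rfl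

theorem fix_of_le (hd : 0 < d) {n m : ℕ} (h : n ≤ m) {g : TreeAut d}
    (hg : ∀ w : List (Fin d), w.length = m → ev g w = w) (w : List (Fin d)) (hw : w.length = n) :
    ev g w = w := by
  set t : List (Fin d) := List.replicate (m - n) ⟨0, hd⟩ with ht
  have h1 : ev g (w ++ t) = w ++ t := by
    apply hg
    rw [List.length_append, hw, ht, List.length_replicate]
    omega
  have h2 : ev g w <+: ev g (w ++ t) := (g.2.2 _ _).2 (List.prefix_append _ _)
  rw [h1] at h2
  have h3 : (ev g w).length = w.length := g.2.1 w
  exact List.IsPrefix.eq_of_length (List.prefix_of_prefix_length_le h2 (List.prefix_append _ _)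
    h3.le) h3

theorem stab_mono (hd : 0 < d) {n m : ℕ} (h : n ≤ m) : levelStab G m ≤ levelStab G n := by
  rintro g ⟨hg1, hg2⟩
  exact ⟨hg1, fix_of_le hd h hg2⟩

theorem stab_conj {n : ℕ} {x k : TreeAut d} (hx : x ∈ G) (hk : k ∈ levelStab G n) :
    x * k * x⁻¹ ∈ levelStab G n := by
  refine ⟨G.mul_mem (G.mul_mem hx hk.1) (G.inv_mem hx), fun w hw => ?_⟩
  show ev (x * k * x⁻¹) w = w
  rw [ev_mul, ev_mul]
  have h1 : (ev x⁻¹ w).length = n := by
    rw [← hw]
    exact (x⁻¹).2.1 w
  have h2 : ev k (ev x⁻¹ w) = ev x⁻¹ w := hk.2 _ h1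
  rw [h2, ← ev_mul, mul_inv_cancel, ev_one]

theorem rt_of_stab (hd : 0 < d) {n : ℕ} {g : TreeAut d} (hg : g ∈ levelStab G (n + 1))
    (j : Fin d) : rt g j = j := by
  have h1 := (stab_mono hd (show 1 ≤ n + 1 by omega) hg).2 [j] rfl
  have h2 := ev_single g j
  unfold ev at h2
  rw [h1] at h2
  simpa using h2.symm

theorem sec_of_stab (hd : 0 < d) (hsec : ∀ g ∈ G, ∀ i, sec g i ∈ G) {n : ℕ} {g : TreeAut d}
    (hg : g ∈ levelStab G (n + 1)) (j : Fin d) : sec g j ∈ levelStab G n := by
  refine ⟨hsec g hg.1 j, fun w hw => ?_⟩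
  have h1 : ev g (j :: w) = j :: w := hg.2 (j :: w) (by simp [hw])
  rw [ev_cons] at h1
  exact (List.cons.inj h1).2

theorem blk_mem_stab {D n : ℕ} (hDn : D ≤ n + 1)
    (hblk : ∀ k : Fin d → TreeAut d, (∀ j, k j ∈ levelStab G (D - 1)) → blk k ∈ G)
    (hd : 0 < d) {k : Fin d → TreeAut d} (hk : ∀ j, k j ∈ levelStab G n) :
    blk k ∈ levelStab G (n + 1) := by
  refine ⟨hblk k (fun j => stab_mono hd (by omega) (hk j)), fun w hw => ?_⟩
  cases w with
  | nil => simp at hw
  | cons j w =>
    show ev (blk k) (j :: w) = j :: w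
    rw [ev_blk_cons]
    congr 1
    exact (hk j).2 w (by simpa using hw)

end stab

section key

variable {G : Subgroup (TreeAut d)} {D R : ℕ}

theorem key (hd : 0 < d) (hD : 1 ≤ D) (hsec : ∀ g ∈ G, ∀ i, sec g i ∈ G)
    (hblk : ∀ k : Fin d → TreeAut d, (∀ j, k j ∈ levelStab G (D - 1)) → blk k ∈ G)
    (hR0 : 0 < R) (hR : ∀ x ∈ G, x ^ R ∈ levelStab G D) {A : Type*} [CommGroup A] (M : ℕ) :
    ∀ θ : TreeAut d → A,
      (∀ a ∈ levelStab G (D - 1), ∀ b ∈ levelStab G (D - 1), θ (a * b) = θ a * θ b) →
      (∀ k ∈ levelStab G (D - 1), k ∈ levelStab G M → θ k = 1) →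
      ∀ x ∈ G, (∀ k ∈ levelStab G (D - 1), θ (x * k * x⁻¹) = θ k) → θ (x ^ R) = 1 := by
  classical
  have hle : levelStab G D ≤ levelStab G (D - 1) := stab_mono hd (by omega)
  -- the elements `blk k`
  have hblkK : ∀ k : Fin d → TreeAut d, (∀ j, k j ∈ levelStab G (D - 1)) →
      blk k ∈ levelStab G D := by
    intro k hk
    have := blk_mem_stab (n := D - 1) (by omega) hblk hd hk
    rwa [Nat.sub_add_cancel hD] at this
  have hinjK : ∀ i, ∀ k ∈ levelStab G (D - 1), inj i k ∈ levelStab G D := by
    intro i k hk
    apply hblkK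
    intro j
    split_ifs
    · exact hk
    · exact Subgroup.one_mem _
  induction M with
  | zero =>
    intro θ _ htriv x hx _
    apply htriv _ (hle (hR x hx))
    exact stab_mono hd (Nat.zero_le D) (hR x hx)
  | succ M ih =>
    intro θ hmul htriv x hx hinv
    by_cases hMD : M + 1 ≤ D
    · apply htriv _ (hle (hR x hx))
      exact stab_mono hd hMD (hR x hx)
    push Not at hMD
    have hθ1 : θ 1 = 1 := by
      have h1 := hmul 1 (Subgroup.one_mem _) 1 (Subgroup.one_mem _)
      rw [mul_one] at h1
      exact (left_eq_mul.1 h1)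
    have hθpow : ∀ k ∈ levelStab G (D - 1), ∀ n : ℕ, θ (k ^ n) = θ k ^ n := by
      intro k hk n
      induction n with
      | zero => rw [pow_zero, pow_zero, hθ1]
      | succ n ihn => rw [pow_succ, pow_succ, hmul _ (Subgroup.pow_mem _ hk n) _ hk, ihn]
    -- invariance under powers of `x`
    have hinvn : ∀ n : ℕ, ∀ k ∈ levelStab G (D - 1), θ (x ^ n * k * (x ^ n)⁻¹) = θ k := by
      intro n
      induction n with
      | zero => intro k _; rw [pow_zero, one_mul, inv_one, mul_one]
      | succ n ihn =>
        intro k hk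
        have h1 : x ^ (n + 1) * k * (x ^ (n + 1))⁻¹ = x * (x ^ n * k * (x ^ n)⁻¹) * x⁻¹ := by
          rw [pow_succ']
          group
        rw [h1, hinv _ (stab_conj (G.pow_mem hx n) hk), ihn k hk]
    set y := x ^ R with hy
    have hyD : y ∈ levelStab G D := hR x hx
    have hyD' : y ∈ levelStab G ((D - 1) + 1) := by rwa [Nat.sub_add_cancel hD]
    have hyrt : ∀ j, rt y j = j := rt_of_stab hd hyD'
    have hysec : ∀ j, sec y j ∈ levelStab G (D - 1) := sec_of_stab hd hsec hyD'
    -- the sections of `y`
    have hprod : θ y = ∏ j, θ (inj j (sec y j)) := by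
      have h1 : ∀ s : Finset (Fin d), θ (blk (fun j => if j ∈ s then sec y j else 1)) =
          ∏ j ∈ s, θ (inj j (sec y j)) := by
        intro s
        induction s using Finset.induction_on with
        | empty =>
          simp only [Finset.notMem_empty, if_false, Finset.prod_empty]
          rw [blk_one, hθ1]
        | insert a s ha ihs =>
          rw [Finset.prod_insert ha, ← ihs]
          have h2 : blk (fun j => if j ∈ insert a s then sec y j else 1) =
              inj a (sec y a) * blk (fun j => if j ∈ s then sec y j else 1) := by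
            rw [inj, ← blk_mul]
            congr 1
            funext j
            by_cases hja : j = a
            · subst hja
              simp [ha]
            · simp [hja]
          rw [h2]
          apply hmul
          · exact hle (hinjK a _ (hysec a))
          · apply hle
            apply hblkK
            intro j
            split_ifs
            · exact hysec j
            · exact Subgroup.one_mem _
      have h2 := h1 Finset.univ
      simp only [Finset.mem_univ, if_true] at h2
      rw [← h2]
      congr 1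
      exact eq_blk hyrt
    have hperiod : ∀ i, Function.IsPeriodicPt (rt x) R i := by
      intro i
      show (rt x)^[R] i = i
      rw [← rt_pow]
      exact hyrt i
    have hper : ∀ i, 0 < Function.minimalPeriod (rt x) i := fun i =>
      Function.IsPeriodicPt.minimalPeriod_pos hR0 (hperiod i)
    rw [hprod]
    refine orbit_prod (rt x) _ ?_ ?_ (rt_injective x) hper Finset.univ
      (fun i _ => Finset.mem_univ _)
    · -- constant on cycles
      intro i
      have h1 : sec y (rt x i) = sec x i * sec y i * (sec x i)⁻¹ := by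
        rw [eq_mul_inv_iff_mul_eq]
        have h2 : sec (y * x) i = sec y (rt x i) * sec x i := sec_mul _ _ _
        have h3 : sec (x * y) i = sec x i * sec y i := by rw [sec_mul, hyrt]
        rw [← h2, ← h3, hy, ← pow_succ, ← pow_succ']
      rw [h1, ← inj_conj, hinv _ (hle (hinjK i _ (hysec i)))]
    · -- killed by the cycle lengths
      intro i
      set l := Function.minimalPeriod (rt x) i with hl
      obtain ⟨q, hq⟩ : l ∣ R := (hperiod i).minimalPeriod_dvd
      have hrtl : rt (x ^ l) i = i := by
        rw [rt_pow]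
        exact Function.iterate_minimalPeriod
      set x' := sec (x ^ l) i with hx'
      have hx'G : x' ∈ G := hsec _ (G.pow_mem hx l) i
      have hsecy : sec y i = x' ^ q := by
        rw [hy, hq, pow_mul, sec_pow hrtl]
      have h1 : θ (inj i (sec y i)) ^ l = θ (inj i (x' ^ R)) := by
        rw [← hθpow _ (hle (hinjK i _ (hysec i)))]
        congr 1
        have hinjpow : ∀ (k : TreeAut d) (n : ℕ), inj i (k ^ n) = inj i k ^ n := by
          intro k n
          induction n with
          | zero =>
            rw [pow_zero, pow_zero, inj]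
            simp only [ite_self]
            exact blk_one
          | succ n ihn => rw [pow_succ, pow_succ, inj_mul, ihn]
        rw [← hinjpow, hsecy, ← pow_mul, mul_comm q l, ← hq]
      rw [h1]
      refine ih (fun k => θ (inj i k)) ?_ ?_ x' hx'G ?_
      · intro a ha b hb
        rw [inj_mul]
        exact hmul _ (hle (hinjK i a ha)) _ (hle (hinjK i b hb))
      · intro k hk hkM
        apply htriv _ (hle (hinjK i k hk))
        apply blk_mem_stab (by omega) hblk hd
        intro j
        split_ifs
        · exact hkM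
        · exact Subgroup.one_mem _
      · intro k hk
        have h2 : inj i (x' * k * x'⁻¹) = x ^ l * inj i k * (x ^ l)⁻¹ := by
          rw [inj_conj, hrtl]
        rw [h2]
        exact hinvn l _ (hle (hinjK i k hk))

end key

section final

variable {D : ℕ}

theorem restr_eq_one {g : TreeAut d} (h : ∀ w : List (Fin d), w.length ≤ D → ev g w = w) :
    restr d D g = 1 := by
  apply Subtype.ext
  apply Equiv.ext
  intro w
  apply Subtype.ext
  exact h w.1 w.2

theorem fix_of_restr {g : TreeAut d} (h : restr d D g = 1) (w : List (Fin d))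
    (hw : w.length ≤ D) : ev g w = w := by
  have h1 := congrArg (fun f : BallAut d D => (f : Equiv.Perm (Ball d D)) ⟨w, hw⟩) h
  exact congrArg Subtype.val h1

instance : Finite (Ball d D) := by
  have : Finite (Σ n : Fin (D + 1), List.Vector (Fin d) n) := inferInstance
  refine Finite.of_injective
    (fun w : Ball d D => (⟨⟨w.1.length, Nat.lt_succ_of_le w.2⟩, ⟨w.1, rfl⟩⟩ :
      Σ n : Fin (D + 1), List.Vector (Fin d) n)) ?_
  intro a b hab
  have h1 := congrArg (fun s : (Σ n : Fin (D + 1), List.Vector (Fin d) n) => s.2.1) hab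
  exact Subtype.ext h1

theorem sect_cons (g : TreeAut d) (i : Fin d) (v : List (Fin d)) :
    sect g (i :: v) = sect (sec g i) v := by
  apply ext_ev
  intro w
  have h1 : ev g ((i :: v) ++ w) = ev g (i :: v) ++ ev (sect g (i :: v)) w :=
    sect_apply g (i :: v) w
  rw [List.cons_append, ev_cons, ev_cons] at h1
  have h2 : ev (sec g i) (v ++ w) = ev (sec g i) v ++ ev (sect (sec g i) v) w :=
    sect_apply (sec g i) v w
  rw [h2, List.cons_append] at h1
  have h3 := (List.cons.inj h1).2
  exact (List.append_cancel_left h3).symm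

theorem sect_nil (g : TreeAut d) : sect g [] = g := by
  apply ext_ev
  intro w
  have h1 : ev g ([] ++ w) = ev g [] ++ ev (sect g []) w := sect_apply g [] w
  rw [ev_nil] at h1
  exact h1.symm

/-- **Main theorem.** -/
theorem main (hd : 0 < d) (hD : 1 ≤ D) (P : Subgroup (BallAut d D)) :
    ∃ N : ℕ, 0 < N ∧ ∀ g ∈ levelStab (finiteType d D P) (D - 1),
      g ^ N ∈ profClosure ((⁅levelStab (finiteType d D P) (D - 1),
        levelStab (finiteType d D P) (D - 1)⁆ : Subgroup (TreeAut d)) : Set (TreeAut d)) := by
  set G := finiteType d D P with hG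
  have hsec : ∀ g ∈ G, ∀ i, sec g i ∈ G := by
    intro g hg i v
    show restr d D (sect (sec g i) v) ∈ P
    rw [← sect_cons]
    exact hg (i :: v)
  have hblk : ∀ k : Fin d → TreeAut d, (∀ j, k j ∈ levelStab G (D - 1)) → blk k ∈ G := by
    intro k hk v
    cases v with
    | nil =>
      show restr d D (sect (blk k) []) ∈ P
      rw [sect_nil, restr_eq_one]
      · exact P.one_mem
      · intro w hw
        cases w with
        | nil => exact ev_nil _
        | cons j w =>
          rw [ev_blk_cons]
          congr 1
          refine fix_of_le (m := D - 1) hd ?_ (hk j).2 w rfl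
          simp only [List.length_cons] at hw
          omega
    | cons i v =>
      show restr d D (sect (blk k) (i :: v)) ∈ P
      rw [sect_cons, sec_blk]
      exact (hk i).1 v
  have : Finite (BallAut d D) := inferInstance
  set R := Nat.card (BallAut d D) with hRdef
  have hR0 : 0 < R := Nat.card_pos
  have hR : ∀ x ∈ G, x ^ R ∈ levelStab G D := by
    intro x hx
    refine ⟨G.pow_mem hx R, fun w hw => ?_⟩
    apply fix_of_restr (D := D) _ w hw.le
    rw [map_pow]
    exact pow_card_eq_one'
  refine ⟨R, hR0, ?_⟩
  intro g hg n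
  set K := levelStab G (D - 1) with hK
  classical
  let N : Subgroup (Abelianization K) := ((levelStab G n).subgroupOf K).map Abelianization.of
  let π : K →* (Abelianization K) ⧸ N := (QuotientGroup.mk' N).comp Abelianization.of
  let θ : TreeAut d → (Abelianization K) ⧸ N := fun x => if h : x ∈ K then π ⟨x, h⟩ else 1
  have hθ : ∀ x (h : x ∈ K), θ x = π ⟨x, h⟩ := fun x h => dif_pos h
  have hmul : ∀ a ∈ K, ∀ b ∈ K, θ (a * b) = θ a * θ b := by
    intro a ha b hb
    rw [hθ a ha, hθ b hb, hθ _ (K.mul_mem ha hb), ← map_mul]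
    rfl
  have htriv : ∀ k ∈ K, k ∈ levelStab G n → θ k = 1 := by
    intro k hk hkn
    rw [hθ k hk]
    show QuotientGroup.mk' N (Abelianization.of ⟨k, hk⟩) = 1
    rw [QuotientGroup.mk'_apply, QuotientGroup.eq_one_iff]
    exact ⟨⟨k, hk⟩, hkn, rfl⟩
  have hgG : g ∈ G := hg.1
  have hinv : ∀ k ∈ K, θ (g * k * g⁻¹) = θ k := by
    intro k hk
    rw [hmul _ (K.mul_mem hg hk) _ (K.inv_mem hg), hmul _ hg _ hk, mul_comm (θ g) (θ k),
      mul_assoc, ← hmul _ hg _ (K.inv_mem hg), mul_inv_cancel]
    have h1 := htriv 1 K.one_mem (Subgroup.one_mem _)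
    rw [h1, mul_one]
  have hfin := key hd hD hsec hblk hR0 hR n θ hmul htriv g hgG hinv
  have hgR : g ^ R ∈ K := K.pow_mem hg R
  rw [hθ _ hgR] at hfin
  have h2 : QuotientGroup.mk' N (Abelianization.of ⟨g ^ R, hgR⟩) = 1 := hfin
  rw [QuotientGroup.mk'_apply, QuotientGroup.eq_one_iff] at h2
  obtain ⟨s, hs, hsg⟩ := h2
  have h3 : Abelianization.of ((⟨g ^ R, hgR⟩ : K) * s⁻¹) = 1 := by
    rw [map_mul, map_inv, hsg, mul_inv_cancel]
  have h4 : (⟨g ^ R, hgR⟩ : K) * s⁻¹ ∈ commutator K := by
    rw [← Abelianization.ker_of]
    exact h3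
  refine ⟨((⟨g ^ R, hgR⟩ : K) * s⁻¹ : K), ?_, ?_⟩
  · have h5 : (((⟨g ^ R, hgR⟩ : K) * s⁻¹ : K) : TreeAut d) ∈ (commutator K).map K.subtype :=
      ⟨_, h4, rfl⟩
    rw [Subgroup.map_subtype_commutator] at h5
    exact h5
  · intro w hw
    have hs' : (s : TreeAut d) ∈ levelStab G n := hs
    have h6 : ev ((s : TreeAut d)⁻¹) w = w := ((levelStab G n).inv_mem hs').2 w hw
    show ev (g ^ R) w = ev (g ^ R * (s : TreeAut d)⁻¹) w
    rw [ev_mul, h6]

end final

end Pool.Agent.V1132.FiniteTypeMain
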