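import Mathlib

/-!
# Auto-fixed and endo-fixed closures
-/

set_option autoImplicit false

namespace Pool.Agent.V1132.FixedClosure

/-- The direct product `ℤ^m × F_n` of a free abelian group of rank `m` (written multiplicatively)
and a free group of rank `n`. -/
abbrev FATF (m n : ℕ) : Type := Multiplicative (Fin m → ℤ) × FreeGroup (Fin n)

/-- The auto-fixed closure of a subgroup `H`: the elements fixed by every automorphism that fixes
all elements of `H`. -/
def autoClosure {G : Type*} [Group G] (H : Subgroup G) : Subgroup G where
  carrier := {g | ∀ φ : G ≃* G, (∀ h ∈ H, φ h = h) → φ g = g}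
  one_mem' := fun φ _ => map_one φ
  mul_mem' := fun {a b} ha hb φ hφ => by rw [map_mul, ha φ hφ, hb φ hφ]
  inv_mem' := fun {a} ha φ hφ => by rw [map_inv, ha φ hφ]

/-- The endo-fixed closure of a subgroup `H`: the elements fixed by every endomorphism that fixes
all elements of `H`. -/
def endoClosure {G : Type*} [Group G] (H : Subgroup G) : Subgroup G where
  carrier := {g | ∀ φ : G →* G, (∀ h ∈ H, φ h = h) → φ g = g}
  one_mem' := fun φ _ => map_one φ
  mul_mem' := fun {a b} ha hb φ hφ => by rw [map_mul, ha φ hφ, hb φ hφ]
  inv_mem' := fun {a} ha φ hφ => by rw [map_inv, ha φ hφ]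

end Pool.Agent.V1132.FixedClosure
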