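import Pool.Agent.V1132.FixedClosure

/-!
# Closures that are not finitely generated in `ℤ^m × F_n`
-/

set_option autoImplicit false

namespace Pool.Agent.V1132.FixedClosureMain

open Pool.Agent.V1132.FixedClosure FreeGroup

section centralizer

variable {α : Type*} [DecidableEq α]

/-- An element of a free group commuting with a generator is a power of it. -/
theorem eq_zpow_of_commute (b : α) (n : ℕ) : ∀ u : FreeGroup α, u.norm ≤ n →
    u * of b = of b * u → ∃ k : ℤ, u = of b ^ k := by
  induction n with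
  | zero =>
    intro u hu _
    refine ⟨0, ?_⟩
    rw [Nat.le_zero, FreeGroup.norm_eq_zero] at hu
    rw [hu, zpow_zero]
  | succ n ih =>
    intro u hu h
    rcases hw : u.toWord with _ | ⟨⟨c, ε⟩, w⟩
    · rw [toWord_eq_nil_iff] at hw
      exact ⟨0, by rw [hw, zpow_zero]⟩
    · have hred : IsReduced ((c, ε) :: w) := by
        rw [← hw]
        exact isReduced_toWord
      by_cases hcb : c = b
      · subst hcb
        have hw' : FreeGroup.IsReduced w := List.IsChain.tail hred
        set u' : FreeGroup α := mk w with hu'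
        have hnorm : u'.norm ≤ n := by
          have h1 : u'.norm ≤ w.length := norm_mk_le
          have h2 : u.norm = w.length + 1 := by
            rw [FreeGroup.norm, hw]
            rfl
          omega
        have hu2 : u = mk [(c, ε)] * u' := by
          rw [hu', mul_mk, ← mk_toWord (x := u), hw]
          rfl
        have hcε : mk [(c, ε)] * of c = of c * mk [(c, ε)] := by
          cases ε with
          | true => rfl
          | false =>
            have : (mk [(c, false)] : FreeGroup α) = (of c)⁻¹ := rfl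
            rw [this, inv_mul_cancel, mul_inv_cancel]
        have hcomm : u' * of c = of c * u' := by
          rw [hu2, mul_assoc, ← mul_assoc (of c), ← hcε, mul_assoc] at h
          exact mul_left_cancel h
        obtain ⟨k, hk⟩ := ih u' hnorm hcomm
        cases ε with
        | true =>
          refine ⟨k + 1, ?_⟩
          have h5 : (mk [(c, true)] : FreeGroup α) = of c := rfl
          rw [hu2, hk, h5, zpow_add_one]
          exact (Commute.self_zpow (of c) k).eq
        | false =>
          refine ⟨k - 1, ?_⟩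
          have h5 : (mk [(c, false)] : FreeGroup α) = (of c)⁻¹ := rfl
          rw [hu2, hk, h5, zpow_sub_one]
          exact ((Commute.self_zpow (of c) k).inv_left).eq
      · exfalso
        have h1 : (of b * u).toWord = (b, true) :: (c, ε) :: w := by
          rw [toWord_mul, toWord_of, hw, List.singleton_append]
          apply IsReduced.reduce_eq
          unfold FreeGroup.IsReduced at hred ⊢
          rw [List.isChain_cons_cons]
          exact ⟨fun h => absurd h.symm hcb, hred⟩
        have h2 : (u * of b).toWord.Sublist ((c, ε) :: w ++ [(b, true)]) := by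
          have := toWord_mul_sublist u (of b)
          rwa [toWord_of, hw] at this
        rw [h, h1] at h2
        have h3 := h2.eq_of_length (by simp)
        rw [List.cons_append, List.cons.injEq] at h3
        have h4 := h3.1
        rw [Prod.mk.injEq] at h4
        exact hcb h4.1.symm

end centralizer

/-- Dyadic rationals. -/
def Dy (x : ℚ) : Prop := ∃ N : ℕ, ∃ k : ℤ, x = k / 2 ^ N

theorem Dy.add {x y : ℚ} (hx : Dy x) (hy : Dy y) : Dy (x + y) := by
  obtain ⟨N, k, rfl⟩ := hx
  obtain ⟨M, l, rfl⟩ := hy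
  refine ⟨N + M, k * 2 ^ M + l * 2 ^ N, ?_⟩
  push_cast
  rw [pow_add]
  field_simp

theorem Dy.mul {x y : ℚ} (hx : Dy x) (hy : Dy y) : Dy (x * y) := by
  obtain ⟨N, k, rfl⟩ := hx
  obtain ⟨M, l, rfl⟩ := hy
  refine ⟨N + M, k * l, ?_⟩
  push_cast
  rw [pow_add]
  field_simp

theorem Dy.neg {x : ℚ} (hx : Dy x) : Dy (-x) := by
  obtain ⟨N, k, rfl⟩ := hx
  exact ⟨N, -k, by push_cast; ring⟩

theorem Dy.one : Dy 1 := ⟨0, 1, by simp⟩

theorem Dy.zero : Dy 0 := ⟨0, 0, by simp⟩

theorem Dy.two_zpow (e : ℤ) : Dy ((2 : ℚ) ^ e) := by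
  obtain ⟨n, rfl | rfl⟩ := e.eq_nat_or_neg
  · exact ⟨0, 2 ^ n, by simp⟩
  · refine ⟨n, 1, ?_⟩
    rw [zpow_neg, zpow_natCast]
    simp

variable {n : ℕ}

/-- The affine representation of the free group. -/
def rho (n : ℕ) : FreeGroup (Fin (n + 2)) →* Equiv.Perm ℚ :=
  FreeGroup.lift (fun i => if i = 0 then Equiv.addRight 1 else
    if i = 1 then Equiv.mulLeft₀ 2 two_ne_zero else 1)

/-- The exponent sum of the generator `1`. -/
def es (n : ℕ) : FreeGroup (Fin (n + 2)) →* Multiplicative ℤ :=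
  FreeGroup.lift (fun i => if i = 1 then Multiplicative.ofAdd 1 else 1)

theorem rho_zero (y : ℚ) : rho n (of 0) y = y + 1 := by
  simp [rho]

theorem rho_one (y : ℚ) : rho n (of 1) y = 2 * y := by
  simp [rho]

theorem es_zero : es n (of 0) = 1 := by
  simp [es]

theorem es_one : es n (of 1) = Multiplicative.ofAdd 1 := by
  simp [es]

theorem rho_form (u : FreeGroup (Fin (n + 2))) :
    ∃ x : ℚ, Dy x ∧ ∀ y, rho n u y = 2 ^ (Multiplicative.toAdd (es n u)) * y + x := by
  induction u using FreeGroup.induction_on with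
  | C1 => exact ⟨0, Dy.zero, fun y => by simp⟩
  | of i =>
    by_cases h0 : i = 0
    · subst h0
      refine ⟨1, Dy.one, fun y => ?_⟩
      rw [rho_zero, es_zero]
      simp
    · by_cases h1 : i = 1
      · subst h1
        refine ⟨0, Dy.zero, fun y => ?_⟩
        rw [rho_one, es_one]
        simp
      · refine ⟨0, Dy.zero, fun y => ?_⟩
        simp [rho, es, h0, h1]
  | inv_of i ih =>
    obtain ⟨x, hx, h⟩ := ih
    refine ⟨-(2 ^ (-(Multiplicative.toAdd (es n (of i)))) * x), ?_, ?_⟩
    · exact (Dy.mul (Dy.two_zpow _) hx).neg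
    · intro y
      have h2 : (2 : ℚ) ^ (Multiplicative.toAdd (es n (of i))) ≠ 0 := by positivity
      rw [_root_.map_inv, _root_.map_inv, toAdd_inv]
      rw [Equiv.Perm.inv_eq_iff_eq]
      rw [h]
      rw [zpow_neg]
      field_simp
      ring
  | mul u v hu hv =>
    obtain ⟨x, hx, h⟩ := hu
    obtain ⟨x', hx', h'⟩ := hv
    refine ⟨2 ^ (Multiplicative.toAdd (es n u)) * x' + x, ?_, ?_⟩
    · exact Dy.add (Dy.mul (Dy.two_zpow _) hx') hx
    · intro y
      rw [_root_.map_mul, _root_.map_mul, toAdd_mul, Equiv.Perm.mul_apply, h', h,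
        zpow_add₀ (by norm_num : (2 : ℚ) ≠ 0)]
      ring

/-- The conjugates of the generator `0` by powers of the generator `1`. -/
def cj (n : ℕ) (t : ℕ) : FreeGroup (Fin (n + 2)) := (of 1)⁻¹ ^ t * of 0 * (of 1) ^ t

theorem rho_one_pow (t : ℕ) (y : ℚ) : rho n (of 1 ^ t) y = 2 ^ t * y := by
  induction t generalizing y with
  | zero => simp
  | succ t ih =>
    rw [pow_succ, _root_.map_mul, Equiv.Perm.mul_apply, ih, rho_one, pow_succ]
    ring

theorem rho_cj (t : ℕ) (y : ℚ) : rho n (cj n t) y = y + 1 / 2 ^ t := by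
  rw [cj, inv_pow, _root_.map_mul, _root_.map_mul, _root_.map_inv, Equiv.Perm.mul_apply, Equiv.Perm.mul_apply,
    Equiv.Perm.inv_eq_iff_eq, rho_one_pow, rho_one_pow, rho_zero]
  field_simp

/-- A subgroup containing all the elements `cj n t` whose elements have exponent sum zero is not
finitely generated. -/
theorem not_fg {m : ℕ} (C : Subgroup (FATF m (n + 2))) (h1 : ∀ g ∈ C, es n g.2 = 1)
    (h2 : ∀ t, ((1, cj n t) : FATF m (n + 2)) ∈ C) : ¬ C.FG := by
  rintro ⟨S, hS⟩
  have hex : ∀ g : FATF m (n + 2), ∃ N : ℕ, g ∈ C → ∃ k : ℤ, ∀ y, rho n g.2 y = y + k / 2 ^ N := by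
    intro g
    by_cases hg : g ∈ C
    · obtain ⟨x, ⟨N, k, rfl⟩, hx⟩ := rho_form g.2
      refine ⟨N, fun _ => ⟨k, fun y => ?_⟩⟩
      rw [hx, h1 g hg]
      simp
    · exact ⟨0, fun h => absurd h hg⟩
  choose f hf using hex
  set N := S.sup f with hN
  have key : ∀ g ∈ C, ∃ k : ℤ, ∀ y, rho n g.2 y = y + k / 2 ^ N := by
    intro g hg
    rw [← hS] at hg
    induction hg using Subgroup.closure_induction with
    | mem g hgS =>
      have hgC : g ∈ C := by
        rw [← hS]
        exact Subgroup.subset_closure hgS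
      obtain ⟨k, hk⟩ := hf g hgC
      have hle : f g ≤ N := Finset.le_sup hgS
      refine ⟨k * 2 ^ (N - f g), fun y => ?_⟩
      rw [hk]
      push_cast
      congr 1
      rw [div_eq_div_iff (by positivity) (by positivity), mul_assoc, ← pow_add,
        Nat.sub_add_cancel hle]
    | one => exact ⟨0, fun y => by simp⟩
    | mul a b _ _ ha hb =>
      obtain ⟨k, hk⟩ := ha
      obtain ⟨l, hl⟩ := hb
      refine ⟨k + l, fun y => ?_⟩
      rw [Prod.snd_mul, _root_.map_mul, Equiv.Perm.mul_apply, hl, hk]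
      push_cast
      ring
    | inv a _ ha =>
      obtain ⟨k, hk⟩ := ha
      refine ⟨-k, fun y => ?_⟩
      rw [Prod.snd_inv, _root_.map_inv, Equiv.Perm.inv_eq_iff_eq, hk]
      push_cast
      ring
  obtain ⟨k, hk⟩ := key _ (h2 (N + 1))
  have h3 := hk 0
  rw [rho_cj] at h3
  simp only [zero_add] at h3
  rw [pow_succ, div_eq_div_iff (by positivity) (by positivity)] at h3
  have h4 : (2 : ℚ) ^ N ≠ 0 := by positivity
  have h5 : (1 : ℚ) = k * 2 := by
    apply mul_right_cancel₀ h4
    linarith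
  have h6 : (1 : ℤ) = k * 2 := by exact_mod_cast h5
  omega

/-- The finitely generated subgroup. -/
def K (m n : ℕ) : Subgroup (FATF m (n + 2)) :=
  Subgroup.closure {(1, cj n 0), (1, cj n 1), (1, cj n 2)}

theorem K_fg (m n : ℕ) : (K m n).FG := by
  rw [Subgroup.fg_iff]
  exact ⟨_, rfl, Set.toFinite _⟩

theorem es_cj (t : ℕ) : es n (cj n t) = 1 := by
  rw [cj, _root_.map_mul, _root_.map_mul, map_pow, map_pow, _root_.map_inv, es_zero, mul_one,
    inv_pow, inv_mul_cancel]

theorem rho_zero_zpow (k : ℤ) (y : ℚ) : rho n (of 0 ^ k) y = y + k := by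
  have h1 : ∀ (t : ℕ) (y : ℚ), rho n (of 0 ^ t) y = y + t := by
    intro t
    induction t with
    | zero => intro y; simp
    | succ t ih =>
      intro y
      rw [pow_succ, _root_.map_mul, Equiv.Perm.mul_apply, ih, rho_zero]
      push_cast
      ring
  obtain ⟨t, rfl | rfl⟩ := k.eq_nat_or_neg
  · rw [zpow_natCast, h1]
    simp
  · rw [zpow_neg, zpow_natCast, _root_.map_inv, Equiv.Perm.inv_eq_iff_eq, h1]
    push_cast
    ring

/-- An endomorphism of `F_n` fixing the three elements fixes the generator `1`. -/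
theorem rigid (φ : FreeGroup (Fin (n + 2)) →* FreeGroup (Fin (n + 2))) (h0 : φ (cj n 0) = cj n 0)
    (h1 : φ (cj n 1) = cj n 1) (h2 : φ (cj n 2) = cj n 2) : φ (of 1) = of 1 := by
  have hb : φ (of 0) = of 0 := by simpa [cj] using h0
  have key : ∀ t, φ (cj n t) = cj n t → ∃ k : ℤ, (φ (of 1)) ^ t * (of 1 ^ t)⁻¹ = of 0 ^ k := by
    intro t ht
    apply eq_zpow_of_commute (0 : Fin (n + 2)) _ _ le_rfl
    rw [cj, _root_.map_mul, _root_.map_mul, map_pow, map_pow, _root_.map_inv, hb, inv_pow,
      inv_pow] at ht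
    set z := (φ (of 1)) ^ t with hz
    have h3 : z * (z⁻¹ * of 0 * z) * (of 1 ^ t)⁻¹ = z * ((of 1 ^ t)⁻¹ * of 0 * of 1 ^ t) *
      (of 1 ^ t)⁻¹ := by rw [ht]
    have h4 : z * (z⁻¹ * of 0 * z) * (of 1 ^ t)⁻¹ = of 0 * (z * (of 1 ^ t)⁻¹) := by group
    have h5 : z * ((of 1 ^ t)⁻¹ * of 0 * of 1 ^ t) * (of 1 ^ t)⁻¹ =
      z * (of 1 ^ t)⁻¹ * of 0 := by group
    rw [h4, h5] at h3
    exact h3.symm
  obtain ⟨k, hk⟩ := key 1 h1
  obtain ⟨j, hj⟩ := key 2 h2
  rw [pow_one, pow_one, mul_inv_eq_iff_eq_mul] at hk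
  rw [mul_inv_eq_iff_eq_mul] at hj
  -- compute in the affine group
  have e1 : ∀ y, rho n (φ (of 1)) y = 2 * y + k := by
    intro y
    rw [hk, _root_.map_mul, Equiv.Perm.mul_apply, rho_one, rho_zero_zpow]
  have e2 : rho n ((φ (of 1)) ^ 2) 0 = rho n (of 0 ^ j * of 1 ^ 2) 0 := by rw [hj]
  rw [pow_two, _root_.map_mul, Equiv.Perm.mul_apply, e1, e1, _root_.map_mul,
    Equiv.Perm.mul_apply, rho_one_pow, rho_zero_zpow] at e2
  -- compute the exponent sum of the generator `0`
  let χ : FreeGroup (Fin (n + 2)) →* Multiplicative ℤ :=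
    FreeGroup.lift (fun i => if i = 0 then Multiplicative.ofAdd 1 else 1)
  have c0 : χ (of 0) = Multiplicative.ofAdd 1 := by simp [χ]
  have c1 : χ (of 1) = 1 := by simp [χ]
  have e3 : χ ((φ (of 1)) ^ 2) = χ (of 0 ^ j * of 1 ^ 2) := by rw [hj]
  rw [hk, map_pow, _root_.map_mul, _root_.map_mul, map_pow, map_zpow, map_zpow, c0, c1, mul_one,
    one_pow, mul_one] at e3
  have e4 := congrArg Multiplicative.toAdd e3
  simp only [toAdd_pow, toAdd_zpow, toAdd_ofAdd, smul_eq_mul, mul_one] at e4
  have e5 : (3 * k : ℚ) = j := by linarith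
  have e6 : 3 * k = j := by exact_mod_cast e5
  have e7 : k = 0 := by
    simp only [nsmul_eq_mul, Nat.cast_ofNat] at e4
    omega
  rw [hk, e7, zpow_zero, one_mul]

theorem cj_mem_endo (m n t : ℕ) : ((1, cj n t) : FATF m (n + 2)) ∈ endoClosure (K m n) := by
  intro Ψ hΨ
  have hK : ∀ t, t = 0 ∨ t = 1 ∨ t = 2 → Ψ (1, cj n t) = (1, cj n t) := by
    intro t ht
    apply hΨ
    apply Subgroup.subset_closure
    rcases ht with rfl | rfl | rfl <;> simp
  let φ : FreeGroup (Fin (n + 2)) →* FreeGroup (Fin (n + 2)) :=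
    (MonoidHom.snd _ _).comp (Ψ.comp (MonoidHom.inr _ _))
  have hφ : ∀ u, φ u = (Ψ (1, u)).2 := fun u => rfl
  have h1 : φ (of 1) = of 1 := by
    apply rigid φ
    · rw [hφ, hK 0 (by simp)]
    · rw [hφ, hK 1 (by simp)]
    · rw [hφ, hK 2 (by simp)]
  have hb : Ψ (1, of 0) = (1, of 0) := by
    have := hK 0 (by simp)
    simpa [cj] using this
  have ha : Ψ (1, of 1) = ((Ψ (1, of 1)).1, of 1) := by
    apply Prod.ext
    · rfl
    · exact h1
  have hcj : ((1, cj n t) : FATF m (n + 2)) = (1, of 1)⁻¹ ^ t * (1, of 0) * (1, of 1) ^ t := by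
    apply Prod.ext
    · simp
    · simp [cj]
  rw [hcj, _root_.map_mul, _root_.map_mul, map_pow, map_pow, _root_.map_inv, hb, ha]
  apply Prod.ext
  · simp
  · simp

theorem cj_mem_auto (m n t : ℕ) : ((1, cj n t) : FATF m (n + 2)) ∈ autoClosure (K m n) := by
  intro Ψ hΨ
  exact cj_mem_endo m n t Ψ.toMonoidHom hΨ

/-- The automorphism `(z, u) ↦ (z + e(u), u)`. -/
def shear (m n : ℕ) : FATF m (n + 2) ≃* FATF m (n + 2) where
  toFun g := (g.1 * Multiplicative.ofAdd (fun _ => Multiplicative.toAdd (es n g.2)), g.2)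
  invFun g := (g.1 * (Multiplicative.ofAdd (fun _ => Multiplicative.toAdd (es n g.2)))⁻¹, g.2)
  left_inv g := by simp
  right_inv g := by simp
  map_mul' g h := by
    apply Prod.ext
    · apply Multiplicative.toAdd.injective
      funext i
      simp
      ring
    · simp

theorem es_of_mem_auto {m : ℕ} (hm : 0 < m) (n : ℕ) (g : FATF m (n + 2))
    (hg : g ∈ autoClosure (K m n)) : es n g.2 = 1 := by
  have h1 : ∀ h ∈ K m n, shear m n h = h := by
    intro h hh
    have h2 : es n h.2 = 1 := by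
      have : K m n ≤ ((es n).comp (MonoidHom.snd _ _)).ker := by
        rw [K, Subgroup.closure_le]
        rintro x (rfl | rfl | rfl)
        · exact es_cj (n := n) 0
        · exact es_cj (n := n) 1
        · exact es_cj (n := n) 2
      exact this hh
    apply Prod.ext
    · show h.1 * Multiplicative.ofAdd (fun _ => Multiplicative.toAdd (es n h.2)) = h.1
      rw [h2]
      have : (Multiplicative.ofAdd (fun _ : Fin m => Multiplicative.toAdd (1 : Multiplicative ℤ)))
        = 1 := rfl
      rw [this, mul_one]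
    · rfl
  have h3 := hg (shear m n) h1
  have h4 : g.1 * Multiplicative.ofAdd (fun _ => Multiplicative.toAdd (es n g.2)) = g.1 :=
    congrArg Prod.fst h3
  have h5 := mul_eq_left.1 h4
  have h6 := congrFun (congrArg Multiplicative.toAdd h5) ⟨0, hm⟩
  apply Multiplicative.toAdd.injective
  exact h6

theorem auto_not_fg {m : ℕ} (hm : 0 < m) (n : ℕ) : ¬ (autoClosure (K m n)).FG :=
  not_fg _ (es_of_mem_auto hm n) (cj_mem_auto m n)

theorem endo_not_fg {m : ℕ} (hm : 0 < m) (n : ℕ) : ¬ (endoClosure (K m n)).FG :=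
  not_fg _ (fun g hg => es_of_mem_auto hm n g (fun Ψ hΨ => hg Ψ.toMonoidHom hΨ))
    (cj_mem_endo m n)

end Pool.Agent.V1132.FixedClosureMain
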