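import Mathlib

/-!
# Existentially closed groups: abstract one-step extensions
-/

set_option autoImplicit false

open Cardinal Function

namespace Pool.Agent.V1132.KEC

universe u

/-- the subgroup generated by a small set is small -/
theorem mk_closure_le {G : Type u} [Group G] (s : Set G) {c : Cardinal.{u}} (hc : ℵ₀ ≤ c)
    (hs : #s ≤ c) : #(Subgroup.closure s) ≤ c := by
  rw [FreeGroup.closure_eq_range s]
  have h1 : #(FreeGroup.lift ((↑) : s → G)).range ≤ #(FreeGroup s) :=
    Cardinal.mk_le_of_surjective (FreeGroup.lift ((↑) : s → G)).rangeRestrict_surjective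
  refine h1.trans ?_
  rcases isEmpty_or_nonempty s with h | h
  · haveI : Countable (FreeGroup s) := inferInstance
    exact (Cardinal.mk_le_aleph0).trans hc
  · rw [Cardinal.mk_freeGroup]
    exact max_le hs hc

/-- cutting an extension with marked elements down to a small subgroup -/
theorem cutdown {K H D : Type u} [Group K] [Group H] (ι : K →* H) (y : D → H)
    {c : Cardinal.{u}} (hc : ℵ₀ ≤ c) (hK : #K ≤ c) (hD : #D ≤ c) :
    ∃ (L : Type u) (_ : Group L) (j : L →* H) (ι' : K →* L) (y' : D → L),
      Injective j ∧ (∀ k, j (ι' k) = ι k) ∧ (∀ d, j (y' d) = y d) ∧ #L ≤ c := by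
  let S : Subgroup H := Subgroup.closure (Set.range ι ∪ Set.range y)
  have h1 : ∀ k, ι k ∈ S := fun k => Subgroup.subset_closure (Or.inl ⟨k, rfl⟩)
  have h2 : ∀ d, y d ∈ S := fun d => Subgroup.subset_closure (Or.inr ⟨d, rfl⟩)
  refine ⟨S, inferInstance, S.subtype, ι.codRestrict S h1, fun d => ⟨y d, h2 d⟩,
    Subtype.val_injective, fun k => rfl, fun d => rfl, mk_closure_le _ hc ?_⟩
  refine (Cardinal.mk_union_le _ _).trans ?_
  refine (add_le_add (Cardinal.mk_range_le.trans hK) (Cardinal.mk_range_le.trans hD)).trans ?_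
  rw [Cardinal.add_eq_self hc]

/-- free amalgamation of a small family of extensions -/
theorem exists_amalgam (K : Type u) [Group K] {J : Type u} [Nonempty J] (H : J → Type u)
    [∀ j, Group (H j)] (ι : ∀ j, K →* H j) (hι : ∀ j, Injective (ι j)) {c : Cardinal.{u}}
    (hc : ℵ₀ ≤ c) (hJ : #J ≤ c) (hH : ∀ j, #(H j) ≤ c) :
    ∃ (P : Type u) (_ : Group P) (b : K →* P) (f : ∀ j, H j →* P),
      Injective b ∧ (∀ j, Injective (f j)) ∧ (∀ j k, f j (ι j k) = b k) ∧ #P ≤ c := by
  refine ⟨Monoid.PushoutI ι, inferInstance, Monoid.PushoutI.base ι, fun j => Monoid.PushoutI.of j,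
    Monoid.PushoutI.base_injective hι, fun j => Monoid.PushoutI.of_injective hι j,
    fun j k => Monoid.PushoutI.of_apply_eq_base ι j k, ?_⟩
  have hsurj : Surjective (FreeGroup.lift (fun p : (Σ j, H j) =>
      (Monoid.PushoutI.of p.1 p.2 : Monoid.PushoutI ι))) := by
    intro x
    induction x using Monoid.PushoutI.induction_on with
    | of i g => exact ⟨FreeGroup.of ⟨i, g⟩, by simp⟩
    | base h =>
      obtain ⟨i⟩ := ‹Nonempty J›
      refine ⟨FreeGroup.of ⟨i, ι i h⟩, ?_⟩
      simp [Monoid.PushoutI.of_apply_eq_base]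
    | mul x y hx hy =>
      obtain ⟨a, rfl⟩ := hx
      obtain ⟨b, rfl⟩ := hy
      exact ⟨a * b, map_mul _ _ _⟩
  refine (Cardinal.mk_le_of_surjective hsurj).trans ?_
  haveI : Nonempty (Σ j, H j) := by
    obtain ⟨i⟩ := ‹Nonempty J›
    exact ⟨⟨i, 1⟩⟩
  rw [Cardinal.mk_freeGroup]
  refine max_le ?_ hc
  rw [Cardinal.mk_sigma]
  refine (Cardinal.sum_le_mk_mul_iSup _).trans ?_
  refine (mul_le_mul' hJ (ciSup_le' hH)).trans ?_
  rw [Cardinal.mul_eq_self hc]

section Sep

variable {K : Type u} [Group K] {D : Type u}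

/-- the left multiplication action of `K` on `K × Fin 3` -/
def leftAct : K →* Equiv.Perm (K × Fin 3) where
  toFun g := (Equiv.mulLeft g).prodCongr (Equiv.refl _)
  map_one' := by ext x <;> simp
  map_mul' g h := by ext x <;> simp [mul_assoc]

/-- a fibrewise permutation -/
def fib (p : K → Equiv.Perm (Fin 3)) : Equiv.Perm (K × Fin 3) where
  toFun x := (x.1, p x.1 x.2)
  invFun x := (x.1, (p x.1)⁻¹ x.2)
  left_inv x := by simp
  right_inv x := by simp

theorem leftAct_injective : Injective (leftAct : K →* Equiv.Perm (K × Fin 3)) := by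
  intro g h hgh
  have := congrArg (fun q : Equiv.Perm (K × Fin 3) => (q (1, 0)).1) hgh
  simpa [leftAct] using this

theorem leftAct_conj (g : K) (p : K → Equiv.Perm (Fin 3)) :
    leftAct g * fib p * (leftAct g)⁻¹ = fib (fun k => p (g⁻¹ * k)) := by
  rw [mul_inv_eq_iff_eq_mul]
  ext x <;> simp [leftAct, fib]

theorem fib_commute_iff (p q : K → Equiv.Perm (Fin 3)) :
    Commute (fib p) (fib q) ↔ ∀ k, Commute (p k) (q k) := by
  constructor
  · intro h k
    ext i
    have := congrArg (fun r : Equiv.Perm (K × Fin 3) => (r (k, i)).2) h.eq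
    simp [fib] at this
    simp [this]
  · intro h
    ext x
    · simp [fib]
    · have := congrArg (fun r : Equiv.Perm (Fin 3) => r x.2) (h x.1).eq
      simp at this
      simp [fib, this]

theorem exists_sep (code : K → Set D) (hcode : Injective code) :
    ∃ (H : Type u) (_ : Group H) (ι : K →* H) (Y : Option D → H), Injective ι ∧
      ∀ g h : K, (∀ a b, Commute (ι g * Y a * (ι g)⁻¹) (Y b) ↔
        Commute (ι h * Y a * (ι h)⁻¹) (Y b)) → g = h := by
  classical
  refine ⟨Equiv.Perm (K × Fin 3), inferInstance, leftAct, fun o => match o with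
    | none => fib (fun k => if k = 1 then Equiv.swap 0 1 else 1)
    | some d => fib (fun k => if d ∈ code k then finRotate 3 else 1), leftAct_injective, ?_⟩
  have key : ∀ (g : K) (d : D), Commute (leftAct g *
      fib (fun k => if k = 1 then Equiv.swap 0 1 else 1) * (leftAct g)⁻¹)
      (fib (fun k => if d ∈ code k then finRotate 3 else 1)) ↔ d ∉ code g := by
    intro g d
    rw [leftAct_conj, fib_commute_iff]
    constructor
    · intro h hd
      have h1 := h g
      rw [if_pos (by group), if_pos hd] at h1
      revert h1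
      unfold Commute SemiconjBy
      decide
    · intro hd k
      by_cases hk : g⁻¹ * k = 1
      · have : k = g := by
          have := inv_mul_eq_one.mp hk
          exact this.symm
        subst this
        rw [if_neg hd]
        exact Commute.one_right _
      · rw [if_neg hk]
        exact Commute.one_left _
  intro g h hgh
  apply hcode
  ext d
  have h1 := hgh none (some d)
  rw [key g d, key h d] at h1
  exact not_iff_not.mp h1

end Sep

/-- `f` solves the parametrised system `R` of equations and inequations -/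
def Sol {D H : Type u} [Group H] (R : Set (FreeGroup D × Bool)) (f : D → H) : Prop :=
  ∀ r ∈ R, (FreeGroup.lift f r.1 = 1 ↔ r.2 = true)

theorem Sol.of_injective {D H L : Type u} [Group H] [Group L] {R : Set (FreeGroup D × Bool)}
    (j : L →* H) (hj : Injective j) (f : D → L) : Sol R (fun d => j (f d)) ↔ Sol R f := by
  have key : ∀ w : FreeGroup D, FreeGroup.lift (fun d => j (f d)) w = j (FreeGroup.lift f w) := by
    intro w
    have : FreeGroup.lift (fun d => j (f d)) = j.comp (FreeGroup.lift f) := by
      ext d; simp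
    rw [this]; rfl
  unfold Sol
  simp only [key, map_eq_one_iff j hj]

end Pool.Agent.V1132.KEC
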