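import Pool.Agent.V1132.KEC1

/-!
# Existentially closed groups: the one-step extension
-/

set_option autoImplicit false

open Cardinal Function

namespace Pool.Agent.V1132.KEC

universe u

/-- a small overgroup -/
structure Ext (K : Type u) [Group K] (c : Cardinal.{u}) where
  /-- the overgroup -/
  H : Type u
  /-- its group structure -/
  grp : Group H
  /-- the embedding -/
  ι : K →* H
  inj : Injective ι
  card : #H ≤ c

attribute [instance] Ext.grp

theorem exists_step (K : Type u) [Group K] (D : Type u) [Infinite D] (hK : #K ≤ 2 ^ #D) :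
    ∃ (P : Type u) (_ : Group P) (b : K →* P), Injective b ∧ #P = 2 ^ #D ∧
      (∃ Y : Option D → P, ∀ g h : K, (∀ a b', Commute (b g * Y a * (b g)⁻¹) (Y b') ↔
        Commute (b h * Y a * (b h)⁻¹) (Y b')) → g = h) ∧
      (∀ (R : Set (FreeGroup (D ⊕ D) × Bool)) (c : D → K),
        (∃ (H : Type u) (_ : Group H) (ι : K →* H) (y : D → H), Injective ι ∧
          Sol R (Sum.elim (fun d => ι (c d)) y)) →
        ∃ y : D → P, Sol R (Sum.elim (fun d => b (c d)) y)) := by
  classical
  have hD : ℵ₀ ≤ #D := Cardinal.aleph0_le_mk D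
  have hc : ℵ₀ ≤ (2 : Cardinal.{u}) ^ #D := hD.trans (Cardinal.cantor _).le
  -- the separating extension
  have hsep : ∃ (E : Ext K (2 ^ #D)) (Y : Option D → E.H), 2 ^ #D ≤ #E.H ∧
      ∀ g h : K, (∀ a b', Commute (E.ι g * Y a * (E.ι g)⁻¹) (Y b') ↔
        Commute (E.ι h * Y a * (E.ι h)⁻¹) (Y b')) → g = h := by
    have hF : #(FreeGroup (Set D)) = 2 ^ #D := by
      rw [Cardinal.mk_freeGroup, Cardinal.mk_set, max_eq_left hc]
    have hK' : #(K × FreeGroup (Set D)) = 2 ^ #D := by
      rw [Cardinal.mk_prod, Cardinal.lift_id, Cardinal.lift_id, hF]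
      exact Cardinal.mul_eq_right hc hK (Cardinal.mk_ne_zero K)
    have hcode : Nonempty (K × FreeGroup (Set D) ↪ Set D) := by
      rw [← Cardinal.le_def, hK', Cardinal.mk_set]
    obtain ⟨code⟩ := hcode
    obtain ⟨H, _, ι, Y, hι, hY⟩ := exists_sep code code.injective
    obtain ⟨L, _, j, ι', Y', hj, hι', hY', hL⟩ := cutdown ι Y hc hK'.le
      (by rw [Cardinal.mk_option]; exact (Cardinal.add_one_eq hD).le.trans (Cardinal.cantor _).le)
    have hι'inj : Injective ι' := by
      intro x y hxy
      apply hι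
      rw [← hι', ← hι', hxy]
    refine ⟨⟨L, inferInstance, ι'.comp (MonoidHom.inl K (FreeGroup (Set D))),
      hι'inj.comp (fun x y h => by simpa using h), hL⟩, Y', ?_, ?_⟩
    · exact hK'.symm.le.trans (Cardinal.mk_le_of_injective hι'inj)
    · intro g h hgh
      have := hY (g, 1) (h, 1) (fun a b' => by
        have h1 := hgh a b'
        rw [← hι', ← hι', ← hY', ← hY']
        simp only [← map_inv, ← map_mul, Commute, SemiconjBy, hj.eq_iff] at h1 ⊢
        exact h1)
      simpa using this
  obtain ⟨E0, Y, hE0, hY⟩ := hsep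
  -- the solving extensions
  let J0 := {j : Set (FreeGroup (D ⊕ D) × Bool) × (D → K) //
    ∃ (H : Type u) (_ : Group H) (ι : K →* H) (y : D → H), Injective ι ∧
      Sol j.1 (Sum.elim (fun d => ι (j.2 d)) y)}
  have hJ0 : #J0 ≤ 2 ^ #D := by
    refine (Cardinal.mk_subtype_le _).trans ?_
    rw [Cardinal.mk_prod, Cardinal.lift_id, Cardinal.lift_id, Cardinal.mk_set, ← Cardinal.power_def]
    have h1 : #(FreeGroup (D ⊕ D) × Bool) ≤ #D := by
      have h3 : #(FreeGroup (D ⊕ D)) = #D := by
        rw [Cardinal.mk_freeGroup, Cardinal.mk_sum, Cardinal.lift_id, Cardinal.add_eq_self hD,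
          max_eq_left hD]
      rw [Cardinal.mk_prod, h3, Cardinal.mk_bool]
      simp only [Cardinal.lift_id, Cardinal.lift_ofNat, Cardinal.lift_uzero]
      refine (Cardinal.mul_le_max_of_aleph0_le_left hD).trans (max_le le_rfl ?_)
      exact (Cardinal.natCast_lt_aleph0 (n := 2)).le.trans hD
    have h2 : #K ^ #D ≤ 2 ^ #D := by
      refine (Cardinal.power_le_power_right hK).trans ?_
      rw [← Cardinal.power_mul, Cardinal.mul_eq_self hD]
    refine (mul_le_mul' (Cardinal.power_le_power_left two_ne_zero h1) h2).trans ?_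
    rw [Cardinal.mul_eq_self hc]
  have hsolve : ∀ j : J0, ∃ (E : Ext K (2 ^ #D)) (y : D → E.H),
      Sol j.1.1 (Sum.elim (fun d => E.ι (j.1.2 d)) y) := by
    intro j
    obtain ⟨H, _, ι, y, hι, hs⟩ := j.2
    obtain ⟨L, _, i, ι', y', hi, hι', hy', hL⟩ := cutdown ι y hc hK (Cardinal.cantor _).le
    have hι'inj : Injective ι' := by
      intro x y hxy
      apply hι
      rw [← hι', ← hι', hxy]
    refine ⟨⟨L, inferInstance, ι', hι'inj, hL⟩, y', ?_⟩
    rw [← Sol.of_injective i hi]
    convert hs using 1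
    ext d
    rcases d with d | d <;> simp [hι', hy']
  choose E y hEy using hsolve
  let EE : Option J0 → Ext K (2 ^ #D) := fun o => o.elim E0 E
  obtain ⟨P, _, b, f, hb, hf, hfb, hP⟩ := exists_amalgam K (fun j => (EE j).H)
    (fun j => (EE j).ι) (fun j => (EE j).inj) hc (by
      rw [Cardinal.mk_option]
      refine (add_le_add_left hJ0 1).trans ?_
      exact (Cardinal.add_one_eq hc).le) (fun j => (EE j).card)
  refine ⟨P, inferInstance, b, hb, le_antisymm hP ?_, ⟨fun o => f none (Y o), ?_⟩, ?_⟩
  · exact hE0.trans (Cardinal.mk_le_of_injective (hf none))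
  · intro g h hgh
    apply hY
    intro a b'
    have h1 := hgh a b'
    rw [← hfb none g, ← hfb none h] at h1
    simp only [← map_inv, ← map_mul, Commute, SemiconjBy, (hf none).eq_iff] at h1 ⊢
    exact h1
  · intro R c hRc
    let j : J0 := ⟨(R, c), hRc⟩
    refine ⟨fun d => f (some j) (y j d), ?_⟩
    have := (Sol.of_injective (f (some j)) (hf (some j)) _).mpr (hEy j)
    convert this using 1
    ext d
    rcases d with d | d
    · simp only [Sum.elim_inl]
      exact (hfb (some j) (c d)).symm
    · rfl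

end Pool.Agent.V1132.KEC
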