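import Pool.Agent.V1132.KEC2

/-!
# Existentially closed groups: freely acting permutation groups
-/

set_option autoImplicit false

open Cardinal Function

namespace Pool.Agent.V1132.KEC

universe u

/-- a free action is a union of copies of the regular one -/
theorem exists_freeEquiv {K A : Type u} [Group K] (a : K →* Equiv.Perm A)
    (hfree : ∀ k x, a k x = x → k = 1) :
    ∃ (O : Type u) (e : K × O ≃ A), ∀ k k' o, e (k * k', o) = a k (e (k', o)) := by
  let r : Setoid A :=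
    { r := fun x y => ∃ k, a k x = y
      iseqv := ⟨fun x => ⟨1, by simp⟩, fun {x y} ⟨k, hk⟩ => ⟨k⁻¹, by rw [← hk]; simp⟩,
        fun {x y z} ⟨k, hk⟩ ⟨l, hl⟩ => ⟨l * k, by rw [map_mul, Equiv.Perm.mul_apply, hk, hl]⟩⟩ }
  have hbij : Bijective (fun p : K × Quotient r => a p.1 p.2.out) := by
    constructor
    · rintro ⟨k, o⟩ ⟨l, o'⟩ h
      simp only at h
      have h1 : a (l⁻¹ * k) o.out = o'.out := by
        rw [map_mul, Equiv.Perm.mul_apply, h]; simp
      have h2 : o = o' := by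
        rw [← Quotient.out_eq o, ← Quotient.out_eq o']
        exact Quotient.sound ⟨_, h1⟩
      subst h2
      have h3 := hfree _ _ h1
      rw [inv_mul_eq_one] at h3
      rw [h3]
    · intro x
      obtain ⟨k, hk⟩ : r (Quotient.mk r x).out x := Quotient.exact (Quotient.out_eq _)
      exact ⟨(k, Quotient.mk r x), hk⟩
  refine ⟨Quotient r, Equiv.ofBijective _ hbij, fun k k' o => ?_⟩
  simp [Equiv.ofBijective_apply]

theorem mk_orbits {K A O : Type u} [Nonempty K] (e : K × O ≃ A) (hA : ℵ₀ ≤ #A) (hK : #K < #A) :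
    #O = #A := by
  have h1 : #A = #K * #O := by
    rw [← Cardinal.mk_congr e, Cardinal.mk_prod, Cardinal.lift_id, Cardinal.lift_id]
  apply le_antisymm
  · obtain ⟨k⟩ := ‹Nonempty K›
    exact Cardinal.mk_le_of_injective (f := fun o => e (k, o)) (fun x y h => by simpa using h)
  · by_contra h
    rw [not_le] at h
    exact absurd h1 (Cardinal.mul_lt_of_lt hA hK h).ne'

/-- the group acts freely on `Ω` -/
def IsFree {Ω : Type u} (K : Subgroup (Equiv.Perm Ω)) : Prop := ∀ g ∈ K, ∀ x, g x = x → g = 1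

theorem exists_embed {Ω : Type u} (K : Subgroup (Equiv.Perm Ω)) (hfree : IsFree K)
    {c : Cardinal.{u}} (hc : ℵ₀ ≤ c) (hcΩ : c < #Ω) (hK : #K ≤ c) (H : Type u) [Group H]
    (hH : #H ≤ c) (ι : K →* H) (hι : Injective ι) :
    ∃ ρ : H →* Equiv.Perm Ω, Injective ρ ∧ (∀ k : K, ρ (ι k) = k) ∧ IsFree ρ.range := by
  have hΩ : ℵ₀ ≤ #Ω := hc.trans hcΩ.le
  let l : H →* Equiv.Perm (H × Ω) :=
    { toFun := fun h => (Equiv.mulLeft h).prodCongr (Equiv.refl _)
      map_one' := by ext x <;> simp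
      map_mul' := fun g h => by ext x <;> simp [mul_assoc] }
  have hl : ∀ h x, l h x = (h * x.1, x.2) := fun h x => rfl
  obtain ⟨O₁, e₁, he₁⟩ := exists_freeEquiv K.subtype (fun k x hx => by
    have := hfree k.1 k.2 x hx
    exact Subtype.ext this)
  obtain ⟨O₂, e₂, he₂⟩ := exists_freeEquiv (l.comp ι) (fun k x hx => by
    have h1 : ι k * x.1 = x.1 := congrArg Prod.fst hx
    rw [_root_.mul_eq_right] at h1
    exact (map_eq_one_iff ι hι).mp h1)
  have hHΩ : #(H × Ω) = #Ω := by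
    rw [Cardinal.mk_prod, Cardinal.lift_id, Cardinal.lift_id]
    exact Cardinal.mul_eq_right hΩ (hH.trans hcΩ.le) (Cardinal.mk_ne_zero H)
  have h1 : #O₁ = #Ω := mk_orbits e₁ hΩ (hK.trans_lt hcΩ)
  have h2 : #O₂ = #Ω := by
    rw [mk_orbits e₂ (hHΩ.symm ▸ hΩ) (by rw [hHΩ]; exact hK.trans_lt hcΩ), hHΩ]
  obtain ⟨eO⟩ : Nonempty (O₁ ≃ O₂) := Cardinal.eq.mp (h1.trans h2.symm)
  let σ : Ω ≃ H × Ω := e₁.symm.trans (((Equiv.refl K).prodCongr eO).trans e₂)
  have hσ : ∀ (k : K) x, σ ((k : Equiv.Perm Ω) x) = l (ι k) (σ x) := by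
    intro k x
    obtain ⟨⟨k', o⟩, rfl⟩ := e₁.surjective x
    have h3 : (k : Equiv.Perm Ω) (e₁ (k', o)) = e₁ (k * k', o) := (he₁ k k' o).symm
    rw [h3]
    have h4 : ∀ p, σ (e₁ p) = e₂ (p.1, eO p.2) := fun p => by simp [σ, Prod.map]
    rw [h4, h4]
    exact he₂ k k' (eO o)
  let ρ : H →* Equiv.Perm Ω :=
    { toFun := fun h => (σ.trans (l h)).trans σ.symm
      map_one' := by ext x; simp
      map_mul' := fun g h => by ext x; simp }
  have hρ : ∀ h x, σ (ρ h x) = l h (σ x) := fun h x => by simp [ρ]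
  refine ⟨ρ, ?_, ?_, ?_⟩
  · intro g h hgh
    obtain ⟨x⟩ : Nonempty Ω := by
      rw [← Cardinal.mk_ne_zero_iff]
      exact (Cardinal.aleph0_pos.trans_le hΩ).ne'
    have h3 : σ (ρ g x) = σ (ρ h x) := by rw [hgh]
    rw [hρ, hρ, hl, hl] at h3
    have h4 := congrArg Prod.fst h3
    exact mul_right_cancel h4
  · intro k
    ext x
    apply σ.injective
    rw [hρ, hσ]
  · rintro _ ⟨h, rfl⟩ x hx
    have h3 : σ (ρ h x) = σ x := by rw [hx]
    rw [hρ, hl] at h3
    have h4 : h * (σ x).1 = (σ x).1 := congrArg Prod.fst h3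
    rw [_root_.mul_eq_right] at h4
    rw [h4, map_one]

/-- the one-step extension inside a large symmetric group -/
theorem exists_next {Ω D : Type u} [Infinite D] (hΩ : 2 ^ #D < #Ω)
    (K : Subgroup (Equiv.Perm Ω)) (hfree : IsFree K) (hK : #K ≤ 2 ^ #D) :
    ∃ L : Subgroup (Equiv.Perm Ω), K ≤ L ∧ IsFree L ∧ #L = 2 ^ #D ∧
      (∃ Y : Option D → Equiv.Perm Ω, (∀ d, Y d ∈ L) ∧ ∀ g ∈ K, ∀ h ∈ K,
        (∀ a b, Commute (g * Y a * g⁻¹) (Y b) ↔ Commute (h * Y a * h⁻¹) (Y b)) → g = h) ∧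
      (∀ (R : Set (FreeGroup (D ⊕ D) × Bool)) (c : D → K),
        (∃ (H : Type u) (_ : Group H) (ι : K →* H) (y : D → H), Injective ι ∧
          Sol R (Sum.elim (fun d => ι (c d)) y)) →
        ∃ y : D → Equiv.Perm Ω, (∀ d, y d ∈ L) ∧
          Sol R (Sum.elim (fun d => (c d : Equiv.Perm Ω)) y)) := by
  have hD : ℵ₀ ≤ #D := Cardinal.aleph0_le_mk D
  have hc : ℵ₀ ≤ (2 : Cardinal.{u}) ^ #D := hD.trans (Cardinal.cantor _).le
  obtain ⟨P, _, b, hb, hP, ⟨Y, hY⟩, hsol⟩ := exists_step K D hK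
  obtain ⟨ρ, hρ, hρb, hρfree⟩ := exists_embed K hfree hc hΩ hK P hP.le b hb
  refine ⟨ρ.range, ?_, hρfree, ?_, ⟨fun o => ρ (Y o), fun d => ⟨_, rfl⟩, ?_⟩, ?_⟩
  · intro k hk
    exact ⟨b ⟨k, hk⟩, hρb ⟨k, hk⟩⟩
  · rw [← hP]
    exact (Cardinal.mk_congr (MonoidHom.ofInjective hρ).toEquiv).symm
  · intro g hg h hh hgh
    have := hY ⟨g, hg⟩ ⟨h, hh⟩ (fun x y => by
      have h1 := hgh x y
      have hg' := hρb ⟨g, hg⟩
      have hh' := hρb ⟨h, hh⟩
      simp only at hg' hh'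
      rw [← hg', ← hh'] at h1
      simp only [← map_inv, ← map_mul, Commute, SemiconjBy, hρ.eq_iff] at h1 ⊢
      exact h1)
    exact congrArg Subtype.val this
  · intro R c hRc
    obtain ⟨y, hy⟩ := hsol R c hRc
    refine ⟨fun d => ρ (y d), fun d => ⟨_, rfl⟩, ?_⟩
    have := (Sol.of_injective ρ hρ _).mpr hy
    convert this using 1
    ext1 d
    rcases d with d | d
    · simp only [Sum.elim_inl]
      exact (hρb (c d)).symm
    · rfl

end Pool.Agent.V1132.KEC
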