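import Pool.Agent.V1132.KEC3

/-!
# Existentially closed groups: the chain of length `κ`
-/

set_option autoImplicit false

open Cardinal Function

namespace Pool.Agent.V1132.KEC

universe u

variable {Ω : Type u}

theorem free_iSup {J : Type u} (f : J → Subgroup (Equiv.Perm Ω)) (hf : Directed (· ≤ ·) f)
    {c : Cardinal.{u}} (hc : ℵ₀ ≤ c) (hJ : #J ≤ c) (hfree : ∀ j, IsFree (f j))
    (hcard : ∀ j, #(f j) ≤ c) : IsFree (⨆ j, f j) ∧ #(⨆ j, f j : Subgroup (Equiv.Perm Ω)) ≤ c := by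
  rcases isEmpty_or_nonempty J with h | h
  · rw [iSup_of_empty]
    constructor
    · intro g hg x _
      exact Subgroup.mem_bot.mp hg
    · refine le_trans ?_ (Cardinal.one_lt_aleph0.le.trans hc)
      rw [Cardinal.le_one_iff_subsingleton]
      infer_instance
  · constructor
    · intro g hg x hx
      rw [Subgroup.mem_iSup_of_directed hf] at hg
      obtain ⟨j, hj⟩ := hg
      exact hfree j g hj x hx
    · have h1 : #((⨆ j, f j : Subgroup (Equiv.Perm Ω)) : Set (Equiv.Perm Ω)) ≤ c := by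
        rw [Subgroup.coe_iSup_of_directed hf]
        refine (Cardinal.mk_iUnion_le_sum_mk).trans ?_
        refine (Cardinal.sum_le_mk_mul_iSup _).trans ?_
        refine (mul_le_mul' hJ (ciSup_le' hcard)).trans ?_
        rw [Cardinal.mul_eq_self hc]
      exact h1

section Next

variable {D : Type u} [Infinite D] (hΩ : 2 ^ #D < #Ω)

/-- the one-step extension of a small freely acting group -/
noncomputable def next (K : Subgroup (Equiv.Perm Ω)) : Subgroup (Equiv.Perm Ω) :=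
  open Classical in
  if h : IsFree K ∧ #K ≤ 2 ^ #D then (exists_next hΩ K h.1 h.2).choose else K

theorem next_spec (K : Subgroup (Equiv.Perm Ω)) (hfree : IsFree K) (hK : #K ≤ 2 ^ #D) :
    K ≤ next hΩ K ∧ IsFree (next hΩ K) ∧ #(next hΩ K) = 2 ^ #D ∧
      (∃ Y : Option D → Equiv.Perm Ω, (∀ d, Y d ∈ next hΩ K) ∧ ∀ g ∈ K, ∀ h ∈ K,
        (∀ a b, Commute (g * Y a * g⁻¹) (Y b) ↔ Commute (h * Y a * h⁻¹) (Y b)) → g = h) ∧
      (∀ (R : Set (FreeGroup (D ⊕ D) × Bool)) (c : D → K),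
        (∃ (H : Type u) (_ : Group H) (ι : K →* H) (y : D → H), Injective ι ∧
          Sol R (Sum.elim (fun d => ι (c d)) y)) →
        ∃ y : D → Equiv.Perm Ω, (∀ d, y d ∈ next hΩ K) ∧
          Sol R (Sum.elim (fun d => (c d : Equiv.Perm Ω)) y)) := by
  have h : next hΩ K = (exists_next hΩ K hfree hK).choose := by
    unfold next
    rw [dif_pos ⟨hfree, hK⟩]
  rw [h]
  exact (exists_next hΩ K hfree hK).choose_spec

variable {I : Type u} [LinearOrder I] [WellFoundedLT I]

/-- the chain -/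
noncomputable def chain : I → Subgroup (Equiv.Perm Ω) :=
  WellFounded.fix (C := fun _ => Subgroup (Equiv.Perm Ω)) wellFounded_lt
    (fun i ih => ⨆ j : Set.Iio i, next hΩ (ih j.1 j.2))

theorem chain_eq (i : I) : chain hΩ i = ⨆ j : Set.Iio i, next hΩ (chain hΩ j.1) := by
  unfold chain
  rw [WellFounded.fix_eq]

theorem next_le_chain {i j : I} (h : j < i) : next hΩ (chain hΩ j) ≤ chain hΩ i := by
  rw [chain_eq hΩ i]
  exact le_iSup (fun j : Set.Iio i => next hΩ (chain hΩ j.1)) ⟨j, h⟩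

theorem chain_free (hI : #I ≤ 2 ^ #D) (i : I) :
    IsFree (chain hΩ i) ∧ #(chain hΩ i) ≤ 2 ^ #D := by
  have hD : ℵ₀ ≤ #D := Cardinal.aleph0_le_mk D
  have hc : ℵ₀ ≤ (2 : Cardinal.{u}) ^ #D := hD.trans (Cardinal.cantor _).le
  induction i using WellFoundedLT.induction with
  | ind i ih =>
    rw [chain_eq]
    have hmono : ∀ j k : I, j ≤ k → k < i → next hΩ (chain hΩ j) ≤ next hΩ (chain hΩ k) := by
      intro j k hjk hk
      rcases hjk.eq_or_lt with rfl | h
      · exact le_rfl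
      · exact (next_le_chain hΩ h).trans (next_spec hΩ _ (ih k hk).1 (ih k hk).2).1
    refine free_iSup _ ?_ hc ((Cardinal.mk_set_le _).trans hI) ?_ ?_
    · intro a b
      rcases le_total a.1 b.1 with h | h
      · exact ⟨b, hmono _ _ h b.2, le_rfl⟩
      · exact ⟨a, le_rfl, hmono _ _ h a.2⟩
    · intro j
      exact (next_spec hΩ _ (ih j.1 j.2).1 (ih j.1 j.2).2).2.1
    · intro j
      exact (next_spec hΩ _ (ih j.1 j.2).1 (ih j.1 j.2).2).2.2.1.le

theorem chain_mono (hI : #I ≤ 2 ^ #D) {j k : I} (h : j ≤ k) : chain hΩ j ≤ chain hΩ k := by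
  rcases h.eq_or_lt with rfl | h
  · exact le_rfl
  · exact (next_spec hΩ _ (chain_free hΩ hI j).1 (chain_free hΩ hI j).2).1.trans
      (next_le_chain hΩ h)

end Next

theorem exists_bound {κ : Cardinal.{u}} (hκ : κ.IsRegular) (s : Set κ.ord.ToType) (hs : #s < κ) :
    ∃ i, ∀ j ∈ s, j < i := by
  by_contra hcon
  push Not at hcon
  have h1 : IsCofinal s := by
    intro i
    obtain ⟨j, hj, hij⟩ := hcon i
    exact ⟨j, hj, hij⟩
  have h2 := Order.cof_le h1
  rw [Ordinal.cof_toType, hκ.cof_ord] at h2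
  exact absurd hs (not_lt.mpr h2)

/-- The group: a directed union of length `κ`. -/
theorem exists_group {κ : Cardinal.{u}} (hκ : κ.IsRegular) {D : Type u} [Infinite D]
    (hκD : κ ≤ #D) : ∃ (G : Type u) (_ : Group G), #G = 2 ^ #D ∧
      (∃ X : Set G, #X ≤ #D ∧ ∀ g h : G, (∀ a ∈ X, ∀ b ∈ X,
        (Commute (g * a * g⁻¹) b ↔ Commute (h * a * h⁻¹) b)) → g = h) ∧
      (∀ (R : Set (FreeGroup (D ⊕ D) × Bool)) (c : D → G), #(Set.range c) < κ →
        (∃ (H : Type u) (_ : Group H) (ι : G →* H) (y : D → H), Injective ι ∧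
          Sol R (Sum.elim (fun d => ι (c d)) y)) →
        ∃ y : D → G, Sol R (Sum.elim c y)) := by
  have hD : ℵ₀ ≤ #D := Cardinal.aleph0_le_mk D
  have hc : ℵ₀ ≤ (2 : Cardinal.{u}) ^ #D := hD.trans (Cardinal.cantor _).le
  let Ω : Type u := Set (Set D)
  have hΩ : 2 ^ #D < #Ω := by
    change 2 ^ #D < #(Set (Set D))
    rw [Cardinal.mk_set, Cardinal.mk_set]
    exact Cardinal.cantor _
  let I : Type u := κ.ord.ToType
  have hIκ : #I = κ := Cardinal.mk_ord_toType κ
  have hI : #I ≤ 2 ^ #D := by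
    rw [hIκ]; exact hκD.trans (Cardinal.cantor _).le
  have hInon : Nonempty I := by
    rw [← Cardinal.mk_ne_zero_iff, hIκ]; exact hκ.ne_zero
  -- the chain
  let C : I → Subgroup (Equiv.Perm Ω) := chain hΩ
  have hC : ∀ i, IsFree (C i) ∧ #(C i) ≤ 2 ^ #D := chain_free hΩ hI
  have hspec := fun i => next_spec hΩ (C i) (hC i).1 (hC i).2
  have hmono : ∀ {i j : I}, i ≤ j → C i ≤ C j := fun h => chain_mono hΩ hI h
  have hsucc : ∀ i : I, ∃ j, i < j := by
    intro i
    obtain ⟨j, hj⟩ := exists_bound hκ {i} (by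
      rw [Cardinal.mk_singleton]
      exact Cardinal.one_lt_aleph0.trans_le hκ.aleph0_le)
    exact ⟨j, hj i rfl⟩
  have hdir : Directed (· ≤ ·) C := by
    intro a b
    rcases le_total a b with h | h
    · exact ⟨b, hmono h, le_rfl⟩
    · exact ⟨a, le_rfl, hmono h⟩
  let G : Subgroup (Equiv.Perm Ω) := ⨆ i, C i
  have hG : IsFree G ∧ #G ≤ 2 ^ #D :=
    free_iSup C hdir hc hI (fun i => (hC i).1) (fun i => (hC i).2)
  have hmem : ∀ g, g ∈ G ↔ ∃ i, g ∈ C i := fun g => Subgroup.mem_iSup_of_directed hdir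
  have hnG : ∀ i, next hΩ (C i) ≤ G := by
    intro i
    obtain ⟨j, hj⟩ := hsucc i
    exact (next_le_chain hΩ hj).trans (le_iSup C j)
  refine ⟨G, inferInstance, le_antisymm hG.2 ?_, ?_, ?_⟩
  · obtain ⟨i⟩ := hInon
    rw [← (hspec i).2.2.1]
    exact Cardinal.mk_le_of_injective (Subgroup.inclusion_injective (hnG i))
  · choose Y hYmem hYsep using fun i => (hspec i).2.2.2.1
    let X : Set G := Set.range (fun p : I × Option D => (⟨Y p.1 p.2, hnG p.1 (hYmem p.1 p.2)⟩ : G))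
    refine ⟨X, ?_, ?_⟩
    · refine Cardinal.mk_range_le.trans ?_
      rw [Cardinal.mk_prod, Cardinal.lift_id, Cardinal.lift_id, hIκ, Cardinal.mk_option,
        Cardinal.add_one_eq hD]
      exact (mul_le_mul' hκD le_rfl).trans (Cardinal.mul_eq_self hD).le
    · intro g h hgh
      obtain ⟨i, hi⟩ := (hmem _).mp g.2
      obtain ⟨j, hj⟩ := (hmem _).mp h.2
      obtain ⟨k, hik, hjk⟩ := hdir i j
      apply Subtype.ext
      apply hYsep k g (hik hi) h (hjk hj)
      intro a b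
      have := hgh ⟨Y k a, hnG k (hYmem k a)⟩ ⟨(k, a), rfl⟩ ⟨Y k b, hnG k (hYmem k b)⟩ ⟨(k, b), rfl⟩
      simpa only [Commute, SemiconjBy, Subtype.ext_iff, Subgroup.coe_mul, Subgroup.coe_inv]
        using this
  · intro R c hcκ hex
    -- all the coefficients lie in one member of the chain
    choose idx hidx using fun g : G => (hmem g).mp g.2
    obtain ⟨i, hi⟩ := exists_bound hκ (idx '' Set.range c) (Cardinal.mk_image_le.trans_lt hcκ)
    have hcC : ∀ d, (c d : Equiv.Perm Ω) ∈ C i := fun d =>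
      hmono (hi _ ⟨c d, ⟨d, rfl⟩, rfl⟩).le (hidx (c d))
    obtain ⟨H, _, ι, y, hι, hy⟩ := hex
    have hCG : C i ≤ G := le_iSup C i
    obtain ⟨y', hy'mem, hy'⟩ := (hspec i).2.2.2.2 R (fun d => ⟨c d, hcC d⟩)
      ⟨H, inferInstance, ι.comp (Subgroup.inclusion hCG), y,
        hι.comp (Subgroup.inclusion_injective hCG), hy⟩
    refine ⟨fun d => ⟨y' d, hnG i (hy'mem d)⟩, ?_⟩
    rw [← Sol.of_injective G.subtype Subtype.val_injective]
    convert hy' using 1
    ext1 d
    rcases d with d | d <;> rfl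

end Pool.Agent.V1132.KEC
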