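import Pool.Agent.V1132.KEC4

/-!
# Existentially closed groups: equations and inequations in the free product
-/

set_option autoImplicit false

open Cardinal Function

namespace Pool.Agent.V1132.KEC

universe u

/-- The assignment `x` solves the set `S` of equations and inequations over `G`, coefficients being
read through `ι : G → H`. A member `(w, true)` of `S` is the equation `w = 1`, a member
`(w, false)` is the inequation `w ≠ 1`; here `w` is an element of the free product of `G` and the
free group on the set `X` of variables. -/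
def Solves {G H X : Type u} [Group G] [Group H]
    (S : Set (Monoid.Coprod G (FreeGroup X) × Bool)) (ι : G →* H) (x : X → H) : Prop :=
  ∀ s ∈ S, (Monoid.Coprod.lift ι (FreeGroup.lift x) s.1 = 1 ↔ s.2 = true)

/-- `G` is `κ`-existentially closed: every set of fewer than `κ` equations and inequations over `G`
that is solvable in some overgroup of `G` is solvable in `G`. -/
def IsExistentiallyClosed (κ : Cardinal.{u}) (G : Type u) [Group G] : Prop :=
  ∀ (X : Type u) (S : Set (Monoid.Coprod G (FreeGroup X) × Bool)), #S < κ →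
    (∃ (H : Type u) (_ : Group H) (ι : G →* H), Injective ι ∧ ∃ x : X → H, Solves S ι x) →
    ∃ x : X → G, Solves S (MonoidHom.id G) x

theorem exists_support {A : Type u} (w : FreeGroup A) :
    ∃ T : Set A, T.Finite ∧ ∀ (H : Type u) [Group H] (f g : A → H), (∀ a ∈ T, f a = g a) →
      FreeGroup.lift f w = FreeGroup.lift g w := by
  induction w using FreeGroup.induction_on with
  | C1 => exact ⟨∅, Set.finite_empty, fun H _ f g _ => by simp⟩
  | of a => exact ⟨{a}, Set.finite_singleton a, fun H _ f g h => by simpa using h a rfl⟩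
  | inv_of a _ => exact ⟨{a}, Set.finite_singleton a, fun H _ f g h => by simpa using h a rfl⟩
  | mul v w hv hw =>
    obtain ⟨T, hT, h1⟩ := hv
    obtain ⟨T', hT', h2⟩ := hw
    refine ⟨T ∪ T', hT.union hT', fun H _ f g h => ?_⟩
    rw [map_mul, map_mul, h1 H f g (fun a ha => h a (Or.inl ha)),
      h2 H f g (fun a ha => h a (Or.inr ha))]

/-- the canonical surjection -/
def pres (G X : Type u) [Group G] : FreeGroup (G ⊕ X) →* Monoid.Coprod G (FreeGroup X) :=
  FreeGroup.lift (Sum.elim Monoid.Coprod.inl (fun a => Monoid.Coprod.inr (FreeGroup.of a)))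

theorem pres_surjective (G X : Type u) [Group G] : Surjective (pres G X) := by
  intro w
  induction w using Monoid.Coprod.induction_on with
  | inl g => exact ⟨FreeGroup.of (Sum.inl g), by simp [pres]⟩
  | inr v =>
    refine ⟨FreeGroup.map Sum.inr v, ?_⟩
    have : (pres G X).comp (FreeGroup.map Sum.inr) = Monoid.Coprod.inr := by
      ext a; simp [pres]
    exact DFunLike.congr_fun this v
  | mul v w hv hw =>
    obtain ⟨a, rfl⟩ := hv
    obtain ⟨b, rfl⟩ := hw
    exact ⟨a * b, map_mul _ _ _⟩

theorem lift_pres {G H X : Type u} [Group G] [Group H] (ι : G →* H) (x : X → H)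
    (w : FreeGroup (G ⊕ X)) : Monoid.Coprod.lift ι (FreeGroup.lift x) (pres G X w) =
      FreeGroup.lift (Sum.elim ι x) w := by
  have : (Monoid.Coprod.lift ι (FreeGroup.lift x)).comp (pres G X) =
      FreeGroup.lift (Sum.elim ι x) := by
    ext a
    rcases a with a | a <;> simp [pres]
  exact DFunLike.congr_fun this w

theorem isExistentiallyClosed_of {κ : Cardinal.{u}} (hκ : κ.IsRegular) {D : Type u} [Infinite D]
    (hκD : κ ≤ #D) (G : Type u) [Group G]
    (h : ∀ (R : Set (FreeGroup (D ⊕ D) × Bool)) (c : D → G), #(Set.range c) < κ →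
        (∃ (H : Type u) (_ : Group H) (ι : G →* H) (y : D → H), Injective ι ∧
          Sol R (Sum.elim (fun d => ι (c d)) y)) →
        ∃ y : D → G, Sol R (Sum.elim c y)) : IsExistentiallyClosed κ G := by
  classical
  intro X S hS hex
  choose lw hlw using fun s : S => pres_surjective G X s.1.1
  choose T hT hTs using fun s : S => exists_support (lw s)
  let U : Set (G ⊕ X) := ⋃ s, T s
  have hU : #U < κ := by
    rw [Cardinal.card_iUnion_lt_iff_forall_of_isRegular hκ hS]
    intro s
    exact (Cardinal.lt_aleph0_iff_set_finite.mpr (hT s)).trans_le hκ.aleph0_le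
  obtain ⟨e⟩ : Nonempty (U ↪ D) := by
    rw [← Cardinal.le_def]
    exact hU.le.trans hκD
  obtain ⟨d0⟩ : Nonempty D := inferInstance
  let τ : G ⊕ X → D ⊕ D := fun a => if h : a ∈ U then
    Sum.elim (fun _ => Sum.inl (e ⟨a, h⟩)) (fun _ => Sum.inr (e ⟨a, h⟩)) a else Sum.inl d0
  have hτl : ∀ (g : G) (h : Sum.inl g ∈ U), τ (Sum.inl g) = Sum.inl (e ⟨_, h⟩) := by
    intro g h; simp [τ, h]
  have hτr : ∀ (a : X) (h : Sum.inr a ∈ U), τ (Sum.inr a) = Sum.inr (e ⟨_, h⟩) := by
    intro g h; simp [τ, h]
  let c : D → G := Function.extend e (fun u => Sum.elim id (fun _ => 1) u.1) 1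
  have hc : ∀ u : U, c (e u) = Sum.elim id (fun _ => 1) u.1 := fun u => e.injective.extend_apply _ _ _
  let R : Set (FreeGroup (D ⊕ D) × Bool) :=
    Set.range (fun s : S => (FreeGroup.map τ (lw s), s.1.2))
  -- the comparison
  have key : ∀ (H : Type u) [Group H] (ι : G →* H) (x : X → H) (y : D → H),
      (∀ (a : X) (h : Sum.inr a ∈ U), y (e ⟨_, h⟩) = x a) →
      (Sol R (Sum.elim (fun d => ι (c d)) y) ↔ Solves S ι x) := by
    intro H _ ι x y hxy
    have h1 : ∀ s : S, FreeGroup.lift (Sum.elim (fun d => ι (c d)) y) (FreeGroup.map τ (lw s)) =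
        Monoid.Coprod.lift ι (FreeGroup.lift x) s.1.1 := by
      intro s
      rw [← hlw s, lift_pres]
      have h2 : FreeGroup.lift (Sum.elim (fun d => ι (c d)) y) (FreeGroup.map τ (lw s)) =
          FreeGroup.lift (fun a => Sum.elim (fun d => ι (c d)) y (τ a)) (lw s) := by
        have h3 : (FreeGroup.lift (Sum.elim (fun d => ι (c d)) y)).comp (FreeGroup.map τ) =
            FreeGroup.lift (fun a => Sum.elim (fun d => ι (c d)) y (τ a)) := by
          ext a; simp
        exact DFunLike.congr_fun h3 _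
      rw [h2]
      apply hTs s
      intro a ha
      have haU : a ∈ U := Set.mem_iUnion.mpr ⟨s, ha⟩
      rcases a with g | a
      · rw [hτl g haU]
        simp [hc]
      · rw [hτr a haU]
        simp [hxy a haU]
    constructor
    · intro hs s hsS
      rw [← h1 ⟨s, hsS⟩]
      exact hs (FreeGroup.map τ (lw ⟨s, hsS⟩), s.2) ⟨⟨s, hsS⟩, rfl⟩
    · rintro hs _ ⟨s, rfl⟩
      simp only
      rw [h1 s]
      exact hs s.1 s.2
  have hcr : #(Set.range c) < κ := by
    have h1 : Set.range c ⊆ (Set.range (fun u : U => Sum.elim id (fun _ => (1 : G)) u.1)) ∪ {1} := by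
      rintro _ ⟨d, rfl⟩
      by_cases hd : ∃ u, e u = d
      · obtain ⟨u, rfl⟩ := hd
        exact Or.inl ⟨u, (hc u).symm⟩
      · right
        change c d = 1
        exact Function.extend_apply' _ _ _ hd
    refine (Cardinal.mk_le_mk_of_subset h1).trans_lt ?_
    refine (Cardinal.mk_union_le _ _).trans_lt ?_
    refine Cardinal.add_lt_of_lt hκ.aleph0_le (Cardinal.mk_range_le.trans_lt hU) ?_
    rw [Cardinal.mk_singleton]
    exact Cardinal.one_lt_aleph0.trans_le hκ.aleph0_le
  obtain ⟨H, _, ι, hι, x, hx⟩ := hex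
  obtain ⟨y', hy'⟩ := h R c hcr ⟨H, inferInstance, ι,
    Function.extend e (fun u => Sum.elim (fun _ => 1) x u.1) 1, hι, (key H ι x _ (by
      intro a ha
      rw [e.injective.extend_apply]
      rfl)).mpr hx⟩
  refine ⟨fun a => if h : Sum.inr a ∈ U then y' (e ⟨_, h⟩) else 1,
    (key G (MonoidHom.id G) _ y' ?_).mp hy'⟩
  intro a ha
  simp [ha]

/-- an existentially closed group is centreless, so it has at least `#G` automorphisms -/
theorem mk_le_mk_mulAut {κ : Cardinal.{u}} (hκ : ℵ₀ ≤ κ) {G : Type u} [Group G]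
    (h : IsExistentiallyClosed κ G) : #G ≤ #(MulAut G) := by
  refine Cardinal.mk_le_of_injective (f := (MulAut.conj : G →* MulAut G)) ?_
  rw [injective_iff_map_eq_one]
  intro z hz
  by_contra hz1
  let w : Monoid.Coprod G (FreeGroup PUnit.{u+1}) :=
    Monoid.Coprod.inl z * Monoid.Coprod.inr (FreeGroup.of PUnit.unit) * (Monoid.Coprod.inl z)⁻¹ *
      (Monoid.Coprod.inr (FreeGroup.of PUnit.unit))⁻¹
  have hw : ∀ (H : Type u) [Group H] (ι : G →* H) (x : PUnit.{u+1} → H),
      Monoid.Coprod.lift ι (FreeGroup.lift x) w =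
        ι z * x PUnit.unit * (ι z)⁻¹ * (x PUnit.unit)⁻¹ := by
    intro H _ ι x
    simp [w]
  obtain ⟨x, hx⟩ := h PUnit {(w, false)} (by
    rw [Cardinal.mk_singleton]
    exact Cardinal.one_lt_aleph0.trans_le hκ) ⟨Equiv.Perm (G × Fin 3), inferInstance, leftAct,
      leftAct_injective, fun _ => fib (fun k => open Classical in
        if k = 1 then Equiv.swap 0 1 else 1), by
      classical
      rintro _ rfl
      simp only [Bool.false_eq_true, iff_false]
      rw [hw, leftAct_conj, mul_inv_eq_one]
      intro heq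
      have h1 := congrArg (fun q : Equiv.Perm (G × Fin 3) => (q (z, 0)).2) heq
      simp [fib, hz1] at h1⟩
  have h1 := hx (w, false) rfl
  simp only [Bool.false_eq_true, iff_false] at h1
  apply h1
  rw [hw]
  simp only [MonoidHom.id_apply]
  rw [mul_inv_eq_one]
  have h2 := DFunLike.congr_fun hz (x PUnit.unit)
  simpa using h2

/-- **Theorem.** -/
theorem main {κ μ : Cardinal.{u}} (hκ : κ.IsRegular) (hμ : κ ≤ μ) :
    ∃ (G : Type u) (_ : Group G), IsExistentiallyClosed κ G ∧ #G = 2 ^ μ ∧ κ < #G ∧
      #(MulAut G) = #G ∧ #(MulAut G) < 2 ^ #G := by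
  let D : Type u := μ.out
  have hD : #D = μ := Cardinal.mk_out μ
  haveI : Infinite D := by
    rw [Cardinal.infinite_iff, hD]
    exact hκ.aleph0_le.trans hμ
  have hDω : ℵ₀ ≤ #D := Cardinal.aleph0_le_mk D
  obtain ⟨G, _, hG, ⟨X, hX, hsep⟩, hsol⟩ := exists_group hκ (D := D) (by rw [hD]; exact hμ)
  have hec := isExistentiallyClosed_of hκ (by rw [hD]; exact hμ) G hsol
  suffices hle : #(MulAut G) ≤ 2 ^ μ by
    have heq : #(MulAut G) = #G :=
      le_antisymm (by rw [hG, hD]; exact hle) (mk_le_mk_mulAut hκ.aleph0_le hec)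
    refine ⟨G, inferInstance, hec, by rw [hG, hD], ?_, heq, ?_⟩
    · rw [hG, hD]
      exact hμ.trans_lt (Cardinal.cantor μ)
    · rw [heq]
      exact Cardinal.cantor _
  have hinj : Injective (fun (α : MulAut G) (a : X) => α a) := by
    intro α β hαβ
    have hα : ∀ a ∈ X, α a = β a := fun a ha => congrFun hαβ ⟨a, ha⟩
    ext g
    have : g = α⁻¹ (β g) := by
      apply hsep
      intro a ha b hb
      have h1 : α⁻¹ (β a) = a := by rw [← hα a ha]; simp
      have h2 : α⁻¹ (β b) = b := by rw [← hα b hb]; simp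
      have h3 : α⁻¹ (β (g * a * g⁻¹)) = α⁻¹ (β g) * a * (α⁻¹ (β g))⁻¹ := by
        rw [map_mul, map_mul, map_mul, map_mul, map_inv, map_inv, h1]
      rw [← h3]
      nth_rewrite 2 [← h2]
      simp only [Commute, SemiconjBy, ← map_mul]
      rw [(MulEquiv.injective _).eq_iff, (MulEquiv.injective _).eq_iff]
    conv_lhs => rw [this]
    simp
  refine (Cardinal.mk_le_of_injective hinj).trans ?_
  rw [← Cardinal.power_def, hG]
  refine (Cardinal.power_le_power_left (Cardinal.power_ne_zero _ two_ne_zero) hX).trans ?_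
  rw [← Cardinal.power_mul, Cardinal.mul_eq_self hDω, hD]

end Pool.Agent.V1132.KEC
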