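import Mathlib

/-!
# A generic colouring of the finite subsets of `ℕ` and its symmetries
-/

set_option autoImplicit false

namespace Pool.Agent.V1132.OutOlig

/-- Decoding a natural number as a finite set of finite sets. -/
def dec (x : ℕ) : Finset (Finset ℕ) :=
  (Encodable.decode (α := Finset (Finset ℕ)) x.unpair.1).getD ∅

/-- The colouring. -/
def R (S : Finset ℕ) : Bool :=
  if h : S.Nonempty then decide (S.erase (S.max' h) ∈ dec (S.max' h)) else false

theorem R_ext (A : Finset ℕ) (N : ℕ) (p : Finset ℕ → Bool) :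
    ∃ x, N ≤ x ∧ x ∉ A ∧ ∀ B ⊆ A, R (insert x B) = p B := by
  set K : Finset (Finset ℕ) := A.powerset.filter (fun B => p B = true) with hK
  set x := Nat.pair (Encodable.encode K) (max N (A.sup id + 1)) with hx
  have hx1 : max N (A.sup id + 1) ≤ x := Nat.right_le_pair _ _
  have hlt : ∀ a ∈ A, a < x := by
    intro a ha
    have : a ≤ A.sup id := Finset.le_sup (f := id) ha
    lia
  have hxA : x ∉ A := fun h => lt_irrefl _ (hlt x h)
  have hdec : dec x = K := by
    rw [dec, hx, Nat.unpair_pair, Encodable.encodek]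
    rfl
  refine ⟨x, by lia, hxA, fun B hB => ?_⟩
  have hne : (insert x B).Nonempty := Finset.insert_nonempty _ _
  have hmax : (insert x B).max' hne = x := by
    apply le_antisymm
    · apply Finset.max'_le
      intro y hy
      rw [Finset.mem_insert] at hy
      rcases hy with rfl | hy
      · exact le_rfl
      · exact (hlt y (hB hy)).le
    · exact Finset.le_max' _ _ (Finset.mem_insert_self _ _)
  have hxB : x ∉ B := fun h => hxA (hB h)
  rw [R, dif_pos hne, hmax, hdec, Finset.erase_insert hxB, hK]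
  simp [hB]

/-- A finite partial bijection between sets of numbers `≥ 2` changing the colours of the sets of
size `n` by `ε n`. -/
structure Good (ε : ℕ → Bool) (f : Finset (ℕ × ℕ)) : Prop where
  big : ∀ p ∈ f, 2 ≤ p.1 ∧ 2 ≤ p.2
  inj : ∀ p ∈ f, ∀ q ∈ f, p.1 = q.1 ↔ p.2 = q.2
  col : ∀ T ⊆ f, T.Nonempty → R (T.image Prod.snd) = xor (R (T.image Prod.fst)) (ε T.card)

theorem Good.swap {ε : ℕ → Bool} {f : Finset (ℕ × ℕ)} (h : Good ε f) :
    Good ε (f.image Prod.swap) := by
  refine ⟨?_, ?_, ?_⟩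
  · intro p hp
    rw [Finset.mem_image] at hp
    obtain ⟨q, hq, rfl⟩ := hp
    exact ⟨(h.big q hq).2, (h.big q hq).1⟩
  · intro p hp q hq
    rw [Finset.mem_image] at hp hq
    obtain ⟨p', hp', rfl⟩ := hp
    obtain ⟨q', hq', rfl⟩ := hq
    exact (h.inj p' hp' q' hq').symm
  · intro T hT hne
    have hT' : T.image Prod.swap ⊆ f := by
      intro p hp
      rw [Finset.mem_image] at hp
      obtain ⟨q, hq, rfl⟩ := hp
      have := hT hq
      rw [Finset.mem_image] at this
      obtain ⟨r, hr, rfl⟩ := this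
      rwa [Prod.swap_swap]
    have h1 := h.col _ hT' (hne.image _)
    rw [Finset.image_image, Finset.image_image,
      Finset.card_image_of_injective _ Prod.swap_injective] at h1
    have e1 : Prod.snd ∘ (Prod.swap : ℕ × ℕ → ℕ × ℕ) = Prod.fst := rfl
    have e2 : Prod.fst ∘ (Prod.swap : ℕ × ℕ → ℕ × ℕ) = Prod.snd := rfl
    rw [e1, e2] at h1
    rw [h1]
    simp

theorem Good.extend {ε : ℕ → Bool} {f : Finset (ℕ × ℕ)} (h : Good ε f) {a : ℕ} (ha : 2 ≤ a) :
    ∃ f', f ⊆ f' ∧ Good ε f' ∧ ∃ b, (a, b) ∈ f' := by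
  by_cases hex : ∃ b, (a, b) ∈ f
  · exact ⟨f, Finset.Subset.refl _, h, hex⟩
  push Not at hex
  obtain ⟨b, hb2, hbA, hb⟩ := R_ext (f.image Prod.snd) 2 (fun B =>
    xor (R (insert a ((f.filter (fun q => q.2 ∈ B)).image Prod.fst))) (ε (B.card + 1)))
  have hda : ∀ q ∈ f, q.1 ≠ a := by
    rintro ⟨x, y⟩ hq rfl
    exact hex y hq
  have hdb : ∀ q ∈ f, q.2 ≠ b := by
    intro q hq h'
    exact hbA (h' ▸ Finset.mem_image_of_mem _ hq)
  refine ⟨insert (a, b) f, Finset.subset_insert _ _, ⟨?_, ?_, ?_⟩, b, Finset.mem_insert_self _ _⟩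
  · intro p hp
    rw [Finset.mem_insert] at hp
    rcases hp with rfl | hp
    · exact ⟨ha, hb2⟩
    · exact h.big p hp
  · intro p hp q hq
    rw [Finset.mem_insert] at hp hq
    rcases hp with rfl | hp
    · rcases hq with rfl | hq
      · simp
      · exact ⟨fun h' => absurd h'.symm (hda q hq), fun h' => absurd h'.symm (hdb q hq)⟩
    · rcases hq with rfl | hq
      · exact ⟨fun h' => absurd h' (hda p hp), fun h' => absurd h' (hdb p hp)⟩
      · exact h.inj p hp q hq
  · intro T hT hne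
    by_cases hab : (a, b) ∈ T
    · set T' := T.erase (a, b) with hT'
      have hTT' : T = insert (a, b) T' := (Finset.insert_erase hab).symm
      have hsub : T' ⊆ f := by
        intro q hq
        rw [hT', Finset.mem_erase] at hq
        have := hT hq.2
        rw [Finset.mem_insert] at this
        exact this.resolve_left hq.1
      have hfil : f.filter (fun q => q.2 ∈ T'.image Prod.snd) = T' := by
        ext q
        rw [Finset.mem_filter, Finset.mem_image]
        constructor
        · rintro ⟨hq, t, ht, htq⟩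
          have := (h.inj t (hsub ht) q hq).2 htq
          have : t = q := Prod.ext this htq
          rwa [← this]
        · intro hq
          exact ⟨hsub hq, q, hq, rfl⟩
      have hcard : (T'.image Prod.snd).card = T'.card := by
        apply Finset.card_image_of_injOn
        intro p hp q hq hpq
        exact Prod.ext ((h.inj p (hsub hp) q (hsub hq)).2 hpq) hpq
      have h1 := hb (T'.image Prod.snd) (Finset.image_subset_image hsub)
      rw [hfil, hcard] at h1
      rw [hTT', Finset.image_insert, Finset.image_insert,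
        Finset.card_insert_of_notMem (by rw [hT']; exact Finset.notMem_erase _ _)]
      exact h1
    · apply h.col T _ hne
      intro q hq
      have := hT hq
      rw [Finset.mem_insert] at this
      rcases this with rfl | h'
      · exact absurd hq hab
      · exact h'

theorem Good.extend_both {ε : ℕ → Bool} {f : Finset (ℕ × ℕ)} (h : Good ε f) (n : ℕ) :
    ∃ f', f ⊆ f' ∧ Good ε f' ∧ (∃ b, (n + 2, b) ∈ f') ∧ ∃ a, (a, n + 2) ∈ f' := by
  obtain ⟨f₁, h1, h2, b, hb⟩ := h.extend (by lia : 2 ≤ n + 2)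
  obtain ⟨f₂, h3, h4, a, ha⟩ := h2.swap.extend (by lia : 2 ≤ n + 2)
  refine ⟨f₂.image Prod.swap, ?_, h4.swap, ⟨b, ?_⟩, a, ?_⟩
  · intro q hq
    rw [Finset.mem_image]
    exact ⟨q.swap, h3 (Finset.mem_image_of_mem _ (h1 hq)), Prod.swap_swap _⟩
  · rw [Finset.mem_image]
    exact ⟨(b, n + 2), h3 (Finset.mem_image.2 ⟨_, hb, rfl⟩), rfl⟩
  · rw [Finset.mem_image]
    exact ⟨(n + 2, a), ha, rfl⟩

/-- `σ` preserves `{0, 1}` and changes the colours of the sets of size `n` by `ε n`. -/
def Sym (ε : ℕ → Bool) (σ : Equiv.Perm ℕ) : Prop :=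
  (∀ x, σ x < 2 ↔ x < 2) ∧ ∀ S : Finset ℕ, S.Nonempty → (∀ x ∈ S, 2 ≤ x) →
    R (S.image σ) = xor (R S) (ε S.card)

theorem exists_perm {ε : ℕ → Bool} {f₀ : Finset (ℕ × ℕ)} (h : Good ε f₀) (s : Bool) :
    ∃ σ : Equiv.Perm ℕ, Sym ε σ ∧ (∀ p ∈ f₀, σ p.1 = p.2) ∧
      ∀ x < 2, σ x = if s then 1 - x else x := by
  classical
  choose! e he1 he2 he3 he4 using
    fun (f : Finset (ℕ × ℕ)) (n : ℕ) (hf : Good ε f) => hf.extend_both n
  let F : ℕ → Finset (ℕ × ℕ) := fun n => Nat.rec f₀ (fun n f => e f n) n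
  have hF0 : F 0 = f₀ := rfl
  have hFs : ∀ n, F (n + 1) = e (F n) n := fun n => rfl
  have hG : ∀ n, Good ε (F n) := by
    intro n
    induction n with
    | zero => exact h
    | succ n ih => rw [hFs]; exact he2 _ _ ih
  have hmono : Monotone F := by
    apply monotone_nat_of_le_succ
    intro n
    rw [hFs]
    exact he1 _ _ (hG n)
  have hdom : ∀ a, ∃ b, 2 ≤ a → ∃ n, (a, b) ∈ F n := by
    intro a
    by_cases ha : 2 ≤ a
    · obtain ⟨b, hb⟩ := he3 (F (a - 2)) (a - 2) (hG _)
      refine ⟨b, fun _ => ⟨a - 2 + 1, ?_⟩⟩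
      rw [hFs]
      have : a - 2 + 2 = a := by lia
      rwa [this] at hb
    · exact ⟨0, fun h => absurd h ha⟩
  have hran : ∀ b, 2 ≤ b → ∃ a, ∃ n, (a, b) ∈ F n := by
    intro b hb2
    obtain ⟨a, ha⟩ := he4 (F (b - 2)) (b - 2) (hG _)
    refine ⟨a, b - 2 + 1, ?_⟩
    rw [hFs]
    have : b - 2 + 2 = b := by lia
    rwa [this] at ha
  choose g hg using hdom
  have huniq : ∀ a b a' b' n m, (a, b) ∈ F n → (a', b') ∈ F m → (a = a' ↔ b = b') := by
    intro a b a' b' n m h1 h2
    exact (hG (max n m)).inj _ (hmono (le_max_left _ _) h1) _ (hmono (le_max_right _ _) h2)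
  have hbig : ∀ a, 2 ≤ a → 2 ≤ g a := by
    intro a ha
    obtain ⟨n, hn⟩ := hg a ha
    exact ((hG n).big _ hn).2
  let τ : ℕ → ℕ := fun x => if x < 2 then (if s then 1 - x else x) else g x
  have hτ1 : ∀ x, x < 2 → τ x = if s then 1 - x else x := fun x hx => if_pos hx
  have hτ2 : ∀ x, 2 ≤ x → τ x = g x := fun x hx => if_neg (by lia)
  have hτlt : ∀ x, τ x < 2 ↔ x < 2 := by
    intro x
    rcases Nat.lt_or_ge x 2 with hx | hx
    · rw [hτ1 x hx]
      split_ifs
      · exact ⟨fun _ => hx, fun _ => by lia⟩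
      · exact Iff.rfl
    · rw [hτ2 x hx]
      have := hbig x hx
      lia
  have hbij : Function.Bijective τ := by
    constructor
    · intro x y hxy
      rcases Nat.lt_or_ge x 2 with hx | hx
      · have hy : y < 2 := by rw [← hτlt, ← hxy, hτlt]; exact hx
        rw [hτ1 x hx, hτ1 y hy] at hxy
        split_ifs at hxy <;> lia
      · have hy : 2 ≤ y := by
          by_contra hy
          have : τ y < 2 := (hτlt y).2 (by lia)
          rw [← hxy, hτlt] at this
          lia
        rw [hτ2 x hx, hτ2 y hy] at hxy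
        obtain ⟨n, hn⟩ := hg x hx
        obtain ⟨m, hm⟩ := hg y hy
        exact (huniq _ _ _ _ _ _ hn hm).2 hxy
    · intro y
      rcases Nat.lt_or_ge y 2 with hy | hy
      · refine ⟨if s then 1 - y else y, ?_⟩
        rw [hτ1]
        · split_ifs <;> lia
        · split_ifs <;> lia
      · obtain ⟨a, n, ha⟩ := hran y hy
        have ha2 : 2 ≤ a := ((hG n).big _ ha).1
        obtain ⟨m, hm⟩ := hg a ha2
        refine ⟨a, ?_⟩
        rw [hτ2 a ha2]
        exact (huniq _ _ _ _ _ _ hm ha).1 rfl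
  refine ⟨Equiv.ofBijective τ hbij, ⟨hτlt, ?_⟩, ?_, hτ1⟩
  · intro S hne hS
    have hex : ∃ N, ∀ x ∈ S, (x, g x) ∈ F N := by
      have h1 : ∀ x : ℕ, ∃ n, x ∈ S → (x, g x) ∈ F n := by
        intro x
        by_cases hx : x ∈ S
        · obtain ⟨n, hn⟩ := hg x (hS x hx)
          exact ⟨n, fun _ => hn⟩
        · exact ⟨0, fun h => absurd h hx⟩
      choose k hk using h1
      refine ⟨S.sup k, fun x hx => ?_⟩
      exact hmono (Finset.le_sup (f := k) hx) (hk x hx)
    obtain ⟨N, hN⟩ := hex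
    have hinj : Function.Injective (fun x : ℕ => (x, g x)) := fun x y hxy => (Prod.ext_iff.1 hxy).1
    have h1 := (hG N).col (S.image (fun x => (x, g x))) (by
      intro p hp
      rw [Finset.mem_image] at hp
      obtain ⟨x, hx, rfl⟩ := hp
      exact hN x hx) (hne.image _)
    rw [Finset.image_image, Finset.image_image, Finset.card_image_of_injective _ hinj] at h1
    have e1 : S.image (Prod.snd ∘ fun x => (x, g x)) = S.image (Equiv.ofBijective τ hbij) := by
      apply Finset.image_congr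
      intro x hx
      exact (hτ2 x (hS x hx)).symm
    have e2 : S.image (Prod.fst ∘ fun x => (x, g x)) = S := by
      have : (Prod.fst ∘ fun x => (x, g x)) = id := rfl
      rw [this, Finset.image_id]
    rw [e1, e2] at h1
    exact h1
  · intro p hp
    have hp' : (p.1, p.2) ∈ F 0 := hp
    have hp2 : 2 ≤ p.1 := (h.big p hp).1
    obtain ⟨m, hm⟩ := hg p.1 hp2
    change τ p.1 = p.2
    rw [hτ2 _ hp2]
    exact (huniq _ _ _ _ m 0 hm hp').1 rfl

end Pool.Agent.V1132.OutOlig
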