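import Mathlib

/-!
# Outer automorphism groups of closed permutation groups
-/

set_option autoImplicit false

namespace Pool.Agent.V1132.OutOlig

/-- The topology of pointwise convergence on the group `S_∞` of all permutations of `ℕ`. -/
instance permTop : TopologicalSpace (Equiv.Perm ℕ) :=
  TopologicalSpace.induced (fun (σ : Equiv.Perm ℕ) (n : ℕ) => σ n) Pi.topologicalSpace

/-- A group of permutations of `ℕ` is oligomorphic if, for each `n`, it has only finitely many
orbits on `ℕ ^ n`. -/
def Oligomorphic (G : Subgroup (Equiv.Perm ℕ)) : Prop :=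
  ∀ n : ℕ, Finite (MulAction.orbitRel.Quotient G (Fin n → ℕ))

/-- `Aut(G)`: the automorphisms of a topological group which are homeomorphisms. -/
def AutTop (G : Type*) [Group G] [TopologicalSpace G] : Type _ :=
  {α : G ≃* G // Continuous α ∧ Continuous α.symm}

/-- A set is an open coset if it is a left coset of an open subgroup. -/
def IsOpenCoset {G : Type*} [Group G] [TopologicalSpace G] (C : Set G) : Prop :=
  ∃ (U : Subgroup G) (g : G), IsOpen (U : Set G) ∧ C = (fun x => g * x) '' (U : Set G)

/-- The topology on `Aut(G)` of pointwise convergence of the action on the open cosets. -/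
instance autTopology (G : Type*) [Group G] [TopologicalSpace G] : TopologicalSpace (AutTop G) :=
  TopologicalSpace.generateFrom {s | ∃ C D : Set G, IsOpenCoset C ∧ IsOpenCoset D ∧
    s = {α : AutTop G | α.1 '' C = D}}

/-- Two elements of `Aut(G)` are identified in `Out(G) = Aut(G)/Inn(G)` if they lie in the same
left coset of `Inn(G)`. -/
def outRel (G : Type*) [Group G] [TopologicalSpace G] : Setoid (AutTop G) where
  r α β := ∃ g : G, ∀ x, β.1 x = α.1 (g * x * g⁻¹)
  iseqv := by
    refine ⟨fun α => ⟨1, fun x => by simp⟩, ?_, ?_⟩
    · rintro α β ⟨g, hg⟩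
      refine ⟨g⁻¹, fun x => ?_⟩
      rw [hg]
      congr 1
      group
    · rintro α β γ ⟨g, hg⟩ ⟨h, hh⟩
      refine ⟨g * h, fun x => ?_⟩
      rw [hh, hg]
      congr 1
      group

/-- The outer automorphism group `Out(G) = Aut(G)/Inn(G)`. -/
def OutTop (G : Type*) [Group G] [TopologicalSpace G] : Type _ := Quotient (outRel G)

/-- The quotient topology on `Out(G)`. -/
instance outTopology (G : Type*) [Group G] [TopologicalSpace G] : TopologicalSpace (OutTop G) :=
  TopologicalSpace.coinduced (Quotient.mk (outRel G)) (autTopology G)

end Pool.Agent.V1132.OutOlig
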