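import Pool.Agent.V1132.OutOligA
import Pool.Agent.V1132.OutOligDef

/-!
# An oligomorphic group whose outer automorphism group is not compact
-/

set_option autoImplicit false

namespace Pool.Agent.V1132.OutOlig

theorem Sym.image_big {ε : ℕ → Bool} {σ : Equiv.Perm ℕ} (h : Sym ε σ) {S : Finset ℕ}
    (hS : ∀ x ∈ S, 2 ≤ x) : ∀ x ∈ S.image σ, 2 ≤ x := by
  intro x hx
  rw [Finset.mem_image] at hx
  obtain ⟨y, hy, rfl⟩ := hx
  by_contra hlt
  have := (h.1 y).1 (by lia)
  have := hS y hy
  lia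

theorem Sym.mul {ε δ : ℕ → Bool} {σ τ : Equiv.Perm ℕ} (h : Sym ε σ) (h' : Sym δ τ) :
    Sym (fun n => xor (ε n) (δ n)) (σ * τ) := by
  refine ⟨fun x => ?_, fun S hne hS => ?_⟩
  · rw [Equiv.Perm.mul_apply, h.1, h'.1]
  · have e1 : S.image (σ * τ) = (S.image τ).image σ := by
      rw [Finset.image_image]; rfl
    rw [e1, h.2 _ (hne.image _) (h'.image_big hS), h'.2 S hne hS,
      Finset.card_image_of_injective _ τ.injective]
    change _ = xor (R S) (xor (ε S.card) (δ S.card))
    cases R S <;> cases ε S.card <;> cases δ S.card <;> rfl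

theorem Sym.inv {ε : ℕ → Bool} {σ : Equiv.Perm ℕ} (h : Sym ε σ) : Sym ε σ⁻¹ := by
  have h1 : ∀ x, σ⁻¹ x < 2 ↔ x < 2 := by
    intro x
    rw [← h.1 (σ⁻¹ x), Equiv.Perm.inv_def, Equiv.apply_symm_apply]
  refine ⟨h1, fun S hne hS => ?_⟩
  have hbig : ∀ x ∈ S.image (σ⁻¹ : Equiv.Perm ℕ), 2 ≤ x := by
    intro x hx
    rw [Finset.mem_image] at hx
    obtain ⟨y, hy, rfl⟩ := hx
    by_contra hlt
    have := (h1 y).1 (by lia)
    have := hS y hy
    lia
  have h2 := h.2 (S.image (σ⁻¹ : Equiv.Perm ℕ)) (hne.image _) hbig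
  have e1 : (S.image (σ⁻¹ : Equiv.Perm ℕ)).image σ = S := by
    rw [Finset.image_image]
    have : (σ ∘ (σ⁻¹ : Equiv.Perm ℕ) : ℕ → ℕ) = id := by
      funext x
      exact σ.apply_symm_apply x
    rw [this, Finset.image_id]
  rw [e1, Finset.card_image_of_injective _ (σ⁻¹).injective] at h2
  rw [h2]
  simp

theorem Sym.one : Sym (fun _ => false) 1 := by
  refine ⟨fun x => Iff.rfl, fun S _ _ => ?_⟩
  have : S.image (1 : Equiv.Perm ℕ) = S := by
    change S.image id = S
    rw [Finset.image_id]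
  rw [this]
  simp

/-- The group of the permutations which preserve `{0, 1}` and preserve, for each `n`, the partition
of the `n`-subsets of `{2, 3, …}` into the two colours. -/
def G0 : Subgroup (Equiv.Perm ℕ) where
  carrier := {σ | ∃ ε, Sym ε σ}
  one_mem' := ⟨_, Sym.one⟩
  mul_mem' := by
    rintro σ τ ⟨ε, h⟩ ⟨δ, h'⟩
    exact ⟨_, h.mul h'⟩
  inv_mem' := by
    rintro σ ⟨ε, h⟩
    exact ⟨ε, h.inv⟩

/-! ### The topology -/

theorem continuous_eval (x : ℕ) : Continuous (fun σ : Equiv.Perm ℕ => σ x) := by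
  have h1 : Continuous (fun (σ : Equiv.Perm ℕ) (n : ℕ) => σ n) := continuous_induced_dom
  exact (continuous_apply x).comp h1

theorem continuous_iff {X : Type*} [TopologicalSpace X] {G : Subgroup (Equiv.Perm ℕ)}
    {f : X → G} : Continuous f ↔ ∀ x : ℕ, Continuous (fun y => (f y : Equiv.Perm ℕ) x) := by
  rw [continuous_induced_rng, continuous_induced_rng, continuous_pi_iff]
  rfl

theorem continuous_image (S : Finset ℕ) :
    Continuous (fun σ : Equiv.Perm ℕ => R (S.image σ)) := by
  have h1 : Continuous (fun (σ : Equiv.Perm ℕ) (i : S) => σ i) :=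
    continuous_pi (fun i => continuous_eval i)
  have h2 : Continuous (fun f : S → ℕ => R (S.attach.image f)) := continuous_of_discreteTopology
  have h3 : (fun σ : Equiv.Perm ℕ => R (S.image σ)) =
      (fun f : S → ℕ => R (S.attach.image f)) ∘ (fun (σ : Equiv.Perm ℕ) (i : S) => σ i) := by
    funext σ
    change R _ = R _
    congr 1
    ext y
    simp
  rw [h3]
  exact h2.comp h1

theorem mem_G0_iff {σ : Equiv.Perm ℕ} : σ ∈ G0 ↔ (∀ x, σ x < 2 ↔ x < 2) ∧
    ∀ S S' : Finset ℕ, S.Nonempty → S'.Nonempty → (∀ x ∈ S, 2 ≤ x) → (∀ x ∈ S', 2 ≤ x) →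
      S.card = S'.card → xor (R (S.image σ)) (R S) = xor (R (S'.image σ)) (R S') := by
  constructor
  · rintro ⟨ε, h⟩
    refine ⟨h.1, fun S S' hS hS' hb hb' hc => ?_⟩
    rw [h.2 S hS hb, h.2 S' hS' hb', hc]
    cases R S <;> cases R S' <;> cases ε S'.card <;> rfl
  · rintro ⟨h1, h2⟩
    refine ⟨fun n => xor (R ((Finset.Ico 2 (n + 2)).image σ)) (R (Finset.Ico 2 (n + 2))), h1,
      fun S hne hS => ?_⟩
    have hb : ∀ x ∈ Finset.Ico 2 (S.card + 2), 2 ≤ x := fun x hx => (Finset.mem_Ico.1 hx).1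
    have hcard : (Finset.Ico 2 (S.card + 2)).card = S.card := by simp
    have hne' : (Finset.Ico 2 (S.card + 2)).Nonempty := by
      rw [← Finset.card_pos, hcard]; exact hne.card_pos
    have h3 := h2 S _ hne hne' hS hb hcard.symm
    change _ = xor (R S) (xor _ _)
    rw [← h3]
    cases R S <;> cases R (S.image σ) <;> rfl

theorem isClosed_G0 : IsClosed (G0 : Set (Equiv.Perm ℕ)) := by
  have h : (G0 : Set (Equiv.Perm ℕ)) = (⋂ x : ℕ, {σ | σ x < 2 ↔ x < 2}) ∩
      ⋂ (S : Finset ℕ) (S' : Finset ℕ) (_ : S.Nonempty) (_ : S'.Nonempty)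
        (_ : ∀ x ∈ S, 2 ≤ x) (_ : ∀ x ∈ S', 2 ≤ x) (_ : S.card = S'.card),
        {σ : Equiv.Perm ℕ | xor (R (S.image σ)) (R S) = xor (R (S'.image σ)) (R S')} := by
    ext σ
    rw [SetLike.mem_coe, mem_G0_iff]
    simp only [Set.mem_inter_iff, Set.mem_iInter, Set.mem_ofPred_eq]
  rw [h]
  apply IsClosed.inter
  · apply isClosed_iInter
    intro x
    have : {σ : Equiv.Perm ℕ | σ x < 2 ↔ x < 2} =
        (fun σ : Equiv.Perm ℕ => σ x) ⁻¹' {y | y < 2 ↔ x < 2} := rfl
    rw [this]
    exact (isClosed_discrete _).preimage (continuous_eval x)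
  · refine isClosed_iInter fun S => isClosed_iInter fun S' => isClosed_iInter fun _ =>
      isClosed_iInter fun _ => isClosed_iInter fun _ => isClosed_iInter fun _ =>
      isClosed_iInter fun _ => ?_
    have : {σ : Equiv.Perm ℕ | xor (R (S.image σ)) (R S) = xor (R (S'.image σ)) (R S')} =
        (fun σ : Equiv.Perm ℕ => (R (S.image σ), R (S'.image σ))) ⁻¹'
          {p : Bool × Bool | xor p.1 (R S) = xor p.2 (R S')} := rfl
    rw [this]
    exact (isClosed_discrete _).preimage ((continuous_image S).prodMk (continuous_image S'))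

/-! ### The group is oligomorphic -/

theorem oligomorphic_G0 : Oligomorphic G0 := by
  classical
  intro n
  let pat : (Fin n → ℕ) → (Fin n → Fin n → Bool) × (Finset (Fin n) → Bool) × (Fin n → Fin 3) :=
    fun a => (fun i j => decide (a i = a j), fun J => R (J.image a),
      fun i => ⟨min (a i) 2, by lia⟩)
  have key : ∀ a b : Fin n → ℕ, pat a = pat b → ∃ g : G0, g • b = a := by
    intro b a hab
    have h1 : ∀ i j, a i = a j ↔ b i = b j := by
      intro i j
      have := congrFun (congrFun (congrArg (fun p => p.1) hab) i) j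
      have := decide_eq_decide.1 this
      exact this.symm
    have h2 : ∀ J : Finset (Fin n), R (J.image b) = R (J.image a) := fun J =>
      congrFun (congrArg (fun p => p.2.1) hab) J
    have h3 : ∀ i, min (b i) 2 = min (a i) 2 := by
      intro i
      have := congrFun (congrArg (fun p => p.2.2) hab) i
      exact Fin.ext_iff.1 this
    have hgood : Good (fun _ => false) ((Finset.univ.filter (fun i => 2 ≤ a i)).image
        (fun i => (a i, b i))) := by
      refine ⟨?_, ?_, ?_⟩
      · intro p hp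
        rw [Finset.mem_image] at hp
        obtain ⟨i, hi, rfl⟩ := hp
        have hi' : 2 ≤ a i := (Finset.mem_filter.1 hi).2
        have := h3 i
        exact ⟨hi', by lia⟩
      · intro p hp q hq
        rw [Finset.mem_image] at hp hq
        obtain ⟨i, hi, rfl⟩ := hp
        obtain ⟨j, hj, rfl⟩ := hq
        exact h1 i j
      · intro T hT hne
        set J : Finset (Fin n) := Finset.univ.filter (fun i => (a i, b i) ∈ T) with hJ
        have e : T = J.image (fun i => (a i, b i)) := by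
          ext p
          rw [Finset.mem_image]
          constructor
          · intro hp
            have := hT hp
            rw [Finset.mem_image] at this
            obtain ⟨i, hi, rfl⟩ := this
            exact ⟨i, Finset.mem_filter.2 ⟨Finset.mem_univ _, hp⟩, rfl⟩
          · rintro ⟨i, hi, rfl⟩
            exact (Finset.mem_filter.1 hi).2
        have e1 : T.image Prod.snd = J.image b := by
          rw [e, Finset.image_image]; rfl
        have e2 : T.image Prod.fst = J.image a := by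
          rw [e, Finset.image_image]; rfl
        rw [e1, e2, h2]
        simp
    obtain ⟨σ, hσ, hσ1, hσ2⟩ := exists_perm hgood false
    have hall : ∀ i, σ (a i) = b i := by
      intro i
      rcases Nat.lt_or_ge (a i) 2 with hi | hi
      · rw [hσ2 _ hi]
        have := h3 i
        simp only [Bool.false_eq_true, if_false]
        lia
      · exact hσ1 (a i, b i) (Finset.mem_image.2 ⟨i, Finset.mem_filter.2 ⟨Finset.mem_univ _, hi⟩, rfl⟩)
    refine ⟨⟨σ, _, hσ⟩, ?_⟩
    funext i
    exact hall i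
  apply Finite.of_injective (fun q : MulAction.orbitRel.Quotient G0 (Fin n → ℕ) => pat q.out)
  intro q q' hqq'
  rw [← Quotient.out_eq q, ← Quotient.out_eq q']
  apply Quotient.sound
  exact key _ _ hqq'

/-! ### The automorphisms -/

/-- The central involution. -/
def sw : Equiv.Perm ℕ := Equiv.swap 0 1

theorem sw_big {x : ℕ} (hx : 2 ≤ x) : sw x = x :=
  Equiv.swap_apply_of_ne_of_ne (by lia) (by lia)

theorem sw_sw : sw * sw = 1 := Equiv.swap_mul_self 0 1

theorem image_sw {S : Finset ℕ} (hS : ∀ x ∈ S, 2 ≤ x) : S.image sw = S := by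
  ext y
  rw [Finset.mem_image]
  constructor
  · rintro ⟨x, hx, rfl⟩
    rwa [sw_big (hS x hx)]
  · intro hy
    exact ⟨y, hy, sw_big (hS y hy)⟩

theorem sym_sw : Sym (fun _ => false) sw := by
  refine ⟨fun x => ?_, fun S _ hS => ?_⟩
  · rcases Nat.lt_or_ge x 2 with hx | hx
    · interval_cases x <;> simp [sw]
    · rw [sw_big hx]
  · rw [image_sw hS]; simp

theorem sw_comm {ε : ℕ → Bool} {σ : Equiv.Perm ℕ} (h : Sym ε σ) : σ * sw = sw * σ := by
  have h0 : σ 0 < 2 := (h.1 0).2 (by norm_num)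
  have h1 : σ 1 < 2 := (h.1 1).2 (by norm_num)
  have h01 : σ 0 ≠ σ 1 := fun h' => by simpa using σ.injective h'
  apply Equiv.ext
  intro x
  rw [Equiv.Perm.mul_apply, Equiv.Perm.mul_apply]
  rcases Nat.lt_or_ge x 2 with hx | hx
  · have hcase : (σ 0 = 0 ∧ σ 1 = 1) ∨ (σ 0 = 1 ∧ σ 1 = 0) := by lia
    have e0 : sw 0 = 1 := Equiv.swap_apply_left 0 1
    have e1 : sw 1 = 0 := Equiv.swap_apply_right 0 1
    interval_cases x
    · rw [e0]
      rcases hcase with ⟨h2, h3⟩ | ⟨h2, h3⟩
      · rw [h2, h3, e0]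
      · rw [h2, h3, e1]
    · rw [e1]
      rcases hcase with ⟨h2, h3⟩ | ⟨h2, h3⟩
      · rw [h2, h3, e1]
      · rw [h2, h3, e0]
  · have hσx : 2 ≤ σ x := by
      by_contra hlt
      have := (h.1 x).1 (by lia)
      lia
    rw [sw_big hx, sw_big hσx]

/-- The character given by the sets of size `n + 1`. -/
def chi (n : ℕ) (σ : Equiv.Perm ℕ) : Bool :=
  xor (R ((Finset.Ico 2 (n + 3)).image σ)) (R (Finset.Ico 2 (n + 3)))

theorem ico_big (n : ℕ) : ∀ x ∈ Finset.Ico 2 (n + 3), 2 ≤ x := fun _ hx => (Finset.mem_Ico.1 hx).1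

theorem chi_eq {ε : ℕ → Bool} {σ : Equiv.Perm ℕ} (h : Sym ε σ) (n : ℕ) : chi n σ = ε (n + 1) := by
  have hcard : (Finset.Ico 2 (n + 3)).card = n + 1 := by simp
  have hne : (Finset.Ico 2 (n + 3)).Nonempty := by
    rw [← Finset.card_pos, hcard]; exact Nat.succ_pos n
  rw [chi, h.2 _ hne (ico_big n), hcard]
  cases R (Finset.Ico 2 (n + 3)) <;> cases ε (n + 1) <;> rfl

theorem chi_mul {σ τ : Equiv.Perm ℕ} (hσ : σ ∈ G0) (hτ : τ ∈ G0) (n : ℕ) :
    chi n (σ * τ) = xor (chi n σ) (chi n τ) := by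
  obtain ⟨ε, h⟩ := hσ
  obtain ⟨δ, h'⟩ := hτ
  rw [chi_eq h, chi_eq h', chi_eq (h.mul h')]

theorem chi_sw (n : ℕ) : chi n sw = false := chi_eq sym_sw n

/-- The central involution as an element of the group. -/
def c0 : G0 := ⟨sw, _, sym_sw⟩

theorem c0_comm (g : G0) : g * c0 = c0 * g := by
  obtain ⟨σ, ε, h⟩ := g
  exact Subtype.ext (sw_comm h)

theorem c0_c0 : c0 * c0 = 1 := Subtype.ext sw_sw

/-- The function underlying the central automorphism. -/
def alphaFun (n : ℕ) (g : G0) : G0 := if chi n g then g * c0 else g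

theorem chi_alphaFun (n m : ℕ) (g : G0) : chi m (alphaFun n g : G0) = chi m g := by
  rw [alphaFun]
  split_ifs
  · rw [Subgroup.coe_mul, chi_mul g.2 c0.2]
    change xor _ (chi m sw) = _
    rw [chi_sw]
    simp
  · rfl

theorem alphaFun_alphaFun (n : ℕ) (g : G0) : alphaFun n (alphaFun n g) = g := by
  rw [alphaFun, chi_alphaFun, alphaFun]
  split_ifs
  · rw [mul_assoc, c0_c0, mul_one]
  · rfl

/-- The central automorphism associated with a character. -/
def alpha (n : ℕ) : MulAut G0 where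
  toFun := alphaFun n
  invFun := alphaFun n
  left_inv := alphaFun_alphaFun n
  right_inv := alphaFun_alphaFun n
  map_mul' g h := by
    have e : chi n ((g * h : G0) : Equiv.Perm ℕ) = xor (chi n g) (chi n h) := chi_mul g.2 h.2 n
    rw [alphaFun, alphaFun, alphaFun, e]
    cases chi n g <;> cases chi n h
    · simp
    · simp [mul_assoc]
    · simp only [Bool.true_xor, Bool.not_false, if_true, Bool.false_eq_true, if_false]
      rw [mul_assoc g h, c0_comm h, ← mul_assoc]
    · simp only [Bool.true_xor, Bool.not_true, Bool.false_eq_true, if_false, if_true]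
      rw [mul_assoc g, ← mul_assoc c0, ← c0_comm h, mul_assoc h, c0_c0, mul_one]

theorem alpha_apply (n : ℕ) (g : G0) : alpha n g = alphaFun n g := rfl

theorem continuous_chi (n : ℕ) : Continuous (fun g : G0 => chi n g) := by
  have h1 : Continuous (fun g : G0 => R ((Finset.Ico 2 (n + 3)).image (g : Equiv.Perm ℕ))) :=
    (continuous_image _).comp continuous_subtype_val
  exact (continuous_of_discreteTopology (f := fun b : Bool => xor b (R (Finset.Ico 2 (n + 3))))).comp
    h1

theorem continuous_alphaFun (n : ℕ) : Continuous (alphaFun n) := by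
  rw [continuous_iff]
  intro x
  have h1 : (fun g : G0 => (alphaFun n g : Equiv.Perm ℕ) x) =
      (fun p : Bool × ℕ × ℕ => if p.1 then p.2.1 else p.2.2) ∘
        (fun g : G0 => (chi n g, (g : Equiv.Perm ℕ) (sw x), (g : Equiv.Perm ℕ) x)) := by
    funext g
    change (alphaFun n g : Equiv.Perm ℕ) x = if chi n g then _ else _
    rw [alphaFun]
    split_ifs
    · rfl
    · rfl
  rw [h1]
  refine (continuous_of_discreteTopology).comp ((continuous_chi n).prodMk (Continuous.prodMk ?_ ?_))
  · exact (continuous_eval (sw x)).comp continuous_subtype_val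
  · exact (continuous_eval x).comp continuous_subtype_val

/-- The central automorphism as a topological automorphism. -/
def alphaT (n : ℕ) : AutTop G0 := ⟨alpha n, continuous_alphaFun n, continuous_alphaFun n⟩

/-! ### The subgroup `U` -/

/-- The stabilizer of the point `0`. -/
def U : Subgroup G0 where
  carrier := {g | (g : Equiv.Perm ℕ) 0 = 0}
  one_mem' := rfl
  mul_mem' := by
    intro g h hg hh
    change (g : Equiv.Perm ℕ) ((h : Equiv.Perm ℕ) 0) = 0
    have hh' : (h : Equiv.Perm ℕ) 0 = 0 := hh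
    rw [hh']
    exact hg
  inv_mem' := by
    intro g hg
    change (g : Equiv.Perm ℕ).symm 0 = 0
    rw [Equiv.symm_apply_eq]
    exact (show (g : Equiv.Perm ℕ) 0 = 0 from hg).symm

theorem isOpen_U : IsOpen (U : Set G0) := by
  have : (U : Set G0) = (fun g : G0 => (g : Equiv.Perm ℕ) 0) ⁻¹' {0} := rfl
  rw [this]
  exact (isOpen_discrete _).preimage ((continuous_eval 0).comp continuous_subtype_val)

theorem conj_mem_U {g x : G0} (hx : x ∈ U) : g * x * g⁻¹ ∈ U := by
  obtain ⟨σ, ε, h⟩ := g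
  obtain ⟨τ, δ, h'⟩ := x
  have hτ0 : τ 0 = 0 := hx
  have h1' : τ 1 < 2 := (h'.1 1).2 (by norm_num)
  have hτ01 : τ 0 ≠ τ 1 := fun h' => by simpa using τ.injective h'
  have hτ1 : τ 1 = 1 := by lia
  change σ (τ (σ.symm 0)) = 0
  have h2 : σ.symm 0 < 2 := (h.inv.1 0).2 (by norm_num)
  have h3 : σ.symm 0 = 0 ∨ σ.symm 0 = 1 := by lia
  rcases h3 with h3 | h3
  · rw [h3, hτ0]
    exact (Equiv.symm_apply_eq _).1 h3 ▸ rfl
  · rw [h3, hτ1]
    exact ((Equiv.symm_apply_eq _).1 h3).symm

theorem inner_image_U (g : G0) : (fun x => g * x * g⁻¹) '' (U : Set G0) = U := by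
  ext y
  constructor
  · rintro ⟨x, hx, rfl⟩
    exact conj_mem_U hx
  · intro hy
    refine ⟨g⁻¹ * y * g⁻¹⁻¹, conj_mem_U hy, ?_⟩
    change g * _ * g⁻¹ = y
    group

/-- The image of `U` under an outer automorphism. -/
def Phi : OutTop G0 → Set G0 :=
  Quotient.lift (fun α : AutTop G0 => α.1 '' (U : Set G0)) (by
    intro α β hαβ
    obtain ⟨g, hg⟩ := hαβ
    have h3 : (β.1 : G0 → G0) = (α.1 : G0 → G0) ∘ (fun x => g * x * g⁻¹) := by
      funext x
      exact hg x
    change α.1 '' (U : Set G0) = (β.1 : G0 → G0) '' (U : Set G0)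
    rw [h3, Set.image_comp, inner_image_U])

theorem Phi_mk (α : AutTop G0) :
    Phi (Quotient.mk (outRel G0) α) = α.1 '' (U : Set G0) := rfl

theorem isOpenCoset_subgroup {H : Subgroup G0} (h : IsOpen (H : Set G0)) :
    IsOpenCoset (H : Set G0) := by
  refine ⟨H, 1, h, ?_⟩
  simp

theorem isLocallyConstant_Phi : IsLocallyConstant Phi := by
  rw [IsLocallyConstant.iff_isOpen_fiber]
  intro D
  refine isOpen_coinduced.2 ?_
  change IsOpen {α : AutTop G0 | α.1 '' (U : Set G0) = D}
  by_cases hD : IsOpenCoset D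
  · exact TopologicalSpace.isOpen_generateFrom_of_mem
      ⟨U, D, isOpenCoset_subgroup isOpen_U, hD, rfl⟩
  · have : {α : AutTop G0 | α.1 '' (U : Set G0) = D} = ∅ := by
      rw [Set.eq_empty_iff_forall_notMem]
      intro α hα
      apply hD
      have hα' : α.1 '' (U : Set G0) = D := hα
      have h2 : α.1 '' (U : Set G0) = (U.map α.1.toMonoidHom : Subgroup G0) := rfl
      rw [← hα', h2]
      apply isOpenCoset_subgroup
      rw [← h2]
      have h3 : α.1 '' (U : Set G0) = α.1.symm ⁻¹' (U : Set G0) := by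
        ext y
        constructor
        · rintro ⟨x, hx, rfl⟩
          change α.1.symm (α.1 x) ∈ U
          rw [MulEquiv.symm_apply_apply]
          exact hx
        · intro hy
          exact ⟨_, hy, MulEquiv.apply_symm_apply _ _⟩
      rw [h3]
      exact isOpen_U.preimage α.2.2
    rw [this]
    exact isOpen_empty

theorem exists_elem (n : ℕ) : ∃ g : G0, chi n g = true ∧ (∀ m, m ≠ n → chi m g = false) ∧
    (g : Equiv.Perm ℕ) 0 = 1 := by
  have hgood : Good (fun k => decide (k = n + 1)) ∅ := by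
    refine ⟨by simp, by simp, fun T hT hne => ?_⟩
    rw [Finset.subset_empty] at hT
    rw [hT] at hne
    exact absurd hne Finset.not_nonempty_empty
  obtain ⟨σ, hσ, -, hσ2⟩ := exists_perm hgood true
  refine ⟨⟨σ, _, hσ⟩, ?_, fun m hm => ?_, ?_⟩
  · change chi n σ = true
    rw [chi_eq hσ]; simp
  · change chi m σ = false
    rw [chi_eq hσ]; simp [hm]
  · change σ 0 = 1
    rw [hσ2 0 (by norm_num)]; simp

theorem Phi_injective : Function.Injective (fun n => Phi (Quotient.mk (outRel G0) (alphaT n))) := by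
  intro n m h
  by_contra hnm
  simp only [Phi_mk] at h
  obtain ⟨g, hg1, hg2, hg3⟩ := exists_elem n
  have h1 : g ∈ (alphaT n).1 '' (U : Set G0) := by
    refine ⟨alphaFun n g, ?_, alphaFun_alphaFun n g⟩
    change (alphaFun n g : Equiv.Perm ℕ) 0 = 0
    rw [alphaFun, if_pos hg1]
    change (g : Equiv.Perm ℕ) (sw 0) = 0
    have e0 : sw 0 = 1 := Equiv.swap_apply_left 0 1
    rw [e0]
    obtain ⟨σ, ε, hσ⟩ := g
    have h1' : σ 1 < 2 := (hσ.1 1).2 (by norm_num)
    have hσ01 : σ 0 ≠ σ 1 := fun h' => by simpa using σ.injective h'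
    have hσ0 : σ 0 = 1 := hg3
    change σ 1 = 0
    lia
  rw [h] at h1
  obtain ⟨x, hx, hxg⟩ := h1
  have hxg' : alphaFun m x = g := hxg
  have h2 : chi m x = false := by
    rw [← chi_alphaFun m m x, hxg']
    exact hg2 m (Ne.symm hnm)
  rw [alphaFun, h2] at hxg'
  have hxg'' : x = g := by simpa using hxg'
  have h3 : (x : Equiv.Perm ℕ) 0 = 0 := hx
  rw [hxg'', hg3] at h3
  exact one_ne_zero h3

theorem not_compact : ¬ CompactSpace (OutTop G0) := by
  intro hc
  have h1 := isLocallyConstant_Phi.range_finite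
  have h2 : (Set.range (fun n => Phi (Quotient.mk (outRel G0) (alphaT n)))).Finite :=
    h1.subset (by rintro _ ⟨n, rfl⟩; exact ⟨_, rfl⟩)
  exact Set.infinite_range_of_injective Phi_injective h2

end Pool.Agent.V1132.OutOlig
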