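import Mathlib

/-!
# Power graphs and commuting graphs of groups
-/

set_option autoImplicit false

namespace Pool.Agent.V1132.PowCom

/-- The power graph of a group `G`: distinct elements `x`, `y` are adjacent when one of them is a
power of the other. The vertex set is the whole group. -/
def powGraph (G : Type*) [Group G] : SimpleGraph G where
  Adj x y := x ≠ y ∧ ((∃ m : ℤ, x = y ^ m) ∨ ∃ m : ℤ, y = x ^ m)
  symm := ⟨fun _ _ h => ⟨h.1.symm, h.2.symm⟩⟩
  loopless := ⟨fun _ h => h.1 rfl⟩

/-- The commuting graph of a group `G`: distinct elements `x`, `y` are adjacent when they commute.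
The vertex set is the whole group. -/
def comGraph (G : Type*) [Group G] : SimpleGraph G where
  Adj x y := x ≠ y ∧ x * y = y * x
  symm := ⟨fun _ _ h => ⟨h.1.symm, h.2.symm⟩⟩
  loopless := ⟨fun _ h => h.1 rfl⟩

end Pool.Agent.V1132.PowCom
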