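import Pool.Agent.V1132.PowCom

/-!
# A power graph isomorphic to a commuting graph
-/

set_option autoImplicit false

namespace Pool.Agent.V1132.PowComMain

open Subgroup

/-- One of two elements is a power of the other. -/
def Rel {G : Type*} [Group G] (x y : G) : Prop := x ∈ zpowers y ∨ y ∈ zpowers x

theorem Rel.symm {G : Type*} [Group G] {x y : G} (h : Rel x y) : Rel y x := Or.symm h

theorem Rel.commute {G : Type*} [Group G] {x y : G} (h : Rel x y) : x * y = y * x := by
  rcases h with h | h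
  · obtain ⟨k, rfl⟩ := mem_zpowers_iff.1 h
    exact (Commute.zpow_self y k).eq
  · obtain ⟨k, rfl⟩ := mem_zpowers_iff.1 h
    exact (Commute.self_zpow x k).eq

section exps

variable {G : Type*} [Group G] {y : G} {p a r : ℕ}

theorem mem_of_not_dvd (hp : p.Prime) (hm : orderOf y = p ^ a * r) {k : ℤ} (hk : ¬ (p : ℤ) ∣ k) :
    y ^ r ∈ zpowers (y ^ k) := by
  have hcop : IsCoprime k ((p : ℤ) ^ a) := by
    apply IsCoprime.pow_right
    rw [Int.isCoprime_iff_gcd_eq_one, Int.gcd_comm]
    exact (Int.isCoprime_iff_gcd_eq_one.1 ((Nat.prime_iff_prime_int.1 hp).coprime_iff_not_dvd.2 hk))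
  obtain ⟨u, v, huv⟩ := hcop
  rw [mem_zpowers_iff]
  refine ⟨u * r, ?_⟩
  rw [← zpow_mul]
  have h1 : k * (u * r) = r + (orderOf y : ℤ) * (-v) := by
    rw [hm]
    push_cast
    linear_combination (r : ℤ) * huv
  rw [h1, zpow_add, zpow_mul, zpow_natCast, zpow_natCast, pow_orderOf_eq_one, one_zpow, mul_one]

theorem not_mem_of_dvd (ha : 0 < a) (hm : orderOf y = p ^ a * r) (hpr : ¬ p ∣ r)
    {k : ℤ} (hk : (p : ℤ) ∣ k) : y ^ r ∉ zpowers (y ^ k) := by
  intro h
  obtain ⟨j, hj⟩ := mem_zpowers_iff.1 h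
  rw [← zpow_mul, ← zpow_natCast, zpow_eq_zpow_iff_modEq, Int.modEq_iff_dvd, hm] at hj
  apply hpr
  have h1 : (p : ℤ) ∣ (r : ℤ) := by
    have h2 : (p : ℤ) ∣ (r : ℤ) - k * j := by
      refine dvd_trans ?_ hj
      push_cast
      exact Dvd.dvd.mul_right (dvd_pow_self _ ha.ne') _
    have h3 : (p : ℤ) ∣ k * j := Dvd.dvd.mul_right hk j
    have := dvd_add h2 h3
    rwa [sub_add_cancel] at this
  exact_mod_cast h1

end exps

section main

variable {G H : Type*} [Group G] [Group H] [Finite G] [Finite H]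

omit [Finite G] [Finite H] in
/-- The centralizer of the image. -/
theorem card_centralizer (φ : G ≃ H) (hφ : ∀ x y, Rel x y ↔ φ x * φ y = φ y * φ x) (v : G)
    (K : Subgroup H) :
    Nat.card (K ⊓ centralizer {φ v} : Subgroup H) = Nat.card {w : G // φ w ∈ K ∧ Rel v w} := by
  apply Nat.card_congr
  refine (Equiv.subtypeEquiv φ ?_).symm
  intro w
  rw [mem_inf, mem_centralizer_singleton_iff, hφ]
  exact and_congr_right (fun _ => eq_comm)

omit [Finite H] in
theorem eppo (φ : G ≃ H) (hφ : ∀ x y, Rel x y ↔ φ x * φ y = φ y * φ x) (x : G) {p q : ℕ}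
    (hp : p.Prime) (hq : q.Prime) (hpx : p ∣ orderOf x) (hqx : q ∣ orderOf x) : p = q := by
  classical
  by_contra hpq
  cases nonempty_fintype G
  obtain ⟨y, hy, hmax⟩ := Finset.exists_max_image
    (Finset.univ.filter (fun y : G => x ∈ zpowers y)) orderOf ⟨x, by simp⟩
  simp only [Finset.mem_filter, Finset.mem_univ, true_and] at hy hmax
  have hxy : orderOf x ∣ orderOf y := orderOf_dvd_of_mem_zpowers hy
  obtain ⟨a, r, hpr, hm⟩ := Nat.exists_eq_pow_mul_and_not_dvd (orderOf_pos y).ne' p hp.ne_one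
  have hqr : q ∣ r := by
    have h1 : q ∣ p ^ a * r := by
      rw [← hm]
      exact hqx.trans hxy
    rcases (Nat.Prime.dvd_mul hq).1 h1 with h2 | h2
    · exact absurd ((Nat.prime_dvd_prime_iff_eq hq hp).1 (hq.dvd_of_dvd_pow h2)).symm hpq
    · exact h2
  have ha : 0 < a := by
    rcases Nat.eq_zero_or_pos a with rfl | h
    · exfalso
      apply hpr
      have := hpx.trans hxy
      rw [hm, pow_zero, one_mul] at this
      exact this
    · exact h
  -- the closed neighbourhood of `y` is `⟨y⟩`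
  have hN : ∀ w, Rel y w ↔ w ∈ zpowers y := by
    intro w
    constructor
    · rintro (h | h)
      · have h1 : x ∈ zpowers w := by
          have h2 : zpowers y ≤ zpowers w := by rwa [zpowers_le]
          exact h2 hy
        have h2 := hmax w h1
        have h3 : zpowers y = zpowers w := by
          apply Subgroup.eq_of_le_of_card_ge
          · rwa [zpowers_le]
          · rw [Nat.card_zpowers, Nat.card_zpowers]
            exact h2
        rw [h3]
        exact mem_zpowers w
      · exact h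
    · exact fun h => Or.inr h
  set z := y ^ r with hz
  have hzy : z ∈ zpowers y := ⟨r, by simp [hz]⟩
  set Zs : Finset G := Finset.univ.filter (fun w => w ∈ zpowers y) with hZs
  set U : Finset G := Zs.filter (fun w => z ∉ zpowers w) with hU
  set V : Finset G := Zs.filter (fun w => ¬ Rel z w) with hV
  have hcardZs : Zs.card = orderOf y := by
    rw [← Nat.card_zpowers, hZs, ← Fintype.card_subtype, Nat.card_eq_fintype_card]
  have hUinj : (U.image (fun w => w * z)) ⊆ Zs \ U := by
    intro w hw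
    rw [Finset.mem_image] at hw
    obtain ⟨w', hw', rfl⟩ := hw
    rw [hU, Finset.mem_filter, hZs, Finset.mem_filter] at hw'
    obtain ⟨⟨_, hw'1⟩, hw'2⟩ := hw'
    obtain ⟨k, hk⟩ := mem_zpowers_iff.1 hw'1
    have hpk : (p : ℤ) ∣ k := by
      by_contra hpk
      apply hw'2
      rw [← hk]
      exact mem_of_not_dvd hp hm hpk
    have hwz : w' * z = y ^ (k + r) := by rw [← hk, hz, zpow_add, zpow_natCast]
    have hpkr : ¬ (p : ℤ) ∣ k + r := by
      intro h
      apply hpr
      have h2 := dvd_sub h hpk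
      rw [add_sub_cancel_left] at h2
      exact_mod_cast h2
    rw [Finset.mem_sdiff, hU, Finset.mem_filter, hZs, Finset.mem_filter]
    refine ⟨⟨Finset.mem_univ _, ?_⟩, ?_⟩
    · rw [hwz]
      exact zpow_mem (mem_zpowers y) _
    · rintro ⟨_, h⟩
      apply h
      rw [hwz]
      exact mem_of_not_dvd hp hm hpkr
  have hU2 : 2 * U.card ≤ orderOf y := by
    have h1 := Finset.card_le_card hUinj
    rw [Finset.card_image_of_injective _ (mul_left_injective z),
      Finset.card_sdiff_of_subset (Finset.filter_subset _ _), hcardZs, ← hU] at h1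
    have h2 : U.card ≤ orderOf y := by
      rw [← hcardZs]
      exact Finset.card_le_card (Finset.filter_subset _ _)
    omega
  have hz1 : z ≠ 1 := by
    intro h
    have h1 := not_mem_of_dvd ha hm hpr (dvd_refl (p : ℤ))
    apply h1
    rw [← hz, h]
    exact one_mem _
  have h1U : (1 : G) ∈ U := by
    rw [hU, Finset.mem_filter, hZs, Finset.mem_filter]
    refine ⟨⟨Finset.mem_univ _, one_mem _⟩, ?_⟩
    rw [zpowers_one_eq_bot, mem_bot]
    exact hz1
  have hVU : V ⊆ U.erase 1 := by
    intro w hw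
    rw [hV, Finset.mem_filter] at hw
    rw [Finset.mem_erase, hU, Finset.mem_filter]
    refine ⟨?_, hw.1, fun h => hw.2 (Or.inl h)⟩
    rintro rfl
    exact hw.2 (Or.inr (one_mem _))
  have hVlt : V.card < U.card := by
    have h1 := Finset.card_le_card hVU
    rw [Finset.card_erase_of_mem h1U] at h1
    have h2 : 0 < U.card := Finset.card_pos.2 ⟨1, h1U⟩
    omega
  have hVne : 0 < V.card := by
    rw [Finset.card_pos]
    refine ⟨y ^ (p ^ a), ?_⟩
    rw [hV, Finset.mem_filter, hZs, Finset.mem_filter]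
    refine ⟨⟨Finset.mem_univ _, pow_mem (mem_zpowers y) _⟩, ?_⟩
    rintro (h | h)
    · have h2 := not_mem_of_dvd (k := ((p ^ a : ℕ) : ℤ)) ha hm hpr
        (by exact_mod_cast dvd_pow_self p ha.ne')
      rw [zpow_natCast] at h2
      exact h2 h
    · obtain ⟨j, hj⟩ := mem_zpowers_iff.1 h
      rw [hz, ← zpow_natCast, ← zpow_natCast, ← zpow_mul, zpow_eq_zpow_iff_modEq,
        Int.modEq_iff_dvd, hm] at hj
      have h3 : (q : ℤ) ∣ ((p ^ a : ℕ) : ℤ) := by
        have h4 : (q : ℤ) ∣ ((p ^ a : ℕ) : ℤ) - (r : ℤ) * j := by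
          refine dvd_trans ?_ hj
          have : q ∣ p ^ a * r := Dvd.dvd.mul_left hqr _
          exact_mod_cast this
        have h5 : (q : ℤ) ∣ (r : ℤ) * j := Dvd.dvd.mul_right (by exact_mod_cast hqr) _
        have := dvd_add h4 h5
        rwa [sub_add_cancel] at this
      have h4 : q ∣ p ^ a := by exact_mod_cast h3
      exact hpq ((Nat.prime_dvd_prime_iff_eq hq hp).1 (hq.dvd_of_dvd_pow h4)).symm
  -- the orders of the two centralizers
  have c1 : Nat.card (centralizer {φ y} : Subgroup H) = orderOf y := by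
    have h1 := card_centralizer φ hφ y ⊤
    rw [top_inf_eq] at h1
    rw [h1, ← hcardZs, hZs, ← Fintype.card_subtype, ← Nat.card_eq_fintype_card]
    apply Nat.card_congr
    apply Equiv.subtypeEquivRight
    intro w
    rw [hN]
    simp
  have c2 : Nat.card (centralizer {φ y} ⊓ centralizer {φ z} : Subgroup H) + V.card =
      orderOf y := by
    rw [card_centralizer φ hφ z, ← hcardZs]
    have h1 : Nat.card {w : G // φ w ∈ centralizer {φ y} ∧ Rel z w} =
        (Zs.filter (fun w => Rel z w)).card := by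
      rw [hZs, Finset.filter_filter, ← Fintype.card_subtype, ← Nat.card_eq_fintype_card]
      apply Nat.card_congr
      apply Equiv.subtypeEquivRight
      intro w
      refine and_congr_left (fun _ => ?_)
      rw [mem_centralizer_singleton_iff, ← hN w, hφ]
      exact eq_comm
    rw [h1, hV]
    exact Finset.card_filter_add_card_filter_not _
  have c3 : Nat.card (centralizer {φ y} ⊓ centralizer {φ z} : Subgroup H) ∣
      Nat.card (centralizer {φ y} : Subgroup H) := card_dvd_of_le inf_le_left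
  rw [c1, ← c2] at c3
  have c4 := (Nat.dvd_add_right (dvd_refl _)).1 c3
  have c5 := Nat.le_of_dvd hVne c4
  omega

omit [Finite H] in
/-- Every nonidentity element has prime power order. -/
theorem orderOf_eq_pow (φ : G ≃ H) (hφ : ∀ x y, Rel x y ↔ φ x * φ y = φ y * φ x) (x : G) {p : ℕ}
    (hp : p.Prime) (hpx : p ∣ orderOf x) : ∃ k, orderOf x = p ^ k := by
  refine ⟨_, Nat.eq_prime_pow_of_unique_prime_dvd (orderOf_pos x).ne' ?_⟩
  intro q hq hqx
  exact (eppo φ hφ x hp hq hpx hqx).symm

omit [Finite H] in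
/-- Two elements of the same prime order in a cyclic group generate the same subgroup. -/
theorem cyc {w x x' : G} {p : ℕ} (hp : p.Prime) (hx : orderOf x = p) (hx' : orderOf x' = p)
    (hxw : x ∈ zpowers w) (hxw' : x' ∈ zpowers w) : x ∈ zpowers x' := by
  obtain ⟨m', hm'⟩ : p ∣ orderOf w := by
    rw [← hx]
    exact orderOf_dvd_of_mem_zpowers hxw
  have hp0 : (p : ℤ) ≠ 0 := by exact_mod_cast hp.ne_zero
  have hm0 : 0 < m' := by
    have := orderOf_pos w
    rcases Nat.eq_zero_or_pos m' with h | h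
    · rw [h, mul_zero] at hm'
      omega
    · exact h
  have key : ∀ v : G, orderOf v = p → v ∈ zpowers w → ∃ t : ℤ, v = (w ^ m') ^ t := by
    intro v hv hvw
    obtain ⟨i, hi⟩ := mem_zpowers_iff.1 hvw
    have h1 : w ^ (i * p) = 1 := by
      rw [zpow_mul, hi, zpow_natCast, ← hv, pow_orderOf_eq_one]
    rw [← orderOf_dvd_iff_zpow_eq_one, hm'] at h1
    obtain ⟨t, ht⟩ := h1
    refine ⟨t, ?_⟩
    rw [← hi, ← zpow_natCast, ← zpow_mul]
    congr 1
    apply mul_right_cancel₀ hp0
    rw [ht]
    push_cast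
    ring
  obtain ⟨t, ht⟩ := key x hx hxw
  obtain ⟨t', ht'⟩ := key x' hx' hxw'
  have hu : orderOf (w ^ m') = p := by
    rw [orderOf_pow_of_dvd hm0.ne' ⟨p, by rw [hm', mul_comm]⟩, hm']
    exact Nat.mul_div_cancel _ hm0
  have hpt' : ¬ (p : ℤ) ∣ t' := by
    rintro ⟨s, rfl⟩
    rw [zpow_mul, zpow_natCast, ← hu, pow_orderOf_eq_one, one_zpow] at ht'
    rw [ht', orderOf_one] at hx'
    exact hp.one_lt.ne hx'
  have h2 := mem_of_not_dvd (y := w ^ m') (a := 1) (r := 1) hp (by rw [hu]; simp) hpt'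
  rw [pow_one, ← ht'] at h2
  rw [ht]
  exact zpow_mem h2 t

omit [Finite H] in
theorem rel_iff {x : G} {p : ℕ} (hp : p.Prime) (hx : orderOf x = p) (w : G) :
    Rel x w ↔ w = 1 ∨ x ∈ zpowers w := by
  constructor
  · rintro (h | h)
    · exact Or.inr h
    · by_cases hw : w = 1
      · exact Or.inl hw
      · right
        have h1 : orderOf w ∣ p := by
          rw [← hx]
          exact orderOf_dvd_of_mem_zpowers h
        rcases (Nat.dvd_prime hp).1 h1 with h2 | h2
        · exact absurd (orderOf_eq_one_iff.1 h2) hw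
        · exact cyc hp hx h2 (mem_zpowers x) h
  · rintro (rfl | h)
    · exact Or.inr (one_mem _)
    · exact Or.inl h

omit [Finite H] in
theorem mul_inv_rel (φ : G ≃ H) (hφ : ∀ x y, Rel x y ↔ φ x * φ y = φ y * φ x) {x : G} {p : ℕ}
    (hp : p.Prime) (hx : orderOf x = p) {w : G} (hw : Rel x w) : Rel x (w * x) := by
  rw [rel_iff hp hx] at hw
  rcases hw with rfl | hw
  · rw [one_mul]
    exact Or.inl (mem_zpowers x)
  · obtain ⟨k, hk⟩ := mem_zpowers_iff.1 hw
    have hcomm : Commute w x := by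
      rw [← hk]
      exact Commute.self_zpow w k
    by_cases hpk : (p : ℤ) ∣ k
    · left
      obtain ⟨t, rfl⟩ := hpk
      have h1 : (w * x) ^ p = w ^ p := by
        rw [hcomm.mul_pow, ← hx, pow_orderOf_eq_one, mul_one]
      rw [zpow_mul, zpow_natCast, ← h1] at hk
      have h2 := zpow_mem (pow_mem (mem_zpowers (w * x)) p) t
      rwa [hk] at h2
    · -- `w` has order `p`
      have hpw : p ∣ orderOf w := by
        rw [← hx]
        exact orderOf_dvd_of_mem_zpowers hw
      obtain ⟨n, hn⟩ := orderOf_eq_pow φ hφ w hp hpw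
      have h1 : w ^ (k * p) = 1 := by
        rw [zpow_mul, hk, zpow_natCast, ← hx, pow_orderOf_eq_one]
      rw [← orderOf_dvd_iff_zpow_eq_one, hn] at h1
      have h2 : IsCoprime ((p ^ n : ℕ) : ℤ) k := by
        push_cast
        apply IsCoprime.pow_left
        exact (Nat.prime_iff_prime_int.1 hp).coprime_iff_not_dvd.2 hpk
      have h3 := h2.dvd_of_dvd_mul_left h1
      have h4 : orderOf w ∣ p := by
        rw [hn]
        exact_mod_cast h3
      have h5 : orderOf w = p := Nat.dvd_antisymm h4 hpw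
      have h6 := cyc hp h5 hx (mem_zpowers w) hw
      exact Or.inr (mul_mem h6 (mem_zpowers x))

omit [Finite H] in
theorem dvd_card_rel (φ : G ≃ H) (hφ : ∀ x y, Rel x y ↔ φ x * φ y = φ y * φ x) {x : G} {p : ℕ}
    (hp : p.Prime) (hx : orderOf x = p) : p ∣ Nat.card {w : G // Rel x w} := by
  set N : Set G := {w | Rel x w} with hN
  have hpow : ∀ (k : ℕ) (w : G), w ∈ N → w * x ^ k ∈ N := by
    intro k
    induction k with
    | zero => intro w hw; simpa using hw
    | succ k ih =>
      intro w hw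
      rw [pow_succ, ← mul_assoc]
      exact mul_inv_rel φ hφ hp hx (ih w hw)
  have hinv : ∀ g ∈ zpowers x, ∀ w ∈ N, w * g ∈ N := by
    intro g hg w hw
    rw [← mem_powers_iff_mem_zpowers] at hg
    obtain ⟨k, rfl⟩ := hg
    exact hpow k w hw
  have hpre : N = (QuotientGroup.mk : G → G ⧸ zpowers x) ⁻¹' (QuotientGroup.mk '' N) := by
    apply Set.Subset.antisymm
    · exact Set.subset_preimage_image _ _
    · rintro w ⟨v, hv, hvw⟩
      rw [QuotientGroup.eq] at hvw
      have := hinv _ hvw v hv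
      rwa [mul_inv_cancel_left] at this
  have hcard : Nat.card N = Nat.card (zpowers x) *
      Nat.card ((QuotientGroup.mk : G → G ⧸ zpowers x) '' N) := by
    conv_lhs => rw [hpre]
    rw [Nat.card_congr (QuotientGroup.preimageMkEquivSubgroupProdSet (zpowers x)
      ((QuotientGroup.mk : G → G ⧸ zpowers x) '' N)), Nat.card_prod]
  rw [Nat.card_zpowers, hx] at hcard
  exact ⟨_, hcard⟩

omit [Finite H] in
theorem rel_of_rel_rel (φ : G ≃ H) (hφ : ∀ x y, Rel x y ↔ φ x * φ y = φ y * φ x) {x : G} {p : ℕ}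
    (hp : p.Prime) (hx : orderOf x = p) {w v : G} (hw1 : w ≠ 1) (hxw : Rel x w) (hwv : Rel w v) :
    Rel x v := by
  rw [rel_iff hp hx] at hxw ⊢
  have hxw' : x ∈ zpowers w := hxw.resolve_left hw1
  by_cases hv : v = 1
  · exact Or.inl hv
  right
  rcases hwv with h | h
  · have h1 : zpowers w ≤ zpowers v := by rwa [zpowers_le]
    exact h1 hxw'
  · -- `v ∈ ⟨w⟩`
    have hpw : p ∣ orderOf w := by
      rw [← hx]
      exact orderOf_dvd_of_mem_zpowers hxw'
    obtain ⟨n, hn⟩ := orderOf_eq_pow φ hφ w hp hpw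
    have h1 : orderOf v ∣ p ^ n := by
      rw [← hn]
      exact orderOf_dvd_of_mem_zpowers h
    obtain ⟨c, hc, hvc⟩ := (Nat.dvd_prime_pow hp).1 h1
    have hc0 : 0 < c := by
      rcases Nat.eq_zero_or_pos c with rfl | h2
      · rw [pow_zero, orderOf_eq_one_iff] at hvc
        exact absurd hvc hv
      · exact h2
    have h2 : orderOf (v ^ p ^ (c - 1)) = p := by
      have h3 : p ^ c = p ^ (c - 1) * p := by
        rw [← pow_succ, Nat.sub_add_cancel hc0]
      rw [orderOf_pow_of_dvd (pow_pos hp.pos _).ne' ⟨p, by rw [hvc, h3]⟩, hvc, h3]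
      exact Nat.mul_div_cancel_left _ (pow_pos hp.pos _)
    have h3 : v ^ p ^ (c - 1) ∈ zpowers w := pow_mem h _
    have h4 := cyc hp hx h2 hxw' h3
    have h5 : zpowers (v ^ p ^ (c - 1)) ≤ zpowers v := by
      rw [zpowers_le]
      exact pow_mem (mem_zpowers v) _
    exact h5 h4

/-- The centralizer of an element of prime order. -/
theorem centralizer_rel (φ : G ≃ H) (hφ : ∀ x y, Rel x y ↔ φ x * φ y = φ y * φ x)
    (hφ1 : φ 1 = 1) {x : G} {p : ℕ} (hp : p.Prime) (hx : orderOf x = p) (w : G)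
    (hw : w * x = x * w) : Rel x w := by
  have : Fact p.Prime := ⟨hp⟩
  -- the centralizer of `φ x`
  set C : Subgroup H := centralizer {φ x} with hC
  have hcardC : Nat.card C = Nat.card {w : G // Rel x w} := by
    have h1 := card_centralizer φ hφ x ⊤
    rw [top_inf_eq] at h1
    rw [h1]
    apply Nat.card_congr
    apply Equiv.subtypeEquivRight
    intro w
    simp
  have hCmem : ∀ v, φ v ∈ C ↔ Rel x v := by
    intro v
    rw [hC, mem_centralizer_singleton_iff, hφ]
    exact eq_comm
  have hCC : ∀ k ∈ C, k ≠ 1 → centralizer {k} ≤ C := by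
    intro k hk hk1 u hu
    obtain ⟨w, rfl⟩ := φ.surjective k
    obtain ⟨v, rfl⟩ := φ.surjective u
    rw [hCmem] at hk ⊢
    have hw1 : w ≠ 1 := by
      rintro rfl
      exact hk1 hφ1
    rw [mem_centralizer_singleton_iff] at hu
    exact rel_of_rel_rel φ hφ hp hx hw1 hk ((hφ w v).2 hu.symm)
  obtain ⟨h, hh⟩ := exists_prime_orderOf_dvd_card' (G := C) p (by
    rw [hcardC]
    exact dvd_card_rel φ hφ hp hx)
  have hh' : orderOf (h : H) = p := by rw [Subgroup.orderOf_coe, hh]
  have hh1 : (h : H) ≠ 1 := by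
    intro h1
    rw [h1, orderOf_one] at hh'
    exact hp.one_lt.ne hh'
  have hPG : IsPGroup p (zpowers (h : H)) := by
    apply IsPGroup.of_card (n := 1)
    rw [Nat.card_zpowers, hh', pow_one]
  obtain ⟨Q, hQ⟩ := hPG.exists_le_sylow
  have hhQ : (h : H) ∈ Q := hQ (mem_zpowers _)
  have : Nontrivial Q := ⟨⟨⟨(h : H), hhQ⟩, 1, fun h1 => hh1 (congrArg Subtype.val h1)⟩⟩
  have hcn : Nontrivial (Subgroup.center Q) := Q.2.center_nontrivial
  obtain ⟨z, hz1⟩ := exists_ne (1 : Subgroup.center Q)
  have hz1' : ((z : Q) : H) ≠ 1 := by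
    intro h1
    exact hz1 (Subtype.ext (Subtype.ext h1))
  have hzcomm : ∀ q ∈ Q, q * ((z : Q) : H) = ((z : Q) : H) * q := by
    intro q hq
    have h1 := Subgroup.mem_center_iff.1 z.2 ⟨q, hq⟩
    exact congrArg Subtype.val h1
  have hzC : ((z : Q) : H) ∈ C := by
    apply hCC (h : H) h.2 hh1
    rw [mem_centralizer_singleton_iff]
    exact (hzcomm _ hhQ).symm
  have hQC : (Q : Subgroup H) ≤ C := by
    intro q hq
    apply hCC _ hzC hz1'
    rw [mem_centralizer_singleton_iff]
    exact hzcomm q hq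
  have hcardQ : Nat.card Q = p ^ (Nat.card H).factorization p := Q.card_eq_multiplicity
  have h1 : p ^ (Nat.card H).factorization p ≤ Nat.card {w : G // Rel x w} := by
    rw [← hcardQ, ← hcardC]
    exact Subgroup.card_le_of_le hQC
  -- the centralizer of `x` is a `p`-group
  have hPx : IsPGroup p (centralizer {x} : Subgroup G) := by
    rintro ⟨w, hw⟩
    rw [mem_centralizer_singleton_iff] at hw
    have h2 : ∃ k, orderOf w = p ^ k := by
      refine ⟨_, Nat.eq_prime_pow_of_unique_prime_dvd (orderOf_pos w).ne' ?_⟩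
      intro q hq hqw
      by_contra hqp
      obtain ⟨s, hs⟩ := hqw
      have hs0 : s ≠ 0 := by
        rintro rfl
        have := orderOf_pos w
        omega
      have h3 : orderOf (w ^ s) = q := by
        rw [orderOf_pow_of_dvd hs0 ⟨q, by rw [hs, mul_comm]⟩, hs]
        exact Nat.mul_div_cancel _ (Nat.pos_of_ne_zero hs0)
      have hcomm : Commute x (w ^ s) := (Commute.pow_left (show Commute w x from hw) s).symm
      have h4 : orderOf (x * w ^ s) = p * q := by
        rw [hcomm.orderOf_mul_eq_mul_orderOf_of_coprime, hx, h3]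
        rw [hx, h3]
        exact (Nat.coprime_primes hp hq).2 (fun h => hqp h.symm)
      have h5 := eppo φ hφ (x * w ^ s) hp hq (by rw [h4]; exact dvd_mul_right _ _)
        (by rw [h4]; exact dvd_mul_left _ _)
      exact hqp h5.symm
    obtain ⟨k, hk⟩ := h2
    refine ⟨k, ?_⟩
    apply Subtype.ext
    show w ^ p ^ k = 1
    rw [← hk, pow_orderOf_eq_one]
  obtain ⟨k, hk⟩ := IsPGroup.iff_card.1 hPx
  have h2 : Nat.card (centralizer {x} : Subgroup G) ≤ p ^ (Nat.card H).factorization p := by
    rw [hk]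
    apply Nat.pow_le_pow_right hp.pos
    rw [← Nat.Prime.pow_dvd_iff_le_factorization hp Nat.card_pos.ne', ← hk,
      ← Nat.card_congr φ]
    exact Subgroup.card_subgroup_dvd_card _
  -- compare the two sets
  have h3 : {w : G | Rel x w} ⊆ ((centralizer {x} : Subgroup G) : Set G) := by
    intro w hw
    rw [SetLike.mem_coe, mem_centralizer_singleton_iff]
    exact (Rel.commute hw).symm
  have h4 : {w : G | Rel x w} = ((centralizer {x} : Subgroup G) : Set G) := by
    apply Set.eq_of_subset_of_ncard_le h3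
    rw [← Nat.card_coe_set_eq, ← Nat.card_coe_set_eq]
    exact h2.trans h1
  have h5 : w ∈ ((centralizer {x} : Subgroup G) : Set G) := by
    rw [SetLike.mem_coe, mem_centralizer_singleton_iff]
    exact hw
  rw [← h4] at h5
  exact h5

/-- Commuting elements of the same prime power type are comparable. -/
theorem rel_of_comm_pow (φ : G ≃ H) (hφ : ∀ x y, Rel x y ↔ φ x * φ y = φ y * φ x)
    (hφ1 : φ 1 = 1) {p : ℕ} (hp : p.Prime) {a : G} {j : ℕ} (ha : orderOf a = p ^ j) (k : ℕ) :
    ∀ b : G, orderOf b = p ^ k → k ≤ j → a * b = b * a → b ∈ zpowers a := by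
  induction k with
  | zero =>
    intro b hb _ _
    rw [pow_zero, orderOf_eq_one_iff] at hb
    rw [hb]
    exact one_mem _
  | succ k ih =>
    intro b hb hkj hcomm
    have hcomm' : Commute a b := hcomm
    have hbp : orderOf (b ^ p) = p ^ k := by
      rw [orderOf_pow_of_dvd hp.ne_zero ⟨p ^ k, by rw [hb, pow_succ, mul_comm]⟩, hb, pow_succ]
      exact Nat.mul_div_cancel _ hp.pos
    have h1 := ih (b ^ p) hbp (by omega) (hcomm'.pow_right p).eq
    obtain ⟨s, hs⟩ := mem_zpowers_iff.1 h1
    by_cases hps : (p : ℤ) ∣ s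
    · obtain ⟨t, rfl⟩ := hps
      set c := b * (a ^ t)⁻¹ with hc
      have hbc : b = c * a ^ t := by rw [hc, inv_mul_cancel_right]
      have hac : Commute a c := (hcomm'.mul_right ((Commute.self_zpow a t).inv_right))
      have hcb : Commute c (a ^ t) := (hac.zpow_left t).symm
      have hcp : c ^ p = 1 := by
        have h2 : b ^ p = c ^ p * (a ^ t) ^ p := by
          rw [← hcb.mul_pow, ← hbc]
        rw [← hs, zpow_mul, zpow_natCast, ← zpow_natCast (a ^ t), ← zpow_mul, ← zpow_natCast a,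
          ← zpow_mul, mul_comm (p : ℤ) t] at h2
        exact (right_eq_mul.1 h2)
      by_cases hc1 : c = 1
      · rw [hbc, hc1, one_mul]
        exact zpow_mem (mem_zpowers a) t
      · have : Fact p.Prime := ⟨hp⟩
        have hoc : orderOf c = p := orderOf_eq_prime hcp hc1
        -- an element of order `p` in `⟨a⟩`
        have hj : 0 < j := by omega
        have hx : orderOf (a ^ p ^ (j - 1)) = p := by
          have h3 : p ^ j = p ^ (j - 1) * p := by
            rw [← pow_succ, Nat.sub_add_cancel hj]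
          rw [orderOf_pow_of_dvd (pow_pos hp.pos _).ne' ⟨p, by rw [ha, h3]⟩, ha, h3]
          exact Nat.mul_div_cancel_left _ (pow_pos hp.pos _)
        have h4 := centralizer_rel φ hφ hφ1 hp hx c ((hac.pow_left _).symm.eq)
        rw [rel_iff hp hx] at h4
        have h5 := h4.resolve_left hc1
        have h6 := cyc hp hoc hx (mem_zpowers c) h5
        have h7 : c ∈ zpowers a := by
          have h8 : zpowers (a ^ p ^ (j - 1)) ≤ zpowers a := by
            rw [zpowers_le]
            exact pow_mem (mem_zpowers a) _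
          exact h8 h6
        rw [hbc]
        exact mul_mem h7 (zpow_mem (mem_zpowers a) t)
    · exfalso
      have h2 : orderOf (b ^ p) = p ^ j := by
        rw [← hs]
        have h3 := mem_of_not_dvd (y := a) (a := j) (r := 1) hp (by rw [ha, mul_one]) hps
        rw [pow_one] at h3
        have h4 : zpowers a = zpowers (a ^ s) := by
          apply le_antisymm
          · rwa [zpowers_le]
          · rw [zpowers_le]
            exact zpow_mem (mem_zpowers a) s
        rw [← Nat.card_zpowers, ← h4, Nat.card_zpowers, ha]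
      rw [hbp] at h2
      have := Nat.pow_right_injective hp.two_le h2
      omega

theorem rel_of_comm (φ : G ≃ H) (hφ : ∀ x y, Rel x y ↔ φ x * φ y = φ y * φ x)
    (hφ1 : φ 1 = 1) (a b : G) (hab : a * b = b * a) : Rel a b := by
  by_cases ha : a = 1
  · rw [ha]
    exact Or.inl (one_mem _)
  by_cases hb : b = 1
  · rw [hb]
    exact Or.inr (one_mem _)
  obtain ⟨p, hp, hpa⟩ := Nat.exists_prime_and_dvd (n := orderOf a)
    (fun h => ha (orderOf_eq_one_iff.1 h))
  obtain ⟨q, hq, hqb⟩ := Nat.exists_prime_and_dvd (n := orderOf b)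
    (fun h => hb (orderOf_eq_one_iff.1 h))
  obtain ⟨j, hj⟩ := orderOf_eq_pow φ hφ a hp hpa
  obtain ⟨k, hk⟩ := orderOf_eq_pow φ hφ b hq hqb
  have hpq : p = q := by
    by_contra hpq
    have h1 : (orderOf a).Coprime (orderOf b) := by
      rw [hj, hk]
      exact Nat.Coprime.pow _ _ ((Nat.coprime_primes hp hq).2 hpq)
    have h2 := (show Commute a b from hab).orderOf_mul_eq_mul_orderOf_of_coprime h1
    exact hpq (eppo φ hφ (a * b) hp hq (by rw [h2]; exact Dvd.dvd.mul_right hpa _)
      (by rw [h2]; exact Dvd.dvd.mul_left hqb _))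
  subst hpq
  rcases le_total k j with h | h
  · exact Or.inr (rel_of_comm_pow φ hφ hφ1 hp hj k b hk h hab)
  · exact Or.inl (rel_of_comm_pow φ hφ hφ1 hp hk j a hj h hab.symm)

end main

open Pool.Agent.V1132.PowCom

theorem rel_iff_adj {G : Type*} [Group G] (x y : G) : Rel x y ↔ x = y ∨ (powGraph G).Adj x y := by
  unfold Rel powGraph
  simp only [mem_zpowers_iff]
  constructor
  · rintro h
    by_cases hxy : x = y
    · exact Or.inl hxy
    · right
      refine ⟨hxy, ?_⟩
      rcases h with ⟨k, hk⟩ | ⟨k, hk⟩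
      · exact Or.inl ⟨k, hk.symm⟩
      · exact Or.inr ⟨k, hk.symm⟩
  · rintro (rfl | ⟨_, ⟨k, hk⟩ | ⟨k, hk⟩⟩)
    · exact Or.inl ⟨1, zpow_one x⟩
    · exact Or.inl ⟨k, hk.symm⟩
    · exact Or.inr ⟨k, hk.symm⟩

/-- **Main theorem.** -/
theorem main' {G H : Type*} [Group G] [Group H] [Finite G] [Finite H]
    (ψ : powGraph G ≃g comGraph H) : powGraph G = comGraph G := by
  have h0 : ∀ x y, Rel x y ↔ ψ x * ψ y = ψ y * ψ x := by
    intro x y
    rw [rel_iff_adj, ← ψ.map_adj_iff]
    constructor
    · rintro (rfl | h)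
      · rfl
      · exact h.2
    · intro h
      by_cases hxy : x = y
      · exact Or.inl hxy
      · exact Or.inr ⟨fun h' => hxy (ψ.injective h'), h⟩
  -- normalise
  have hcen : ∀ h : H, ψ 1 * h = h * ψ 1 := by
    intro h
    obtain ⟨y, rfl⟩ := ψ.surjective h
    exact (h0 1 y).1 (Or.inl (one_mem _))
  let φ : G ≃ H := ψ.toEquiv.trans (Equiv.mulRight (ψ 1)⁻¹)
  have hφ' : ∀ x, φ x = ψ x * (ψ 1)⁻¹ := fun x => rfl
  have hφ : ∀ x y, Rel x y ↔ φ x * φ y = φ y * φ x := by
    intro x y
    rw [h0, hφ', hφ']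
    have h1 : ∀ u v : H, (u * (ψ 1)⁻¹) * (v * (ψ 1)⁻¹) = u * v * ((ψ 1)⁻¹ * (ψ 1)⁻¹) := by
      intro u v
      have h2 : (ψ 1)⁻¹ * v = v * (ψ 1)⁻¹ := by
        rw [inv_mul_eq_iff_eq_mul, ← mul_assoc, hcen, mul_inv_cancel_right]
      rw [mul_assoc u, ← mul_assoc (ψ 1)⁻¹, h2]
      group
    rw [h1, h1, mul_left_inj]
  have hφ1 : φ 1 = 1 := by rw [hφ', mul_inv_cancel]
  ext x y
  constructor
  · intro h
    exact ⟨h.1, Rel.commute ((rel_iff_adj x y).2 (Or.inr h))⟩
  · rintro ⟨hxy, h⟩
    exact ((rel_iff_adj x y).1 (rel_of_comm φ hφ hφ1 x y h)).resolve_left hxy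

end Pool.Agent.V1132.PowComMain
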