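import Mathlib

/-!
# Automorphisms of the `d`-regular rooted tree and fixed-point proportions

The vertices of the `d`-regular rooted tree are the finite words over `Fin d`; the root is the
empty word, the `d` children of a word `w` are the words `w ++ [a]`, and a word `u` lies on the
path from the root to a word `v` exactly when `u` is an initial segment of `v`.
-/

set_option autoImplicit false

namespace Pool.Agent.V1132.RootedTree

/-- The group of automorphisms of the `d`-regular rooted tree: the permutations of the set of
finite words over `Fin d` that preserve the length of words and the initial segment relation. -/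
def TreeAut (d : ℕ) : Subgroup (Equiv.Perm (List (Fin d))) where
  carrier := {f | (∀ w, (f w).length = w.length) ∧ ∀ u v, f u <+: f v ↔ u <+: v}
  one_mem' := ⟨fun _ => rfl, fun _ _ => Iff.rfl⟩
  mul_mem' := by
    rintro f g ⟨hf1, hf2⟩ ⟨hg1, hg2⟩
    refine ⟨fun w => ?_, fun u v => ?_⟩
    · rw [Equiv.Perm.mul_apply, hf1, hg1]
    · rw [Equiv.Perm.mul_apply, Equiv.Perm.mul_apply, hf2, hg2]
  inv_mem' := by
    rintro f ⟨hf1, hf2⟩
    have key : ∀ w, f (f⁻¹ w) = w := fun w => f.apply_symm_apply w
    refine ⟨fun w => ?_, fun u v => ?_⟩
    · rw [← hf1 (f⁻¹ w), key]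
    · rw [← hf2 (f⁻¹ u), key, key]

/-- The vertices of level `n`: the words of length `n`. -/
abbrev Level (d n : ℕ) : Type := {w : List (Fin d) // w.length = n}

instance (d n : ℕ) : Finite (Level d n) :=
  Finite.of_equiv (List.Vector (Fin d) n) (Equiv.refl _)

/-- The action of the automorphism group on the vertices of level `n`. -/
def levelHom (d n : ℕ) : TreeAut d →* Equiv.Perm (Level d n) where
  toFun f := (f : Equiv.Perm (List (Fin d))).subtypePerm (fun w => by rw [f.2.1 w])
  map_one' := by ext; rfl
  map_mul' f g := by ext; rfl

/-- For a group `G` of tree automorphisms, the proportion of elements of the finite permutation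
group induced by `G` on level `n` that fix at least one vertex of level `n`. -/
noncomputable def fixProp {d : ℕ} (G : Subgroup (TreeAut d)) (n : ℕ) : ℝ :=
  (Nat.card {g : G.map (levelHom d n) // ∃ v : Level d n, (g : Equiv.Perm (Level d n)) v = v} : ℝ)
    / (Nat.card (G.map (levelHom d n)) : ℝ)

/-- `HasFPP G α`: the fixed-point proportion of `G` is `α`, that is, the proportions at level `n`
converge to `α` as `n` tends to infinity. -/
def HasFPP {d : ℕ} (G : Subgroup (TreeAut d)) (α : ℝ) : Prop :=
  Filter.Tendsto (fun n => fixProp G n) Filter.atTop (nhds α)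

end Pool.Agent.V1132.RootedTree
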