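import Mathlib

/-!
# A finite `p`-group with few automorphisms: the group
-/

set_option autoImplicit false

open Matrix

namespace Pool.Agent.V1132.SmallAut

variable (p n m : ℕ) [Fact p.Prime]

/-- the coefficient ring `Z/p^(n+1)` -/
abbrev R := ZMod (p ^ (n + 1))

/-- reduction modulo `p` -/
abbrev red : R p n →+* ZMod p := ZMod.castHom (dvd_pow_self p n.succ_ne_zero) (ZMod p)

/-- the Sylow `p`-subgroup of `SL₂(Z/p^(n+1))` of matrices lower unitriangular modulo `p` -/
def T : Subgroup (SpecialLinearGroup (Fin 2) (R p n)) where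
  carrier := {s | red p n (s 0 0) = 1 ∧ red p n (s 0 1) = 0 ∧ red p n (s 1 1) = 1}
  one_mem' := by simp
  mul_mem' := by
    rintro s t ⟨h1, h2, h3⟩ ⟨h4, h5, h6⟩
    have hm : ∀ i j, (s * t).1 i j = s.1 i 0 * t.1 0 j + s.1 i 1 * t.1 1 j := fun i j => by
      change (s.1 * t.1) i j = _
      rw [Matrix.mul_apply, Fin.sum_univ_two]
    change red p n (s.1 0 0) = 1 at h1
    change red p n (s.1 0 1) = 0 at h2
    change red p n (s.1 1 1) = 1 at h3
    change red p n (t.1 0 0) = 1 at h4
    change red p n (t.1 0 1) = 0 at h5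
    change red p n (t.1 1 1) = 1 at h6
    change red p n ((s * t).1 0 0) = 1 ∧ red p n ((s * t).1 0 1) = 0 ∧ red p n ((s * t).1 1 1) = 1
    refine ⟨?_, ?_, ?_⟩
    · rw [hm, map_add, map_mul, map_mul, h1, h2, h4]; simp
    · rw [hm, map_add, map_mul, map_mul, h1, h2, h5]; simp
    · rw [hm, map_add, map_mul, map_mul, h3, h5, h6]; simp
  inv_mem' := by
    rintro s ⟨h1, h2, h3⟩
    refine ⟨?_, ?_, ?_⟩
    · rw [SpecialLinearGroup.SL2_inv_expl]; exact h3
    · rw [SpecialLinearGroup.SL2_inv_expl]
      change red p n (- s 0 1) = 0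
      rw [map_neg, h2, neg_zero]
    · rw [SpecialLinearGroup.SL2_inv_expl]; exact h1

/-- the index set of the centre: pairs `j < k` -/
abbrev Pr := {q : Fin m × Fin m // q.1 < q.2}

/-- the group -/
@[ext] structure G where
  a : Fin m → R p n
  b : Fin m → R p n
  z : Pr m → R p n
  s : T p n

variable {p n m}

/-- the symmetric pairing -/
def mu (a b : Fin m → R p n) : Pr m → R p n := fun q => a q.1.1 * b q.1.2 + a q.1.2 * b q.1.1

/-- the entries of `s` -/
def e (s : T p n) (i j : Fin 2) : R p n := s.1 i j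

@[simp] theorem e_one_same (i : Fin 2) : e (1 : T p n) i i = 1 := by simp [e]

@[simp] theorem e_one_01 : e (1 : T p n) 0 1 = 0 := by simp [e]

@[simp] theorem e_one_10 : e (1 : T p n) 1 0 = 0 := by simp [e]

theorem e_mul (s t : T p n) (i j : Fin 2) :
    e (s * t) i j = e s i 0 * e t 0 j + e s i 1 * e t 1 j := by
  simp [e, Matrix.mul_apply, Fin.sum_univ_two]

theorem e_det (s : T p n) : e s 0 0 * e s 1 1 - e s 0 1 * e s 1 0 = 1 := by
  have := s.1.det_coe
  rw [Matrix.det_fin_two] at this
  exact this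

theorem e_inv_00 (s : T p n) : e s⁻¹ 0 0 = e s 1 1 := by
  simp [e, SpecialLinearGroup.SL2_inv_expl]

theorem e_inv_01 (s : T p n) : e s⁻¹ 0 1 = - e s 0 1 := by
  simp [e, SpecialLinearGroup.SL2_inv_expl]

theorem e_inv_10 (s : T p n) : e s⁻¹ 1 0 = - e s 1 0 := by
  simp [e, SpecialLinearGroup.SL2_inv_expl]

theorem e_inv_11 (s : T p n) : e s⁻¹ 1 1 = e s 0 0 := by
  simp [e, SpecialLinearGroup.SL2_inv_expl]

theorem T_ext {s t : T p n} (h : ∀ i j, e s i j = e t i j) : s = t := by
  apply Subtype.ext
  ext i j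
  exact h i j

/-- first component of `s v` -/
def actA (s : T p n) (a b : Fin m → R p n) : Fin m → R p n := fun i => e s 0 0 * a i + e s 0 1 * b i

/-- second component of `s v` -/
def actB (s : T p n) (a b : Fin m → R p n) : Fin m → R p n := fun i => e s 1 0 * a i + e s 1 1 * b i

/-- the alternating form -/
def B (a b a' b' : Fin m → R p n) : Pr m → R p n := mu a b' - mu b a'

theorem B_act (s : T p n) (a b a' b' : Fin m → R p n) :
    B (actA s a b) (actB s a b) (actA s a' b') (actB s a' b') = B a b a' b' := by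
  ext q
  simp only [B, mu, actA, actB, Pi.sub_apply]
  linear_combination (a q.1.1 * b' q.1.2 + a q.1.2 * b' q.1.1 - (b q.1.1 * a' q.1.2 +
    b q.1.2 * a' q.1.1)) * e_det s

theorem B_add_right (a b a' b' a'' b'' : Fin m → R p n) :
    B a b (a' + a'') (b' + b'') = B a b a' b' + B a b a'' b'' := by
  ext q; simp only [B, mu, Pi.sub_apply, Pi.add_apply]; ring

theorem B_add_left (a b a' b' a'' b'' : Fin m → R p n) :
    B (a + a') (b + b') a'' b'' = B a b a'' b'' + B a' b' a'' b'' := by
  ext q; simp only [B, mu, Pi.sub_apply, Pi.add_apply]; ring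

theorem actA_mul (s t : T p n) (a b : Fin m → R p n) :
    actA (s * t) a b = actA s (actA t a b) (actB t a b) := by
  ext i; simp only [actA, actB, e_mul]; ring

theorem actB_mul (s t : T p n) (a b : Fin m → R p n) :
    actB (s * t) a b = actB s (actA t a b) (actB t a b) := by
  ext i; simp only [actA, actB, e_mul]; ring

theorem actA_add (s : T p n) (a b a' b' : Fin m → R p n) :
    actA s (a + a') (b + b') = actA s a b + actA s a' b' := by
  ext i; simp only [actA, Pi.add_apply]; ring

theorem actB_add (s : T p n) (a b a' b' : Fin m → R p n) :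
    actB s (a + a') (b + b') = actB s a b + actB s a' b' := by
  ext i; simp only [actB, Pi.add_apply]; ring

theorem actA_neg (s : T p n) (a b : Fin m → R p n) : actA s (-a) (-b) = - actA s a b := by
  ext i; simp only [actA, Pi.neg_apply]; ring

theorem actB_neg (s : T p n) (a b : Fin m → R p n) : actB s (-a) (-b) = - actB s a b := by
  ext i; simp only [actB, Pi.neg_apply]; ring

@[simp] theorem actA_one (a b : Fin m → R p n) : actA 1 a b = a := by
  ext i; simp [actA]

@[simp] theorem actB_one (a b : Fin m → R p n) : actB 1 a b = b := by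
  ext i; simp [actB]

namespace G

instance : Mul (G p n m) := ⟨fun x y => ⟨x.a + actA x.s y.a y.b, x.b + actB x.s y.a y.b,
  x.z + y.z + B x.a x.b (actA x.s y.a y.b) (actB x.s y.a y.b), x.s * y.s⟩⟩

instance : One (G p n m) := ⟨⟨0, 0, 0, 1⟩⟩

instance : Inv (G p n m) := ⟨fun x => ⟨- actA x.s⁻¹ x.a x.b, - actB x.s⁻¹ x.a x.b, - x.z, x.s⁻¹⟩⟩

theorem mul_a (x y : G p n m) : (x * y).a = x.a + actA x.s y.a y.b := rfl
theorem mul_b (x y : G p n m) : (x * y).b = x.b + actB x.s y.a y.b := rfl
theorem mul_z (x y : G p n m) : (x * y).z =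
  x.z + y.z + B x.a x.b (actA x.s y.a y.b) (actB x.s y.a y.b) := rfl
theorem mul_s (x y : G p n m) : (x * y).s = x.s * y.s := rfl
@[simp] theorem one_a : (1 : G p n m).a = 0 := rfl
@[simp] theorem one_b : (1 : G p n m).b = 0 := rfl
@[simp] theorem one_z : (1 : G p n m).z = 0 := rfl
@[simp] theorem one_s : (1 : G p n m).s = 1 := rfl
theorem inv_a (x : G p n m) : (x⁻¹).a = - actA x.s⁻¹ x.a x.b := rfl
theorem inv_b (x : G p n m) : (x⁻¹).b = - actB x.s⁻¹ x.a x.b := rfl
theorem inv_z (x : G p n m) : (x⁻¹).z = - x.z := rfl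
theorem inv_s (x : G p n m) : (x⁻¹).s = x.s⁻¹ := rfl

instance : Group (G p n m) :=
  Group.ofLeftAxioms
    (by
      intro x y w
      ext1
      · simp only [mul_a, mul_s, mul_b, actA_mul, actA_add, add_assoc]
      · simp only [mul_a, mul_s, mul_b, actB_mul, actB_add, add_assoc]
      · simp only [mul_a, mul_s, mul_b, mul_z, actA_mul, actB_mul, actA_add, actB_add,
          B_add_left, B_add_right, B_act]
        abel
      · simp only [mul_s, mul_assoc])
    (by
      intro x
      ext1
      · simp [mul_a]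
      · simp [mul_b]
      · have : B (0 : Fin m → R p n) 0 x.a x.b = 0 := by ext q; simp [B, mu]
        simp [mul_z, this]
      · simp [mul_s])
    (by
      intro x
      ext1
      · simp [mul_a, inv_a, inv_s]
      · simp [mul_b, inv_b, inv_s]
      · simp only [mul_z, inv_z, inv_a, inv_b, inv_s, one_z]
        ext q
        simp only [B, mu, Pi.sub_apply, Pi.add_apply, Pi.neg_apply, Pi.zero_apply]
        ring
      · simp [mul_s, inv_s])

end G

end Pool.Agent.V1132.SmallAut
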