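import Pool.Agent.V1132.SmallAut1

/-!
# A finite `p`-group with few automorphisms: generation
-/

set_option autoImplicit false

open Matrix

namespace Pool.Agent.V1132.SmallAut

variable {p n m : ℕ} [Fact p.Prime]

instance : NeZero (p ^ (n + 1)) := ⟨pow_ne_zero _ (Fact.out : p.Prime).ne_zero⟩

theorem natCast_val (x : R p n) : ((x.val : ℕ) : R p n) = x := ZMod.natCast_zmod_val x

theorem red_natCast (k : ℕ) : red p n (k : R p n) = (k : ZMod p) := map_natCast _ k

theorem red_p : red p n (p : R p n) = 0 := by rw [red_natCast]; exact ZMod.natCast_self p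

theorem isUnit_iff (x : R p n) : IsUnit x ↔ red p n x ≠ 0 := by
  constructor
  · intro h h0
    have := h.map (red p n)
    rw [h0] at this
    exact not_isUnit_zero this
  · intro h
    rw [← natCast_val x, ZMod.isUnit_iff_coprime]
    rw [← natCast_val x, red_natCast, Ne, ZMod.natCast_eq_zero_iff] at h
    exact Nat.Coprime.pow_right _ ((Nat.coprime_comm.mp ((Nat.Prime.coprime_iff_not_dvd
      Fact.out).mpr h)))

theorem exists_of_red_eq_zero {x : R p n} (h : red p n x = 0) : ∃ y : R p n, x = p * y := by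
  rw [← natCast_val x, red_natCast, ZMod.natCast_eq_zero_iff] at h
  obtain ⟨k, hk⟩ := h
  refine ⟨k, ?_⟩
  rw [← natCast_val x, hk]
  push_cast
  rfl

theorem exists_inv {t : R p n} (ht : red p n t = 1) : ∃ t' : R p n, t * t' = 1 ∧ red p n t' = 1 := by
  have h : IsUnit t := (isUnit_iff t).mpr (by rw [ht]; exact one_ne_zero)
  obtain ⟨t', h'⟩ := h.exists_right_inv
  refine ⟨t', h', ?_⟩
  have := congrArg (red p n) h'
  rwa [map_mul, ht, one_mul, map_one] at this

/-- an explicit element of `T` -/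
def mkT (α β γ δ : R p n) (hd : α * δ - β * γ = 1) (h1 : red p n α = 1) (h2 : red p n β = 0)
    (h3 : red p n δ = 1) : T p n :=
  ⟨⟨!![α, β; γ, δ], by rw [Matrix.det_fin_two_of]; exact hd⟩, h1, h2, h3⟩

section mkT
variable (α β γ δ : R p n) (hd : α * δ - β * γ = 1) (h1 : red p n α = 1) (h2 : red p n β = 0)
    (h3 : red p n δ = 1)
@[simp] theorem mkT_00 : e (mkT α β γ δ hd h1 h2 h3) 0 0 = α := rfl
@[simp] theorem mkT_01 : e (mkT α β γ δ hd h1 h2 h3) 0 1 = β := rfl
@[simp] theorem mkT_10 : e (mkT α β γ δ hd h1 h2 h3) 1 0 = γ := rfl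
@[simp] theorem mkT_11 : e (mkT α β γ δ hd h1 h2 h3) 1 1 = δ := rfl
end mkT

theorem red_00 (s : T p n) : red p n (e s 0 0) = 1 := s.2.1
theorem red_01 (s : T p n) : red p n (e s 0 1) = 0 := s.2.2.1
theorem red_11 (s : T p n) : red p n (e s 1 1) = 1 := s.2.2.2

theorem T_ext4 {s t : T p n} (h1 : e s 0 0 = e t 0 0) (h2 : e s 0 1 = e t 0 1)
    (h3 : e s 1 0 = e t 1 0) (h4 : e s 1 1 = e t 1 1) : s = t := by
  apply T_ext
  intro i j
  fin_cases i <;> fin_cases j <;> assumption

/-- lower unitriangular -/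
def ll (y : R p n) : T p n := mkT 1 0 y 1 (by ring) (map_one _) (map_zero _) (map_one _)

/-- upper unitriangular -/
def uu (x : R p n) : T p n := mkT 1 (p * x) 0 1 (by ring) (map_one _)
  (by rw [map_mul, red_p, zero_mul]) (map_one _)

/-- diagonal -/
def dd (t t' : R p n) (h : t * t' = 1) (ht : red p n t = 1) : T p n :=
  mkT t 0 0 t' (by rw [h]; ring) ht (map_zero _) (by
    have := congrArg (red p n) h
    rwa [map_mul, ht, one_mul, map_one] at this)

@[simp] theorem ll_00 (y : R p n) : e (ll y) 0 0 = 1 := rfl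
@[simp] theorem ll_01 (y : R p n) : e (ll y) 0 1 = 0 := rfl
@[simp] theorem ll_10 (y : R p n) : e (ll y) 1 0 = y := rfl
@[simp] theorem ll_11 (y : R p n) : e (ll y) 1 1 = 1 := rfl
@[simp] theorem uu_00 (y : R p n) : e (uu y) 0 0 = 1 := rfl
@[simp] theorem uu_01 (y : R p n) : e (uu y) 0 1 = p * y := rfl
@[simp] theorem uu_10 (y : R p n) : e (uu y) 1 0 = 0 := rfl
@[simp] theorem uu_11 (y : R p n) : e (uu y) 1 1 = 1 := rfl

/-- `ll` as a homomorphism -/
def llHom : Multiplicative (R p n) →* T p n where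
  toFun y := ll y.toAdd
  map_one' := by apply T_ext4 <;> simp
  map_mul' x y := by apply T_ext4 <;> simp [e_mul]

/-- `uu` as a homomorphism -/
def uuHom : Multiplicative (R p n) →* T p n where
  toFun y := uu y.toAdd
  map_one' := by apply T_ext4 <;> simp
  map_mul' x y := by
    apply T_ext4 <;> simp [e_mul]
    ring

/-- the complement -/
def iT : T p n →* G p n m where
  toFun s := ⟨0, 0, 0, s⟩
  map_one' := rfl
  map_mul' s t := by
    ext1
    · simp [G.mul_a]; ext i; simp [actA]
    · simp [G.mul_b]; ext i; simp [actB]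
    · ext q; simp [G.mul_z, B, mu]
    · rfl

/-- first half -/
def iA : Multiplicative (Fin m → R p n) →* G p n m where
  toFun a := ⟨a.toAdd, 0, 0, 1⟩
  map_one' := rfl
  map_mul' s t := by
    ext1
    · simp [G.mul_a]
    · simp [G.mul_b]
    · ext q; simp [G.mul_z, B, mu]
    · simp [G.mul_s]

/-- second half -/
def iB : Multiplicative (Fin m → R p n) →* G p n m where
  toFun a := ⟨0, a.toAdd, 0, 1⟩
  map_one' := rfl
  map_mul' s t := by
    ext1
    · simp [G.mul_a]
    · simp [G.mul_b]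
    · ext q; simp [G.mul_z, B, mu]
    · simp [G.mul_s]

/-- centre -/
def iZ : Multiplicative (Pr m → R p n) →* G p n m where
  toFun z := ⟨0, 0, z.toAdd, 1⟩
  map_one' := rfl
  map_mul' s t := by
    ext1
    · simp [G.mul_a]
    · simp [G.mul_b]
    · ext q; simp [G.mul_z, B, mu]
    · simp [G.mul_s]

theorem ofAdd_eq_pow (y : R p n) : Multiplicative.ofAdd y = (Multiplicative.ofAdd (1 : R p n)) ^ y.val := by
  rw [← ofAdd_nsmul, nsmul_one, natCast_val]

theorem mem_of_single {N : ℕ} [NeZero N] {ι H : Type*} [Fintype ι] [DecidableEq ι] [Group H]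
    (φ : Multiplicative (ι → ZMod N) →* H) (S : Subgroup H) (c : ZMod N)
    (h : ∀ i, φ (Multiplicative.ofAdd (Pi.single i c)) ∈ S) (a : ι → ZMod N) :
    φ (Multiplicative.ofAdd (fun i => c * a i)) ∈ S := by
  have h1 : (fun i => c * a i) = ∑ i, (a i).val • (Pi.single i c : ι → ZMod N) := by
    ext j
    rw [Finset.sum_apply, Finset.sum_eq_single j]
    · simp [mul_comm]
    · intro b _ hb
      simp [Pi.single_eq_of_ne hb.symm]
    · simp
  rw [h1, ofAdd_sum]
  change _ ∈ S.comap φ
  apply Subgroup.prod_mem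
  intro i _
  rw [ofAdd_nsmul]
  refine Subgroup.pow_mem _ ?_ _
  exact h i

/-- `x_i` -/
def X (i : Fin m) : G p n m := iA (Multiplicative.ofAdd (Pi.single i 1))
/-- `y_i` -/
def Y (i : Fin m) : G p n m := iB (Multiplicative.ofAdd (Pi.single i 1))
/-- the upper generator -/
def uP : G p n m := iT (uu 1)
/-- the lower generator -/
def uM : G p n m := iT (ll 1)

theorem iT_ll_mem (H : Subgroup (G p n m)) (h : uM ∈ H) (y : R p n) : iT (ll y) ∈ H := by
  have h1 : (ll y : T p n) = llHom (Multiplicative.ofAdd y) := rfl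
  rw [h1, ofAdd_eq_pow, map_pow, map_pow]
  exact H.pow_mem h _

theorem iT_uu_mem (H : Subgroup (G p n m)) (h : uP ∈ H) (y : R p n) : iT (uu y) ∈ H := by
  have h1 : (uu y : T p n) = uuHom (Multiplicative.ofAdd y) := rfl
  rw [h1, ofAdd_eq_pow, map_pow, map_pow]
  exact H.pow_mem h _

theorem dd_eq (t t' k : R p n) (h : t * t' = 1) (ht : red p n t = 1) (htk : t = 1 + p * k) :
    dd t t' h ht = ll (-(k * t')) * uu 1 * ll k * uu (-t') := by
  apply T_ext4
  · simp [e_mul, dd, htk]
  · simp [e_mul, dd]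
    linear_combination (p : R p n) * h - (p : R p n) * t' * htk
  · simp [e_mul, dd]
    linear_combination k * h - k * t' * htk
  · simp [e_mul, dd]
    have h2 : t' * (1 + p * k) = 1 := by rw [← htk, mul_comm]; exact h
    linear_combination (1 - t' * p * k) * h2

theorem iT_mem (H : Subgroup (G p n m)) (h1 : uP ∈ H) (h2 : uM ∈ H) (s : T p n) : iT s ∈ H := by
  obtain ⟨t', ht', hr⟩ := exists_inv (red_00 s)
  obtain ⟨x, hx⟩ := exists_of_red_eq_zero (red_01 s)
  obtain ⟨k, hk⟩ : ∃ k : R p n, e s 0 0 - 1 = p * k := exists_of_red_eq_zero (by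
    rw [map_sub, red_00, map_one, sub_self])
  have hs : s = ll (e s 1 0 * t') * dd (e s 0 0) t' ht' (red_00 s) * uu (x * t') := by
    have hd := e_det s
    apply T_ext4
    · simp [e_mul, dd]
    · simp [e_mul, dd]
      linear_combination hx - (p * x) * ht'
    · simp [e_mul, dd]
      linear_combination (- e s 1 0) * ht'
    · simp [e_mul, dd]
      linear_combination t' * hd - (e s 1 1) * ht' + t' * e s 1 0 * hx -
        (p * x) * e s 1 0 * t' * ht'
  rw [hs, map_mul, map_mul, dd_eq _ _ k ht' (red_00 s) (by linear_combination hk)]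
  simp only [map_mul]
  exact H.mul_mem (H.mul_mem (iT_ll_mem H h2 _) (H.mul_mem (H.mul_mem (H.mul_mem
    (iT_ll_mem H h2 _) (iT_uu_mem H h1 _)) (iT_ll_mem H h2 _)) (iT_uu_mem H h1 _)))
    (iT_uu_mem H h1 _)

end Pool.Agent.V1132.SmallAut
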