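import Pool.Agent.V1132.SmallAut2

/-!
# A finite `p`-group with few automorphisms: commutators and the centre
-/

set_option autoImplicit false

open Matrix

namespace Pool.Agent.V1132.SmallAut

variable {p n m : ℕ} [Fact p.Prime]

/-- elements of the class two subgroup -/
def iN (a b : Fin m → R p n) (z : Pr m → R p n) : G p n m := ⟨a, b, z, 1⟩

theorem iN_mul (a b a' b' : Fin m → R p n) (z z' : Pr m → R p n) :
    iN a b z * iN a' b' z' = iN (a + a') (b + b') (z + z' + B a b a' b') := by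
  ext1
  · simp [G.mul_a, iN]
  · simp [G.mul_b, iN]
  · simp [G.mul_z, iN]
  · simp [G.mul_s, iN]

theorem iT_conj (t : T p n) (y : G p n m) :
    iT t * y * (iT t)⁻¹ = ⟨actA t y.a y.b, actB t y.a y.b, y.z, t * y.s * t⁻¹⟩ := by
  rw [mul_inv_eq_iff_eq_mul]
  ext1
  · ext i; simp [G.mul_a, iT, actA]
  · ext i; simp [G.mul_b, iT, actB]
  · ext q; simp [G.mul_z, iT, B, mu, actA, actB]
  · simp [G.mul_s, iT]

theorem iN_comm (a b a' b' : Fin m → R p n) (z z' : Pr m → R p n) :
    iN a b z * iN a' b' z' * (iN a b z)⁻¹ * (iN a' b' z')⁻¹ = iN 0 0 (2 * B a b a' b') := by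
  rw [mul_inv_eq_iff_eq_mul, mul_inv_eq_iff_eq_mul, iN_mul, iN_mul, iN_mul]
  congr 1
  · simp [add_comm]
  · simp [add_comm]
  · ext q
    simp only [B, mu, Pi.sub_apply, Pi.add_apply, Pi.mul_apply, Pi.zero_apply, Pi.ofNat_apply]
    ring

theorem X_eq (i : Fin m) : (X i : G p n m) = iN (Pi.single i 1) 0 0 := rfl
theorem Y_eq (i : Fin m) : (Y i : G p n m) = iN 0 (Pi.single i 1) 0 := rfl
theorem iA_eq (a : Fin m → R p n) : (iA (Multiplicative.ofAdd a) : G p n m) = iN a 0 0 := rfl
theorem iB_eq (a : Fin m → R p n) : (iB (Multiplicative.ofAdd a) : G p n m) = iN 0 a 0 := rfl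
theorem iZ_eq (z : Pr m → R p n) : (iZ (Multiplicative.ofAdd z) : G p n m) = iN 0 0 z := rfl

theorem mu_single_single_same (i : Fin m) :
    mu (Pi.single i 1 : Fin m → R p n) (Pi.single i 1) = 0 := by
  ext q
  simp only [mu, Pi.zero_apply]
  by_cases h1 : q.1.1 = i
  · have h2 : q.1.2 ≠ i := fun h => by have := q.2; rw [h1, h] at this; exact lt_irrefl _ this
    simp [Pi.single_eq_of_ne h2]
  · simp [Pi.single_eq_of_ne h1]

theorem mu_single_single (q : Pr m) :
    mu (Pi.single q.1.1 1 : Fin m → R p n) (Pi.single q.1.2 1) = Pi.single q 1 := by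
  ext r
  simp only [mu]
  by_cases h : r = q
  · subst h
    have h2 : r.1.2 ≠ r.1.1 := r.2.ne'
    simp [Pi.single_eq_of_ne h2]
  · rw [Pi.single_eq_of_ne h]
    by_cases h1 : r.1.1 = q.1.1
    · have h2 : r.1.2 ≠ q.1.2 := fun h2 => h (Subtype.ext (Prod.ext h1 h2))
      have h3 : r.1.1 ≠ q.1.2 := by rw [h1]; exact q.2.ne
      simp [Pi.single_eq_of_ne h2, Pi.single_eq_of_ne h3]
    · rw [Pi.single_eq_of_ne h1]
      by_cases h2 : r.1.2 = q.1.1
      · have h3 : r.1.1 ≠ q.1.2 := by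
          have h4 := r.2
          have h5 := q.2
          rw [h2] at h4
          exact (h4.trans h5).ne
        simp [Pi.single_eq_of_ne h3]
      · simp [Pi.single_eq_of_ne h2]

theorem conj_uM_X (i : Fin m) : uM * X i * uM⁻¹ * (X i)⁻¹ = (Y i : G p n m) := by
  have h : uM * X i * uM⁻¹ = (iN (Pi.single i 1) (Pi.single i 1) 0 : G p n m) := by
    unfold uM
    rw [iT_conj, X_eq, iN]
    ext1
    · ext j; simp [actA, iN]
    · ext j; simp [actB, iN]
    · rfl
    · simp [iN]
  rw [h, mul_inv_eq_iff_eq_mul, X_eq, Y_eq, iN_mul]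
  congr 1
  · simp
  · simp
  · simp only [B, mu_single_single_same]
    ext q
    simp [mu]

theorem conj_uP_Y (i : Fin m) :
    uP * Y i * uP⁻¹ * (Y i)⁻¹ = (iN (Pi.single i (p : R p n)) 0 0 : G p n m) := by
  have h : uP * Y i * uP⁻¹ = (iN (Pi.single i (p : R p n)) (Pi.single i 1) 0 : G p n m) := by
    unfold uP
    rw [iT_conj, Y_eq, iN]
    ext1
    · ext j
      by_cases hj : j = i
      · subst hj; simp [actA, iN]
      · simp [actA, iN, Pi.single_eq_of_ne hj]
    · ext j; simp [actB, iN]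
    · rfl
    · simp [iN]
  rw [h, mul_inv_eq_iff_eq_mul, Y_eq, iN_mul]
  congr 1
  · simp
  · simp
  · ext q
    simp only [B, mu, Pi.sub_apply, Pi.add_apply, Pi.zero_apply]
    by_cases h1 : q.1.1 = i
    · have h2 : q.1.2 ≠ i := fun h => by have := q.2; rw [h1, h] at this; exact lt_irrefl _ this
      simp [Pi.single_eq_of_ne h2]
    · simp [Pi.single_eq_of_ne h1]

theorem X_mul_Y (q : Pr m) : X q.1.1 * Y q.1.2 * (X q.1.1)⁻¹ * (Y q.1.2)⁻¹ =
    (iN 0 0 (Pi.single q 2) : G p n m) := by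
  rw [X_eq, Y_eq, iN_comm]
  congr 1
  simp only [B, mu_single_single]
  ext r
  by_cases h : r = q
  · subst h; simp [mu]
  · simp [mu, Pi.single_eq_of_ne h]

section Units

variable (hp : 5 ≤ p)
include hp

theorem isUnit_two : IsUnit (2 : R p n) := by
  rw [isUnit_iff]
  have : red p n (2 : R p n) = ((2 : ℕ) : ZMod p) := by
    rw [map_ofNat, Nat.cast_ofNat]
  rw [this, Ne, ZMod.natCast_eq_zero_iff]
  intro h
  have := Nat.le_of_dvd (by norm_num) h
  lia

theorem isUnit_three : IsUnit (3 : R p n) := by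
  rw [isUnit_iff]
  have : red p n (3 : R p n) = ((3 : ℕ) : ZMod p) := by
    rw [map_ofNat, Nat.cast_ofNat]
  rw [this, Ne, ZMod.natCast_eq_zero_iff]
  intro h
  have := Nat.le_of_dvd (by norm_num) h
  lia

end Units

/-- a commutator lies in the commutator subgroup -/
theorem comm_mem (g h : G p n m) : g * h * g⁻¹ * h⁻¹ ∈ commutator (G p n m) := by
  rw [← commutatorElement_def]
  exact Subgroup.commutator_mem_commutator (Subgroup.mem_top _) (Subgroup.mem_top _)

/-- everything in the class two part comes from the `X_i`, `Y_i` and the commutators -/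
theorem iZ_mem (h2 : IsUnit (2 : R p n)) (S : Subgroup (G p n m))
    (h : ∀ q : Pr m, (iN 0 0 (Pi.single q 2) : G p n m) ∈ S) (z : Pr m → R p n) :
    iN 0 0 z ∈ S := by
  obtain ⟨r, hr⟩ := h2.exists_right_inv
  have h1 := mem_of_single (iZ : _ →* G p n m) S 2 h (fun q => r * z q)
  have h3 : (fun q => 2 * (r * z q)) = z := by
    ext q; linear_combination (z q) * hr
  rw [h3] at h1
  exact h1

theorem iB_mem (S : Subgroup (G p n m)) (h : ∀ i, (Y i : G p n m) ∈ S) (b : Fin m → R p n) :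
    iN 0 b 0 ∈ S := by
  have h1 := mem_of_single (iB : _ →* G p n m) S 1 h b
  simp only [one_mul] at h1
  exact h1

theorem iA_mem (S : Subgroup (G p n m)) (c : R p n) (h : ∀ i, (iN (Pi.single i c) 0 0 : G p n m) ∈ S)
    (a : Fin m → R p n) : iN (fun i => c * a i) 0 0 ∈ S :=
  mem_of_single (iA : _ →* G p n m) S c h a

theorem decomp (g : G p n m) :
    g = iN g.a 0 0 * iN 0 g.b 0 * iN 0 0 (g.z - B g.a 0 0 g.b) * iT g.s := by
  rw [iN_mul, iN_mul]
  ext1
  · ext i; simp [G.mul_a, iN, iT]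
  · ext i; simp [G.mul_b, iN, iT]
  · ext q; simp [G.mul_z, iN, iT, B, mu]
  · simp [G.mul_s, iN, iT]

theorem closure_eq_top (hp : 5 ≤ p) :
    Subgroup.closure ({uP, uM} ∪ Set.range X : Set (G p n m)) = ⊤ := by
  set H := Subgroup.closure ({uP, uM} ∪ Set.range X : Set (G p n m)) with hH
  have hP : uP ∈ H := Subgroup.subset_closure (Or.inl (Or.inl rfl))
  have hM : uM ∈ H := Subgroup.subset_closure (Or.inl (Or.inr rfl))
  have hX : ∀ i, X i ∈ H := fun i => Subgroup.subset_closure (Or.inr ⟨i, rfl⟩)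
  have hY : ∀ i, Y i ∈ H := fun i => by
    rw [← conj_uM_X i]
    exact H.mul_mem (H.mul_mem (H.mul_mem hM (hX i)) (H.inv_mem hM)) (H.inv_mem (hX i))
  have hZ : ∀ z, iN 0 0 z ∈ H := fun z => iZ_mem (isUnit_two hp) H (fun q => by
    rw [← X_mul_Y q]
    exact H.mul_mem (H.mul_mem (H.mul_mem (hX _) (hY _)) (H.inv_mem (hX _))) (H.inv_mem (hY _))) z
  rw [eq_top_iff]
  intro g _
  rw [decomp g]
  have hA : iN g.a 0 0 ∈ H := by
    have h1 := iA_mem H 1 hX g.a
    simp only [one_mul] at h1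
    exact h1
  exact H.mul_mem (H.mul_mem (H.mul_mem hA (iB_mem H hY _)) (hZ _)) (iT_mem H hP hM _)

/-- the subgroup of elements whose first component vanishes modulo `p` -/
def K (p n m : ℕ) [Fact p.Prime] : Subgroup (G p n m) where
  carrier := {g | ∀ i, red p n (g.a i) = 0}
  one_mem' := by intro i; simp
  mul_mem' := by
    intro x y hx hy i
    have h1 : (x * y).a i = x.a i + (e x.s 0 0 * y.a i + e x.s 0 1 * y.b i) := rfl
    rw [h1, map_add, map_add, map_mul, map_mul, hx i, hy i, red_01]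
    ring
  inv_mem' := by
    intro x hx i
    have h1 : (x⁻¹).a i = -(e x.s⁻¹ 0 0 * x.a i + e x.s⁻¹ 0 1 * x.b i) := rfl
    rw [h1, map_neg, map_add, map_mul, map_mul, hx i, red_01]
    ring

theorem mem_K (g : G p n m) : g ∈ K p n m ↔ ∀ i, red p n (g.a i) = 0 := Iff.rfl

theorem commutator_le_K : commutator (G p n m) ≤ K p n m := by
  unfold commutator
  rw [Subgroup.commutator_le]
  intro x _ y _
  rw [commutatorElement_def, mem_K]
  intro i
  have hm : ∀ x y : G p n m, red p n ((x * y).a i) = red p n (x.a i) + red p n (y.a i) := by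
    intro x y
    have h1 : (x * y).a i = x.a i + (e x.s 0 0 * y.a i + e x.s 0 1 * y.b i) := rfl
    rw [h1, map_add, map_add, map_mul, map_mul, red_01, red_00]
    ring
  have hi : ∀ x : G p n m, red p n ((x⁻¹).a i) = - red p n (x.a i) := by
    intro x
    have h1 := hm x x⁻¹
    rw [mul_inv_cancel] at h1
    simp only [G.one_a, Pi.zero_apply, map_zero] at h1
    linear_combination -h1
  rw [hm, hm, hm, hi, hi]
  ring

theorem Y_mem_comm (i : Fin m) : (Y i : G p n m) ∈ commutator (G p n m) := by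
  rw [← conj_uM_X i]
  exact comm_mem _ _

theorem pX_mem_comm (i : Fin m) : (iN (Pi.single i (p : R p n)) 0 0 : G p n m) ∈ commutator (G p n m) := by
  rw [← conj_uP_Y i]
  exact comm_mem _ _

theorem iZ_mem_comm (hp : 5 ≤ p) (z : Pr m → R p n) :
    (iN 0 0 z : G p n m) ∈ commutator (G p n m) :=
  iZ_mem (isUnit_two hp) _ (fun q => by
    rw [← X_mul_Y q]
    exact comm_mem _ _) z

theorem K_le (hp : 5 ≤ p) :
    K p n m ≤ Subgroup.closure {uP, uM} ⊔ commutator (G p n m) := by
  intro g hg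
  set H := Subgroup.closure ({uP, uM} : Set (G p n m)) ⊔ commutator (G p n m) with hH
  have hP : uP ∈ H := (le_sup_left : _ ≤ H) (Subgroup.subset_closure (Or.inl rfl))
  have hM : uM ∈ H := (le_sup_left : _ ≤ H) (Subgroup.subset_closure (Or.inr rfl))
  have hc : commutator (G p n m) ≤ H := le_sup_right
  rw [decomp g]
  have hA : iN g.a 0 0 ∈ H := by
    choose a' ha' using fun i => exists_of_red_eq_zero (hg i)
    have h1 := iA_mem H (p : R p n) (fun i => hc (pX_mem_comm i)) a'
    have h2 : (fun i => (p : R p n) * a' i) = g.a := by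
      ext i; rw [ha' i]
    rw [h2] at h1
    exact h1
  exact H.mul_mem (H.mul_mem (H.mul_mem hA (iB_mem H (fun i => hc (Y_mem_comm i)) _))
    (hc (iZ_mem_comm hp _))) (iT_mem H hP hM _)

theorem le_K : Subgroup.closure {uP, uM} ⊔ commutator (G p n m) ≤ K p n m := by
  refine sup_le ?_ commutator_le_K
  rw [Subgroup.closure_le]
  rintro _ (rfl | rfl)
  · intro i; simp [uP, iT]
  · intro i; simp [uM, iT]

theorem X_not_mem_K (i : Fin m) : (X i : G p n m) ∉ K p n m := by
  intro h
  have := h i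
  rw [X_eq] at this
  simp [iN] at this

end Pool.Agent.V1132.SmallAut
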