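import Pool.Agent.V1132.SmallAut3

/-!
# A finite `p`-group with few automorphisms: the centre and the key computation
-/

set_option autoImplicit false

open Matrix

namespace Pool.Agent.V1132.SmallAut

variable {p n m : ℕ} [Fact p.Prime]

theorem exists_pair {i k : Fin m} (h : i ≠ k) :
    ∃ q : Pr m, ∀ b : Fin m → R p n, mu b (Pi.single i 1) q = b k := by
  rcases lt_or_gt_of_ne h with h1 | h1
  · refine ⟨⟨(i, k), h1⟩, fun b => ?_⟩
    simp [mu, Pi.single_eq_of_ne h.symm]
  · refine ⟨⟨(k, i), h1⟩, fun b => ?_⟩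
    simp [mu, Pi.single_eq_of_ne h.symm]

theorem mu_comm (a b : Fin m → R p n) : mu a b = mu b a := by
  ext q; simp only [mu]; ring

theorem mem_center_iff (hp : 5 ≤ p) (hm : 2 ≤ m) (g : G p n m) :
    g ∈ Subgroup.center (G p n m) ↔ g.a = 0 ∧ g.b = 0 ∧ g.s = 1 := by
  rw [Subgroup.mem_center_iff]
  constructor
  · intro h
    have : Nontrivial (Fin m) := Fin.nontrivial_iff_two_le.mpr hm
    obtain ⟨i0⟩ : Nonempty (Fin m) := inferInstance
    have hs : g.s = 1 := by
      have hX := h (X i0)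
      have hY := h (Y i0)
      have h1 := congrFun (congrArg G.a hX) i0
      have h2 := congrFun (congrArg G.b hX) i0
      have h3 := congrFun (congrArg G.a hY) i0
      have h4 := congrFun (congrArg G.b hY) i0
      simp only [G.mul_a, G.mul_b, X_eq, Y_eq, iN, actA, actB, Pi.add_apply, Pi.single_eq_same,
        Pi.zero_apply, e_one_same, e_one_01, e_one_10] at h1 h2 h3 h4
      apply T_ext4
      · rw [e_one_same]; linear_combination -h1
      · rw [e_one_01]; linear_combination -h3
      · rw [e_one_10]; linear_combination -h2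
      · rw [e_one_same]; linear_combination -h4
    obtain ⟨r, hr⟩ := (isUnit_two (n := n) hp).exists_left_inv
    refine ⟨?_, ?_, hs⟩
    · ext k
      obtain ⟨i, hi⟩ := exists_ne k
      obtain ⟨q, hq⟩ := exists_pair (p := p) (n := n) hi
      have h1 := congrFun (congrArg G.z (h (Y i))) q
      simp only [G.mul_z, Y_eq, iN, hs, actA_one, actB_one, B, Pi.add_apply, Pi.sub_apply,
        Pi.zero_apply] at h1
      rw [mu_comm (Pi.single i 1) g.a, hq] at h1
      simp only [mu, Pi.zero_apply] at h1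
      rw [Pi.zero_apply]
      linear_combination (-r) * h1 - (g.a k) * hr
    · ext k
      obtain ⟨i, hi⟩ := exists_ne k
      obtain ⟨q, hq⟩ := exists_pair (p := p) (n := n) hi
      have h1 := congrFun (congrArg G.z (h (X i))) q
      simp only [G.mul_z, X_eq, iN, hs, actA_one, actB_one, B, Pi.add_apply, Pi.sub_apply,
        Pi.zero_apply] at h1
      rw [mu_comm (Pi.single i 1) g.b, hq] at h1
      simp only [mu, Pi.zero_apply] at h1
      rw [Pi.zero_apply]
      linear_combination r * h1 - (g.b k) * hr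
  · rintro ⟨h1, h2, h3⟩ x
    ext1
    · simp only [G.mul_a, h1, h2, h3]
      ext i; simp [actA]
    · simp only [G.mul_b, h1, h2, h3]
      ext i; simp [actB]
    · simp only [G.mul_z, h1, h2, h3]
      ext q; simp [actA, actB, B, mu]
      ring
    · simp only [G.mul_s, h3, mul_one, one_mul]

/-- the key computation -/
theorem key (hp : 5 ≤ p) (y : G p n m) (h1 : y * uP = uP * y)
    (h2 : y * (uM * y * uM⁻¹) = (uM * y * uM⁻¹) * y) (h3 : y ∉ K p n m) :
    e y.s 0 0 = 1 ∧ e y.s 0 1 = 0 ∧ (p : R p n) * e y.s 1 0 = 0 ∧ e y.s 1 1 = 1 ∧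
      (∀ i, (p : R p n) * y.b i = 0) ∧ ∃ j, ∀ k, k ≠ j → y.a k = 0 := by
  have hu2 : IsUnit (2 : R p n) := isUnit_two hp
  have hu3 : IsUnit (3 : R p n) := isUnit_three hp
  -- a unit coordinate
  obtain ⟨j, hj⟩ : ∃ j, IsUnit (y.a j) := by
    rw [mem_K] at h3
    push Not at h3
    obtain ⟨j, hj⟩ := h3
    exact ⟨j, (isUnit_iff _).mpr hj⟩
  -- first condition
  have hb : ∀ i, (p : R p n) * y.b i = 0 := by
    intro i
    have h4 := congrFun (congrArg G.a h1) i
    simp only [G.mul_a, uP, iT, MonoidHom.coe_mk, OneHom.coe_mk, actA, Pi.add_apply,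
      Pi.zero_apply, uu_00, uu_01] at h4
    linear_combination -h4
  have hγ : (p : R p n) * e y.s 1 0 = 0 := by
    have h4 := congrArg (fun g : G p n m => e g.s 0 0) h1
    simp only [G.mul_s, uP, iT, MonoidHom.coe_mk, OneHom.coe_mk, e_mul, uu_00, uu_01, uu_10] at h4
    linear_combination -h4
  -- second condition
  rw [uM, iT_conj] at h2
  set s' : T p n := ll 1 * y.s * (ll 1)⁻¹ with hs'
  have e00 : e s' 0 0 = e y.s 0 0 - e y.s 0 1 := by
    rw [hs']; simp [e_mul, e_inv_00, e_inv_01, e_inv_10, e_inv_11]; ring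
  have e01 : e s' 0 1 = e y.s 0 1 := by
    rw [hs']; simp [e_mul, e_inv_00, e_inv_01, e_inv_10, e_inv_11]
  have e10 : e s' 1 0 = e y.s 0 0 + e y.s 1 0 - e y.s 0 1 - e y.s 1 1 := by
    rw [hs']; simp [e_mul, e_inv_00, e_inv_01, e_inv_10, e_inv_11]; ring
  have e11 : e s' 1 1 = e y.s 0 1 + e y.s 1 1 := by
    rw [hs']; simp [e_mul, e_inv_00, e_inv_01, e_inv_10, e_inv_11]
  have ha1 : ∀ i, (2 * e y.s 0 1) * y.a i = 0 := by
    intro i
    have h4 := congrFun (congrArg G.a h2) i
    simp only [G.mul_a, actA, actB, Pi.add_apply, ll_00, ll_01, ll_10, ll_11, e00, e01] at h4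
    linear_combination h4
  have hβ : e y.s 0 1 = 0 := by
    have h4 := ha1 j
    rw [hj.mul_left_eq_zero] at h4
    rwa [hu2.mul_right_eq_zero] at h4
  have hb1 : (2 * e y.s 1 1 - 1 - e y.s 0 0) * y.a j = 0 := by
    have h4 := congrFun (congrArg G.b h2) j
    simp only [G.mul_b, actA, actB, Pi.add_apply, ll_00, ll_01, ll_10, ll_11, e10, e11, hβ] at h4
    linear_combination h4
  have hα : e y.s 0 0 = 2 * e y.s 1 1 - 1 := by
    rw [hj.mul_left_eq_zero] at hb1
    linear_combination -hb1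
  have hdet := e_det y.s
  rw [hβ, hα] at hdet
  have hδ : e y.s 1 1 = 1 := by
    have h4 : (2 * e y.s 1 1 + 1) * (e y.s 1 1 - 1) = 0 := by linear_combination hdet
    have h5 : IsUnit (2 * e y.s 1 1 + 1) := by
      rw [isUnit_iff, map_add, map_mul, red_11, map_one, map_ofNat]
      have h6 := (isUnit_iff (3 : R p n)).mp hu3
      rw [map_ofNat] at h6
      norm_num
      exact h6
    rw [h5.mul_right_eq_zero] at h4
    linear_combination h4
  have hα1 : e y.s 0 0 = 1 := by rw [hα, hδ]; ring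
  refine ⟨hα1, hβ, hγ, hδ, hb, j, ?_⟩
  intro k hk
  -- the central component
  have hz : ∀ q : Pr m, 2 * mu y.a y.a q = 0 := by
    intro q
    have h4 := congrFun (congrArg G.z h2) q
    simp only [G.mul_z, B, mu, actA, actB, Pi.add_apply, Pi.sub_apply, ll_00, ll_01, ll_10, ll_11,
      e00, e01, e10, e11, hβ, hα1, hδ] at h4
    simp only [mu]
    linear_combination h4
  obtain ⟨q, hq⟩ : ∃ q : Pr m, mu y.a y.a q = 2 * (y.a k * y.a j) := by
    rcases lt_or_gt_of_ne hk with h | h
    · exact ⟨⟨(k, j), h⟩, by simp only [mu]; ring⟩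
    · exact ⟨⟨(j, k), h⟩, by simp only [mu]; ring⟩
  have h5 := hz q
  rw [hq, hu2.mul_right_eq_zero, hu2.mul_right_eq_zero, hj.mul_left_eq_zero] at h5
  exact h5

/-- `uM ^ p` is a product of commutators -/
theorem uM_pow_mem (hp : 5 ≤ p) : (uM : G p n m) ^ p ∈ commutator (G p n m) := by
  have ht : red p n (1 + (p : R p n)) = 1 := by rw [map_add, map_one, red_p, add_zero]
  obtain ⟨t', ht', hr⟩ := exists_inv ht
  obtain ⟨r, hr2⟩ : ∃ r : R p n, (2 + (p : R p n)) * r = 1 := by
    have : IsUnit (2 + (p : R p n)) := by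
      rw [isUnit_iff, map_add, red_p, add_zero]
      exact (isUnit_iff _).mp (isUnit_two hp)
    exact this.exists_right_inv
  have h1 : (uM : G p n m) ^ p = iT (ll (p : R p n)) := by
    have h2 : (ll (p : R p n) : T p n) = llHom (Multiplicative.ofAdd (p : R p n)) := rfl
    have h3 : Multiplicative.ofAdd (p : R p n) = (Multiplicative.ofAdd (1 : R p n)) ^ p := by
      rw [← ofAdd_nsmul, nsmul_one]
    rw [h2, h3, map_pow, map_pow]
    rfl
  have h4 : (ll (p : R p n) : T p n) = dd _ t' ht' ht * ll (-((1 + (p : R p n)) ^ 2 * r)) *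
      (dd _ t' ht' ht)⁻¹ * (ll (-((1 + (p : R p n)) ^ 2 * r)))⁻¹ := by
    rw [eq_mul_inv_iff_mul_eq, eq_mul_inv_iff_mul_eq]
    apply T_ext4
    · simp [e_mul, dd]
    · simp [e_mul, dd]
    · simp [e_mul, dd]
      linear_combination (-(1 + (p : R p n)) * p) * hr2 + (1 + (p : R p n)) * r * ht'
    · simp [e_mul, dd]
  rw [h1, h4]
  simp only [map_mul, map_inv]
  exact comm_mem _ _

/-- `uP ^ p` is a product of commutators -/
theorem uP_pow_mem (hp : 5 ≤ p) : (uP : G p n m) ^ p ∈ commutator (G p n m) := by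
  have ht : red p n (1 + (p : R p n)) = 1 := by rw [map_add, map_one, red_p, add_zero]
  obtain ⟨t', ht', hr⟩ := exists_inv ht
  obtain ⟨r, hr2⟩ : ∃ r : R p n, (2 + (p : R p n)) * r = 1 := by
    have : IsUnit (2 + (p : R p n)) := by
      rw [isUnit_iff, map_add, red_p, add_zero]
      exact (isUnit_iff _).mp (isUnit_two hp)
    exact this.exists_right_inv
  have h1 : (uP : G p n m) ^ p = iT (uu (p : R p n)) := by
    have h2 : (uu (p : R p n) : T p n) = uuHom (Multiplicative.ofAdd (p : R p n)) := rfl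
    have h3 : Multiplicative.ofAdd (p : R p n) = (Multiplicative.ofAdd (1 : R p n)) ^ p := by
      rw [← ofAdd_nsmul, nsmul_one]
    rw [h2, h3, map_pow, map_pow]
    rfl
  have h4 : (uu (p : R p n) : T p n) = dd _ t' ht' ht * uu r *
      (dd _ t' ht' ht)⁻¹ * (uu r)⁻¹ := by
    rw [eq_mul_inv_iff_mul_eq, eq_mul_inv_iff_mul_eq]
    apply T_ext4
    · simp [e_mul, dd]
    · simp [e_mul, dd]
      linear_combination (-(p : R p n) * p * t') * hr2 + ((p : R p n) * r * (1 + p)) * ht'
    · simp [e_mul, dd]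
    · simp [e_mul, dd]
  rw [h1, h4]
  simp only [map_mul, map_inv]
  exact comm_mem _ _

/-- the `p`-th powers of the generators lie in the commutator subgroup -/
theorem X_pow_mem (i : Fin m) : (X i : G p n m) ^ p ∈ commutator (G p n m) := by
  have h1 : (X i : G p n m) ^ p = iN (Pi.single i (p : R p n)) 0 0 := by
    have h2 : (iN (Pi.single i (p : R p n)) 0 0 : G p n m) =
      iA (Multiplicative.ofAdd (Pi.single i (p : R p n))) := rfl
    have h3 : Multiplicative.ofAdd (Pi.single i (p : R p n) : Fin m → R p n) =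
        (Multiplicative.ofAdd (Pi.single i (1 : R p n) : Fin m → R p n)) ^ p := by
      rw [← ofAdd_nsmul, ← Pi.single_smul, nsmul_one]
    rw [h2, h3, map_pow]
    rfl
  rw [h1]
  exact pX_mem_comm i

end Pool.Agent.V1132.SmallAut
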