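import Pool.Agent.V1132.SmallAut4

/-!
# A finite `p`-group with few automorphisms: automorphisms
-/

set_option autoImplicit false

open Matrix

namespace Pool.Agent.V1132.SmallAut

variable {p n m : ℕ} [Fact p.Prime]

/-- the group as a product of sets -/
def equivProd : G p n m ≃ (Fin m → R p n) × (Fin m → R p n) × (Pr m → R p n) × T p n where
  toFun g := (g.a, g.b, g.z, g.s)
  invFun x := ⟨x.1, x.2.1, x.2.2.1, x.2.2.2⟩
  left_inv _ := rfl
  right_inv _ := rfl

instance : Finite (SpecialLinearGroup (Fin 2) (R p n)) :=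
  Finite.of_injective (fun s => s.1) Subtype.val_injective

instance : Finite (T p n) := inferInstance

instance : Finite (G p n m) := Finite.of_equiv _ equivProd.symm

instance : Finite (MulAut (G p n m)) :=
  Finite.of_injective (fun α : MulAut (G p n m) => (α : G p n m → G p n m)) DFunLike.coe_injective

/-- forget the centre -/
def pr (g : G p n m) : (Fin m → R p n) × (Fin m → R p n) × T p n := (g.a, g.b, g.s)

theorem pr_eq_iff (hp : 5 ≤ p) (hm : 2 ≤ m) (x y : G p n m) :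
    pr x = pr y ↔ x⁻¹ * y ∈ Subgroup.center (G p n m) := by
  constructor
  · intro h
    have ha : x.a = y.a := congrArg (fun t => t.1) h
    have hb : x.b = y.b := congrArg (fun t => t.2.1) h
    have hs : x.s = y.s := congrArg (fun t => t.2.2) h
    rw [mem_center_iff hp hm]
    refine ⟨?_, ?_, ?_⟩
    · rw [G.mul_a, G.inv_a, G.inv_s, ha, hb]; simp
    · rw [G.mul_b, G.inv_b, G.inv_s, ha, hb]; simp
    · rw [G.mul_s, G.inv_s, hs]; simp
  · intro h
    obtain ⟨c, rfl⟩ : ∃ c, y = x * c := ⟨x⁻¹ * y, by group⟩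
    rw [inv_mul_cancel_left, mem_center_iff hp hm] at h
    unfold pr
    rw [G.mul_a, G.mul_b, G.mul_s, h.1, h.2.1, h.2.2]
    have h1 : actA x.s (0 : Fin m → R p n) 0 = 0 := by ext i; simp [actA]
    have h2 : actB x.s (0 : Fin m → R p n) 0 = 0 := by ext i; simp [actB]
    rw [h1, h2, add_zero, add_zero, mul_one]

/-- the elements moved by `γ` only by central elements -/
def mov (γ : MulAut (G p n m)) : Subgroup (G p n m) where
  carrier := {x | x⁻¹ * γ x ∈ Subgroup.center (G p n m)}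
  one_mem' := by
    change (1 : G p n m)⁻¹ * γ 1 ∈ Subgroup.center (G p n m)
    rw [map_one, inv_one, one_mul]; exact Subgroup.one_mem _
  mul_mem' := by
    intro x y hx hy
    change (x * y)⁻¹ * γ (x * y) ∈ Subgroup.center (G p n m)
    change x⁻¹ * γ x ∈ Subgroup.center (G p n m) at hx
    have h1 : (x * y)⁻¹ * γ (x * y) = (x⁻¹ * γ x) * (y⁻¹ * γ y) := by
      have h2 := Subgroup.mem_center_iff.mp hx y⁻¹
      rw [map_mul]
      calc (x * y)⁻¹ * (γ x * γ y) = y⁻¹ * (x⁻¹ * γ x) * γ y := by group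
        _ = (x⁻¹ * γ x) * y⁻¹ * γ y := by rw [h2]
        _ = _ := by group
    rw [h1]
    exact Subgroup.mul_mem _ hx hy
  inv_mem' := by
    intro x hx
    change (x⁻¹)⁻¹ * γ x⁻¹ ∈ Subgroup.center (G p n m)
    change x⁻¹ * γ x ∈ Subgroup.center (G p n m) at hx
    have h1 : (x⁻¹)⁻¹ * γ x⁻¹ = (x⁻¹ * γ x)⁻¹ := by
      have h2 := Subgroup.mem_center_iff.mp (Subgroup.inv_mem _ hx) x
      rw [map_inv]
      calc (x⁻¹)⁻¹ * (γ x)⁻¹ = x * (x⁻¹ * γ x)⁻¹ * x⁻¹ := by group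
        _ = (x⁻¹ * γ x)⁻¹ * x * x⁻¹ := by rw [h2]
        _ = _ := by group
    rw [h1]
    exact Subgroup.inv_mem _ hx

theorem mem_mov (γ : MulAut (G p n m)) (x : G p n m) :
    x ∈ mov γ ↔ x⁻¹ * γ x ∈ Subgroup.center (G p n m) := Iff.rfl

theorem center_map (γ : MulAut (G p n m)) {x : G p n m} (h : x ∈ Subgroup.center (G p n m)) :
    γ x ∈ Subgroup.center (G p n m) := by
  rw [Subgroup.mem_center_iff] at h ⊢
  intro g
  obtain ⟨g', rfl⟩ := γ.surjective g
  rw [← map_mul, ← map_mul, h]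

theorem mem_mov_inv_mul {γ δ : MulAut (G p n m)} {x : G p n m} (h1 : x ∈ mov γ) (h2 : x ∈ mov δ) :
    x ∈ mov (γ⁻¹ * δ) := by
  rw [mem_mov] at *
  have h3 : (γ x)⁻¹ * δ x ∈ Subgroup.center (G p n m) := by
    have h4 : (γ x)⁻¹ * δ x = (x⁻¹ * γ x)⁻¹ * (x⁻¹ * δ x) := by group
    rw [h4]
    exact Subgroup.mul_mem _ (Subgroup.inv_mem _ h1) h2
  have h5 := center_map γ⁻¹ h3
  have h6 : γ⁻¹ ((γ x)⁻¹ * δ x) = x⁻¹ * (γ⁻¹ * δ) x := by
    rw [map_mul, map_inv, MulAut.inv_apply_self]; rfl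
  rwa [h6] at h5

theorem mem_mov_of_eq (hp : 5 ≤ p) (hm : 2 ≤ m) {γ δ : MulAut (G p n m)} {x : G p n m}
    (h : pr (γ x) = pr (δ x)) : x ∈ mov (γ⁻¹ * δ) := by
  rw [pr_eq_iff hp hm] at h
  have h5 := center_map γ⁻¹ h
  have h6 : γ⁻¹ ((γ x)⁻¹ * δ x) = x⁻¹ * (γ⁻¹ * δ) x := by
    rw [map_mul, map_inv, MulAut.inv_apply_self]; rfl
  rwa [h6] at h5

/-- the automorphisms fixing `uP`, `uM` modulo the centre -/
def P1 (p n m : ℕ) [Fact p.Prime] : Set (MulAut (G p n m)) := {γ | uP ∈ mov γ ∧ uM ∈ mov γ}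

/-- the central automorphisms -/
def P2 (p n m : ℕ) [Fact p.Prime] : Set (MulAut (G p n m)) := {γ | mov γ = ⊤}

theorem center_le_K (hp : 5 ≤ p) (hm : 2 ≤ m) : Subgroup.center (G p n m) ≤ K p n m := by
  intro x hx i
  rw [((mem_center_iff hp hm x).mp hx).1]
  simp

theorem K_map (hp : 5 ≤ p) (hm : 2 ≤ m) {γ : MulAut (G p n m)} (hγ : γ ∈ P1 p n m) {x : G p n m}
    (hx : x ∈ K p n m) : γ x ∈ K p n m := by
  have h1 : K p n m ≤ (K p n m).comap (γ : G p n m →* G p n m) := by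
    refine (K_le hp).trans (sup_le ?_ ?_)
    · rw [Subgroup.closure_le]
      rintro _ (rfl | rfl)
      · change γ uP ∈ K p n m
        have h2 : γ uP = uP * (uP⁻¹ * γ uP) := by group
        rw [h2]
        exact Subgroup.mul_mem _ (le_K ((le_sup_left : _ ≤ _ ⊔ commutator (G p n m))
          (Subgroup.subset_closure (Or.inl rfl)))) (center_le_K hp hm hγ.1)
      · change γ uM ∈ K p n m
        have h2 : γ uM = uM * (uM⁻¹ * γ uM) := by group
        rw [h2]
        exact Subgroup.mul_mem _ (le_K ((le_sup_left : _ ≤ _ ⊔ commutator (G p n m))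
          (Subgroup.subset_closure (Or.inr rfl)))) (center_le_K hp hm hγ.2)
    · have h3 : (commutator (G p n m)).comap (γ : G p n m →* G p n m) = commutator (G p n m) :=
        (inferInstance : (commutator (G p n m)).Characteristic).fixed γ
      rw [← h3]
      exact Subgroup.comap_mono commutator_le_K
  exact h1 hx

/-- the possible images of the generators `X i` modulo the centre -/
def Dset (p n m : ℕ) [Fact p.Prime] : Set ((Fin m → R p n) × (Fin m → R p n) × T p n) :=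
  {d | e d.2.2 0 0 = 1 ∧ e d.2.2 0 1 = 0 ∧ (p : R p n) * e d.2.2 1 0 = 0 ∧ e d.2.2 1 1 = 1 ∧
      (∀ i, (p : R p n) * d.2.1 i = 0) ∧ ∃ j, ∀ k, k ≠ j → d.1 k = 0}

theorem X_commute_uP (i : Fin m) : (X i : G p n m) * uP = uP * X i := by
  have h := iT_conj (uu 1 : T p n) (X i : G p n m)
  rw [mul_inv_eq_iff_eq_mul] at h
  change uP * X i = _ * uP at h
  rw [h]
  congr 1
  ext1
  · ext j; simp [X_eq, iN, actA]
  · ext j; simp [X_eq, iN, actB]
  · rfl
  · simp [X_eq, iN]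

theorem X_commute_conj (i : Fin m) :
    (X i : G p n m) * (uM * X i * uM⁻¹) = (uM * X i * uM⁻¹) * X i := by
  have h : uM * X i * uM⁻¹ = (Y i * X i : G p n m) := by
    rw [← conj_uM_X i]; group
  have h2 : (Y i * X i : G p n m) = X i * Y i := by
    rw [X_eq, Y_eq, iN_mul, iN_mul]
    congr 1
    · simp
    · simp
    · simp only [B, mu_single_single_same]
      ext q
      simp [mu]
  rw [h, h2, mul_assoc, h2]

theorem image_X (hp : 5 ≤ p) (hm : 2 ≤ m) {γ : MulAut (G p n m)} (hγ : γ ∈ P1 p n m) (i : Fin m) :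
    pr (γ (X i)) ∈ Dset p n m := by
  have hc1 : ∀ x : G p n m, x * (uP⁻¹ * γ uP) = (uP⁻¹ * γ uP) * x :=
    Subgroup.mem_center_iff.mp hγ.1
  have hc2 : ∀ x : G p n m, x * (uM⁻¹ * γ uM) = (uM⁻¹ * γ uM) * x :=
    Subgroup.mem_center_iff.mp hγ.2
  have h1 : γ (X i) * uP = uP * γ (X i) := by
    have h3 := congrArg γ (X_commute_uP (p := p) (n := n) i)
    rw [map_mul, map_mul] at h3
    set c := uP⁻¹ * γ uP with hc
    have h4 : γ uP = c * uP := by rw [← hc1 uP, hc]; group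
    rw [h4] at h3
    have h6 : c * (γ (X i) * uP) = c * (uP * γ (X i)) := by
      rw [← mul_assoc, ← hc1, mul_assoc, h3, mul_assoc]
    exact mul_left_cancel h6
  have h2 : γ (X i) * (uM * γ (X i) * uM⁻¹) = (uM * γ (X i) * uM⁻¹) * γ (X i) := by
    have h3 : γ (X i) * γ (uM * X i * uM⁻¹) = γ (uM * X i * uM⁻¹) * γ (X i) := by
      rw [← map_mul, ← map_mul, X_commute_conj]
    have h5 : γ (uM * X i * uM⁻¹) = uM * γ (X i) * uM⁻¹ := by
      rw [map_mul, map_mul, map_inv]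
      have h4 : γ uM = uM * (uM⁻¹ * γ uM) := by group
      rw [h4]
      calc uM * (uM⁻¹ * γ uM) * γ (X i) * (uM * (uM⁻¹ * γ uM))⁻¹
          = uM * ((uM⁻¹ * γ uM) * γ (X i)) * (uM⁻¹ * γ uM)⁻¹ * uM⁻¹ := by group
        _ = uM * (γ (X i) * (uM⁻¹ * γ uM)) * (uM⁻¹ * γ uM)⁻¹ * uM⁻¹ := by rw [hc2]
        _ = _ := by group
    rw [h5] at h3
    exact h3
  have h3 : γ (X i) ∉ K p n m := by
    intro h
    have hinv : γ⁻¹ ∈ P1 p n m := by
      have h4 : (1 : MulAut (G p n m)) ∈ P1 p n m := by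
        constructor <;> rw [mem_mov] <;> simp
      refine ⟨?_, ?_⟩
      · have := mem_mov_inv_mul hγ.1 h4.1
        rwa [mul_one] at this
      · have := mem_mov_inv_mul hγ.2 h4.2
        rwa [mul_one] at this
    have h5 := K_map hp hm hinv h
    rw [MulAut.inv_apply_self] at h5
    exact X_not_mem_K i h5
  exact key hp (γ (X i)) h1 h2 h3

/-- the possible central displacements of the generators -/
def W (p n m : ℕ) : Set (Pr m → R p n) := {z | ∀ q, (p : R p n) * z q = 0}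

theorem central_fixes {γ : MulAut (G p n m)} (hγ : γ ∈ P2 p n m) {x : G p n m}
    (hx : x ∈ commutator (G p n m)) : γ x = x := by
  have hall : ∀ x : G p n m, x⁻¹ * γ x ∈ Subgroup.center (G p n m) := fun x => by
    rw [← mem_mov, (hγ : mov γ = ⊤)]; exact Subgroup.mem_top _
  let L : Subgroup (G p n m) := (γ : G p n m →* G p n m).eqLocus (MonoidHom.id _)
  have hL : commutator (G p n m) ≤ L := by
    unfold commutator
    rw [Subgroup.commutator_le]
    intro g _ h _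
    rw [commutatorElement_def]
    change γ (g * h * g⁻¹ * h⁻¹) = g * h * g⁻¹ * h⁻¹
    rw [map_mul, map_mul, map_mul, map_inv, map_inv]
    have hg := Subgroup.mem_center_iff.mp (hall g)
    have hh := Subgroup.mem_center_iff.mp (hall h)
    set c := g⁻¹ * γ g with hc
    set d := h⁻¹ * γ h with hd
    have h1 : γ g = g * c := by rw [hc]; group
    have h2 : γ h = h * d := by rw [hd]; group
    rw [h1, h2]
    calc g * c * (h * d) * (g * c)⁻¹ * (h * d)⁻¹
        = g * (c * h) * (d * c⁻¹) * g⁻¹ * d⁻¹ * h⁻¹ := by group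
      _ = g * (h * c) * (d * c⁻¹) * g⁻¹ * d⁻¹ * h⁻¹ := by rw [hg h]
      _ = g * h * ((c * d) * c⁻¹) * g⁻¹ * d⁻¹ * h⁻¹ := by group
      _ = g * h * ((d * c) * c⁻¹) * g⁻¹ * d⁻¹ * h⁻¹ := by rw [hg d]
      _ = g * h * (d * g⁻¹) * d⁻¹ * h⁻¹ := by group
      _ = g * h * (g⁻¹ * d) * d⁻¹ * h⁻¹ := by rw [hh g⁻¹]
      _ = g * h * g⁻¹ * h⁻¹ := by group
  exact hL hx

theorem displacement (hp : 5 ≤ p) (hm : 2 ≤ m) {γ : MulAut (G p n m)} (hγ : γ ∈ P2 p n m)
    {x : G p n m} (hx : x ^ p ∈ commutator (G p n m)) : (x⁻¹ * γ x).z ∈ W p n m := by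
  have hall : x⁻¹ * γ x ∈ Subgroup.center (G p n m) := by
    rw [← mem_mov, (hγ : mov γ = ⊤)]; exact Subgroup.mem_top _
  have h1 := central_fixes hγ hx
  obtain ⟨ha, hb, hs⟩ := (mem_center_iff hp hm _).mp hall
  have hc := Subgroup.mem_center_iff.mp hall
  set c := x⁻¹ * γ x with hcdef
  have h2 : c ^ p = 1 := by
    have h5 : γ x = x * c := by rw [hcdef]; group
    have h6 : Commute x c := hc x
    rw [map_pow, h5, h6.mul_pow] at h1
    exact mul_eq_left.mp h1
  have h3 : c = iZ (Multiplicative.ofAdd c.z) := by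
    rw [iZ_eq]; ext1 <;> simp [iN, ha, hb, hs]
  rw [h3, ← map_pow, ← ofAdd_nsmul] at h2
  intro q
  have h4 := congrFun (congrArg G.z h2) q
  rw [iZ_eq] at h4
  simpa [iN] using h4

theorem P2_ext (hp : 5 ≤ p) (hm : 2 ≤ m) {γ δ : MulAut (G p n m)} (hγ : γ ∈ P2 p n m)
    (hδ : δ ∈ P2 p n m) (h1 : (uP⁻¹ * γ uP).z = (uP⁻¹ * δ uP).z)
    (h2 : (uM⁻¹ * γ uM).z = (uM⁻¹ * δ uM).z)
    (h3 : ∀ i, ((X i)⁻¹ * γ (X i)).z = ((X i)⁻¹ * δ (X i)).z) : γ = δ := by
  have hall : ∀ {γ : MulAut (G p n m)}, γ ∈ P2 p n m → ∀ x : G p n m,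
      x⁻¹ * γ x ∈ Subgroup.center (G p n m) := fun hγ x => by
    rw [← mem_mov, (hγ : mov _ = ⊤)]; exact Subgroup.mem_top _
  have key2 : ∀ x : G p n m, (x⁻¹ * γ x).z = (x⁻¹ * δ x).z → γ x = δ x := by
    intro x hx
    obtain ⟨ha, hb, hs⟩ := (mem_center_iff hp hm _).mp (hall hγ x)
    obtain ⟨ha', hb', hs'⟩ := (mem_center_iff hp hm _).mp (hall hδ x)
    have : x⁻¹ * γ x = x⁻¹ * δ x := by
      ext1
      · rw [ha, ha']
      · rw [hb, hb']
      · exact hx
      · rw [hs, hs']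
    exact mul_left_cancel this
  have h4 : Set.EqOn γ δ ({uP, uM} ∪ Set.range X : Set (G p n m)) := by
    rintro x ((rfl | rfl) | ⟨i, rfl⟩)
    · exact key2 _ h1
    · exact key2 _ h2
    · exact key2 _ (h3 i)
  have h5 : (γ : G p n m →* G p n m) = (δ : G p n m →* G p n m) :=
    MonoidHom.eq_of_eqOn_dense (closure_eq_top hp) h4
  ext1 x
  exact DFunLike.congr_fun h5 x

end Pool.Agent.V1132.SmallAut
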