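import Pool.Agent.V1132.SmallAut5

/-!
# A finite `p`-group with few automorphisms: counting
-/

set_option autoImplicit false

open Matrix

namespace Pool.Agent.V1132.SmallAut

theorem card_le {A B : Type*} [Group A] [Finite A] [Finite B] (f : A → B) (P Q : Set A)
    (D : Set B) (hD : ∀ α ∈ P, f α ∈ D)
    (h : ∀ α ∈ P, ∀ β ∈ P, f α = f β → α⁻¹ * β ∈ Q) :
    Nat.card P ≤ Nat.card D * Nat.card Q := by
  classical
  let rep : B → A := fun b => if h : ∃ α ∈ P, f α = b then h.choose else 1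
  have hrep : ∀ α ∈ P, rep (f α) ∈ P ∧ f (rep (f α)) = f α := by
    intro α hα
    have h1 : ∃ β ∈ P, f β = f α := ⟨α, hα, rfl⟩
    simp only [rep, dif_pos h1]
    exact h1.choose_spec
  rw [← Nat.card_prod]
  refine Nat.card_le_card_of_injective (fun α : P => ((⟨f α.1, hD α.1 α.2⟩ : D),
    (⟨(rep (f α.1))⁻¹ * α.1, h _ (hrep α.1 α.2).1 _ α.2 (hrep α.1 α.2).2⟩ : Q))) ?_
  intro α β hαβ
  have h1 : f α.1 = f β.1 := congrArg (fun x : D × Q => x.1.1) hαβ
  have h2 : (rep (f α.1))⁻¹ * α.1 = (rep (f β.1))⁻¹ * β.1 := congrArg (fun x : D × Q => x.2.1) hαβ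
  rw [h1] at h2
  exact Subtype.ext (mul_left_cancel h2)

variable {p n m : ℕ} [Fact p.Prime]

theorem card_R : Nat.card (R p n) = p ^ (n + 1) := Nat.card_zmod _

/-- the annihilator of `p` -/
def Ann (p n : ℕ) : Set (R p n) := {x | (p : R p n) * x = 0}

theorem card_Ann : Nat.card (Ann p n) ≤ p := by
  classical
  have h1 := IsAddCyclic.card_nsmul_eq_zero_le (α := R p n) (n := p) (Fact.out : p.Prime).pos
  have h2 : Nat.card (Ann p n) = (Finset.univ.filter fun a : R p n => p • a = 0).card := by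
    rw [Nat.card_eq_fintype_card, ← Set.toFinset_card]
    congr 1
    ext x
    simp [Ann, nsmul_eq_mul]
  rw [h2]
  exact h1

theorem card_T_le : Nat.card (T p n) ≤ (p ^ (n + 1)) ^ 4 := by
  have h1 : Nat.card (R p n × R p n × R p n × R p n) = (p ^ (n + 1)) ^ 4 := by
    rw [Nat.card_prod, Nat.card_prod, Nat.card_prod, card_R]; ring
  rw [← h1]
  refine Nat.card_le_card_of_injective (fun s : T p n => (e s 0 0, e s 0 1, e s 1 0, e s 1 1)) ?_
  intro s t h
  simp only [Prod.mk.injEq] at h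
  exact T_ext4 h.1 h.2.1 h.2.2.1 h.2.2.2

theorem card_T : ∃ k : ℕ, Nat.card (T p n) = p ^ k := by
  let I : AddSubgroup (R p n) := (red p n).toAddMonoidHom.ker
  have hI : ∀ x : R p n, x ∈ I ↔ red p n x = 0 := fun x => Iff.rfl
  obtain ⟨k, hk⟩ : ∃ k, Nat.card I = p ^ k := by
    have h1 : Nat.card I ∣ Nat.card (R p n) := AddSubgroup.card_addSubgroup_dvd_card I
    rw [card_R] at h1
    obtain ⟨k, _, hk⟩ := (Nat.dvd_prime_pow Fact.out).mp h1
    exact ⟨k, hk⟩
  have h1 : ∀ s : T p n, e s 0 0 - 1 ∈ I := fun s => by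
    rw [hI, map_sub, red_00, map_one, sub_self]
  let f : T p n → I × I × R p n := fun s => (⟨e s 0 0 - 1, h1 s⟩, ⟨e s 0 1, red_01 s⟩, e s 1 0)
  have hf : Function.Bijective f := by
    constructor
    · intro s t hst
      have h2 : e s 0 0 - 1 = e t 0 0 - 1 := congrArg (fun x : I × I × R p n => x.1.1) hst
      have h3 : e s 0 1 = e t 0 1 := congrArg (fun x : I × I × R p n => x.2.1.1) hst
      have h4 : e s 1 0 = e t 1 0 := congrArg (fun x : I × I × R p n => x.2.2) hst
      have h2 : e s 0 0 = e t 0 0 := by linear_combination h2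
      have hu : IsUnit (e t 0 0) := (isUnit_iff _).mpr (by rw [red_00]; exact one_ne_zero)
      have h5 := e_det s
      have h6 := e_det t
      rw [h2, h3, h4] at h5
      have h7 : e t 0 0 * e s 1 1 = e t 0 0 * e t 1 1 := by linear_combination h5 - h6
      exact T_ext4 h2 h3 h4 (hu.mul_left_cancel h7)
    · rintro ⟨⟨x, hx⟩, ⟨y, hy⟩, z⟩
      rw [hI] at hx hy
      have ht : red p n (1 + x) = 1 := by rw [map_add, map_one, hx, add_zero]
      obtain ⟨t', ht', hr⟩ := exists_inv ht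
      refine ⟨mkT (1 + x) y z ((1 + y * z) * t') ?_ ht hy ?_, ?_⟩
      · linear_combination (1 + y * z) * ht'
      · rw [map_mul, map_add, map_mul, map_one, hy, hr]; ring
      · simp only [f, mkT_00, mkT_01, mkT_10]
        congr 1
        exact Subtype.ext (by simp)
  refine ⟨k + k + (n + 1), ?_⟩
  rw [Nat.card_congr (Equiv.ofBijective f hf), Nat.card_prod, Nat.card_prod, hk, card_R]
  ring

theorem card_fun {ι : Type} [Fintype ι] {A : Type*} [Finite A] :
    Nat.card (ι → A) = Nat.card A ^ Fintype.card ι := by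
  rw [Nat.card_fun, Nat.card_eq_fintype_card (α := ι)]

theorem card_W : Nat.card (W p n m) ≤ p ^ Fintype.card (Pr m) := by
  have h1 : Nat.card (Pr m → Ann p n) ≤ p ^ Fintype.card (Pr m) := by
    rw [card_fun]
    exact Nat.pow_le_pow_left card_Ann _
  refine le_trans ?_ h1
  refine Nat.card_le_card_of_injective (fun z : W p n m => fun q => (⟨z.1 q, z.2 q⟩ : Ann p n)) ?_
  intro x y h
  apply Subtype.ext
  ext q
  exact congrArg Subtype.val (congrFun h q)

theorem card_Dset :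
    Nat.card (Dset p n m) ≤ m * (p ^ (n + 1) * (p ^ m * p)) := by
  have h1 : Nat.card (Fin m × R p n × (Fin m → Ann p n) × Ann p n) ≤
      m * (p ^ (n + 1) * (p ^ m * p)) := by
    rw [Nat.card_prod, Nat.card_prod, Nat.card_prod, card_fun, card_R, Nat.card_eq_fintype_card,
      Fintype.card_fin]
    exact Nat.mul_le_mul_left _ (Nat.mul_le_mul_left _ (Nat.mul_le_mul
      (Nat.pow_le_pow_left card_Ann _) card_Ann))
  refine le_trans ?_ h1
  choose j hj using fun d : Dset p n m => d.2.2.2.2.2.2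
  refine Nat.card_le_card_of_injective (fun d : Dset p n m => (j d, d.1.1 (j d),
    (fun i => (⟨d.1.2.1 i, d.2.2.2.2.2.1 i⟩ : Ann p n)),
    (⟨e d.1.2.2 1 0, d.2.2.2.1⟩ : Ann p n))) ?_
  intro d d' h
  simp only [Prod.mk.injEq] at h
  obtain ⟨h1, h2, h3, h4⟩ := h
  apply Subtype.ext
  refine Prod.ext ?_ (Prod.ext ?_ ?_)
  · ext k
    by_cases hk : k = j d
    · subst hk
      rw [h2, h1]
    · rw [hj d k hk, hj d' k (by rw [← h1]; exact hk)]
  · ext i
    exact congrArg Subtype.val (congrFun h3 i)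
  · apply T_ext4
    · rw [d.2.1, d'.2.1]
    · rw [d.2.2.1, d'.2.2.1]
    · exact congrArg Subtype.val h4
    · rw [d.2.2.2.2.1, d'.2.2.2.2.1]

theorem card_aut_le (hp : 5 ≤ p) (hm : 2 ≤ m) :
    Nat.card (MulAut (G p n m)) ≤ (((p ^ (n + 1)) ^ m * ((p ^ (n + 1)) ^ m * (p ^ (n + 1)) ^ 4)) *
      ((p ^ (n + 1)) ^ m * ((p ^ (n + 1)) ^ m * (p ^ (n + 1)) ^ 4))) *
      ((m * (p ^ (n + 1) * (p ^ m * p))) ^ m *
        (p ^ Fintype.card (Pr m) * (p ^ Fintype.card (Pr m) * (p ^ Fintype.card (Pr m)) ^ m))) := by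
  -- step 1
  have s1 := card_le (fun α : MulAut (G p n m) => (pr (α uP), pr (α uM))) Set.univ (P1 p n m)
    Set.univ (fun _ _ => Set.mem_univ _) (by
      intro α _ β _ h
      rw [Prod.mk.injEq] at h
      exact ⟨mem_mov_of_eq hp hm h.1, mem_mov_of_eq hp hm h.2⟩)
  -- step 2
  have s2 := card_le (fun (γ : MulAut (G p n m)) (i : Fin m) => pr (γ (X i))) (P1 p n m)
    (P2 p n m) {d | ∀ i, d i ∈ Dset p n m} (fun γ hγ i => image_X hp hm hγ i) (by
      intro α hα β hβ h
      change mov (α⁻¹ * β) = ⊤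
      rw [eq_top_iff, ← closure_eq_top hp, Subgroup.closure_le]
      rintro x ((rfl | rfl) | ⟨i, rfl⟩)
      · exact mem_mov_inv_mul hα.1 hβ.1
      · exact mem_mov_inv_mul hα.2 hβ.2
      · exact mem_mov_of_eq hp hm (congrFun h i))
  -- step 3
  have s3 : Nat.card (P2 p n m) ≤ Nat.card (W p n m × W p n m × (Fin m → W p n m)) := by
    refine Nat.card_le_card_of_injective (fun γ : P2 p n m =>
      ((⟨_, displacement hp hm γ.2 (uP_pow_mem hp)⟩ : W p n m),
       (⟨_, displacement hp hm γ.2 (uM_pow_mem hp)⟩ : W p n m),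
       (fun i => (⟨_, displacement hp hm γ.2 (X_pow_mem i)⟩ : W p n m)))) ?_
    intro γ δ h
    simp only [Prod.mk.injEq] at h
    apply Subtype.ext
    exact P2_ext hp hm γ.2 δ.2 (congrArg Subtype.val h.1) (congrArg Subtype.val h.2.1)
      (fun i => congrArg Subtype.val (congrFun h.2.2 i))
  have c1 : Nat.card (Set.univ : Set (((Fin m → R p n) × (Fin m → R p n) × T p n) ×
      ((Fin m → R p n) × (Fin m → R p n) × T p n))) ≤
      (((p ^ (n + 1)) ^ m * ((p ^ (n + 1)) ^ m * (p ^ (n + 1)) ^ 4)) *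
      ((p ^ (n + 1)) ^ m * ((p ^ (n + 1)) ^ m * (p ^ (n + 1)) ^ 4))) := by
    rw [Nat.card_congr (Equiv.Set.univ _), Nat.card_prod, Nat.card_prod, Nat.card_prod, card_fun,
      card_R, Fintype.card_fin]
    have := card_T_le (p := p) (n := n)
    gcongr
  have c2 : Nat.card {d : Fin m → (Fin m → R p n) × (Fin m → R p n) × T p n |
      ∀ i, d i ∈ Dset p n m} ≤ (m * (p ^ (n + 1) * (p ^ m * p))) ^ m := by
    have h1 : Nat.card {d : Fin m → (Fin m → R p n) × (Fin m → R p n) × T p n |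
      ∀ i, d i ∈ Dset p n m} = Nat.card (Fin m → Dset p n m) :=
      Nat.card_congr (Equiv.subtypePiEquivPi (p := fun (_ : Fin m) d => d ∈ Dset p n m))
    rw [h1, card_fun, Fintype.card_fin]
    exact Nat.pow_le_pow_left card_Dset _
  have c3 : Nat.card (W p n m × W p n m × (Fin m → W p n m)) ≤
      (p ^ Fintype.card (Pr m) * (p ^ Fintype.card (Pr m) * (p ^ Fintype.card (Pr m)) ^ m)) := by
    rw [Nat.card_prod, Nat.card_prod, card_fun, Fintype.card_fin]
    have := card_W (p := p) (n := n) (m := m)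
    gcongr
  rw [← Nat.card_congr (Equiv.Set.univ (MulAut (G p n m)))]
  refine s1.trans (Nat.mul_le_mul c1 (s2.trans (Nat.mul_le_mul c2 (s3.trans c3))))

end Pool.Agent.V1132.SmallAut
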