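import Pool.Agent.V1132.SmallAut6

/-!
# A finite `p`-group with few automorphisms: the estimate
-/

set_option autoImplicit false

open Matrix

namespace Pool.Agent.V1132.SmallAut

variable {p n m : ℕ} [Fact p.Prime]

theorem card_G (hm : 1 ≤ m) :
    ∃ k : ℕ, Nat.card (G p n m) = p ^ k ∧ (n + 1) * Fintype.card (Pr m) + 1 ≤ k := by
  obtain ⟨k, hk⟩ := card_T (p := p) (n := n)
  have h1 : 1 ≤ (n + 1) * m := Nat.mul_pos (by lia) hm
  refine ⟨(n + 1) * m + ((n + 1) * m + ((n + 1) * Fintype.card (Pr m) + k)), ?_, by lia⟩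
  rw [Nat.card_congr equivProd, Nat.card_prod, Nat.card_prod, Nat.card_prod, card_fun, card_fun,
    card_R, Fintype.card_fin, hk, ← pow_mul, ← pow_mul, ← pow_add, ← pow_add, ← pow_add]

theorem card_Pr_le : Fintype.card (Pr m) ≤ m * m := by
  refine (Fintype.card_subtype_le _).trans ?_
  rw [Fintype.card_prod, Fintype.card_fin]

theorem le_card_Pr (k : ℕ) : k * k ≤ Fintype.card (Pr (k + k)) := by
  have h : Fintype.card (Fin k × Fin k) = k * k := by rw [Fintype.card_prod, Fintype.card_fin]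
  rw [← h]
  refine Fintype.card_le_of_injective (fun x : Fin k × Fin k =>
    (⟨(Fin.castAdd k x.1, Fin.natAdd k x.2), by
      rw [Fin.lt_def, Fin.val_castAdd, Fin.val_natAdd]; lia⟩ : Pr (k + k))) ?_
  rintro ⟨x, y⟩ ⟨x', y'⟩ h
  simp only [Subtype.mk.injEq, Prod.mk.injEq, Fin.ext_iff, Fin.val_castAdd, Fin.val_natAdd] at h
  ext
  · exact h.1
  · simp only; lia

/-- the bound on the number of automorphisms, for `n` large -/
theorem card_aut_le' (hp : 5 ≤ p) (k : ℕ) (hk : 1 ≤ k) (hm : m = k + k)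
    (hn : n + 1 = m * m * m + 4 * (m * m) + m) :
    Nat.card (MulAut (G p n m)) ≤ p ^ ((n + 1) * (19 * k)) := by
  have hm2 : 2 ≤ m := by lia
  refine (card_aut_le hp hm2).trans ?_
  set N := n + 1 with hN
  set P := Fintype.card (Pr m) with hP
  have hP2 : P ≤ m * m := card_Pr_le
  have hmp : m ≤ p ^ m := (Nat.lt_pow_self (by lia)).le
  calc (((p ^ N) ^ m * ((p ^ N) ^ m * (p ^ N) ^ 4)) *
      ((p ^ N) ^ m * ((p ^ N) ^ m * (p ^ N) ^ 4))) *
      ((m * (p ^ N * (p ^ m * p))) ^ m * (p ^ P * (p ^ P * (p ^ P) ^ m)))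
      ≤ (((p ^ N) ^ m * ((p ^ N) ^ m * (p ^ N) ^ 4)) *
      ((p ^ N) ^ m * ((p ^ N) ^ m * (p ^ N) ^ 4))) *
      ((p ^ m * (p ^ N * (p ^ m * p))) ^ m * (p ^ P * (p ^ P * (p ^ P) ^ m))) := by
        gcongr
    _ = p ^ (N * (5 * m + 8) + (2 * (m * m) + m) + (m + 2) * P) := by ring
    _ ≤ p ^ (N * (19 * k)) := by
        refine Nat.pow_le_pow_right (by lia) ?_
        have h1 : (m + 2) * P ≤ (m + 2) * (m * m) := Nat.mul_le_mul_left _ hP2
        have h2 : (2 * (m * m) + m) + (m + 2) * (m * m) = N := by rw [hn]; ring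
        have h3 : N * (5 * m + 8) + N ≤ N * (19 * k) := by
          have h4 : N * (5 * m + 8) + N = N * (5 * m + 9) := by ring
          rw [h4]
          exact Nat.mul_le_mul_left _ (by lia)
        lia

/-- **Theorem.** -/
theorem main (p : ℕ) (hpp : p.Prime) (hp : 5 ≤ p) (a : ℝ) (ha : 0 < a) :
    ∃ (G : Type) (_ : Group G), Finite G ∧ IsPGroup p G ∧
      (Nat.card (MulAut G) : ℝ) < ((Nat.card G).totient : ℝ) ^ a := by
  have : Fact p.Prime := ⟨hpp⟩
  obtain ⟨k, hk⟩ := exists_nat_gt (19 / a)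
  have hk1 : 1 ≤ k := by
    rcases Nat.eq_zero_or_pos k with h | h
    · subst h
      have : 0 < 19 / a := by positivity
      norm_num at hk
      linarith
    · exact h
  let m := k + k
  let n := m * m * m + 4 * (m * m) + m - 1
  have hm1 : 2 ≤ m := by simp only [m]; lia
  have hn : n + 1 = m * m * m + 4 * (m * m) + m := by simp only [n]; lia
  refine ⟨G p n m, inferInstance, inferInstance, ?_, ?_⟩
  · obtain ⟨K, hK, _⟩ := card_G (p := p) (n := n) (m := m) (by lia)
    exact IsPGroup.iff_card.mpr ⟨K, hK⟩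
  · obtain ⟨K, hK, hK2⟩ := card_G (p := p) (n := n) (m := m) (by lia)
    have h1 := card_aut_le' (n := n) (m := m) hp k hk1 rfl hn
    have hP : k * k ≤ Fintype.card (Pr m) := le_card_Pr k
    have hK3 : (n + 1) * (k * k) + 1 ≤ K :=
      (Nat.add_le_add_right (Nat.mul_le_mul_left _ hP) 1).trans hK2
    -- the totient
    have h2 : p ^ (K - 1) * (p - 1) = (Nat.card (G p n m)).totient := by
      rw [hK, Nat.totient_prime_pow hpp (by lia)]
    have h3 : p ^ ((n + 1) * (k * k)) ≤ (Nat.card (G p n m)).totient := by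
      rw [← h2]
      calc p ^ ((n + 1) * (k * k)) ≤ p ^ (K - 1) := Nat.pow_le_pow_right (by lia) (by lia)
        _ = p ^ (K - 1) * 1 := (mul_one _).symm
        _ ≤ _ := Nat.mul_le_mul_left _ (by lia)
    have hp1 : (1 : ℝ) < p := by exact_mod_cast hpp.one_lt
    calc (Nat.card (MulAut (G p n m)) : ℝ) ≤ ((p ^ ((n + 1) * (19 * k)) : ℕ) : ℝ) := by
          exact_mod_cast h1
      _ = (p : ℝ) ^ (((n + 1) * (19 * k) : ℕ) : ℝ) := by
          rw [Real.rpow_natCast]; push_cast; rfl
      _ < (p : ℝ) ^ ((((n + 1) * (k * k) : ℕ) : ℝ) * a) := by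
          apply Real.rpow_lt_rpow_of_exponent_lt hp1
          have hk2 : 19 < k * a := by
            rw [div_lt_iff₀ ha] at hk
            exact hk
          push_cast
          have hn0 : (0 : ℝ) < (n : ℝ) + 1 := by positivity
          have hk0 : (0 : ℝ) < k := by exact_mod_cast hk1
          calc ((n : ℝ) + 1) * (19 * k) < ((n : ℝ) + 1) * ((k * a) * k) := by gcongr
            _ = ((n : ℝ) + 1) * (k * k) * a := by ring
      _ = ((p : ℝ) ^ (((n + 1) * (k * k) : ℕ) : ℝ)) ^ a := by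
          rw [← Real.rpow_mul (by positivity)]
      _ ≤ ((Nat.card (G p n m)).totient : ℝ) ^ a := by
          apply Real.rpow_le_rpow (by positivity) _ ha.le
          rw [Real.rpow_natCast]
          exact_mod_cast h3

end Pool.Agent.V1132.SmallAut
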