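import Pool.Agent.V1132.ThompsonGerm

/-!
# Automorphisms preserving the subgroup of elements trivial near `0`
-/

set_option autoImplicit false

namespace Pool.Agent.V1132.ThompsonGerm.Setup

open unitInterval

variable {G : Type*} [Group G] (S : Setup G)

/-- The automorphism `α` preserves the subgroup `N`. -/
def Pres (α : MulAut G) : Prop := ∀ f, α f ∈ S.N ↔ f ∈ S.N

variable {S}

theorem Pres.one : S.Pres 1 := fun _ => Iff.rfl

theorem Pres.mul {α β : MulAut G} (hα : S.Pres α) (hβ : S.Pres β) : S.Pres (α * β) := by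
  intro f
  rw [MulAut.mul_apply, hα, hβ]

theorem Pres.inv {α : MulAut G} (hα : S.Pres α) : S.Pres α⁻¹ := by
  intro f
  rw [← hα, MulAut.apply_inv_self]

theorem Pres.pow {α : MulAut G} (hα : S.Pres α) (n : ℕ) : S.Pres (α ^ n) := by
  induction n with
  | zero => rw [pow_zero]; exact Pres.one
  | succ n ih => rw [pow_succ]; exact ih.mul hα

theorem chi_map {α : MulAut G} (hα : S.Pres α) (f : G) :
    S.chi (α f) = S.chi (α S.z) * S.chi f := by
  have h1 : f * S.z ^ (-S.chi f) ∈ S.N := by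
    rw [mem_N, chi_mul, chi_zpow, chi_z]; ring
  have h2 := (hα _).2 h1
  rw [map_mul, map_zpow, mem_N, chi_mul, chi_zpow] at h2
  linarith

theorem image_A0 {α : MulAut G} (hα : S.Pres α) :
    ∃ d : I, 0 < d ∧ ∀ f, S.A 0 f → IdBelow (S.ρ (α f)) d := by
  have h1 : α S.u ∉ S.N := by
    rw [hα]; exact S.u_notMem
  obtain ⟨d, hd, h2⟩ := S.no_fix h1
  refine ⟨d, hd, fun f hf => ?_⟩
  refine propagate (S.mem_N_iff.1 ((hα f).2 (S.A_mem_N hf))) (fun x hx0 hx => ?_)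
  refine ⟨S.ρ (α S.u), ?_, h2 x hx0 hx⟩
  rw [← map_mul, ← map_mul, ← map_mul, ← map_mul, S.A_commute_u hf]

theorem image_A {α : MulAut G} (hα : S.Pres α) :
    ∃ d : I, 0 < d ∧ ∀ (m : ℤ) (f : G), S.A m f →
      IdBelow (S.ρ (α f)) ((S.ρ (α S.z) ^ m) d) := by
  obtain ⟨d, hd, h⟩ := image_A0 hα
  refine ⟨d, hd, fun m f hf => ?_⟩
  have h1 := S.A_conj (-m) hf
  rw [neg_add_cancel] at h1
  have h2 := IdBelow.conj (h _ h1) (S.ρ (α S.z) ^ m)
  have h3 : S.ρ (α S.z) ^ m * S.ρ (α (S.z ^ (-m) * f * (S.z ^ (-m))⁻¹)) * (S.ρ (α S.z) ^ m)⁻¹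
      = S.ρ (α f) := by
    simp only [map_mul, map_zpow, map_inv]
    group
  rwa [h3] at h2

theorem pres_chi_z {α : MulAut G} (hα : S.Pres α) : S.chi (α S.z) = 1 := by
  have h1 : S.chi (α S.z) * S.chi (α⁻¹ S.z) = 1 := by
    rw [← chi_map hα, MulAut.apply_inv_self, chi_z]
  rcases Int.eq_one_or_neg_one_of_mul_eq_one h1 with h | h
  · exact h
  · exfalso
    obtain ⟨d, hd, hA⟩ := image_A hα
    obtain ⟨d₁, hd₁, hw⟩ := S.near_chi (α S.z)
    rw [h] at hw
    obtain ⟨ε, hε, hε'⟩ := exists_between (lt_min hd hd₁)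
    rw [lt_min_iff] at hε'
    have hstep : ε ≤ S.ρ (α S.z) ε := by
      rw [hw ε hε'.2]
      have := S.zanti' ε (by norm_num : (-1 : ℤ) ≤ 0)
      simpa using this
    have hpow : ∀ m : ℕ, ε ≤ (S.ρ (α S.z) ^ m) ε := by
      intro m
      induction m with
      | zero => simp
      | succ m ih =>
        rw [pow_succ, RelIso.mul_apply]
        exact ih.trans ((S.ρ (α S.z) ^ m).monotone hstep)
    obtain ⟨n, hn⟩ := S.orbit_lt S.ht1 hε
    obtain ⟨hw1, hw2⟩ := S.w_conj n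
    set f' := S.z ^ (n : ℤ) * S.w * (S.z ^ (n : ℤ))⁻¹ with hf'
    have h3 : α⁻¹ f' ∈ S.N := by
      rw [hα.inv]; exact S.A_mem_N hw1
    obtain ⟨m, hm⟩ := S.exists_A h3
    have h4 := hA m _ hm
    rw [MulAut.apply_inv_self] at h4
    refine hw2 ε (by rwa [zpow_natCast]) (h4.mono ?_)
    rw [zpow_natCast]
    exact (hpow m).trans ((S.ρ (α S.z) ^ m).monotone hε'.1.le)

theorem chi_pres {α : MulAut G} (hα : S.Pres α) (f : G) : S.chi (α f) = S.chi f := by
  rw [chi_map hα, pres_chi_z hα, one_mul]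

variable (S)

/-- The growth set of an automorphism. -/
def D (α : MulAut G) (n : ℤ) : Prop := ∃ m₀ : ℤ, ∀ m, m₀ ≤ m → ∀ f, S.A m f → S.A (m + n) (α f)

variable {S}

theorem D_exists {α : MulAut G} (hα : S.Pres α) : ∃ n, S.D α n := by
  obtain ⟨d, hd, hA⟩ := image_A hα
  obtain ⟨d₁, hd₁, hw⟩ := S.near_chi (α S.z)
  rw [pres_chi_z hα] at hw
  simp only [zpow_one] at hw
  obtain ⟨ε, hε, hε'⟩ := exists_between (lt_min hd hd₁)
  rw [lt_min_iff] at hε'
  have hpow : ∀ m : ℕ, ∀ x, x < d₁ → (S.ρ (α S.z) ^ m) x = (S.ρ S.z ^ m) x := by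
    intro m
    induction m with
    | zero => simp
    | succ m ih =>
      intro x hx
      rw [pow_succ, pow_succ, RelIso.mul_apply, RelIso.mul_apply, hw x hx]
      apply ih
      have := S.zanti' x (by norm_num : (0 : ℤ) ≤ 1)
      simp only [zpow_one, zpow_zero, RelIso.one_apply] at this
      exact this.trans_lt hx
  obtain ⟨n, hn⟩ := S.orbit_lt S.ht1 hε
  refine ⟨n, 0, fun m hm f hf => ?_⟩
  lift m to ℕ using hm
  refine (hA m f hf).mono ?_
  rw [zpow_add, RelIso.mul_apply, zpow_natCast, zpow_natCast, zpow_natCast]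
  calc (S.ρ S.z ^ m) ((S.ρ S.z ^ n) S.t) ≤ (S.ρ S.z ^ m) ε := (S.ρ S.z ^ m).monotone hn.le
    _ = (S.ρ (α S.z) ^ m) ε := (hpow m ε hε'.2).symm
    _ ≤ (S.ρ (α S.z) ^ m) d := (S.ρ (α S.z) ^ m).monotone hε'.1.le

theorem D_mul {α β : MulAut G} {a b : ℤ} (hα : S.D α a) (hβ : S.D β b) :
    S.D (α * β) (a + b) := by
  obtain ⟨m₁, h₁⟩ := hα
  obtain ⟨m₂, h₂⟩ := hβ
  refine ⟨max m₂ (m₁ - b), fun m hm f hf => ?_⟩
  rw [max_le_iff] at hm
  have h3 := h₁ (m + b) (by lia) _ (h₂ m hm.1 f hf)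
  rw [MulAut.mul_apply]
  have h4 : m + (a + b) = m + b + a := by ring
  rw [h4]
  exact h3

theorem D_one {n : ℤ} (h : S.D 1 n) : 0 ≤ n := by
  obtain ⟨m, hm⟩ := h
  by_contra hn
  obtain ⟨h1, h2⟩ := S.w_conj m
  refine h2 _ ?_ (hm m le_rfl _ h1)
  exact S.zanti S.ht0 S.ht1 (by lia : m + n < m)

theorem D_conj (f : G) : S.D (MulAut.conj f) (S.chi f) := by
  obtain ⟨d, hd, h⟩ := S.near_chi f
  obtain ⟨n, hn⟩ := S.orbit_lt S.ht1 hd
  refine ⟨n, fun m hm e he => ?_⟩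
  have h1 := IdBelow.conj he (S.ρ f)
  have h2 : (S.ρ S.z ^ m) S.t < d := by
    refine lt_of_le_of_lt ?_ hn
    have := S.zanti' S.t hm
    simpa using this
  rw [h _ h2, ← RelIso.mul_apply, ← zpow_add, add_comm] at h1
  rw [MulAut.conj_apply, A]
  simpa using h1

/-- **Main lemma.** If `a` and `b` are automorphisms preserving `N` and their commutator is the
inner automorphism given by `f`, then `f` is trivial near `0`. -/
theorem chi_le_zero {a b : MulAut G} (ha : S.Pres a) (hb : S.Pres b) {f : G}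
    (hf : MulAut.conj f = a * b * a⁻¹ * b⁻¹) : S.chi f ≤ 0 := by
  by_contra hc
  rw [not_le] at hc
  obtain ⟨a₁, ha₁⟩ := D_exists ha
  obtain ⟨a₂, ha₂⟩ := D_exists ha.inv
  have hF : ∀ n : ℕ, ∃ F : G, S.chi F = n * S.chi f ∧
      MulAut.conj F * b ^ n = a * b ^ n * a⁻¹ := by
    intro n
    induction n with
    | zero => exact ⟨1, by simp [chi_one], by simp⟩
    | succ n ih =>
      obtain ⟨F, hF1, hF2⟩ := ih
      refine ⟨f * b F, ?_, ?_⟩
      · rw [chi_mul, chi_pres hb, hF1]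
        push_cast
        ring
      · have h1 : MulAut.conj (b F) = b * MulAut.conj F * b⁻¹ := by
          ext x
          simp [MulAut.conj_apply]
        rw [map_mul, h1, hf]
        have h2 : MulAut.conj F = a * b ^ n * a⁻¹ * (b ^ n)⁻¹ := by
          rw [← hF2]; group
        rw [h2]
        group
  obtain ⟨F, hF1, hF2⟩ := hF (a₁ + a₂ + 1).toNat
  set n := (a₁ + a₂ + 1).toNat with hn
  obtain ⟨e, he⟩ := D_exists (hb.pow n)
  obtain ⟨e', he'⟩ := D_exists (hb.pow n).inv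
  obtain ⟨δ, hδ, hmin⟩ := Int.exists_least_of_bdd (P := fun k => S.D (b ^ n) k) ⟨-e', fun k hk => by
    have := D_mul hk he'
    rw [mul_inv_cancel] at this
    have := D_one this
    lia⟩ ⟨e, he⟩
  have h1 := D_mul (D_conj (S := S) F⁻¹) (D_mul (D_mul ha₁ hδ) ha₂)
  rw [← hF2, map_inv, ← mul_assoc, inv_mul_cancel, one_mul, chi_inv, hF1] at h1
  have h2 := hmin _ h1
  have h3 : (n : ℤ) ≥ a₁ + a₂ + 1 := Int.self_le_toNat _
  nlinarith

theorem mem_N_of_commutator {a b : MulAut G} (ha : S.Pres a) (hb : S.Pres b) {f : G}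
    (hf : MulAut.conj f = a * b * a⁻¹ * b⁻¹) : f ∈ S.N := by
  rw [mem_N]
  apply le_antisymm (chi_le_zero ha hb hf)
  have h1 : MulAut.conj f⁻¹ = b * a * b⁻¹ * a⁻¹ := by
    rw [map_inv, hf]; group
  have h2 := chi_le_zero hb ha h1
  rw [chi_inv] at h2
  lia

end Pool.Agent.V1132.ThompsonGerm.Setup
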