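import Mathlib

/-!
# Thompson's group `F` as a group of piecewise-linear homeomorphisms of `[0,1]`
-/

set_option autoImplicit false

namespace Pool.Agent.V1132.Thompson

open unitInterval

/-- A real number is dyadic if it lies in `ℤ[1/2]`. -/
def IsDyadic (x : ℝ) : Prop := ∃ (a : ℤ) (n : ℕ), x = a / 2 ^ n

/-- `f` is affine with slope `2 ^ k` on the interval `[x, y]`. -/
def AffineOn (f : I ≃o I) (k : ℤ) (x y : I) : Prop :=
  ∀ u v : I, x ≤ u → u ≤ v → v ≤ y → (f v : ℝ) - f u = 2 ^ k * ((v : ℝ) - u)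

/-- The finite set `B` consists of dyadic rationals, and `f` is affine with slope an integer power
of `2` on each interval whose interior contains no point of `B`. -/
def BreaksIn (f : I ≃o I) (B : Finset I) : Prop :=
  (∀ b ∈ B, IsDyadic b) ∧
    ∀ x y : I, (∀ b ∈ B, ¬ (x < b ∧ b < y)) → ∃ k : ℤ, AffineOn f k x y

theorem IsDyadic.add {x y : ℝ} (hx : IsDyadic x) (hy : IsDyadic y) : IsDyadic (x + y) := by
  obtain ⟨a, n, rfl⟩ := hx
  obtain ⟨b, m, rfl⟩ := hy
  refine ⟨a * 2 ^ m + b * 2 ^ n, n + m, ?_⟩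
  push_cast
  field_simp
  ring

theorem IsDyadic.neg {x : ℝ} (hx : IsDyadic x) : IsDyadic (-x) := by
  obtain ⟨a, n, rfl⟩ := hx
  refine ⟨-a, n, ?_⟩
  push_cast
  ring

theorem IsDyadic.sub {x y : ℝ} (hx : IsDyadic x) (hy : IsDyadic y) : IsDyadic (x - y) := by
  rw [sub_eq_add_neg]
  exact hx.add hy.neg

theorem IsDyadic.mul_zpow {x : ℝ} (hx : IsDyadic x) (k : ℤ) : IsDyadic (2 ^ k * x) := by
  obtain ⟨a, n, rfl⟩ := hx
  rcases Int.eq_nat_or_neg k with ⟨m, rfl | rfl⟩
  · refine ⟨2 ^ m * a, n, ?_⟩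
    push_cast
    simp
    ring
  · refine ⟨a, n + m, ?_⟩
    rw [zpow_neg, zpow_natCast]
    field_simp
    ring

theorem isDyadic_mul_zpow_iff {x : ℝ} (k : ℤ) : IsDyadic (2 ^ k * x) ↔ IsDyadic x := by
  refine ⟨fun h => ?_, fun h => h.mul_zpow k⟩
  have := h.mul_zpow (-k)
  rwa [← mul_assoc, ← zpow_add₀ (by norm_num), neg_add_cancel, zpow_zero, one_mul] at this

theorem map_zero' (f : I ≃o I) : f 0 = 0 := by
  have : f ⊥ = ⊥ := map_bot f
  exact this

theorem map_one' (f : I ≃o I) : f 1 = 1 := by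
  have : f ⊤ = ⊤ := map_top f
  exact this

theorem isDyadic_zero : IsDyadic 0 := ⟨0, 0, by simp⟩

theorem BreaksIn.isDyadic_iff {f : I ≃o I} {B : Finset I} (h : BreaksIn f B) :
    ∀ (n : ℕ) (x : I), (B.filter (· < x)).card = n → (IsDyadic (f x) ↔ IsDyadic (x : ℝ)) := by
  intro n
  induction n using Nat.strong_induction_on with
  | _ n ih =>
    intro x hx
    have key : ∀ y : I, y ≤ x → (IsDyadic (f y) ∧ IsDyadic (y : ℝ)) →
        (∀ b ∈ B, ¬ (y < b ∧ b < x)) → (IsDyadic (f x) ↔ IsDyadic (x : ℝ)) := by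
      intro y hyx hy hb
      obtain ⟨k, hk⟩ := h.2 y x hb
      have h1 := hk y x le_rfl hyx le_rfl
      constructor
      · intro hfx
        have h2 : IsDyadic (2 ^ k * ((x : ℝ) - y)) := by
          rw [← h1]; exact hfx.sub hy.1
        rw [isDyadic_mul_zpow_iff] at h2
        have := h2.add hy.2
        simpa using this
      · intro hx'
        have h2 : IsDyadic (2 ^ k * ((x : ℝ) - y)) := (hx'.sub hy.2).mul_zpow k
        rw [← h1] at h2
        have := h2.add hy.1
        simpa using this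
    rcases (B.filter (· < x)).eq_empty_or_nonempty with h0 | h0
    · refine key 0 (unitInterval.nonneg x) ?_ ?_
      · rw [map_zero']
        simp only [Set.Icc.coe_zero]
        exact ⟨isDyadic_zero, isDyadic_zero⟩
      · rintro b hb ⟨-, h2⟩
        have : b ∈ B.filter (· < x) := Finset.mem_filter.2 ⟨hb, h2⟩
        rw [h0] at this
        simp at this
    · obtain ⟨b, hb, hmax⟩ := Finset.exists_max_image _ id h0
      rw [Finset.mem_filter] at hb
      have hbx : b < x := hb.2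
      have hbd : IsDyadic (b : ℝ) := h.1 b hb.1
      refine key b hbx.le ⟨?_, hbd⟩ ?_
      · rw [ih _ _ b rfl]
        · exact hbd
        · rw [← hx]
          apply Finset.card_lt_card
          rw [Finset.ssubset_iff_of_subset]
          · exact ⟨b, Finset.mem_filter.2 ⟨hb.1, hbx⟩, by simp⟩
          · intro c hc
            rw [Finset.mem_filter] at hc ⊢
            exact ⟨hc.1, hc.2.trans hbx⟩
      · rintro c hc ⟨h1, h2⟩
        have := hmax c (Finset.mem_filter.2 ⟨hc, h2⟩)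
        exact absurd h1 (not_lt.2 this)

theorem BreaksIn.isDyadic {f : I ≃o I} {B : Finset I} (h : BreaksIn f B) (x : I) :
    IsDyadic (f x) ↔ IsDyadic (x : ℝ) := h.isDyadic_iff _ x rfl

theorem AffineOn.mul {f g : I ≃o I} {k l : ℤ} {x y : I} (hf : AffineOn f k (g x) (g y))
    (hg : AffineOn g l x y) : AffineOn (f * g) (k + l) x y := by
  intro u v hu huv hv
  have h1 := hf (g u) (g v) (g.monotone hu) (g.monotone huv) (g.monotone hv)
  have h2 := hg u v hu huv hv
  rw [RelIso.mul_apply, RelIso.mul_apply, h1, h2, zpow_add₀ (by norm_num)]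
  ring

theorem AffineOn.inv {f : I ≃o I} {k : ℤ} {x y : I} (hf : AffineOn f k x y) :
    AffineOn f⁻¹ (-k) (f x) (f y) := by
  intro u v hu huv hv
  have hle : ∀ a b : I, a ≤ b → f⁻¹ a ≤ f⁻¹ b := fun a b hab => f.symm.monotone hab
  have hinv : ∀ a : I, f (f⁻¹ a) = a := fun a => f.apply_symm_apply a
  have hinv' : ∀ a : I, f⁻¹ (f a) = a := fun a => f.symm_apply_apply a
  have h1 := hf (f⁻¹ u) (f⁻¹ v) (by rw [← hinv' x]; exact hle _ _ hu) (hle _ _ huv)
    (by rw [← hinv' y]; exact hle _ _ hv)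
  rw [hinv, hinv] at h1
  rw [h1, ← mul_assoc, ← zpow_add₀ (by norm_num), neg_add_cancel, zpow_zero, one_mul]

theorem BreaksIn.one : BreaksIn 1 ∅ := by
  refine ⟨by simp, fun x y _ => ⟨0, fun u v _ _ _ => ?_⟩⟩
  simp

theorem BreaksIn.mul {f g : I ≃o I} {B C : Finset I} (hf : BreaksIn f B) (hg : BreaksIn g C) :
    ∃ D, BreaksIn (f * g) D := by
  classical
  have hinv : ∀ a : I, g (g⁻¹ a) = a := fun a => g.apply_symm_apply a
  refine ⟨C ∪ B.image (fun b => g⁻¹ b), ?_, ?_⟩
  · intro b hb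
    rw [Finset.mem_union, Finset.mem_image] at hb
    rcases hb with hb | ⟨c, hc, rfl⟩
    · exact hg.1 b hb
    · rw [← hg.isDyadic, hinv]
      exact hf.1 c hc
  · intro x y hxy
    obtain ⟨l, hl⟩ := hg.2 x y (fun b hb => hxy b (Finset.mem_union_left _ hb))
    obtain ⟨k, hk⟩ := hf.2 (g x) (g y) (fun b hb hb' => by
      refine hxy (g⁻¹ b) (Finset.mem_union_right _ (Finset.mem_image_of_mem _ hb)) ?_
      have h1 : g x < g (g⁻¹ b) ↔ x < g⁻¹ b := g.lt_iff_lt
      have h2 : g (g⁻¹ b) < g y ↔ g⁻¹ b < y := g.lt_iff_lt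
      rw [← h1, ← h2, hinv]
      exact hb')
    exact ⟨k + l, hk.mul hl⟩

theorem BreaksIn.inv {f : I ≃o I} {B : Finset I} (hf : BreaksIn f B) :
    ∃ D, BreaksIn f⁻¹ D := by
  classical
  have hinv : ∀ a : I, f (f⁻¹ a) = a := fun a => f.apply_symm_apply a
  refine ⟨B.image f, ?_, ?_⟩
  · intro b hb
    rw [Finset.mem_image] at hb
    obtain ⟨c, hc, rfl⟩ := hb
    rw [hf.isDyadic]
    exact hf.1 c hc
  · intro x y hxy
    obtain ⟨k, hk⟩ := hf.2 (f⁻¹ x) (f⁻¹ y) (fun b hb hb' => by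
      refine hxy (f b) (Finset.mem_image_of_mem _ hb) ?_
      rw [← hinv x, ← hinv y, f.lt_iff_lt, f.lt_iff_lt]
      exact hb')
    have := hk.inv
    rw [hinv, hinv] at this
    exact ⟨-k, this⟩

/-- **Thompson's group `F`**: the group of all orientation-preserving piecewise-linear
homeomorphisms of `[0,1]` with finitely many breakpoints, all of them dyadic rationals, and with all
slopes integer powers of `2`. -/
def thompsonF : Subgroup (I ≃o I) where
  carrier := {f | ∃ B : Finset I, BreaksIn f B}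
  one_mem' := ⟨∅, BreaksIn.one⟩
  mul_mem' := by
    rintro f g ⟨B, hB⟩ ⟨C, hC⟩
    exact hB.mul hC
  inv_mem' := by
    rintro f ⟨B, hB⟩
    exact hB.inv

theorem mem_thompsonF {f : I ≃o I} : f ∈ thompsonF ↔ ∃ B : Finset I, BreaksIn f B := Iff.rfl

end Pool.Agent.V1132.Thompson
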