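import Pool.Agent.V1132.ThompsonInt

/-!
# A group with two ends is not a derived subgroup
-/

set_option autoImplicit false

namespace Pool.Agent.V1132.ThompsonGerm

open unitInterval

section

variable {G H : Type*} [Group G] [Group H] (φ : commutator H ≃* G)

/-- The action of `H` on `G ≅ [H,H]` by conjugation. -/
noncomputable def theta : H →* MulAut G :=
  (MulAut.congr φ).toMonoidHom.comp (MulAut.conjNormal (H := commutator H))

theorem theta_apply (h : H) (y : commutator H) : theta φ h (φ y) = φ (MulAut.conjNormal h y) := by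
  change φ (MulAut.conjNormal h (φ.symm (φ y))) = _
  rw [φ.symm_apply_apply]

theorem theta_coe (c : commutator H) : theta φ (c : H) = MulAut.conj (φ c) := by
  ext g
  obtain ⟨y, rfl⟩ := φ.surjective g
  rw [theta_apply, MulAut.conj_apply, ← map_inv, ← map_mul, ← map_mul]
  congr 1

theorem commutator_mem_N {S : Setup G} {g h : H} (hg : S.Pres (theta φ g)) (hh : S.Pres (theta φ h))
    (c : commutator H) (hc : (c : H) = g * h * g⁻¹ * h⁻¹) : φ c ∈ S.N := by
  apply Setup.mem_N_of_commutator hg hh
  rw [← theta_coe, hc]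
  simp only [map_mul, map_inv]

include φ in
theorem final (S₀ S₁ : Setup G) (hflip : ∀ g x, S₁.ρ g x = σ (S₀.ρ g (σ x)))
    (h01 : ¬ S₀.N ≤ S₁.N) (h10 : ¬ S₁.N ≤ S₀.N) : False := by
  have hps := pres_or_swap S₀ S₁ hflip h01 h10
  by_cases hall : ∀ h : H, S₀.Pres (theta φ h)
  · have hle : commutator H ≤ ((S₀.N.comap (φ : commutator H →* G)).map (commutator H).subtype) := by
      nth_rewrite 1 [commutator_def]
      rw [Subgroup.commutator_le]
      intro g _ h _
      rw [commutatorElement_def]
      have hmem : g * h * g⁻¹ * h⁻¹ ∈ commutator H :=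
        Subgroup.commutator_mem_commutator (Subgroup.mem_top g) (Subgroup.mem_top h)
      refine ⟨⟨g * h * g⁻¹ * h⁻¹, hmem⟩, ?_, rfl⟩
      exact commutator_mem_N φ (hall g) (hall h) ⟨g * h * g⁻¹ * h⁻¹, hmem⟩ rfl
    obtain ⟨y, hy, hy'⟩ := hle (φ.symm S₀.u).2
    have h1 : y = φ.symm S₀.u := Subtype.ext hy'
    rw [h1] at hy
    apply S₀.u_notMem
    simpa using hy
  · push Not at hall
    obtain ⟨τ, hτ⟩ := hall
    have hn0 : S₀.N.Normal := by unfold Setup.N; infer_instance
    have hn1 : S₁.N.Normal := by unfold Setup.N; infer_instance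
    have hswap : Swap S₀ S₁ (theta φ τ) := (hps _).resolve_left (fun h => hτ h.1)
    have hpres : ∀ h : H, S₀.Pres (theta φ h) → S₁.Pres (theta φ h) := by
      intro h hh
      rcases hps (theta φ h) with h1 | h1
      · exact h1.2
      · exfalso
        apply h01
        intro f hf
        exact ((h1 f).2).1 ((hh f).2 hf)
    -- the kernel
    let K₀ : Subgroup (commutator H) := (S₀.N ⊓ S₁.N).comap (φ : commutator H →* G)
    let K : Subgroup H := K₀.map (commutator H).subtype
    have hmemK : ∀ y : commutator H, (y : H) ∈ K ↔ φ y ∈ S₀.N ⊓ S₁.N := by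
      intro y
      constructor
      · rintro ⟨y', hy', h⟩
        have : y' = y := Subtype.ext h
        rwa [this] at hy'
      · intro h
        exact ⟨y, h, rfl⟩
    have hKinv : ∀ (h : H) (f : G), f ∈ S₀.N ⊓ S₁.N → theta φ h f ∈ S₀.N ⊓ S₁.N := by
      intro h f hf
      rcases hps (theta φ h) with h1 | h1
      · exact ⟨(h1.1 f).2 hf.1, (h1.2 f).2 hf.2⟩
      · exact ⟨(h1 f).2.2 hf.2, (h1 f).1.2 hf.1⟩
    have hKn : K.Normal := by
      refine ⟨fun k hk h => ?_⟩
      obtain ⟨y, hy, rfl⟩ := hk
      have : h * (commutator H).subtype y * h⁻¹ = ((MulAut.conjNormal h y : commutator H) : H) := by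
        rw [MulAut.conjNormal_apply]; rfl
      rw [this, hmemK, ← theta_apply]
      exact hKinv h _ hy
    let Hp : Subgroup H :=
      { carrier := {h | S₀.Pres (theta φ h)}
        one_mem' := by
          change S₀.Pres (theta φ 1)
          rw [map_one]; exact Setup.Pres.one
        mul_mem' := by
          intro a b ha hb
          change S₀.Pres (theta φ (a * b))
          rw [map_mul]; exact Setup.Pres.mul ha hb
        inv_mem' := by
          intro a ha
          change S₀.Pres (theta φ a⁻¹)
          rw [map_inv]; exact Setup.Pres.inv ha }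
    have hnotmem : ∀ {h : H}, h ∉ Hp → Swap S₀ S₁ (theta φ h) := by
      intro h hh
      exact (hps _).resolve_left (fun h' => hh h'.1)
    have hmulswap : ∀ {a b : H}, Swap S₀ S₁ (theta φ a) → Swap S₀ S₁ (theta φ b) → a * b ∈ Hp := by
      intro a b ha hb f
      rw [map_mul, MulAut.mul_apply, (ha _).2, (hb f).1]
    have hinvswap : ∀ {a : H}, Swap S₀ S₁ (theta φ a) → Swap S₀ S₁ (theta φ a⁻¹) := by
      intro a ha f
      rw [map_inv]
      constructor
      · rw [← (ha _).2, MulAut.apply_inv_self]
      · rw [← (ha _).1, MulAut.apply_inv_self]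
    have hHpn : ∀ a ∈ Hp, τ * a * τ⁻¹ ∈ Hp := by
      intro a ha
      by_contra h
      have h1 : Swap S₀ S₁ (theta φ (τ * a * τ⁻¹)) := hnotmem h
      have h2 : τ * a ∈ Hp := by
        have := hmulswap h1 hswap
        rwa [inv_mul_cancel_right] at this
      apply hτ
      change τ ∈ Hp
      exact (Subgroup.mul_mem_cancel_right Hp ha).1 h2
    have hmain := inverts (Q := H ⧸ K) (Hp.map (QuotientGroup.mk' K)) ?_ (QuotientGroup.mk' K τ)
      ?_ ?_ ?_
    · -- conclusion
      obtain ⟨f, hf0, hf1⟩ := SetLike.not_le_iff_exists.1 h01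
      have hy : QuotientGroup.mk' K ((φ.symm f : commutator H) : H) ∈ commutator (H ⧸ K) := by
        have h1 : (commutator H).map (QuotientGroup.mk' K) ≤ commutator (H ⧸ K) := by
          rw [commutator_def, commutator_def, Subgroup.map_commutator]
          exact Subgroup.commutator_mono le_top le_top
        exact h1 (Subgroup.mem_map_of_mem _ (φ.symm f).2)
      have h2 := hmain _ hy
      rw [← map_inv, ← map_mul, ← map_mul, ← map_mul] at h2
      have h3 : ((φ.symm f : commutator H) : H) * (τ * ((φ.symm f : commutator H) : H) * τ⁻¹) ∈ K := by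
        rw [← QuotientGroup.eq_one_iff]
        exact h2
      have h4 : τ * ((φ.symm f : commutator H) : H) * τ⁻¹ =
          ((MulAut.conjNormal τ (φ.symm f) : commutator H) : H) := by
        rw [MulAut.conjNormal_apply]
      rw [h4, ← Subgroup.coe_mul, hmemK, map_mul, ← theta_apply, φ.apply_symm_apply] at h3
      apply hf1
      exact (Subgroup.mul_mem_cancel_right _ ((hswap f).1.2 hf0)).1 h3.2
    · rintro _ ⟨a, ha, rfl⟩ _ ⟨b, hb, rfl⟩
      rw [← map_mul, ← map_mul]
      have hmem : a * b * a⁻¹ * b⁻¹ ∈ commutator H :=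
        Subgroup.commutator_mem_commutator (Subgroup.mem_top a) (Subgroup.mem_top b)
      have h1 : a * b * a⁻¹ * b⁻¹ ∈ K := by
        have := (hmemK ⟨_, hmem⟩).2 ⟨commutator_mem_N φ ha hb ⟨_, hmem⟩ rfl,
          commutator_mem_N φ (hpres a ha) (hpres b hb) ⟨_, hmem⟩ rfl⟩
        exact this
      have h2 : QuotientGroup.mk' K (a * b * a⁻¹ * b⁻¹) = 1 := by
        rw [QuotientGroup.mk'_apply, QuotientGroup.eq_one_iff]
        exact h1
      have h3 : a * b = (a * b * a⁻¹ * b⁻¹) * (b * a) := by group
      rw [h3, map_mul, h2, one_mul]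
    · rintro _ ⟨a, ha, rfl⟩
      rw [← map_inv, ← map_mul, ← map_mul]
      exact Subgroup.mem_map_of_mem _ (hHpn a ha)
    · rw [← map_mul]
      exact Subgroup.mem_map_of_mem _ (hmulswap hswap hswap)
    · intro x
      obtain ⟨x, rfl⟩ := QuotientGroup.mk'_surjective K x
      by_cases hx : x ∈ Hp
      · exact Or.inl (Subgroup.mem_map_of_mem _ hx)
      · right
        refine ⟨QuotientGroup.mk' K (τ⁻¹ * x), Subgroup.mem_map_of_mem _
          (hmulswap (hinvswap hswap) (hnotmem hx)), ?_⟩
        rw [← map_mul, mul_inv_cancel_left]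

end

end Pool.Agent.V1132.ThompsonGerm
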