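import Mathlib

/-!
# Groups of order automorphisms of `[0,1]` with cyclic germs at `0`
-/

set_option autoImplicit false

namespace Pool.Agent.V1132.ThompsonGerm

open unitInterval

theorem map_zero' (f : I ≃o I) : f 0 = 0 := by
  have : f ⊥ = ⊥ := map_bot f
  exact this

theorem map_one' (f : I ≃o I) : f 1 = 1 := by
  have : f ⊤ = ⊤ := map_top f
  exact this

theorem pos_of_pos (f : I ≃o I) {x : I} (hx : 0 < x) : 0 < f x := by
  rw [← map_zero' f]
  exact f.strictMono hx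

theorem lt_one_of_lt_one (f : I ≃o I) {x : I} (hx : x < 1) : f x < 1 := by
  rw [← map_one' f]
  exact f.strictMono hx

/-- `f` is the identity on `[0, t)`. -/
def IdBelow (f : I ≃o I) (t : I) : Prop := ∀ x < t, f x = x

theorem IdBelow.mono {f : I ≃o I} {s t : I} (h : IdBelow f t) (hst : s ≤ t) : IdBelow f s :=
  fun x hx => h x (hx.trans_le hst)

theorem IdBelow.conj {f : I ≃o I} {t : I} (h : IdBelow f t) (g : I ≃o I) :
    IdBelow (g * f * g⁻¹) (g t) := by
  intro x hx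
  have h1 : g⁻¹ x < t := by
    have : g (g⁻¹ x) < g t ↔ g⁻¹ x < t := g.lt_iff_lt
    rw [← this, RelIso.apply_inv_self]
    exact hx
  rw [RelIso.mul_apply, RelIso.mul_apply, h _ h1, RelIso.apply_inv_self]

theorem propagate {e : I ≃o I} {t : I} (h0 : ∃ d : I, 0 < d ∧ IdBelow e d)
    (hS : ∀ x, 0 < x → x < t → ∃ h : I ≃o I, h * e = e * h ∧ h x ≠ x) : IdBelow e t := by
  obtain ⟨d, hd, hed⟩ := h0
  set s : I := sSup {r | IdBelow e r} with hs
  have hes : IdBelow e s := by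
    intro x hx
    rw [hs, lt_sSup_iff] at hx
    obtain ⟨r, hr, hxr⟩ := hx
    exact hr x hxr
  have hds : d ≤ s := le_sSup hed
  by_contra hcon
  have hst : s < t := by
    by_contra h
    exact hcon (hes.mono (not_lt.1 h))
  obtain ⟨h, hcomm, hne⟩ := hS s (hd.trans_le hds) hst
  have key : ∀ k : I ≃o I, k * e = e * k → ¬ s < k s := by
    intro k hk hlt
    have h1 : IdBelow e (k s) := by
      have h2 := hes.conj k
      rwa [hk, mul_assoc, mul_inv_cancel, mul_one] at h2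
    exact absurd (le_sSup h1 : k s ≤ s) (not_le.2 hlt)
  rcases lt_or_gt_of_ne hne with h1 | h1
  · refine key h⁻¹ ?_ ?_
    · rw [inv_mul_eq_iff_eq_mul, ← mul_assoc, hcomm, mul_assoc, mul_inv_cancel, mul_one]
    · have : h⁻¹ (h s) < h⁻¹ s := (h⁻¹ : I ≃o I).strictMono h1
      rwa [RelIso.inv_apply_self] at this
  · exact key h hcomm h1

theorem commute_of {f g : I ≃o I} {s : I} (hf : IdBelow f s) (hg : ∀ x, s ≤ x → g x = x) :
    f * g = g * f := by
  refine RelIso.ext (fun x => ?_)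
  rw [RelIso.mul_apply, RelIso.mul_apply]
  rcases lt_or_ge x s with hx | hx
  · have h1 : g x < s := by
      rw [← hg s le_rfl]
      exact g.strictMono hx
    rw [hf x hx, hf _ h1]
  · have h1 : s ≤ f x := by
      by_contra hlt
      rw [not_le] at hlt
      have h2 := hf _ hlt
      have h3 := f.injective h2
      rw [h3] at hlt
      exact absurd hx (not_le.2 hlt)
    rw [hg x hx, hg _ h1]

/-- A group of order automorphisms of `[0,1]` with infinite cyclic germs at `0`, together with the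
elements used in the argument. -/
structure Setup (G : Type*) [Group G] where
  ρ : G →* (I ≃o I)
  inj : Function.Injective ρ
  z : G
  u : G
  w : G
  t : I
  ht0 : 0 < t
  ht1 : t < 1
  germ : ∀ f : G, ∃ k : ℤ, ∃ d : I, 0 < d ∧ ∀ x, x < d → ρ f x = (ρ z ^ k) x
  hz : ∀ x, 0 < x → x < 1 → ρ z x < x
  hu : ∀ x, 0 < x → x < t → ρ u x < x
  hu' : ∀ x, t ≤ x → ρ u x = x
  hw : ∀ x, x < t → ρ w x = x
  hw' : ∀ x, t < x → x < 1 → ρ w x ≠ x

namespace Setup

variable {G : Type*} [Group G] (S : Setup G)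

theorem zanti {x : I} (hx0 : 0 < x) (hx1 : x < 1) : StrictAnti (fun n : ℤ => (S.ρ S.z ^ n) x) := by
  refine strictAnti_int_of_succ_lt (fun n => ?_)
  change (S.ρ S.z ^ (n + 1)) x < (S.ρ S.z ^ n) x
  rw [add_comm, zpow_add, zpow_one, RelIso.mul_apply]
  exact S.hz _ (pos_of_pos _ hx0) (lt_one_of_lt_one _ hx1)

theorem zanti' (x : I) : Antitone (fun n : ℤ => (S.ρ S.z ^ n) x) := by
  rcases eq_or_lt_of_le (unitInterval.nonneg' : (0 : I) ≤ x) with h0 | h0
  · intro a b _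
    change (S.ρ S.z ^ b) x ≤ (S.ρ S.z ^ a) x
    rw [← h0, map_zero', map_zero']
  rcases eq_or_lt_of_le (unitInterval.le_one' : x ≤ (1 : I)) with h1 | h1
  · intro a b _
    change (S.ρ S.z ^ b) x ≤ (S.ρ S.z ^ a) x
    rw [h1, map_one', map_one']
  exact (S.zanti h0 h1).antitone

theorem orbit_lt {x y : I} (hx : x < 1) (hy : 0 < y) : ∃ n : ℕ, (S.ρ S.z ^ n) x < y := by
  have h1 : S.ρ S.z (⨅ n : ℕ, (S.ρ S.z ^ n) x) = ⨅ n : ℕ, (S.ρ S.z ^ n) x := by
    rw [OrderIso.map_iInf]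
    apply le_antisymm
    · refine le_iInf (fun n => ?_)
      refine (iInf_le _ n).trans ?_
      have := S.zanti' x (by lia : (n : ℤ) ≤ n + 1)
      have h2 : S.ρ S.z ((S.ρ S.z ^ n) x) = (S.ρ S.z ^ ((n : ℤ) + 1)) x := by
        rw [add_comm, zpow_add, zpow_one, RelIso.mul_apply, zpow_natCast]
      rw [h2]
      simpa using this
    · refine le_iInf (fun n => ?_)
      refine (iInf_le _ (n + 1)).trans ?_
      rw [pow_succ', RelIso.mul_apply]
  have h2 : (⨅ n : ℕ, (S.ρ S.z ^ n) x) < 1 := by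
    refine lt_of_le_of_lt (iInf_le _ 0) ?_
    simpa using hx
  have h3 : (⨅ n : ℕ, (S.ρ S.z ^ n) x) = 0 := by
    by_contra h
    have h4 : 0 < (⨅ n : ℕ, (S.ρ S.z ^ n) x) := lt_of_le_of_ne (unitInterval.nonneg _) (Ne.symm h)
    exact absurd h1 (S.hz _ h4 h2).ne
  rw [← h3, iInf_lt_iff] at hy
  exact hy

/-- The germ of `f` at `0` is that of `z ^ k`. -/
def Near (f : G) (k : ℤ) : Prop := ∃ d : I, 0 < d ∧ ∀ x, x < d → S.ρ f x = (S.ρ S.z ^ k) x

theorem Near.mul {S : Setup G} {f g : G} {a b : ℤ} (hf : S.Near f a) (hg : S.Near g b) :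
    S.Near (f * g) (a + b) := by
  obtain ⟨d₁, hd₁, h₁⟩ := hf
  obtain ⟨d₂, hd₂, h₂⟩ := hg
  refine ⟨min d₂ ((S.ρ S.z ^ (-b)) d₁), lt_min hd₂ (pos_of_pos _ hd₁), fun x hx => ?_⟩
  rw [lt_min_iff] at hx
  rw [map_mul, RelIso.mul_apply, h₂ x hx.1, zpow_add, RelIso.mul_apply]
  apply h₁
  have := (S.ρ S.z ^ b).strictMono hx.2
  rwa [← RelIso.mul_apply, ← zpow_add, add_neg_cancel, zpow_zero, RelIso.one_apply] at this

theorem Near.inv {S : Setup G} {f : G} {a : ℤ} (hf : S.Near f a) : S.Near f⁻¹ (-a) := by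
  obtain ⟨d, hd, h⟩ := hf
  refine ⟨(S.ρ S.z ^ a) d, pos_of_pos _ hd, fun y hy => ?_⟩
  have h1 : (S.ρ S.z ^ (-a)) y < d := by
    have := (S.ρ S.z ^ (-a)).strictMono hy
    rwa [← RelIso.mul_apply, ← zpow_add, neg_add_cancel, zpow_zero, RelIso.one_apply] at this
  have h2 := h _ h1
  rw [← RelIso.mul_apply (S.ρ S.z ^ a), ← zpow_add, add_neg_cancel, zpow_zero,
    RelIso.one_apply] at h2
  rw [map_inv]
  nth_rewrite 1 [← h2]
  rw [RelIso.inv_apply_self]

theorem near_unique {f : G} {a b : ℤ} (ha : S.Near f a) (hb : S.Near f b) : a = b := by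
  obtain ⟨d₁, hd₁, h₁⟩ := ha
  obtain ⟨d₂, hd₂, h₂⟩ := hb
  obtain ⟨x, hx0, hx⟩ := exists_between (lt_min hd₁ hd₂)
  rw [lt_min_iff] at hx
  have h3 := h₁ x hx.1
  rw [h₂ x hx.2] at h3
  exact ((S.zanti hx0 (hx.1.trans_le (unitInterval.le_one _))).injective h3).symm

/-- The exponent of the germ of `f` at `0`. -/
noncomputable def chi (f : G) : ℤ := (S.germ f).choose

theorem near_chi (f : G) : S.Near f (S.chi f) := (S.germ f).choose_spec

theorem chi_eq {f : G} {k : ℤ} (h : S.Near f k) : S.chi f = k := S.near_unique (S.near_chi f) h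

theorem chi_mul (f g : G) : S.chi (f * g) = S.chi f + S.chi g :=
  S.chi_eq ((S.near_chi f).mul (S.near_chi g))

/-- The exponent of the germ, as a homomorphism. -/
noncomputable def chiHom : G →* Multiplicative ℤ where
  toFun f := Multiplicative.ofAdd (S.chi f)
  map_one' := by
    have := S.chi_mul 1 1
    rw [mul_one] at this
    have h : S.chi 1 = 0 := by lia
    rw [h]; rfl
  map_mul' f g := by
    rw [chi_mul]; rfl

theorem chi_one : S.chi 1 = 0 := by
  have := S.chi_mul 1 1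
  rw [mul_one] at this
  lia

theorem chi_inv (f : G) : S.chi f⁻¹ = - S.chi f := by
  have := S.chi_mul f f⁻¹
  rw [mul_inv_cancel, chi_one] at this
  lia

theorem chi_zpow (f : G) (n : ℤ) : S.chi (f ^ n) = n * S.chi f := by
  have h1 : S.chiHom (f ^ n) = S.chiHom f ^ n := map_zpow _ _ _
  have h2 := congrArg Multiplicative.toAdd h1
  rw [toAdd_zpow] at h2
  simpa [chiHom] using h2

theorem chi_pow (f : G) (n : ℕ) : S.chi (f ^ n) = n * S.chi f := by
  rw [← zpow_natCast, chi_zpow]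

theorem chi_conj (f g : G) : S.chi (g * f * g⁻¹) = S.chi f := by
  rw [chi_mul, chi_mul, chi_inv]; ring

theorem chi_z : S.chi S.z = 1 := by
  apply S.chi_eq
  refine ⟨1, by simp, fun x _ => ?_⟩
  rw [zpow_one]

/-- The elements which are trivial near `0`. -/
noncomputable def N : Subgroup G := S.chiHom.ker

theorem mem_N {f : G} : f ∈ S.N ↔ S.chi f = 0 := by
  rw [N, MonoidHom.mem_ker]
  constructor
  · intro h
    have := congrArg Multiplicative.toAdd h
    simpa [chiHom] using this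
  · intro h
    simp [chiHom, h]

theorem mem_N_iff {f : G} : f ∈ S.N ↔ ∃ d : I, 0 < d ∧ IdBelow (S.ρ f) d := by
  rw [mem_N]
  constructor
  · intro h
    obtain ⟨d, hd, h1⟩ := S.near_chi f
    refine ⟨d, hd, fun x hx => ?_⟩
    rw [h1 x hx, h, zpow_zero, RelIso.one_apply]
  · rintro ⟨d, hd, h1⟩
    apply S.chi_eq
    refine ⟨d, hd, fun x hx => ?_⟩
    rw [h1 x hx, zpow_zero, RelIso.one_apply]

theorem no_fix {f : G} (h : f ∉ S.N) : ∃ d : I, 0 < d ∧ ∀ x, 0 < x → x < d → S.ρ f x ≠ x := by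
  rw [mem_N] at h
  obtain ⟨d, hd, h1⟩ := S.near_chi f
  refine ⟨d, hd, fun x hx0 hx => ?_⟩
  rw [h1 x hx]
  intro h2
  have h3 : (S.ρ S.z ^ (S.chi f)) x = (S.ρ S.z ^ (0 : ℤ)) x := by
    rw [h2, zpow_zero, RelIso.one_apply]
  exact h ((S.zanti hx0 (hx.trans_le (unitInterval.le_one _))).injective h3)

theorem u_notMem : S.u ∉ S.N := by
  rw [mem_N_iff]
  rintro ⟨d, hd, h⟩
  obtain ⟨x, hx0, hx⟩ := exists_between (lt_min hd S.ht0)
  rw [lt_min_iff] at hx
  exact absurd (h x hx.1) (S.hu x hx0 hx.2).ne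

theorem commutator_mem (c d : G) : c * d * c⁻¹ * d⁻¹ ∈ S.N := by
  rw [mem_N, chi_mul, chi_mul, chi_mul, chi_inv, chi_inv]
  ring

/-- `A m` consists of the elements which are trivial on `[0, z ^ m t)`. -/
def A (m : ℤ) (f : G) : Prop := IdBelow (S.ρ f) ((S.ρ S.z ^ m) S.t)

theorem A_mem_N {m : ℤ} {f : G} (h : S.A m f) : f ∈ S.N :=
  S.mem_N_iff.2 ⟨_, pos_of_pos _ S.ht0, h⟩

theorem A_mono {m n : ℤ} (hmn : m ≤ n) {f : G} (h : S.A m f) : S.A n f :=
  IdBelow.mono h (S.zanti' S.t hmn)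

theorem A_conj {m : ℤ} {f : G} (n : ℤ) (h : S.A m f) : S.A (n + m) (S.z ^ n * f * (S.z ^ n)⁻¹) := by
  have := IdBelow.conj h (S.ρ S.z ^ n)
  rw [A, zpow_add, RelIso.mul_apply]
  simpa using this

theorem exists_A {f : G} (h : f ∈ S.N) : ∃ m : ℕ, S.A m f := by
  obtain ⟨d, hd, h1⟩ := S.mem_N_iff.1 h
  obtain ⟨n, hn⟩ := S.orbit_lt S.ht1 hd
  refine ⟨n, ?_⟩
  rw [A, zpow_natCast]
  exact h1.mono hn.le

theorem A_commute_u {f : G} (h : S.A 0 f) : f * S.u = S.u * f := by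
  apply S.inj
  rw [map_mul, map_mul]
  refine commute_of (s := S.t) ?_ S.hu'
  simpa [A] using h

/-- The conjugate of `w` by `z ^ m` is trivial below `z ^ m t` and moves all points above. -/
theorem w_conj (m : ℤ) : S.A m (S.z ^ m * S.w * (S.z ^ m)⁻¹) ∧
    ∀ y, (S.ρ S.z ^ m) S.t < y → ¬ IdBelow (S.ρ (S.z ^ m * S.w * (S.z ^ m)⁻¹)) y := by
  constructor
  · have : S.A 0 S.w := by simpa [A, IdBelow] using S.hw
    simpa using S.A_conj m this
  · intro y hy h
    have h1 := IdBelow.conj h (S.ρ S.z ^ m)⁻¹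
    simp only [map_mul, map_zpow, map_inv, inv_inv] at h1
    have h2 : (S.ρ S.z ^ m)⁻¹ * (S.ρ S.z ^ m * S.ρ S.w * (S.ρ S.z ^ m)⁻¹) * S.ρ S.z ^ m
        = S.ρ S.w := by group
    rw [h2] at h1
    have h3 : S.t < (S.ρ S.z ^ m)⁻¹ y := by
      have := ((S.ρ S.z ^ m)⁻¹ : I ≃o I).strictMono hy
      rwa [RelIso.inv_apply_self] at this
    obtain ⟨x, hx1, hx2⟩ := exists_between h3
    exact S.hw' x hx1 (hx2.trans_le (unitInterval.le_one _)) (h1 x hx2)

end Setup

end Pool.Agent.V1132.ThompsonGerm
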