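import Pool.Agent.V1132.ThompsonAut

/-!
# A group with two ends is not a derived subgroup
-/

set_option autoImplicit false

namespace Pool.Agent.V1132.ThompsonGerm

open unitInterval

/-- The centralizer of each pair of elements of `M` is not commutative. -/
def PairProp {G : Type*} [Group G] (M : Subgroup G) : Prop :=
  ∀ a ∈ M, ∀ b ∈ M, ∃ c d : G, (c * a = a * c ∧ c * b = b * c) ∧ (d * a = a * d ∧ d * b = b * d) ∧
    c * d ≠ d * c

theorem PairProp.comap {G : Type*} [Group G] {M : Subgroup G} (h : PairProp M) (α : MulAut G) :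
    PairProp (M.comap (α : G ≃* G).toMonoidHom) := by
  intro a ha b hb
  obtain ⟨c, d, ⟨h1, h2⟩, ⟨h3, h4⟩, h5⟩ := h (α a) ha (α b) hb
  refine ⟨α⁻¹ c, α⁻¹ d, ⟨?_, ?_⟩, ⟨?_, ?_⟩, ?_⟩
  · apply α.injective; simpa using h1
  · apply α.injective; simpa using h2
  · apply α.injective; simpa using h3
  · apply α.injective; simpa using h4
  · intro h6
    apply h5
    have := congrArg α h6
    simpa using this

theorem conj_commute {G : Type*} [Group G] {g a b : G} (h : (g⁻¹ * a * g) * b = b * (g⁻¹ * a * g)) :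
    (g * b * g⁻¹) * a = a * (g * b * g⁻¹) := by
  have h1 : (g * b * g⁻¹) * a = g * (b * (g⁻¹ * a * g)) * g⁻¹ := by group
  rw [h1, ← h]
  group

theorem pairProp_N {G : Type*} [Group G] (S : Setup G) : PairProp S.N := by
  intro a ha b hb
  obtain ⟨m, hm⟩ := S.exists_A ha
  obtain ⟨m', hm'⟩ := S.exists_A hb
  set n : ℤ := max (m : ℤ) (m' : ℤ) with hn
  have hAa : S.A n a := S.A_mono (le_max_left _ _) hm
  have hAb : S.A n b := S.A_mono (le_max_right _ _) hm'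
  have key : ∀ e, S.A n e → ∀ k : ℤ, n ≤ k →
      (S.z ^ k * S.u * (S.z ^ k)⁻¹) * e = e * (S.z ^ k * S.u * (S.z ^ k)⁻¹) := by
    intro e he k hk
    apply conj_commute
    apply S.A_commute_u
    have := S.A_conj (-k) he
    rw [zpow_neg, inv_inv] at this
    exact S.A_mono (by lia) this
  refine ⟨S.z ^ n * S.u * (S.z ^ n)⁻¹, S.z ^ (n + 1) * S.u * (S.z ^ (n + 1))⁻¹,
    ⟨key a hAa _ le_rfl, key b hAb _ le_rfl⟩, ⟨key a hAa _ (by lia), key b hAb _ (by lia)⟩, ?_⟩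
  intro h
  have h1 : S.u * (S.z * S.u * S.z⁻¹) = (S.z * S.u * S.z⁻¹) * S.u := by
    have h2 : S.u * (S.z * S.u * S.z⁻¹) = (S.z ^ n)⁻¹ * ((S.z ^ n * S.u * (S.z ^ n)⁻¹) *
      (S.z ^ (n + 1) * S.u * (S.z ^ (n + 1))⁻¹)) * S.z ^ n := by group
    rw [h2, h]
    group
  have hx0 : 0 < S.ρ S.z S.t := pos_of_pos _ S.ht0
  have hxt : S.ρ S.z S.t < S.t := S.hz _ S.ht0 S.ht1
  have h3 := congrArg (fun g => S.ρ g (S.ρ S.z S.t)) h1
  simp only [map_mul, map_inv, RelIso.mul_apply, RelIso.inv_apply_self] at h3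
  rw [S.hu' S.t le_rfl] at h3
  set y := S.ρ S.u (S.ρ S.z S.t) with hy
  have hy1 : y < S.ρ S.z S.t := S.hu _ hx0 hxt
  have hy0 : 0 < y := pos_of_pos _ hx0
  have hy2 : (S.ρ S.z)⁻¹ y < S.t := by
    have := ((S.ρ S.z)⁻¹ : I ≃o I).strictMono hy1
    rwa [RelIso.inv_apply_self] at this
  have h4 := (S.ρ S.z).strictMono (S.hu _ (pos_of_pos _ hy0) hy2)
  rw [RelIso.apply_inv_self, ← h3] at h4
  exact lt_irrefl _ h4

theorem le_or_le {G : Type*} [Group G] (S₀ S₁ : Setup G)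
    (hflip : ∀ g x, S₁.ρ g x = σ (S₀.ρ g (σ x))) (M : Subgroup G) [hM : M.Normal]
    (hP : PairProp M) : M ≤ S₀.N ∨ M ≤ S₁.N := by
  by_contra hcon
  rw [not_or, SetLike.not_le_iff_exists, SetLike.not_le_iff_exists] at hcon
  obtain ⟨⟨f₁, hf₁, hf₁'⟩, ⟨f₂, hf₂, hf₂'⟩⟩ := hcon
  obtain ⟨f, hf, hf0, hf1⟩ : ∃ f ∈ M, f ∉ S₀.N ∧ f ∉ S₁.N := by
    by_cases h1 : f₁ ∈ S₁.N
    · by_cases h2 : f₂ ∈ S₀.N
      · refine ⟨f₁ * f₂, M.mul_mem hf₁ hf₂, ?_, ?_⟩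
        · intro h; exact hf₁' ((Subgroup.mul_mem_cancel_right _ h2).1 h)
        · intro h; exact hf₂' ((Subgroup.mul_mem_cancel_left _ h1).1 h)
      · exact ⟨f₂, hf₂, h2, hf₂'⟩
    · exact ⟨f₁, hf₁, hf₁', h1⟩
  obtain ⟨d₀, hd₀, h₀⟩ := S₀.no_fix hf0
  obtain ⟨d₁, hd₁, h₁⟩ := S₁.no_fix hf1
  have hσd : σ d₁ < 1 := by
    rw [← unitInterval.symm_zero]
    exact unitInterval.symm_lt_symm.2 hd₁
  obtain ⟨n, hn⟩ := S₀.orbit_lt hσd hd₀
  obtain ⟨c, d, ⟨hc1, hc2⟩, ⟨hd1, hd2⟩, hne⟩ := hP f hf _ (hM.conj_mem f hf (S₀.z ^ n))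
  set g := S₀.z ^ n * f * (S₀.z ^ n)⁻¹ with hg
  set e := c * d * c⁻¹ * d⁻¹ with he
  have hcomm : ∀ x : G, c * x = x * c → d * x = x * d → x * e = e * x := by
    intro x h1 h2
    have h3 : Commute c x := h1
    have h4 : Commute d x := h2
    exact (((h3.mul_left h4).mul_left h3.inv_left).mul_left h4.inv_left).symm.eq
  have hcf := hcomm f hc1 hd1
  have hcg := hcomm g hc2 hd2
  have hid : IdBelow (S₀.ρ e) 1 := by
    refine propagate (S₀.mem_N_iff.1 (S₀.commutator_mem c d)) (fun x hx0 hx1 => ?_)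
    by_cases hfx : S₀.ρ f x = x
    · refine ⟨S₀.ρ g, by rw [← map_mul, ← map_mul, hcg], ?_⟩
      intro hgx
      have hx2 : d₀ ≤ x := by
        by_contra h
        exact h₀ x hx0 (not_le.1 h) hfx
      set y := (S₀.ρ S₀.z ^ n)⁻¹ x with hy
      have hyx : (S₀.ρ S₀.z ^ n) y = x := by rw [hy, RelIso.apply_inv_self]
      have hy1 : S₀.ρ f y = y := by
        rw [hg, map_mul, map_mul, map_inv, map_pow, RelIso.mul_apply, RelIso.mul_apply, ← hy] at hgx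
        rw [← hyx] at hgx
        exact (S₀.ρ S₀.z ^ n).injective hgx
      have hy2 : σ d₁ < y := by
        by_contra h
        have := (S₀.ρ S₀.z ^ n).monotone (not_lt.1 h)
        rw [hyx] at this
        exact absurd (hx2.trans this) (not_le.2 hn)
      have hylt : y < 1 := lt_one_of_lt_one _ hx1
      refine h₁ (σ y) ?_ ?_ ?_
      · rw [← unitInterval.symm_one]
        exact unitInterval.symm_lt_symm.2 hylt
      · rw [← unitInterval.symm_symm d₁]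
        exact unitInterval.symm_lt_symm.2 hy2
      · rw [hflip, unitInterval.symm_symm, hy1]
    · exact ⟨S₀.ρ f, by rw [← map_mul, ← map_mul, hcf], hfx⟩
  have he1 : e = 1 := by
    apply S₀.inj
    rw [map_one]
    refine RelIso.ext (fun x => ?_)
    rw [RelIso.one_apply]
    rcases eq_or_lt_of_le (unitInterval.le_one' : x ≤ (1 : I)) with h1 | h1
    · rw [h1, map_one']
    · exact hid x h1
  apply hne
  rw [he, mul_inv_eq_one, mul_inv_eq_iff_eq_mul] at he1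
  exact he1

/-- `α` exchanges the two subgroups. -/
def Swap {G : Type*} [Group G] (S₀ S₁ : Setup G) (α : MulAut G) : Prop :=
  ∀ f, (α f ∈ S₁.N ↔ f ∈ S₀.N) ∧ (α f ∈ S₀.N ↔ f ∈ S₁.N)

theorem pres_or_swap {G : Type*} [Group G] (S₀ S₁ : Setup G)
    (hflip : ∀ g x, S₁.ρ g x = σ (S₀.ρ g (σ x))) (h01 : ¬ S₀.N ≤ S₁.N) (h10 : ¬ S₁.N ≤ S₀.N)
    (α : MulAut G) : (S₀.Pres α ∧ S₁.Pres α) ∨ Swap S₀ S₁ α := by
  have hn0 : S₀.N.Normal := by unfold Setup.N; infer_instance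
  have hn1 : S₁.N.Normal := by unfold Setup.N; infer_instance
  have key : ∀ β : MulAut G, ((∀ f, β f ∈ S₀.N → f ∈ S₀.N) ∨ (∀ f, β f ∈ S₀.N → f ∈ S₁.N)) ∧
      ((∀ f, β f ∈ S₁.N → f ∈ S₀.N) ∨ (∀ f, β f ∈ S₁.N → f ∈ S₁.N)) := by
    intro β
    exact ⟨le_or_le S₀ S₁ hflip _ ((pairProp_N S₀).comap β),
      le_or_le S₀ S₁ hflip _ ((pairProp_N S₁).comap β)⟩
  have key2 : ((∀ f, f ∈ S₀.N → α f ∈ S₀.N) ∨ (∀ f, f ∈ S₀.N → α f ∈ S₁.N)) ∧
      ((∀ f, f ∈ S₁.N → α f ∈ S₀.N) ∨ (∀ f, f ∈ S₁.N → α f ∈ S₁.N)) := by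
    have h := key α⁻¹
    have hh : ∀ (M M' : Subgroup G), (∀ f, α⁻¹ f ∈ M → f ∈ M') → (∀ f, f ∈ M → α f ∈ M') := by
      intro M M' h f hf
      apply h
      rwa [MulAut.inv_apply_self]
    exact ⟨h.1.imp (hh _ _) (hh _ _), h.2.imp (hh _ _) (hh _ _)⟩
  have h1 := key α
  have e01 : ¬ ∀ f, f ∈ S₀.N → f ∈ S₁.N := h01
  have e10 : ¬ ∀ f, f ∈ S₁.N → f ∈ S₀.N := h10
  rcases key2 with ⟨hL0 | hL0, hL1 | hL1⟩
  · exfalso
    rcases h1.1 with h | h
    · exact e10 (fun f hf => h f (hL1 f hf))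
    · exact e01 (fun f hf => h f (hL0 f hf))
  · left
    refine ⟨fun f => ⟨?_, hL0 f⟩, fun f => ⟨?_, hL1 f⟩⟩
    · rcases h1.1 with h | h
      · exact h f
      · exact absurd (fun f hf => h f (hL0 f hf)) e01
    · rcases h1.2 with h | h
      · exact absurd (fun f hf => h f (hL1 f hf)) e10
      · exact h f
  · right
    refine fun f => ⟨⟨?_, hL0 f⟩, ⟨?_, hL1 f⟩⟩
    · rcases h1.2 with h | h
      · exact h f
      · exact absurd (fun f hf => h f (hL0 f hf)) e01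
    · rcases h1.1 with h | h
      · exact absurd (fun f hf => h f (hL1 f hf)) e10
      · exact h f
  · exfalso
    rcases h1.2 with h | h
    · exact e10 (fun f hf => h f (hL1 f hf))
    · exact e01 (fun f hf => h f (hL0 f hf))

/-- An element outside an abelian normal subgroup of index two inverts the derived subgroup. -/
theorem inverts {Q : Type*} [Group Q] (A : Subgroup Q) (hA : ∀ a ∈ A, ∀ b ∈ A, a * b = b * a)
    (t : Q) (hn : ∀ a ∈ A, t * a * t⁻¹ ∈ A) (ht : t * t ∈ A)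
    (hidx : ∀ x, x ∈ A ∨ ∃ a ∈ A, x = t * a) :
    ∀ y ∈ commutator Q, y * (t * y * t⁻¹) = 1 := by
  let T : Subgroup Q :=
    { carrier := {y | y ∈ A ∧ y * (t * y * t⁻¹) = 1}
      one_mem' := ⟨A.one_mem, by group⟩
      mul_mem' := by
        rintro a b ⟨ha, ha'⟩ ⟨hb, hb'⟩
        refine ⟨A.mul_mem ha hb, ?_⟩
        have h1 : a * b * (t * (a * b) * t⁻¹) = a * (b * (t * a * t⁻¹)) * (t * b * t⁻¹) := by group
        rw [h1, hA b hb _ (hn a ha)]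
        have h2 : a * (t * a * t⁻¹ * b) * (t * b * t⁻¹) =
          (a * (t * a * t⁻¹)) * (b * (t * b * t⁻¹)) := by group
        rw [h2, ha', hb', one_mul]
      inv_mem' := by
        rintro a ⟨ha, ha'⟩
        refine ⟨A.inv_mem ha, ?_⟩
        have h1 : a⁻¹ * (t * a⁻¹ * t⁻¹) = ((t * a * t⁻¹) * a)⁻¹ := by group
        rw [h1, hA _ (hn a ha) a ha, ha', inv_one] }
  have hP : ∀ e ∈ A, t * e * t⁻¹ * e⁻¹ ∈ T := by
    intro e he
    refine ⟨A.mul_mem (hn e he) (A.inv_mem he), ?_⟩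
    have h1 : t * e * t⁻¹ * e⁻¹ * (t * (t * e * t⁻¹ * e⁻¹) * t⁻¹) =
      t * e * t⁻¹ * e⁻¹ * ((t * t) * e * (t * t)⁻¹ * (t * e⁻¹ * t⁻¹)) := by group
    rw [h1, hA _ ht e he]
    group
  have hinv : ∀ y ∈ T, t * y * t⁻¹ ∈ T := by
    rintro y ⟨hy, hy'⟩
    rw [mul_eq_one_iff_inv_eq] at hy'
    rw [← hy']
    exact T.inv_mem ⟨hy, by rw [mul_eq_one_iff_inv_eq]; exact hy'⟩
  have hle : commutator Q ≤ T := by
    rw [commutator_def, Subgroup.commutator_le]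
    intro a _ b _
    rw [commutatorElement_def]
    rcases hidx a with ha | ⟨c, hc, rfl⟩
    · rcases hidx b with hb | ⟨c, hc, rfl⟩
      · have : a * b * a⁻¹ * b⁻¹ = 1 := by rw [hA a ha b hb]; group
        rw [this]
        exact T.one_mem
      · have h1 : a * (t * c) * a⁻¹ * (t * c)⁻¹ = a * t * (c * a⁻¹) * c⁻¹ * t⁻¹ := by group
        rw [h1, hA c hc _ (A.inv_mem ha)]
        have h2 : a * t * (a⁻¹ * c) * c⁻¹ * t⁻¹ = (t * a * t⁻¹ * a⁻¹)⁻¹ := by group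
        rw [h2]
        exact T.inv_mem (hP a ha)
    · rcases hidx b with hb | ⟨d, hd, rfl⟩
      · have h1 : t * c * b * (t * c)⁻¹ * b⁻¹ = t * (c * b) * c⁻¹ * t⁻¹ * b⁻¹ := by group
        rw [h1, hA c hc b hb]
        have h2 : t * (b * c) * c⁻¹ * t⁻¹ * b⁻¹ = t * b * t⁻¹ * b⁻¹ := by group
        rw [h2]
        exact hP b hb
      · have h1 : t * c * (t * d) * (t * c)⁻¹ * (t * d)⁻¹ =
            t * (c * (t * (d * c⁻¹) * t⁻¹) * d⁻¹) * t⁻¹ := by group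
        rw [h1, hA c hc _ (hn _ (A.mul_mem hd (A.inv_mem hc)))]
        have h2 : t * (t * (d * c⁻¹) * t⁻¹ * c * d⁻¹) * t⁻¹ =
            t * (t * (d * c⁻¹) * t⁻¹ * (d * c⁻¹)⁻¹) * t⁻¹ := by group
        rw [h2]
        exact hinv _ (hP _ (A.mul_mem hd (A.inv_mem hc)))
  intro y hy
  exact (hle hy).2

end Pool.Agent.V1132.ThompsonGerm
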