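import Pool.Agent.V1132.ThompsonDef
import Pool.Agent.V1132.ThompsonFin

/-!
# Thompson's group `F` is not a derived subgroup
-/

set_option autoImplicit false

namespace Pool.Agent.V1132.ThompsonMain

open unitInterval Pool.Agent.V1132.Thompson Pool.Agent.V1132.ThompsonGerm

/-- The reflection of an order automorphism of `[0,1]`. -/
def flip (f : I ≃o I) : I ≃o I where
  toFun x := σ (f (σ x))
  invFun x := σ (f.symm (σ x))
  left_inv x := by simp
  right_inv x := by simp
  map_rel_iff' := by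
    intro a b
    change σ (f (σ a)) ≤ σ (f (σ b)) ↔ a ≤ b
    rw [unitInterval.symm_le_symm, f.le_iff_le, unitInterval.symm_le_symm]

theorem flip_apply (f : I ≃o I) (x : I) : flip f x = σ (f (σ x)) := rfl

theorem flip_flip (f : I ≃o I) : flip (flip f) = f := by
  refine RelIso.ext (fun x => ?_)
  rw [flip_apply, flip_apply, unitInterval.symm_symm, unitInterval.symm_symm]

/-- The reflection as a homomorphism. -/
def flipHom : (I ≃o I) →* (I ≃o I) where
  toFun := flip
  map_one' := by
    refine RelIso.ext (fun x => ?_)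
    rw [flip_apply, RelIso.one_apply, RelIso.one_apply, unitInterval.symm_symm]
  map_mul' f g := by
    refine RelIso.ext (fun x => ?_)
    rw [flip_apply, RelIso.mul_apply, RelIso.mul_apply, flip_apply, flip_apply,
      unitInterval.symm_symm]

theorem flip_mem {f : I ≃o I} (hf : f ∈ thompsonF) : flip f ∈ thompsonF := by
  classical
  obtain ⟨B, hB⟩ := hf
  refine ⟨B.image σ, ?_, ?_⟩
  · intro b hb
    rw [Finset.mem_image] at hb
    obtain ⟨c, hc, rfl⟩ := hb
    rw [unitInterval.coe_symm_eq]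
    exact IsDyadic.sub ⟨1, 0, by simp⟩ (hB.1 c hc)
  · intro x y hxy
    obtain ⟨k, hk⟩ := hB.2 (σ y) (σ x) (by
      rintro b hb ⟨h1, h2⟩
      refine hxy (σ b) (Finset.mem_image_of_mem _ hb) ⟨?_, ?_⟩
      · rw [← unitInterval.symm_symm x]; exact unitInterval.symm_lt_symm.2 h2
      · rw [← unitInterval.symm_symm y]; exact unitInterval.symm_lt_symm.2 h1)
    refine ⟨k, fun u v hu huv hv => ?_⟩
    have h := hk (σ v) (σ u) (unitInterval.symm_le_symm.2 hv) (unitInterval.symm_le_symm.2 huv)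
      (unitInterval.symm_le_symm.2 hu)
    rw [flip_apply, flip_apply, unitInterval.coe_symm_eq, unitInterval.coe_symm_eq]
    rw [unitInterval.coe_symm_eq, unitInterval.coe_symm_eq] at h
    linarith

/-- Near `0` the map `f` is linear with slope `c`. -/
def HasSlope (f : I ≃o I) (c : ℝ) : Prop := ∃ d : I, 0 < d ∧ ∀ x, x < d → (f x : ℝ) = c * x

theorem HasSlope.one : HasSlope 1 1 := ⟨1, by simp, fun x _ => by simp⟩

theorem HasSlope.mul {f g : I ≃o I} {a b : ℝ} (hf : HasSlope f a) (hg : HasSlope g b) :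
    HasSlope (f * g) (a * b) := by
  obtain ⟨d₁, hd₁, h₁⟩ := hf
  obtain ⟨d₂, hd₂, h₂⟩ := hg
  refine ⟨min d₂ (g⁻¹ d₁), lt_min hd₂ (pos_of_pos _ hd₁), fun x hx => ?_⟩
  rw [lt_min_iff] at hx
  have h3 : g x < d₁ := by
    have := g.strictMono hx.2
    rwa [RelIso.apply_inv_self] at this
  rw [RelIso.mul_apply, h₁ _ h3, h₂ _ hx.1, mul_assoc]

theorem HasSlope.inv {f : I ≃o I} {a : ℝ} (hf : HasSlope f a) (ha : a ≠ 0) :
    HasSlope f⁻¹ a⁻¹ := by
  obtain ⟨d, hd, h⟩ := hf
  refine ⟨f d, pos_of_pos _ hd, fun y hy => ?_⟩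
  have h1 : f⁻¹ y < d := by
    have := (f⁻¹ : I ≃o I).strictMono hy
    rwa [RelIso.inv_apply_self] at this
  have h2 := h _ h1
  rw [RelIso.apply_inv_self] at h2
  rw [h2, inv_mul_cancel_left₀ ha]

theorem HasSlope.pow {f : I ≃o I} {a : ℝ} (hf : HasSlope f a) (n : ℕ) :
    HasSlope (f ^ n) (a ^ n) := by
  induction n with
  | zero => simpa using HasSlope.one
  | succ n ih =>
    rw [pow_succ, pow_succ]
    exact ih.mul hf

theorem HasSlope.zpow {f : I ≃o I} {a : ℝ} (hf : HasSlope f a) (ha : a ≠ 0) (n : ℤ) :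
    HasSlope (f ^ n) (a ^ n) := by
  rcases Int.eq_nat_or_neg n with ⟨m, rfl | rfl⟩
  · rw [zpow_natCast, zpow_natCast]
    exact hf.pow m
  · rw [zpow_neg, zpow_neg, zpow_natCast, zpow_natCast]
    exact (hf.pow m).inv (pow_ne_zero _ ha)

theorem exists_slope {f : I ≃o I} (hf : f ∈ thompsonF) : ∃ k : ℤ, HasSlope f (2 ^ k) := by
  obtain ⟨B, hB⟩ := hf
  obtain ⟨d, hd, hd'⟩ : ∃ d : I, 0 < d ∧ ∀ b ∈ B, ¬ (0 < b ∧ b < d) := by
    rcases (B.filter (0 < ·)).eq_empty_or_nonempty with h0 | h0
    · refine ⟨1, by simp, ?_⟩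
      rintro b hb ⟨h1, -⟩
      have : b ∈ B.filter (0 < ·) := Finset.mem_filter.2 ⟨hb, h1⟩
      rw [h0] at this
      simp at this
    · obtain ⟨b, hb, hmin⟩ := Finset.exists_min_image _ id h0
      rw [Finset.mem_filter] at hb
      refine ⟨b, hb.2, ?_⟩
      rintro c hc ⟨h1, h2⟩
      exact absurd (hmin c (Finset.mem_filter.2 ⟨hc, h1⟩)) (not_le.2 h2)
  obtain ⟨k, hk⟩ := hB.2 0 d hd'
  refine ⟨k, d, hd, fun x hx => ?_⟩
  have := hk 0 x le_rfl unitInterval.nonneg' hx.le
  rw [Thompson.map_zero'] at this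
  simpa using this

/-- The map `x ↦ x/2`, `x - 1/4`, `2x - 1`. -/
noncomputable def zMap (x : I) : I :=
  ⟨max ((x : ℝ) / 2) (max ((x : ℝ) - 1 / 4) (2 * x - 1)), by
    have h0 := x.2.1
    have h1 := x.2.2
    constructor
    · exact le_max_of_le_left (by linarith)
    · exact max_le (by linarith) (max_le (by linarith) (by linarith))⟩

noncomputable def zMapInv (x : I) : I :=
  ⟨min (2 * (x : ℝ)) (min ((x : ℝ) + 1 / 4) ((x + 1) / 2)), by
    have h0 := x.2.1
    have h1 := x.2.2
    constructor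
    · exact le_min (by linarith) (le_min (by linarith) (by linarith))
    · exact min_le_of_right_le (min_le_of_right_le (by linarith))⟩

noncomputable def zIso : I ≃o I :=
  StrictMono.orderIsoOfRightInverse zMap (by
    intro x y hxy
    have hxy' : (x : ℝ) < y := hxy
    change max ((x : ℝ) / 2) (max ((x : ℝ) - 1 / 4) (2 * x - 1)) <
      max ((y : ℝ) / 2) (max ((y : ℝ) - 1 / 4) (2 * y - 1))
    simp only [max_def]
    split_ifs <;> linarith) zMapInv (by
    intro x
    apply Subtype.ext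
    have h0 := x.2.1
    have h1 := x.2.2
    simp only [zMap, zMapInv, max_def, min_def]
    split_ifs <;> linarith)

theorem zIso_apply (x : I) :
    (zIso x : ℝ) = max ((x : ℝ) / 2) (max ((x : ℝ) - 1 / 4) (2 * x - 1)) := rfl

/-- The map supported on `(0,1/2)`. -/
noncomputable def uMap (x : I) : I :=
  ⟨min (x : ℝ) (max ((x : ℝ) / 2) (max ((x : ℝ) - 1 / 8) (2 * x - 1 / 2))), by
    have h0 := x.2.1
    have h1 := x.2.2
    constructor
    · exact le_min h0 (le_max_of_le_left (by linarith))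
    · exact min_le_of_left_le h1⟩

noncomputable def uMapInv (x : I) : I :=
  ⟨max (x : ℝ) (min (2 * (x : ℝ)) (min ((x : ℝ) + 1 / 8) ((x + 1 / 2) / 2))), by
    have h0 := x.2.1
    have h1 := x.2.2
    constructor
    · exact le_max_of_le_left h0
    · exact max_le h1 (min_le_of_right_le (min_le_of_right_le (by linarith)))⟩

noncomputable def uIso : I ≃o I :=
  StrictMono.orderIsoOfRightInverse uMap (by
    intro x y hxy
    have hxy' : (x : ℝ) < y := hxy
    have h0 := x.2.1
    change min (x : ℝ) (max ((x : ℝ) / 2) (max ((x : ℝ) - 1 / 8) (2 * x - 1 / 2))) <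
      min (y : ℝ) (max ((y : ℝ) / 2) (max ((y : ℝ) - 1 / 8) (2 * y - 1 / 2)))
    simp only [max_def, min_def]
    split_ifs <;> linarith) uMapInv (by
    intro x
    apply Subtype.ext
    have h0 := x.2.1
    have h1 := x.2.2
    simp only [uMap, uMapInv, max_def, min_def]
    split_ifs <;> linarith)

theorem uIso_apply (x : I) :
    (uIso x : ℝ) = min (x : ℝ) (max ((x : ℝ) / 2) (max ((x : ℝ) - 1 / 8) (2 * x - 1 / 2))) := rfl

/-- The point `1/2`. -/
noncomputable def half : I := ⟨1 / 2, by norm_num, by norm_num⟩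

theorem z_low {x : I} (h : (x : ℝ) ≤ 1 / 2) : (zIso x : ℝ) = x / 2 := by
  have h0 := x.2.1
  rw [zIso_apply]
  simp only [max_def]
  split_ifs <;> linarith

theorem z_mid {x : I} (h : 1 / 2 ≤ (x : ℝ)) (h' : (x : ℝ) ≤ 3 / 4) : (zIso x : ℝ) = x - 1 / 4 := by
  rw [zIso_apply]
  simp only [max_def]
  split_ifs <;> linarith

theorem z_high {x : I} (h : 3 / 4 ≤ (x : ℝ)) : (zIso x : ℝ) = 2 * x - 1 := by
  have h0 := x.2.2
  rw [zIso_apply]
  simp only [max_def]
  split_ifs <;> linarith

theorem u_low {x : I} (h : (x : ℝ) ≤ 1 / 4) : (uIso x : ℝ) = x / 2 := by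
  have h0 := x.2.1
  rw [uIso_apply]
  simp only [max_def, min_def]
  split_ifs <;> linarith

theorem u_mid {x : I} (h : 1 / 4 ≤ (x : ℝ)) (h' : (x : ℝ) ≤ 3 / 8) : (uIso x : ℝ) = x - 1 / 8 := by
  rw [uIso_apply]
  simp only [max_def, min_def]
  split_ifs <;> linarith

theorem u_high {x : I} (h : 3 / 8 ≤ (x : ℝ)) (h' : (x : ℝ) ≤ 1 / 2) :
    (uIso x : ℝ) = 2 * x - 1 / 2 := by
  rw [uIso_apply]
  simp only [max_def, min_def]
  split_ifs <;> linarith

theorem u_id {x : I} (h : 1 / 2 ≤ (x : ℝ)) : (uIso x : ℝ) = x := by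
  rw [uIso_apply]
  simp only [max_def, min_def]
  split_ifs <;> linarith

/-- The point `3/4`. -/
noncomputable def p34 : I := ⟨3 / 4, by norm_num, by norm_num⟩
/-- The point `1/4`. -/
noncomputable def p14 : I := ⟨1 / 4, by norm_num, by norm_num⟩
/-- The point `3/8`. -/
noncomputable def p38 : I := ⟨3 / 8, by norm_num, by norm_num⟩

theorem not_between {x y b : I} (h : ¬ (x < b ∧ b < y)) : (b : ℝ) ≤ x ∨ (y : ℝ) ≤ b := by
  rw [not_and_or, not_lt, not_lt] at h
  exact h

theorem z_mem : zIso ∈ thompsonF := by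
  refine ⟨{half, p34}, ?_, ?_⟩
  · intro b hb
    simp only [Finset.mem_insert, Finset.mem_singleton] at hb
    rcases hb with rfl | rfl
    · exact ⟨1, 1, by simp [half]⟩
    · exact ⟨3, 2, by norm_num [p34]⟩
  · intro x y hxy
    have h1 := not_between (hxy half (by simp))
    have h2 := not_between (hxy p34 (by simp))
    simp only [half, p34] at h1 h2
    rcases h1 with h1 | h1
    · rcases h2 with h2 | h2
      · refine ⟨1, fun u v hu huv hv => ?_⟩
        have hu' : (x : ℝ) ≤ u := hu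
        have huv' : (u : ℝ) ≤ v := huv
        rw [z_high (by linarith), z_high (by linarith), zpow_one]
        ring
      · refine ⟨0, fun u v hu huv hv => ?_⟩
        have hu' : (x : ℝ) ≤ u := hu
        have huv' : (u : ℝ) ≤ v := huv
        have hv' : (v : ℝ) ≤ y := hv
        rw [z_mid (by linarith) (by linarith), z_mid (by linarith) (by linarith), zpow_zero]
        ring
    · refine ⟨-1, fun u v hu huv hv => ?_⟩
      have huv' : (u : ℝ) ≤ v := huv
      have hv' : (v : ℝ) ≤ y := hv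
      rw [z_low (by linarith), z_low (by linarith), zpow_neg_one]
      ring

theorem u_mem : uIso ∈ thompsonF := by
  classical
  refine ⟨{p14, p38, half}, ?_, ?_⟩
  · intro b hb
    simp only [Finset.mem_insert, Finset.mem_singleton] at hb
    rcases hb with rfl | rfl | rfl
    · exact ⟨1, 2, by norm_num [p14]⟩
    · exact ⟨3, 3, by norm_num [p38]⟩
    · exact ⟨1, 1, by simp [half]⟩
  · intro x y hxy
    have h0 := not_between (hxy p14 (by simp))
    have h1 := not_between (hxy p38 (by simp))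
    have h2 := not_between (hxy half (by simp))
    simp only [half, p14, p38] at h0 h1 h2
    rcases h0 with h0 | h0
    · rcases h1 with h1 | h1
      · rcases h2 with h2 | h2
        · refine ⟨0, fun u v hu huv hv => ?_⟩
          have hu' : (x : ℝ) ≤ u := hu
          have huv' : (u : ℝ) ≤ v := huv
          rw [u_id (by linarith), u_id (by linarith), zpow_zero]
          ring
        · refine ⟨1, fun u v hu huv hv => ?_⟩
          have hu' : (x : ℝ) ≤ u := hu
          have huv' : (u : ℝ) ≤ v := huv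
          have hv' : (v : ℝ) ≤ y := hv
          rw [u_high (by linarith) (by linarith), u_high (by linarith) (by linarith), zpow_one]
          ring
      · refine ⟨0, fun u v hu huv hv => ?_⟩
        have hu' : (x : ℝ) ≤ u := hu
        have huv' : (u : ℝ) ≤ v := huv
        have hv' : (v : ℝ) ≤ y := hv
        rw [u_mid (by linarith) (by linarith), u_mid (by linarith) (by linarith), zpow_zero]
        ring
    · refine ⟨-1, fun u v hu huv hv => ?_⟩
      have huv' : (u : ℝ) ≤ v := huv
      have hv' : (v : ℝ) ≤ y := hv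
      rw [u_low (by linarith), u_low (by linarith), zpow_neg_one]
      ring

theorem slope_z : HasSlope zIso (1 / 2) := by
  refine ⟨half, by change (0 : ℝ) < 1 / 2; norm_num, fun x hx => ?_⟩
  have hx' : (x : ℝ) < 1 / 2 := hx
  rw [z_low hx'.le]
  ring

theorem germ_F {f : I ≃o I} (hf : f ∈ thompsonF) :
    ∃ k : ℤ, ∃ d : I, 0 < d ∧ ∀ x, x < d → f x = (zIso ^ k) x := by
  obtain ⟨k, d₁, hd₁, h₁⟩ := exists_slope hf
  obtain ⟨d₂, hd₂, h₂⟩ := slope_z.zpow (by norm_num) (-k)
  refine ⟨-k, min d₁ d₂, lt_min hd₁ hd₂, fun x hx => ?_⟩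
  rw [lt_min_iff] at hx
  apply Subtype.ext
  rw [h₁ x hx.1, h₂ x hx.2]
  congr 1
  rw [one_div, inv_zpow, zpow_neg, inv_inv]

theorem z_lt (x : I) (h0 : 0 < x) (h1 : x < 1) : zIso x < x := by
  have h0' : (0 : ℝ) < x := h0
  have h1' : (x : ℝ) < 1 := h1
  change (zIso x : ℝ) < x
  rw [zIso_apply]
  exact max_lt (by linarith) (max_lt (by linarith) (by linarith))

theorem u_lt (x : I) (h0 : 0 < x) (h1 : x < half) : uIso x < x := by
  have h0' : (0 : ℝ) < x := h0
  have h1' : (x : ℝ) < 1 / 2 := h1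
  change (uIso x : ℝ) < x
  rw [uIso_apply]
  exact min_lt_of_right_lt (max_lt (by linarith) (max_lt (by linarith) (by linarith)))

theorem u_fix (x : I) (h : half ≤ x) : uIso x = x := by
  have h' : (1 / 2 : ℝ) ≤ x := h
  apply Subtype.ext
  exact u_id h'

theorem flip_u_fix (x : I) (h : x < half) : flip uIso x = x := by
  have h' : (x : ℝ) < 1 / 2 := h
  rw [flip_apply, u_fix, unitInterval.symm_symm]
  change (1 / 2 : ℝ) ≤ (σ x : ℝ)
  rw [unitInterval.coe_symm_eq]
  linarith

theorem flip_u_ne (x : I) (h : half < x) (h1 : x < 1) : flip uIso x ≠ x := by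
  have h' : (1 / 2 : ℝ) < x := h
  have h1' : (x : ℝ) < 1 := h1
  intro he
  have h2 : uIso (σ x) = σ x := by
    rw [flip_apply] at he
    nth_rewrite 2 [← he]
    rw [unitInterval.symm_symm]
  refine absurd h2 (u_lt (σ x) ?_ ?_).ne
  · change (0 : ℝ) < (σ x : ℝ)
    rw [unitInterval.coe_symm_eq]; linarith
  · change (σ x : ℝ) < (1 / 2 : ℝ)
    rw [unitInterval.coe_symm_eq]; linarith

/-- The group `F` acting on `[0,1]`, seen from the end `0`. -/
noncomputable def S₀ : Setup thompsonF where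
  ρ := thompsonF.subtype
  inj := Subtype.val_injective
  z := ⟨zIso, z_mem⟩
  u := ⟨uIso, u_mem⟩
  w := ⟨flip uIso, flip_mem u_mem⟩
  t := half
  ht0 := by change (0 : ℝ) < 1 / 2; norm_num
  ht1 := by change (1 / 2 : ℝ) < 1; norm_num
  germ f := germ_F f.2
  hz := z_lt
  hu := u_lt
  hu' := u_fix
  hw := flip_u_fix
  hw' := flip_u_ne

/-- The group `F` acting on `[0,1]`, seen from the end `1`. -/
noncomputable def S₁ : Setup thompsonF where
  ρ := flipHom.comp thompsonF.subtype
  inj := by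
    intro f g h
    have h' : flip (f : I ≃o I) = flip g := h
    apply Subtype.ext
    rw [← flip_flip f, h', flip_flip]
  z := ⟨flip zIso, flip_mem z_mem⟩
  u := ⟨flip uIso, flip_mem u_mem⟩
  w := ⟨uIso, u_mem⟩
  t := half
  ht0 := by change (0 : ℝ) < 1 / 2; norm_num
  ht1 := by change (1 / 2 : ℝ) < 1; norm_num
  germ f := by
    have := germ_F (flip_mem f.2)
    change ∃ k : ℤ, ∃ d : I, 0 < d ∧ ∀ x, x < d → flip f x = (flip (flip zIso) ^ k) x
    rw [flip_flip]
    exact this
  hz := by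
    change ∀ x : I, 0 < x → x < 1 → flip (flip zIso) x < x
    rw [flip_flip]; exact z_lt
  hu := by
    change ∀ x : I, 0 < x → x < half → flip (flip uIso) x < x
    rw [flip_flip]; exact u_lt
  hu' := by
    change ∀ x : I, half ≤ x → flip (flip uIso) x = x
    rw [flip_flip]; exact u_fix
  hw := flip_u_fix
  hw' := flip_u_ne

theorem w_mem {G : Type*} [Group G] (S : Setup G) : S.w ∈ S.N := by
  refine S.mem_N_iff.2 ⟨S.t, S.ht0, S.hw⟩

/-- Thompson's group `F` is not isomorphic to the derived subgroup of a group. -/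
theorem not_integrable {H : Type*} [Group H] (φ : commutator H ≃* thompsonF) : False := by
  refine final φ S₀ S₁ (fun _ _ => rfl) (fun h => ?_) (fun h => ?_)
  · exact S₁.u_notMem (h (w_mem S₀))
  · exact S₀.u_notMem (h (w_mem S₁))

end Pool.Agent.V1132.ThompsonMain
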