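import Pool.Agent.V1132.TreeZ2

/-!
# Fixed-point proportions of the actions of `ℤ²`
-/

set_option autoImplicit false

namespace Pool.Agent.V1132.TreeCount

open Pool.Agent.V1132.RootedTree Pool.Agent.V1132.TreeZ2

theorem card_fiber {Q H : Type*} [Group Q] [Group H] (θ : Q →* H)
    (hθ : Function.Surjective θ) (P : H → Prop) :
    Nat.card {z : Q // P (θ z)} = Nat.card {h : H // P h} * Nat.card θ.ker := by
  let s : H → Q := Function.surjInv hθ
  have hs : ∀ h, θ (s h) = h := Function.surjInv_eq hθ
  rw [← Nat.card_prod]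
  apply Nat.card_congr
  exact
    { toFun := fun z => (⟨θ z, z.2⟩, ⟨(s (θ z))⁻¹ * z, by simp [MonoidHom.mem_ker, hs]⟩)
      invFun := fun w => ⟨s w.1 * w.2, by
        have h1 : θ (w.2 : Q) = 1 := w.2.2
        rw [map_mul, hs, h1, mul_one]
        exact w.1.2⟩
      left_inv := fun z => by
        apply Subtype.ext
        simp
      right_inv := fun w => by
        have h1 : θ (w.2 : Q) = 1 := w.2.2
        have h2 : θ (s w.1 * w.2) = w.1 := by rw [map_mul, hs, h1, mul_one]
        apply Prod.ext
        · apply Subtype.ext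
          exact h2
        · apply Subtype.ext
          show (s (θ (s w.1 * w.2)))⁻¹ * (s w.1 * w.2) = w.2
          rw [h2]
          simp }

/-- The fixed point proportion at level `n` can be computed in any finite group through which the
action on level `n` factors. -/
theorem fixProp_eq {A : Type*} [Group A] {d : ℕ} (φ : A →* TreeAut d) (n : ℕ) {Q : Type*}
    [Group Q] [Finite Q] (ψ : A →* Q) (hψ : Function.Surjective ψ)
    (hker : ∀ a, ψ a = 1 → ∀ v : List (Fin d), v.length = n →
      (φ a : Equiv.Perm (List (Fin d))) v = v) (E : Q → Prop)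
    (hE : ∀ a, E (ψ a) ↔ ∃ v : List (Fin d), v.length = n ∧
      (φ a : Equiv.Perm (List (Fin d))) v = v) :
    fixProp φ.range n = (Nat.card {z // E z} : ℝ) / Nat.card Q := by
  set Λ := (levelHom d n).comp φ with hΛ
  have hrange : φ.range.map (levelHom d n) = Λ.range := by
    rw [hΛ, MonoidHom.range_comp]
  have hle : ψ.ker ≤ Λ.ker := by
    intro a ha
    rw [MonoidHom.mem_ker] at ha ⊢
    apply Equiv.ext
    intro v
    apply Subtype.ext
    exact hker a ha v.1 v.2
  have hle' : ψ.ker ≤ Λ.rangeRestrict.ker := by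
    intro a ha
    rw [MonoidHom.mem_ker]
    apply Subtype.ext
    exact hle ha
  let θ : Q →* Λ.range := MonoidHom.liftOfSurjective ψ hψ ⟨Λ.rangeRestrict, hle'⟩
  have hθψ : ∀ a, θ (ψ a) = Λ.rangeRestrict a := fun a =>
    MonoidHom.liftOfRightInverse_comp_apply _ _ _ ⟨Λ.rangeRestrict, hle'⟩ a
  have hθ : Function.Surjective θ := by
    intro h
    obtain ⟨a, ha⟩ := Λ.rangeRestrict_surjective h
    exact ⟨ψ a, by rw [hθψ, ha]⟩
  have h1 := card_fiber θ hθ (fun h => ∃ v : Level d n, (h : Equiv.Perm (Level d n)) v = v)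
  have h2 := card_fiber θ hθ (fun _ => True)
  have hE' : ∀ z, E z ↔ ∃ v : Level d n, ((θ z : Λ.range) : Equiv.Perm (Level d n)) v = v := by
    intro z
    obtain ⟨a, rfl⟩ := hψ z
    rw [hE, hθψ]
    constructor
    · rintro ⟨v, hv, h⟩
      exact ⟨⟨v, hv⟩, Subtype.ext h⟩
    · rintro ⟨v, h⟩
      exact ⟨v.1, v.2, congrArg Subtype.val h⟩
  have h3 : Nat.card {z // E z} = Nat.card {z : Q // ∃ v : Level d n,
      ((θ z : Λ.range) : Equiv.Perm (Level d n)) v = v} :=
    Nat.card_congr (Equiv.subtypeEquivRight hE')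
  have h4 : Nat.card {z : Q // True} = Nat.card Q := Nat.card_congr (Equiv.subtypeUnivEquiv (by simp))
  have h5 : Nat.card {h : Λ.range // True} = Nat.card Λ.range :=
    Nat.card_congr (Equiv.subtypeUnivEquiv (by simp))
  rw [h4, h5] at h2
  have hfin : Finite Λ.range := Finite.of_surjective θ hθ
  have hk : (Nat.card θ.ker : ℝ) ≠ 0 := by
    have : Nat.card θ.ker ≠ 0 := Nat.card_pos.ne'
    exact_mod_cast this
  unfold fixProp
  rw [hrange, h3, h1, h2]
  push_cast
  rw [mul_div_mul_right _ _ hk]

section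

variable {p m : ℕ}

theorem fx_mod (hp : 0 < p) (q : Mode) (n : ℕ) {M1 M2 : ℕ}
    (hker : ∀ (x r : ℤ) (w : List (Fin (p * m))), w.length = n →
      act q (M1 * x) (M2 * r) w = w) (x r : ℤ) :
    fx p m q n (x % M1) (r % M2) ↔ fx p m q n x r := by
  have key : ∀ w : List (Fin (p * m)), w.length = n → act q x r w =
      act q (x % M1) (r % M2) w := by
    intro w hw
    have h1 : x = x % M1 + M1 * (x / M1) := (Int.emod_add_mul_ediv x M1).symm
    have h2 : r = r % M2 + M2 * (r / M2) := (Int.emod_add_mul_ediv r M2).symm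
    conv_lhs => rw [h1, h2]
    rw [act_add hp, hker _ _ w hw]
  constructor
  · rintro ⟨w, hw, h⟩
    exact ⟨w, hw, by rw [key w hw, h]⟩
  · rintro ⟨w, hw, h⟩
    exact ⟨w, hw, by rw [← key w hw, h]⟩

open Classical in
theorem fixProp_mode (hp : 0 < p) (q : Mode) (n : ℕ) {M1 M2 : ℕ} (h1 : 0 < M1) (h2 : 0 < M2)
    (hker : ∀ (x r : ℤ) (w : List (Fin (p * m))), w.length = n →
      act q (M1 * x) (M2 * r) w = w) :
    fixProp (toHom (m := m) hp q).range n =
      (((Finset.range M1 ×ˢ Finset.range M2).filter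
        (fun z : ℕ × ℕ => fx p m q n z.1 z.2)).card : ℝ) / (M1 * M2 : ℝ) := by
  have : NeZero M1 := ⟨h1.ne'⟩
  have : NeZero M2 := ⟨h2.ne'⟩
  let ψ : Multiplicative (ℤ × ℤ) →* Multiplicative (ZMod M1 × ZMod M2) :=
    AddMonoidHom.toMultiplicative
      ((Int.castAddHom (ZMod M1)).prodMap (Int.castAddHom (ZMod M2)))
  have hψ' : ∀ a, ψ a = Multiplicative.ofAdd (((Multiplicative.toAdd a).1 : ZMod M1),
      ((Multiplicative.toAdd a).2 : ZMod M2)) := fun a => rfl
  have hψ : Function.Surjective ψ := by
    intro z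
    refine ⟨Multiplicative.ofAdd (((Multiplicative.toAdd z).1.val : ℤ),
      ((Multiplicative.toAdd z).2.val : ℤ)), ?_⟩
    rw [hψ']
    apply Multiplicative.toAdd.injective
    apply Prod.ext <;> simp
  rw [fixProp_eq (toHom hp q) n ψ hψ ?_
    (fun z => fx p m q n ((Multiplicative.toAdd z).1.val) ((Multiplicative.toAdd z).2.val)) ?_]
  · congr 1
    · rw [← Fintype.card_coe, ← Nat.card_eq_fintype_card]
      congr 1
      apply Nat.card_congr
      exact
        { toFun := fun z => ⟨((Multiplicative.toAdd z.1).1.val, (Multiplicative.toAdd z.1).2.val),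
            by
              rw [Finset.mem_filter, Finset.mem_product, Finset.mem_range, Finset.mem_range]
              exact ⟨⟨ZMod.val_lt _, ZMod.val_lt _⟩, z.2⟩⟩
          invFun := fun w => ⟨Multiplicative.ofAdd ((w.1.1 : ZMod M1), (w.1.2 : ZMod M2)), by
              have hw := w.2
              rw [Finset.mem_filter, Finset.mem_product, Finset.mem_range, Finset.mem_range] at hw
              simp only [toAdd_ofAdd]
              rw [ZMod.val_natCast_of_lt hw.1.1, ZMod.val_natCast_of_lt hw.1.2]
              exact hw.2⟩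
          left_inv := fun z => by
            apply Subtype.ext
            apply Multiplicative.toAdd.injective
            apply Prod.ext <;> simp
          right_inv := fun w => by
            have hw := w.2
            rw [Finset.mem_filter, Finset.mem_product, Finset.mem_range, Finset.mem_range] at hw
            apply Subtype.ext
            apply Prod.ext
            · simp [Nat.mod_eq_of_lt hw.1.1]
            · simp [Nat.mod_eq_of_lt hw.1.2] }
    · rw [Nat.card_eq_fintype_card, Fintype.card_multiplicative, Fintype.card_prod, ZMod.card,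
        ZMod.card]
      push_cast
      rfl
  · intro a ha v hv
    rw [hψ'] at ha
    have ha' := congrArg Multiplicative.toAdd ha
    have e1 : ((Multiplicative.toAdd a).1 : ZMod M1) = 0 := congrArg Prod.fst ha'
    have e2 : ((Multiplicative.toAdd a).2 : ZMod M2) = 0 := congrArg Prod.snd ha'
    rw [ZMod.intCast_zmod_eq_zero_iff_dvd] at e1 e2
    obtain ⟨x, hx⟩ := e1
    obtain ⟨r, hr⟩ := e2
    show act q (Multiplicative.toAdd a).1 (Multiplicative.toAdd a).2 v = v
    rw [hx, hr]
    exact hker x r v hv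
  · intro a
    rw [hψ']
    simp only [toAdd_ofAdd, ZMod.val_intCast]
    rw [fx_mod hp q n hker]
    rfl

/-- The number of pairs fixing a vertex. -/
theorem count_row (hp : p.Prime) {j k : ℕ} (S : Finset ℕ) (hS : ∀ s ∈ S, s < p ^ k)
    (x : ℕ) (P : ℕ → Prop) [DecidablePred P]
    (hP : ∀ r, P r ↔ ∃ r' : ℤ, (r : ℤ) = (p : ℤ) ^ j * r' ∧
      ((p : ℤ) ∣ (x : ℤ) ∨ ∃ s ∈ S, (p : ℤ) ^ k ∣ r' - s * x)) :
    ((Finset.range (p ^ (j + k))).filter P).card = if p ∣ x then p ^ k else S.card := by
  have hpj : 0 < p ^ j := pow_pos hp.pos j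
  have hpk : 0 < p ^ k := pow_pos hp.pos k
  split_ifs with hx
  · have h1 : (Finset.range (p ^ (j + k))).filter P =
        (Finset.range (p ^ k)).image (fun r' => p ^ j * r') := by
      ext r
      rw [Finset.mem_filter, Finset.mem_image, Finset.mem_range, hP]
      constructor
      · rintro ⟨hr, r', hr', -⟩
        have h0 : 0 ≤ r' := by
          by_contra hneg
          push Not at hneg
          have : (p : ℤ) ^ j * r' < 0 := mul_neg_of_pos_of_neg (by exact_mod_cast hpj) hneg
          omega
        obtain ⟨t, rfl⟩ := Int.eq_ofNat_of_zero_le h0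
        have h2 : r = p ^ j * t := by exact_mod_cast hr'
        refine ⟨t, ?_, h2.symm⟩
        rw [Finset.mem_range]
        rw [h2, pow_add] at hr
        exact lt_of_mul_lt_mul_left hr (Nat.zero_le _)
      · rintro ⟨t, ht, rfl⟩
        rw [Finset.mem_range] at ht
        refine ⟨?_, t, by push_cast; ring, Or.inl (by exact_mod_cast hx)⟩
        rw [pow_add]
        exact Nat.mul_lt_mul_of_pos_left ht hpj
    rw [h1, Finset.card_image_of_injective, Finset.card_range]
    intro a b hab
    exact Nat.eq_of_mul_eq_mul_left hpj hab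
  · have hcop : Nat.Coprime x (p ^ k) := by
      apply Nat.Coprime.pow_right
      exact ((Nat.Prime.coprime_iff_not_dvd hp).2 hx).symm
    have h1 : (Finset.range (p ^ (j + k))).filter P =
        S.image (fun s => p ^ j * ((s * x) % p ^ k)) := by
      ext r
      rw [Finset.mem_filter, Finset.mem_image, Finset.mem_range, hP]
      constructor
      · rintro ⟨hr, r', hr', h⟩
        have h0 : 0 ≤ r' := by
          by_contra hneg
          push Not at hneg
          have : (p : ℤ) ^ j * r' < 0 := mul_neg_of_pos_of_neg (by exact_mod_cast hpj) hneg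
          omega
        obtain ⟨t, rfl⟩ := Int.eq_ofNat_of_zero_le h0
        have h2 : r = p ^ j * t := by exact_mod_cast hr'
        have h3 : t < p ^ k := by
          rw [h2, pow_add] at hr
          exact lt_of_mul_lt_mul_left hr (Nat.zero_le _)
        have h4 : ∃ s ∈ S, (p : ℤ) ^ k ∣ (t : ℤ) - s * x := by
          rcases h with h | h
          · exact absurd (by exact_mod_cast h) hx
          · exact h
        obtain ⟨s, hs, hdvd⟩ := h4
        refine ⟨s, hs, ?_⟩
        rw [h2]
        congr 1
        have h5 : ((s * x : ℕ) : ℤ) ≡ (t : ℤ) [ZMOD ((p ^ k : ℕ) : ℤ)] := by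
          rw [Int.modEq_iff_dvd]
          push_cast
          exact hdvd
        rw [Int.natCast_modEq_iff] at h5
        rw [h5, Nat.mod_eq_of_lt h3]
      · rintro ⟨s, hs, rfl⟩
        have h3 : (s * x) % p ^ k < p ^ k := Nat.mod_lt _ hpk
        refine ⟨?_, ((s * x) % p ^ k : ℕ), by push_cast; ring, Or.inr ⟨s, hs, ?_⟩⟩
        · rw [pow_add]
          exact Nat.mul_lt_mul_of_pos_left h3 hpj
        · have h5 : ((s * x : ℕ) : ℤ) ≡ (((s * x) % p ^ k : ℕ) : ℤ) [ZMOD ((p ^ k : ℕ) : ℤ)] := by
            rw [Int.natCast_modEq_iff]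
            exact (Nat.mod_modEq _ _).symm
          rw [Int.modEq_iff_dvd] at h5
          push_cast at h5 ⊢
          exact h5
    rw [h1, Finset.card_image_of_injOn]
    intro a ha b hb hab
    have h2 := Nat.eq_of_mul_eq_mul_left hpj hab
    have h3 : a * x ≡ b * x [MOD p ^ k] := h2
    have h4 := Nat.ModEq.cancel_right_of_coprime (by rwa [Nat.coprime_comm] at hcop) h3
    have h5 := hS a ha
    have h6 := hS b hb
    unfold Nat.ModEq at h4
    rwa [Nat.mod_eq_of_lt h5, Nat.mod_eq_of_lt h6] at h4

theorem count_multiples (hp : p.Prime) (k : ℕ) :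
    ((Finset.range (p ^ (k + 1))).filter (fun x => p ∣ x)).card = p ^ k := by
  have h1 : (Finset.range (p ^ (k + 1))).filter (fun x => p ∣ x) =
      (Finset.range (p ^ k)).image (fun t => p * t) := by
    ext x
    rw [Finset.mem_filter, Finset.mem_image, Finset.mem_range]
    constructor
    · rintro ⟨hx, t, rfl⟩
      refine ⟨t, ?_, rfl⟩
      rw [Finset.mem_range]
      rw [pow_succ, mul_comm (p ^ k) p] at hx
      exact lt_of_mul_lt_mul_left hx (Nat.zero_le _)
    · rintro ⟨t, ht, rfl⟩
      rw [Finset.mem_range] at ht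
      refine ⟨?_, dvd_mul_right _ _⟩
      rw [pow_succ, mul_comm (p ^ k) p]
      exact Nat.mul_lt_mul_of_pos_left ht hp.pos
  rw [h1, Finset.card_image_of_injective, Finset.card_range]
  intro a b hab
  exact Nat.eq_of_mul_eq_mul_left hp.pos hab

end

end Pool.Agent.V1132.TreeCount
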