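import Pool.Agent.V1132.TreeCount

/-!
# Every number in `[0, 1]` is a fixed-point proportion
-/

set_option autoImplicit false

namespace Pool.Agent.V1132.TreeMain

open Pool.Agent.V1132.RootedTree Pool.Agent.V1132.TreeZ2 Pool.Agent.V1132.TreeCount Filter Topology

variable {p m : ℕ}

theorem sum_rows (hp : p.Prime) (K s : ℕ) :
    ∑ x ∈ Finset.range (p ^ (K + 1)), (if p ∣ x then p ^ (K + 1) else s) =
      p ^ K * p ^ (K + 1) + (p ^ (K + 1) - p ^ K) * s := by
  rw [Finset.sum_ite, Finset.sum_const, Finset.sum_const, count_multiples hp, smul_eq_mul,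
    smul_eq_mul]
  congr 2
  have h1 := Finset.card_filter_add_card_filter_not (s := Finset.range (p ^ (K + 1)))
    (fun x => p ∣ x)
  rw [count_multiples hp, Finset.card_range] at h1
  omega

theorem fixProp_odo (hp : p.Prime) (hm : 0 < m) (β : ℝ) (j n : ℕ) (hn : 2 ≤ n) :
    fixProp (toHom (m := m) hp.pos (odoMode β j)).range (j + (n + 1)) =
      (1 / (p : ℝ) ^ j) * (1 / p + (1 - 1 / p) *
        (((slopes p (n / 2) β).card : ℝ) / (p : ℝ) ^ (n / 2))) := by
  classical
  obtain ⟨K, hK⟩ : ∃ K, n / 2 = K + 1 := ⟨n / 2 - 1, by omega⟩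
  obtain ⟨n', rfl⟩ : ∃ n', n = n' + 1 := ⟨n - 1, by omega⟩
  have hp0 : (p : ℝ) ≠ 0 := by exact_mod_cast hp.pos.ne'
  rw [hK, fixProp_mode hp.pos (odoMode β j) _ (M1 := p ^ (K + 1)) (M2 := p ^ (j + (K + 1)))
    (pow_pos hp.pos _) (pow_pos hp.pos _)]
  · have hcount : (((Finset.range (p ^ (K + 1)) ×ˢ Finset.range (p ^ (j + (K + 1)))).filter
        (fun z : ℕ × ℕ => fx p m (odoMode β j) (j + (n' + 1 + 1)) z.1 z.2)).card) =
        p ^ K * p ^ (K + 1) + (p ^ (K + 1) - p ^ K) * (slopes p (K + 1) β).card := by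
      rw [← sum_rows hp K, Finset.card_filter, Finset.sum_product]
      apply Finset.sum_congr rfl
      intro x _
      rw [← Finset.card_filter]
      refine count_row hp (slopes p (K + 1) β) (slopes_lt hp.pos _ β) x _ ?_
      intro r
      simp only
      rw [fx_odoMode hp.pos hm]
      apply exists_congr
      intro r'
      rw [fx_branch hp.two_le hm, fx_s0 hp.pos hm, fx_pick hp.pos hm, hK]
    rw [hcount]
    have hle : p ^ K ≤ p ^ (K + 1) := Nat.pow_le_pow_right hp.pos (Nat.le_succ K)
    push_cast [Nat.cast_sub hle]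
    rw [pow_add (p : ℝ) j, pow_succ]
    field_simp
  · intro x r w hw
    push_cast
    apply ker_odo hp.pos (K + 1) (Nat.succ_pos K) β j
    omega

theorem tendsto_slopes (hp : p.Prime) {β : ℝ} (h0 : 0 ≤ β) (h1 : β ≤ 1) :
    Tendsto (fun k => ((slopes p k β).card : ℝ) / (p : ℝ) ^ k) atTop (𝓝 β) := by
  have hp1 : (1 : ℝ) < p := by exact_mod_cast hp.one_lt
  have hlim : Tendsto (fun k => β + (1 / (p : ℝ)) ^ k) atTop (𝓝 (β + 0)) := by
    apply Tendsto.add tendsto_const_nhds
    apply tendsto_pow_atTop_nhds_zero_of_lt_one (by positivity)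
    rw [div_lt_one (by linarith)]
    exact hp1
  rw [add_zero] at hlim
  refine tendsto_of_tendsto_of_tendsto_of_le_of_le tendsto_const_nhds hlim ?_ ?_
  · intro k
    have hpk : (0 : ℝ) < (p : ℝ) ^ k := by positivity
    have := (card_slopes hp.two_le k β h0 h1).1
    simp only
    rwa [le_div_iff₀ hpk]
  · intro k
    have hpk : (0 : ℝ) < (p : ℝ) ^ k := by positivity
    have := (card_slopes hp.two_le k β h0 h1).2.1
    simp only
    rw [div_le_iff₀ hpk, add_mul]
    have h2 : (1 / (p : ℝ)) ^ k * (p : ℝ) ^ k = 1 := by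
      rw [← mul_pow, one_div, inv_mul_cancel₀ (by linarith), one_pow]
    rw [h2]
    exact this

theorem hasFPP_odo (hp : p.Prime) (hm : 0 < m) {β : ℝ} (h0 : 0 ≤ β) (h1 : β ≤ 1) (j : ℕ) :
    HasFPP (toHom (m := m) hp.pos (odoMode β j)).range
      ((1 / (p : ℝ) ^ j) * (1 / p + (1 - 1 / p) * β)) := by
  unfold HasFPP
  rw [← tendsto_add_atTop_iff_nat (j + 3)]
  have hlim : Tendsto (fun n => (1 / (p : ℝ) ^ j) * (1 / p + (1 - 1 / p) *
        (((slopes p ((n + 2) / 2) β).card : ℝ) / (p : ℝ) ^ ((n + 2) / 2)))) atTop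
      (𝓝 ((1 / (p : ℝ) ^ j) * (1 / p + (1 - 1 / p) * β))) := by
    apply Tendsto.const_mul
    apply Tendsto.const_add
    apply Tendsto.const_mul
    refine (tendsto_slopes hp h0 h1).comp (g := fun k => ((slopes p k β).card : ℝ) / (p : ℝ) ^ k)
      (f := fun n => (n + 2) / 2) ?_
    rw [tendsto_atTop_atTop]
    intro b
    exact ⟨2 * b, fun a ha => by omega⟩
  refine hlim.congr ?_
  intro n
  rw [← fixProp_odo hp hm β j (n + 2) (by omega)]
  congr 1
  omega

theorem slopes_zero (hp : 0 < p) (k : ℕ) : slopes p k 0 = {0} := by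
  induction k with
  | zero => rfl
  | succ k ih =>
    ext t
    rw [mem_slopes_succ, Finset.mem_singleton]
    constructor
    · rintro ⟨σ, h1, h2, s, h3, rfl⟩
      simp only [mul_zero, Nat.floor_zero, nonpos_iff_eq_zero] at h2
      subst h2
      have h4 : nxt p 0 0 = 0 := by simp [nxt]
      rw [h4, ih, Finset.mem_singleton] at h3
      simp [h3]
    · rintro rfl
      refine ⟨0, hp, Nat.zero_le _, 0, ?_, rfl⟩
      have h4 : nxt p 0 0 = 0 := by simp [nxt]
      rw [h4, ih, Finset.mem_singleton]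

theorem hasFPP_zero (hp : p.Prime) (hm : 0 < m) :
    HasFPP (toHom (m := m) hp.pos (.pick 0)).range 0 := by
  classical
  have key : ∀ n, fixProp (toHom (m := m) hp.pos (.pick 0)).range n = (1 / (p : ℝ)) ^ (n / 2) := by
    intro n
    have hp0 : (p : ℝ) ≠ 0 := by exact_mod_cast hp.pos.ne'
    rw [fixProp_mode hp.pos (.pick 0) _ (M1 := p ^ (n / 2)) (M2 := p ^ (n / 2))
      (pow_pos hp.pos _) (pow_pos hp.pos _)]
    · have hcount : (((Finset.range (p ^ (n / 2)) ×ˢ Finset.range (p ^ (n / 2))).filter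
        (fun z : ℕ × ℕ => fx p m (.pick 0) n z.1 z.2)).card) = p ^ (n / 2) := by
        rw [Finset.card_filter, Finset.sum_product]
        rw [Finset.sum_congr rfl (g := fun _ => 1)]
        · simp
        · intro x _
          rw [← Finset.card_filter, Finset.card_eq_one]
          refine ⟨0, ?_⟩
          ext r
          rw [Finset.mem_filter, Finset.mem_singleton, Finset.mem_range]
          simp only
          rw [fx_pick hp.pos hm, slopes_zero hp.pos]
          simp only [Finset.mem_singleton, exists_eq_left, Nat.cast_zero, zero_mul, sub_zero]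
          constructor
          · rintro ⟨h1, h2⟩
            have h3 : p ^ (n / 2) ∣ r := by exact_mod_cast h2
            exact Nat.eq_zero_of_dvd_of_lt h3 h1
          · rintro rfl
            exact ⟨pow_pos hp.pos _, dvd_zero _⟩
      rw [hcount]
      push_cast
      rw [one_div_pow]
      field_simp
    · intro x r w hw
      push_cast
      apply ker_pick hp.pos
      omega
  unfold HasFPP
  simp only [key]
  have hp1 : (1 : ℝ) < p := by exact_mod_cast hp.one_lt
  have h1 : Tendsto (fun k : ℕ => (1 / (p : ℝ)) ^ k) atTop (𝓝 0) := by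
    apply tendsto_pow_atTop_nhds_zero_of_lt_one (by positivity)
    rw [div_lt_one (by linarith)]
    exact hp1
  refine h1.comp (f := fun n : ℕ => n / 2) ?_
  rw [tendsto_atTop_atTop]
  intro b
  exact ⟨2 * b, fun a ha => by omega⟩

/-- The image of `ℤ²` is generated by two commuting elements. -/
theorem range_eq_closure {G : Type*} [Group G] (φ : Multiplicative (ℤ × ℤ) →* G) :
    φ.range = Subgroup.closure {φ (Multiplicative.ofAdd (1, 0)), φ (Multiplicative.ofAdd (0, 1))} := by
  apply le_antisymm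
  · rintro _ ⟨z, rfl⟩
    have hz : z = Multiplicative.ofAdd ((1 : ℤ), (0 : ℤ)) ^ (Multiplicative.toAdd z).1 *
        Multiplicative.ofAdd ((0 : ℤ), (1 : ℤ)) ^ (Multiplicative.toAdd z).2 := by
      apply Multiplicative.toAdd.injective
      rw [toAdd_mul, toAdd_zpow, toAdd_zpow]
      apply Prod.ext <;> simp
    rw [hz, map_mul, map_zpow, map_zpow]
    apply Subgroup.mul_mem
    · exact Subgroup.zpow_mem _ (Subgroup.subset_closure (by simp)) _
    · exact Subgroup.zpow_mem _ (Subgroup.subset_closure (by simp)) _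
  · rw [Subgroup.closure_le]
    rintro x (rfl | rfl)
    · exact ⟨_, rfl⟩
    · exact ⟨_, rfl⟩

theorem main (d : ℕ) (hd : 2 ≤ d) (α : ℝ) (h0 : 0 ≤ α) (h1 : α ≤ 1) :
    ∃ a b : TreeAut d, a * b = b * a ∧ HasFPP (Subgroup.closure {a, b}) α := by
  obtain ⟨p, hp, m, rfl⟩ := Nat.exists_prime_and_dvd (n := d) (by omega)
  have hm : 0 < m := by
    rcases Nat.eq_zero_or_pos m with rfl | h
    · omega
    · exact h
  have hp1 : (1 : ℝ) < p := by exact_mod_cast hp.one_lt
  have key : ∃ q : Mode, HasFPP (toHom (m := m) hp.pos q).range α := by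
    rcases h0.eq_or_lt with rfl | h0
    · exact ⟨_, hasFPP_zero hp hm⟩
    · -- find `j` with `1 / p ^ (j + 1) < α ≤ 1 / p ^ j`
      have hex : ∃ j : ℕ, 1 / (p : ℝ) ^ (j + 1) < α := by
        obtain ⟨j, hj⟩ := exists_pow_lt_of_lt_one h0 (show (1 / (p : ℝ)) < 1 by
          rw [div_lt_one (by linarith)]; exact hp1)
        refine ⟨j, lt_of_le_of_lt ?_ hj⟩
        rw [one_div_pow, pow_succ]
        apply one_div_le_one_div_of_le (by positivity)
        nlinarith [pow_pos (by linarith : (0 : ℝ) < p) j]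
      classical
      set j := Nat.find hex with hjdef
      have hj1 : 1 / (p : ℝ) ^ (j + 1) < α := Nat.find_spec hex
      have hj2 : α ≤ 1 / (p : ℝ) ^ j := by
        rcases Nat.eq_zero_or_pos j with hj0 | hj0
        · rw [hj0]
          simpa using h1
        · have h2 := Nat.find_min hex (m := j - 1) (by omega)
          rw [not_lt] at h2
          rwa [Nat.sub_add_cancel hj0] at h2
      have hpj : (0 : ℝ) < (p : ℝ) ^ j := by positivity
      rw [pow_succ, div_lt_iff₀ (by positivity)] at hj1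
      rw [le_div_iff₀ hpj] at hj2
      refine ⟨odoMode (((p : ℝ) ^ j * p * α - 1) / (p - 1)) j, ?_⟩
      have hα : α = (1 / (p : ℝ) ^ j) * (1 / p + (1 - 1 / p) *
          (((p : ℝ) ^ j * p * α - 1) / (p - 1))) := by
        have hp2 : (p : ℝ) - 1 ≠ 0 := by linarith
        field_simp
        ring
      conv_rhs => rw [hα]
      apply hasFPP_odo hp hm
      · apply div_nonneg
        · linarith
        · linarith
      · rw [div_le_one (by linarith)]
        nlinarith
  obtain ⟨q, hq⟩ := key
  rw [range_eq_closure] at hq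
  refine ⟨_, _, ?_, hq⟩
  exact ((Commute.all (Multiplicative.ofAdd ((1 : ℤ), (0 : ℤ)))
    (Multiplicative.ofAdd ((0 : ℤ), (1 : ℤ)))).map (toHom hp.pos q)).eq

end Pool.Agent.V1132.TreeMain
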