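import Pool.Agent.V1132.RootedTree

/-!
# Actions of `ℤ²` on rooted trees
-/

set_option autoImplicit false

namespace Pool.Agent.V1132.TreeZ2

open Pool.Agent.V1132.RootedTree

section rot

variable {p m : ℕ}

/-- The digit of a letter. -/
def dig (l : Fin (p * m)) : ℕ := l.val % p

theorem dig_lt (hp : 0 < p) (l : Fin (p * m)) : dig l < p := Nat.mod_lt _ hp

theorem rot_aux (r : ℤ) (l : Fin (p * m)) :
    p * (l.val / p) + (((dig l : ℤ) + r) % p).toNat < p * m := by
  have hpm : 0 < p * m := lt_of_le_of_lt (Nat.zero_le _) l.2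
  have hp : 0 < p := Nat.pos_of_mul_pos_right hpm
  have h1 : l.val / p < m := Nat.div_lt_of_lt_mul l.2
  have h2 : (((dig l : ℤ) + r) % p).toNat < p := by
    have := Int.emod_lt_of_pos ((dig l : ℤ) + r) (show (0 : ℤ) < p by exact_mod_cast hp)
    have h0 := Int.emod_nonneg ((dig l : ℤ) + r) (show (p : ℤ) ≠ 0 by exact_mod_cast hp.ne')
    omega
  calc p * (l.val / p) + (((dig l : ℤ) + r) % p).toNat < p * (l.val / p) + p := by omega
    _ = p * (l.val / p + 1) := by ring
    _ ≤ p * m := Nat.mul_le_mul_left p h1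

/-- Rotation of a letter: add `r` to its digit modulo `p`. -/
def rot (r : ℤ) (l : Fin (p * m)) : Fin (p * m) := ⟨_, rot_aux r l⟩

theorem dig_rot (hp : 0 < p) (r : ℤ) (l : Fin (p * m)) :
    (dig (rot r l) : ℤ) = ((dig l : ℤ) + r) % p := by
  have h0 := Int.emod_nonneg ((dig l : ℤ) + r) (show (p : ℤ) ≠ 0 by exact_mod_cast hp.ne')
  have h1 := Int.emod_lt_of_pos ((dig l : ℤ) + r) (show (0 : ℤ) < p by exact_mod_cast hp)
  unfold rot
  rw [dig]
  simp only [Nat.mul_add_mod]
  rw [Nat.mod_eq_of_lt (by omega), Int.toNat_of_nonneg h0]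

theorem div_rot (hp : 0 < p) (r : ℤ) (l : Fin (p * m)) : (rot r l).val / p = l.val / p := by
  have h0 := Int.emod_nonneg ((dig l : ℤ) + r) (show (p : ℤ) ≠ 0 by exact_mod_cast hp.ne')
  have h1 := Int.emod_lt_of_pos ((dig l : ℤ) + r) (show (0 : ℤ) < p by exact_mod_cast hp)
  unfold rot
  simp only
  have h2 : (((dig l : ℤ) + r) % p).toNat / p = 0 := Nat.div_eq_of_lt (by omega)
  rw [Nat.mul_add_div hp, h2, add_zero]

theorem ext_dig {l l' : Fin (p * m)} (h1 : dig l = dig l') (h2 : l.val / p = l'.val / p) :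
    l = l' := by
  apply Fin.ext
  rw [← Nat.div_add_mod l.val p, ← Nat.div_add_mod l'.val p, h2]
  unfold dig at h1
  rw [h1]

theorem rot_add (hp : 0 < p) (r r' : ℤ) (l : Fin (p * m)) :
    rot (r + r') l = rot r (rot r' l) := by
  apply ext_dig
  · have : (dig (rot (r + r') l) : ℤ) = dig (rot r (rot r' l)) := by
      rw [dig_rot hp, dig_rot hp, dig_rot hp, Int.emod_add_emod]
      congr 1
      ring
    exact_mod_cast this
  · rw [div_rot hp, div_rot hp, div_rot hp]

theorem rot_of_dvd (hp : 0 < p) {r : ℤ} (h : (p : ℤ) ∣ r) (l : Fin (p * m)) : rot r l = l := by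
  apply ext_dig
  · have h1 := dig_rot hp r l
    obtain ⟨k, rfl⟩ := h
    rw [Int.add_mul_emod_self_left, Int.emod_eq_of_lt (by positivity)
      (by exact_mod_cast dig_lt hp l)] at h1
    exact_mod_cast h1
  · rw [div_rot hp]

theorem rot_eq_iff (hp : 0 < p) {r : ℤ} (l : Fin (p * m)) : rot r l = l ↔ (p : ℤ) ∣ r := by
  refine ⟨fun h => ?_, fun h => rot_of_dvd hp h l⟩
  have h1 := dig_rot hp r l
  rw [h] at h1
  have h2 := Int.emod_add_mul_ediv ((dig l : ℤ) + r) p
  rw [← h1] at h2
  exact ⟨((dig l : ℤ) + r) / p, by linarith⟩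

/-- Carry. -/
def carry (r : ℤ) (l : Fin (p * m)) : ℤ := ((dig l : ℤ) + r) / p

theorem carry_add (hp : 0 < p) (r r' : ℤ) (l : Fin (p * m)) :
    carry (r + r') l = carry r (rot r' l) + carry r' l := by
  unfold carry
  have hp' : (p : ℤ) ≠ 0 := by exact_mod_cast hp.ne'
  rw [dig_rot hp]
  have h2 := Int.emod_add_mul_ediv ((dig l : ℤ) + r') p
  rw [← Int.add_mul_ediv_left _ _ hp']
  congr 1
  linarith

theorem carry_mul (hp : 0 < p) (r : ℤ) (l : Fin (p * m)) : carry (p * r) l = r := by
  unfold carry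
  have hp' : (p : ℤ) ≠ 0 := by exact_mod_cast hp.ne'
  rw [Int.add_mul_ediv_left _ _ hp', Int.ediv_eq_zero_of_lt (by positivity)
    (by exact_mod_cast dig_lt hp l), zero_add]

end rot

section automaton

variable {p m : ℕ}

/-- The modes of the automaton. -/
inductive Mode where
  | triv : Mode
  | s0 : Mode
  | pick : ℝ → Mode
  | red : ℕ → ℝ → Mode
  | branch : ℝ → Mode
  | odo : Mode → Mode

/-- The slope digit selected by the digit `c` when the target is `β`. -/
noncomputable def sig (p : ℕ) (β : ℝ) (c : ℕ) : ℕ := min c ⌊p * β⌋₊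

/-- The new target. -/
noncomputable def nxt (p : ℕ) (β : ℝ) (c : ℕ) : ℝ := if c < ⌊p * β⌋₊ then 1 else p * β - ⌊p * β⌋₊

/-- The rotation amount. -/
def amt : Mode → ℤ → ℤ → ℤ
  | .triv, _, _ => 0
  | .s0, x, _ => x
  | .pick _, _, _ => 0
  | .red s _, x, r => r - s * x
  | .branch _, _, _ => 0
  | .odo _, _, r => r

/-- The next mode. -/
noncomputable def next : Mode → Fin (p * m) → Mode
  | .triv, _ => .triv
  | .s0, _ => .triv
  | .pick β, l => .red (sig p β (dig l)) (nxt p β (dig l))
  | .red _ β, _ => .pick β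
  | .branch β, l => if l.val = 0 then .s0 else .pick β
  | .odo q, _ => q

/-- The next value of the second coordinate. -/
def rem : Mode → ℤ → ℤ → Fin (p * m) → ℤ
  | .triv, _, r, _ => r
  | .s0, _, r, _ => r
  | .pick _, _, r, _ => r
  | .red s _, x, r, l => carry (r - s * x) l
  | .branch _, _, r, _ => r
  | .odo _, _, r, l => carry r l

/-- The action of `(x, r)` on words. -/
noncomputable def act : Mode → ℤ → ℤ → List (Fin (p * m)) → List (Fin (p * m))
  | _, _, _, [] => []
  | q, x, r, l :: w => rot (amt q x r) l :: act (next q l) x (rem q x r l) w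

theorem amt_add (q : Mode) (x x' r r' : ℤ) :
    amt q (x + x') (r + r') = amt q x r + amt q x' r' := by
  cases q <;> simp only [amt] <;> ring

theorem rot_zero (hp : 0 < p) (l : Fin (p * m)) : rot 0 l = l := rot_of_dvd hp (dvd_zero _) l

theorem next_rot (hp : 0 < p) (q : Mode) (x r : ℤ) (l : Fin (p * m)) :
    next q (rot (amt q x r) l) = next q l := by
  cases q <;> simp only [amt, next, rot_zero hp]

theorem rem_add (hp : 0 < p) (q : Mode) (x x' r r' : ℤ) (l : Fin (p * m)) :
    rem q (x + x') (r + r') l = rem q x r (rot (amt q x' r') l) + rem q x' r' l := by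
  cases q
  case red s β =>
    simp only [rem, amt]
    rw [← carry_add hp]
    congr 1
    ring
  case odo q =>
    simp only [rem, amt]
    rw [← carry_add hp]
  all_goals simp only [rem]

theorem act_add (hp : 0 < p) (w : List (Fin (p * m))) : ∀ (q : Mode) (x x' r r' : ℤ),
    act q (x + x') (r + r') w = act q x r (act q x' r' w) := by
  induction w with
  | nil => intro q x x' r r'; simp [act]
  | cons l w ih =>
    intro q x x' r r'
    simp only [act]
    rw [amt_add, rot_add hp, next_rot hp, ← ih, rem_add hp]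

theorem carry_zero (hp : 0 < p) (l : Fin (p * m)) : carry 0 l = 0 := by
  have := carry_mul hp 0 l
  rwa [mul_zero] at this

theorem act_zero (hp : 0 < p) (w : List (Fin (p * m))) : ∀ (q : Mode), act q 0 0 w = w := by
  induction w with
  | nil => intro q; simp [act]
  | cons l w ih =>
    intro q
    have h1 : amt q 0 0 = 0 := by cases q <;> simp [amt]
    have h2 : rem q 0 0 l = 0 := by cases q <;> simp [rem, carry_zero hp]
    simp only [act, h1, h2, rot_zero hp, ih]

theorem act_length (w : List (Fin (p * m))) : ∀ (q : Mode) (x r : ℤ),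
    (act q x r w).length = w.length := by
  induction w with
  | nil => intro q x r; simp [act]
  | cons l w ih => intro q x r; simp [act, ih]

theorem act_append (u v : List (Fin (p * m))) : ∀ (q : Mode) (x r : ℤ),
    act q x r u <+: act q x r (u ++ v) := by
  induction u with
  | nil => intro q x r; simp [act]
  | cons l w ih =>
    intro q x r
    simp only [List.cons_append, act, List.cons_prefix_cons]
    exact ⟨trivial, ih _ _ _⟩

theorem act_prefix {u v : List (Fin (p * m))} (q : Mode) (x r : ℤ) (h : u <+: v) :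
    act q x r u <+: act q x r v := by
  obtain ⟨t, rfl⟩ := h
  exact act_append u t q x r

theorem act_neg (hp : 0 < p) (w : List (Fin (p * m))) (q : Mode) (x r : ℤ) :
    act q (-x) (-r) (act q x r w) = w := by
  rw [← act_add hp, neg_add_cancel, neg_add_cancel, act_zero hp]

theorem act_neg' (hp : 0 < p) (w : List (Fin (p * m))) (q : Mode) (x r : ℤ) :
    act q x r (act q (-x) (-r) w) = w := by
  rw [← act_add hp, add_neg_cancel, add_neg_cancel, act_zero hp]

/-- The tree automorphism given by `(x, r)`. -/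
noncomputable def toAut (hp : 0 < p) (q : Mode) (x r : ℤ) : TreeAut (p * m) :=
  ⟨{ toFun := act q x r
     invFun := act q (-x) (-r)
     left_inv := fun w => act_neg hp w q x r
     right_inv := fun w => act_neg' hp w q x r },
   fun w => act_length w q x r,
   fun u v => ⟨fun h => by
      have := act_prefix q (-x) (-r) h
      simpa [act_neg hp] using this, fun h => act_prefix q x r h⟩⟩

/-- The action as a homomorphism from `ℤ²`. -/
noncomputable def toHom (hp : 0 < p) (q : Mode) : Multiplicative (ℤ × ℤ) →* TreeAut (p * m) where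
  toFun g := toAut hp q (Multiplicative.toAdd g).1 (Multiplicative.toAdd g).2
  map_one' := by
    apply Subtype.ext
    apply Equiv.ext
    intro w
    exact act_zero hp w q
  map_mul' g h := by
    apply Subtype.ext
    apply Equiv.ext
    intro w
    exact act_add hp w q _ _ _ _

/-- `(x, r)` fixes a word of length `n`. -/
def fx (p m : ℕ) (q : Mode) (n : ℕ) (x r : ℤ) : Prop :=
  ∃ w : List (Fin (p * m)), w.length = n ∧ act q x r w = w

theorem fx_zero (q : Mode) (x r : ℤ) : fx p m q 0 x r := ⟨[], rfl, by simp [act]⟩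

theorem fx_succ (hp : 0 < p) (q : Mode) (n : ℕ) (x r : ℤ) : fx p m q (n + 1) x r ↔
    ∃ l : Fin (p * m), (p : ℤ) ∣ amt q x r ∧ fx p m (next q l) n x (rem q x r l) := by
  constructor
  · rintro ⟨w, hw, hact⟩
    cases w with
    | nil => simp at hw
    | cons l w =>
      simp only [act, List.cons.injEq] at hact
      rw [rot_eq_iff hp] at hact
      exact ⟨l, hact.1, w, by simpa using hw, hact.2⟩
  · rintro ⟨l, h1, w, hw, hact⟩
    refine ⟨l :: w, by simp [hw], ?_⟩
    simp only [act, hact, rot_of_dvd hp h1]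

theorem act_triv (hp : 0 < p) (w : List (Fin (p * m))) : ∀ x r : ℤ, act .triv x r w = w := by
  induction w with
  | nil => intro x r; simp [act]
  | cons l w ih => intro x r; simp [act, amt, next, ih, rot_zero hp]

theorem fx_triv (hp : 0 < p) (hm : 0 < m) (n : ℕ) (x r : ℤ) : fx p m .triv n x r :=
  ⟨List.replicate n ⟨0, Nat.mul_pos hp hm⟩, by simp, act_triv hp _ _ _⟩

theorem fx_s0 (hp : 0 < p) (hm : 0 < m) (n : ℕ) (x r : ℤ) :
    fx p m .s0 (n + 1) x r ↔ (p : ℤ) ∣ x := by
  rw [fx_succ hp]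
  constructor
  · rintro ⟨l, h, -⟩
    exact h
  · intro h
    exact ⟨⟨0, Nat.mul_pos hp hm⟩, h, fx_triv hp hm _ _ _⟩

theorem fx_odo (hp : 0 < p) (hm : 0 < m) (q : Mode) (n : ℕ) (x r : ℤ) :
    fx p m (.odo q) (n + 1) x r ↔ ∃ r', r = p * r' ∧ fx p m q n x r' := by
  rw [fx_succ hp]
  simp only [amt, rem, next]
  constructor
  · rintro ⟨l, ⟨r', rfl⟩, h⟩
    rw [carry_mul hp] at h
    exact ⟨r', rfl, h⟩
  · rintro ⟨r', rfl, h⟩
    refine ⟨⟨0, Nat.mul_pos hp hm⟩, dvd_mul_right _ _, ?_⟩
    rwa [carry_mul hp]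

/-- The slopes modulo `p ^ k`. -/
noncomputable def slopes (p : ℕ) : ℕ → ℝ → Finset ℕ
  | 0, _ => {0}
  | k + 1, β => (Finset.range (min p (⌊p * β⌋₊ + 1))).biUnion
      (fun σ => (slopes p k (nxt p β σ)).image (fun s => σ + p * s))

theorem mem_slopes_succ {k : ℕ} {β : ℝ} {t : ℕ} : t ∈ slopes p (k + 1) β ↔
    ∃ σ, σ < p ∧ σ ≤ ⌊p * β⌋₊ ∧ ∃ s ∈ slopes p k (nxt p β σ), t = σ + p * s := by
  simp only [slopes, Finset.mem_biUnion, Finset.mem_range, Finset.mem_image]
  constructor
  · rintro ⟨σ, h1, s, h2, rfl⟩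
    exact ⟨σ, by omega, by omega, s, h2, rfl⟩
  · rintro ⟨σ, h1, h2, s, h3, rfl⟩
    exact ⟨σ, by omega, s, h3, rfl⟩

theorem nxt_sig (β : ℝ) (c : ℕ) : nxt p β (sig p β c) = nxt p β c := by
  unfold nxt sig
  by_cases h : c < ⌊p * β⌋₊
  · rw [if_pos h, if_pos (by omega)]
  · rw [if_neg h, if_neg (by omega)]

theorem fx_pick (hp : 0 < p) (hm : 0 < m) (n : ℕ) : ∀ (β : ℝ) (x r : ℤ),
    fx p m (.pick β) n x r ↔ ∃ s ∈ slopes p (n / 2) β, ((p : ℤ) ^ (n / 2)) ∣ r - s * x := by
  induction n using Nat.twoStepInduction with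
  | zero =>
    intro β x r
    simp only [Nat.zero_div, slopes, Finset.mem_singleton, pow_zero]
    exact ⟨fun _ => ⟨0, rfl, one_dvd _⟩, fun _ => fx_zero _ _ _⟩
  | one =>
    intro β x r
    simp only [Nat.reduceDiv, slopes, Finset.mem_singleton, pow_zero]
    refine ⟨fun _ => ⟨0, rfl, one_dvd _⟩, fun _ => ?_⟩
    rw [fx_succ hp]
    exact ⟨⟨0, Nat.mul_pos hp hm⟩, dvd_zero _, fx_zero _ _ _⟩
  | more n ih1 ih2 =>
    intro β x r
    have hn : (n + 2) / 2 = n / 2 + 1 := by omega
    rw [fx_succ hp, hn]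
    simp only [amt, rem, next]
    constructor
    · rintro ⟨l, -, h⟩
      rw [fx_succ hp] at h
      simp only [amt, rem, next] at h
      obtain ⟨l2, ⟨y, hy⟩, h⟩ := h
      rw [hy, carry_mul hp, ih1] at h
      obtain ⟨s, hs, z, hz⟩ := h
      refine ⟨sig p β (dig l) + p * s, ?_, ?_⟩
      · rw [mem_slopes_succ]
        refine ⟨sig p β (dig l), ?_, ?_, s, ?_, rfl⟩
        · have := dig_lt hp l
          unfold sig
          omega
        · unfold sig
          omega
        · rw [nxt_sig]
          exact hs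
      · refine ⟨z, ?_⟩
        push_cast
        rw [pow_succ]
        linear_combination hy + (p : ℤ) * hz
    · rintro ⟨t, ht, z, hz⟩
      rw [mem_slopes_succ] at ht
      obtain ⟨σ, hσ1, hσ2, s, hs, rfl⟩ := ht
      have hdig : dig (⟨σ, lt_of_lt_of_le hσ1 (Nat.le_mul_of_pos_right p hm)⟩ : Fin (p * m))
          = σ := by
        unfold dig
        exact Nat.mod_eq_of_lt hσ1
      have hsig : sig p β σ = σ := by
        unfold sig
        omega
      refine ⟨⟨σ, lt_of_lt_of_le hσ1 (Nat.le_mul_of_pos_right p hm)⟩, dvd_zero _, ?_⟩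
      rw [hdig, hsig, fx_succ hp]
      simp only [amt, rem, next]
      have hdvd : r - σ * x = p * ((p : ℤ) ^ (n / 2) * z + s * x) := by
        push_cast at hz
        rw [pow_succ] at hz
        linear_combination hz
      refine ⟨⟨0, Nat.mul_pos hp hm⟩, ⟨_, hdvd⟩, ?_⟩
      rw [hdvd, carry_mul hp, ih1]
      exact ⟨s, hs, z, by ring⟩

theorem fx_branch (hp : 2 ≤ p) (hm : 0 < m) (β : ℝ) (n : ℕ) (x r : ℤ) :
    fx p m (.branch β) (n + 1) x r ↔ fx p m .s0 n x r ∨ fx p m (.pick β) n x r := by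
  rw [fx_succ (by omega)]
  simp only [amt, rem, next]
  constructor
  · rintro ⟨l, -, h⟩
    by_cases hl : l.val = 0
    · rw [if_pos hl] at h
      exact Or.inl h
    · rw [if_neg hl] at h
      exact Or.inr h
  · have hpm : p ≤ p * m := Nat.le_mul_of_pos_right p hm
    rintro (h | h)
    · refine ⟨⟨0, by omega⟩, dvd_zero _, ?_⟩
      simpa using h
    · refine ⟨⟨1, by omega⟩, dvd_zero _, ?_⟩
      simpa using h

theorem ker_pick (hp : 0 < p) (k : ℕ) : ∀ (w : List (Fin (p * m))) (β : ℝ) (x r : ℤ),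
    w.length ≤ 2 * k + 1 → act (.pick β) ((p : ℤ) ^ k * x) ((p : ℤ) ^ k * r) w = w := by
  induction k with
  | zero =>
    intro w β x r hw
    match w, hw with
    | [], _ => simp [act]
    | [l], _ => simp [act, amt, rot_zero hp]
    | l :: l2 :: w, hw => simp at hw
  | succ k ih =>
    intro w β x r hw
    match w, hw with
    | [], _ => simp [act]
    | [l], _ => simp [act, amt, rot_zero hp]
    | l :: l2 :: w, hw =>
      have hw' : w.length ≤ 2 * k + 1 := by
        simp only [List.length_cons] at hw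
        omega
      have h1 : (p : ℤ) ^ (k + 1) * r - (sig p β (dig l) : ℤ) * ((p : ℤ) ^ (k + 1) * x) =
          p * ((p : ℤ) ^ k * (r - (sig p β (dig l) : ℤ) * x)) := by
        rw [pow_succ]
        ring
      have h2 : (p : ℤ) ^ (k + 1) * x = (p : ℤ) ^ k * (p * x) := by
        rw [pow_succ]
        ring
      simp only [act, amt, next, rem, rot_zero hp]
      rw [h1, carry_mul hp, rot_of_dvd hp (dvd_mul_right _ _), h2, ih _ _ _ _ hw']

theorem ker_branch (hp : 0 < p) (k : ℕ) (hk : 0 < k) (w : List (Fin (p * m))) (β : ℝ) (x r : ℤ)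
    (hw : w.length ≤ 2 * k + 2) :
    act (.branch β) ((p : ℤ) ^ k * x) ((p : ℤ) ^ k * r) w = w := by
  match w, hw with
  | [], _ => simp [act]
  | l :: w, hw =>
    simp only [act, amt, next, rem, rot_zero hp]
    congr 1
    by_cases hl : l.val = 0
    · rw [if_pos hl]
      match w with
      | [] => simp [act]
      | l2 :: w =>
        simp only [act, amt, next, act_triv hp]
        rw [rot_of_dvd hp]
        exact Dvd.dvd.mul_right (dvd_pow_self _ hk.ne') _
    · rw [if_neg hl]
      apply ker_pick hp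
      simp only [List.length_cons] at hw
      omega

/-- `j` odometer steps followed by the branching mode. -/
noncomputable def odoMode (β : ℝ) : ℕ → Mode
  | 0 => .branch β
  | j + 1 => .odo (odoMode β j)

theorem ker_odo (hp : 0 < p) (k : ℕ) (hk : 0 < k) (β : ℝ) (j : ℕ) :
    ∀ (w : List (Fin (p * m))) (x r : ℤ), w.length ≤ j + (2 * k + 2) →
    act (odoMode β j) ((p : ℤ) ^ k * x) ((p : ℤ) ^ (j + k) * r) w = w := by
  induction j with
  | zero =>
    intro w x r hw
    rw [zero_add]
    exact ker_branch hp k hk w β x r (by omega)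
  | succ j ih =>
    intro w x r hw
    match w, hw with
    | [], _ => simp [act]
    | l :: w, hw =>
      simp only [odoMode, act, amt, next, rem]
      have h1 : (p : ℤ) ^ (j + 1 + k) * r = p * ((p : ℤ) ^ (j + k) * r) := by
        rw [show j + 1 + k = (j + k) + 1 by omega, pow_succ]
        ring
      rw [h1, carry_mul hp, rot_of_dvd hp (dvd_mul_right _ _), ih]
      simp only [List.length_cons] at hw
      omega

theorem fx_odoMode (hp : 0 < p) (hm : 0 < m) (β : ℝ) (n : ℕ) (j : ℕ) : ∀ (x r : ℤ),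
    fx p m (odoMode β j) (j + n) x r ↔ ∃ r', r = (p : ℤ) ^ j * r' ∧
      fx p m (.branch β) n x r' := by
  induction j with
  | zero =>
    intro x r
    simp [odoMode]
  | succ j ih =>
    intro x r
    rw [show j + 1 + n = (j + n) + 1 by omega]
    simp only [odoMode]
    rw [fx_odo hp hm]
    constructor
    · rintro ⟨r', rfl, h⟩
      rw [ih] at h
      obtain ⟨r'', rfl, h⟩ := h
      exact ⟨r'', by rw [pow_succ]; ring, h⟩
    · rintro ⟨r', rfl, h⟩
      refine ⟨(p : ℤ) ^ j * r', by rw [pow_succ]; ring, ?_⟩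
      rw [ih]
      exact ⟨r', rfl, h⟩

theorem slopes_lt (hp : 0 < p) (k : ℕ) : ∀ β : ℝ, ∀ s ∈ slopes p k β, s < p ^ k := by
  induction k with
  | zero =>
    intro β s hs
    simp only [slopes, Finset.mem_singleton] at hs
    rw [hs]
    simp
  | succ k ih =>
    intro β t ht
    rw [mem_slopes_succ] at ht
    obtain ⟨σ, hσ1, hσ2, s, hs, rfl⟩ := ht
    have h1 := ih _ _ hs
    rw [pow_succ]
    calc σ + p * s < p + p * s := by omega
      _ = (s + 1) * p := by ring
      _ ≤ p ^ k * p := Nat.mul_le_mul_right p h1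

theorem card_slopes_succ (hp : 0 < p) (k : ℕ) (β : ℝ) : (slopes p (k + 1) β).card =
    ∑ σ ∈ Finset.range (min p (⌊p * β⌋₊ + 1)), (slopes p k (nxt p β σ)).card := by
  simp only [slopes]
  rw [Finset.card_biUnion]
  · apply Finset.sum_congr rfl
    intro σ _
    apply Finset.card_image_of_injective
    intro a b hab
    simp only at hab
    have : p * a = p * b := by omega
    exact Nat.eq_of_mul_eq_mul_left hp this
  · intro σ hσ τ hτ hne
    rw [Finset.mem_coe, Finset.mem_range] at hσ hτ
    rw [Function.onFun, Finset.disjoint_left]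
    rintro t ht1 ht2
    rw [Finset.mem_image] at ht1 ht2
    obtain ⟨a, _, ha⟩ := ht1
    obtain ⟨b, _, hb⟩ := ht2
    apply hne
    have h1 : (σ + p * a) % p = (τ + p * b) % p := by rw [ha, hb]
    rw [Nat.add_mul_mod_self_left, Nat.add_mul_mod_self_left, Nat.mod_eq_of_lt (by omega),
      Nat.mod_eq_of_lt (by omega)] at h1
    exact h1

/-- The number of slopes. -/
theorem card_slopes (hp : 2 ≤ p) (k : ℕ) : ∀ β : ℝ, 0 ≤ β → β ≤ 1 →
    β * (p : ℝ) ^ k ≤ (slopes p k β).card ∧ ((slopes p k β).card : ℝ) ≤ β * (p : ℝ) ^ k + 1 ∧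
    (slopes p k β).card ≤ p ^ k := by
  induction k with
  | zero =>
    intro β h0 h1
    simp only [slopes, Finset.card_singleton]
    refine ⟨?_, ?_, ?_⟩
    · simpa using h1
    · simpa using h0
    · simp
  | succ k ih =>
    intro β h0 h1
    have hp0 : (0 : ℝ) < p := by exact_mod_cast (by omega : 0 < p)
    have hfl := Nat.floor_le (mul_nonneg hp0.le h0)
    have hfl2 := Nat.lt_floor_add_one ((p : ℝ) * β)
    have hfull : (slopes p k 1).card = p ^ k := by
      obtain ⟨h2, h3, h4⟩ := ih 1 zero_le_one le_rfl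
      apply le_antisymm h4
      rw [one_mul] at h2
      exact_mod_cast h2
    rw [card_slopes_succ (by omega)]
    rcases h1.lt_or_eq with h1 | h1
    · -- β < 1
      have hj : ⌊(p : ℝ) * β⌋₊ < p := by
        rw [Nat.floor_lt (mul_nonneg hp0.le h0)]
        nlinarith
      rw [Nat.min_eq_right (by omega), Finset.sum_range_succ]
      have e1 : ∑ σ ∈ Finset.range ⌊(p : ℝ) * β⌋₊, (slopes p k (nxt p β σ)).card =
          ⌊(p : ℝ) * β⌋₊ * p ^ k := by
        rw [Finset.sum_congr rfl (g := fun _ => p ^ k)]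
        · simp
        · intro σ hσ
          rw [Finset.mem_range] at hσ
          rw [nxt, if_pos hσ, hfull]
      rw [e1]
      have e2 : nxt p β ⌊(p : ℝ) * β⌋₊ = p * β - ⌊(p : ℝ) * β⌋₊ := by
        rw [nxt, if_neg (lt_irrefl _)]
      rw [e2]
      obtain ⟨h2, h3, h4⟩ := ih (p * β - ⌊(p : ℝ) * β⌋₊) (by linarith) (by linarith)
      push_cast
      refine ⟨?_, ?_, ?_⟩
      · rw [pow_succ]
        nlinarith
      · rw [pow_succ]
        nlinarith
      · rw [pow_succ]
        calc ⌊(p : ℝ) * β⌋₊ * p ^ k + (slopes p k (p * β - ⌊(p : ℝ) * β⌋₊)).card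
            ≤ ⌊(p : ℝ) * β⌋₊ * p ^ k + p ^ k := by omega
          _ = (⌊(p : ℝ) * β⌋₊ + 1) * p ^ k := by ring
          _ ≤ p * p ^ k := Nat.mul_le_mul_right _ hj
          _ = p ^ k * p := by ring
    · subst h1
      have hj : ⌊(p : ℝ) * 1⌋₊ = p := by rw [mul_one]; exact Nat.floor_natCast p
      rw [hj, Nat.min_eq_left (by omega)]
      have e1 : ∑ σ ∈ Finset.range p, (slopes p k (nxt p 1 σ)).card = p ^ (k + 1) := by
        rw [Finset.sum_congr rfl (g := fun _ => p ^ k)]
        · rw [pow_succ]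
          simp
          ring
        · intro σ hσ
          rw [Finset.mem_range] at hσ
          rw [nxt, hj, if_pos hσ, hfull]
      rw [e1]
      push_cast
      refine ⟨by rw [one_mul], by linarith, le_rfl⟩

end automaton

end Pool.Agent.V1132.TreeZ2
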